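import Mathlib

set_option autoImplicit false

/-!
# Chromatic roots of almost all regular graphs: definitions

`flow`, `nul` are the flow polynomial and the nullity of a list of edges (pairs of vertices, loops and
repetitions allowed), by deletion and contraction; `TC`, `tcount` the totally cyclic orientations.
`Pt n d` are the `d` points of each of `n` vertices; `σ : Pt n d → Pt n d` is a pairing of the points
(`Good σ`: it gives a simple graph `gr σ`); colourings `c : Pt n d → Option Bool` are orientations of
sets of edges.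
-/

namespace Pool.Agent.Lib.MP_d38209_co.CR

open Finset
open scoped Classical

/-- `P` is the chromatic polynomial of `G`: for every positive integer `k`, the value `P(k)` is
the number of maps `σ` from the vertices to `k` colours with `σ x ≠ σ y` for adjacent `x`, `y`. -/
def IsChromaticPolynomial {V : Type} (G : SimpleGraph V) (P : Polynomial ℂ) : Prop :=
  ∀ k : ℕ, 0 < k → P.eval (k : ℂ) =
    (Nat.card {σ : V → Fin k // ∀ x y, G.Adj x y → σ x ≠ σ y} : ℂ)

section Flow

variable {V : Type}

/-- Identify `a` and `b` (two vertices are identified if `f` takes the same value). -/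
noncomputable def merge (f : V → V) (a b : V) : V → V := fun x => if f x = f b then f a else f x

/-- The flow polynomial at `q` of the list of edges `L` after the identifications `f`. -/
noncomputable def flow (q : ℂ) : (V → V) → List (V × V) → ℂ
  | _, [] => 1
  | f, e :: L => if f e.1 = f e.2 then (q - 1) * flow q f L
      else flow q (merge f e.1 e.2) L - flow q f L

/-- The nullity. -/
noncomputable def nul : (V → V) → List (V × V) → ℕ
  | _, [] => 0
  | f, e :: L => if f e.1 = f e.2 then nul f L + 1 else nul (merge f e.1 e.2) L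

/-- The orientation `o` of `L` (`o i = true`: the `i`-th edge goes from its first to its second end)
is totally cyclic: a set of vertices that no edge leaves is not entered by an edge. -/
def TC (f : V → V) (L : List (V × V)) (o : Fin L.length → Bool) : Prop :=
  ∀ S : Set V, (∀ x y, f x = f y → (x ∈ S ↔ y ∈ S)) →
    (∀ i, (o i = true → (L.get i).1 ∈ S → (L.get i).2 ∈ S) ∧
      (o i = false → (L.get i).2 ∈ S → (L.get i).1 ∈ S)) →
    ∀ i, ((L.get i).1 ∈ S ↔ (L.get i).2 ∈ S)

/-- The number of totally cyclic orientations. -/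
noncomputable def tcount (f : V → V) (L : List (V × V)) : ℕ :=
  (univ.filter fun o : Fin L.length → Bool => TC f L o).card

/-- `(f, L)` has no edge between `S` and its complement. -/
def Sep (f : V → V) (L : List (V × V)) (S : Set V) : Prop :=
  (∀ x y, f x = f y → (x ∈ S ↔ y ∈ S)) ∧ ∀ e ∈ L, (e.1 ∈ S ↔ e.2 ∈ S)

end Flow

section Points

variable {n d : ℕ}

/-- The points: `d` for each of the `n` vertices. -/
abbrev Pt (n d : ℕ) : Type := Fin n × Fin d

/-- `σ` is a pairing of the points which gives a simple graph. -/
structure Good (σ : Pt n d → Pt n d) : Prop where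
  inv : ∀ p, σ (σ p) = p
  ne : ∀ p, (σ p).1 ≠ p.1
  simple : ∀ p q, p.1 = q.1 → (σ p).1 = (σ q).1 → p = q

/-- `σ` is a pairing without loops of some of the points; the other points are fixed. -/
structure WGood (σ : Pt n d → Pt n d) : Prop where
  inv : ∀ p, σ (σ p) = p
  ne : ∀ p, σ p ≠ p → (σ p).1 ≠ p.1

theorem Good.toW {σ : Pt n d → Pt n d} (h : Good σ) : WGood σ := ⟨h.inv, fun p _ => h.ne p⟩

/-- The graph of a pairing. -/
def gr (σ : Pt n d → Pt n d) : SimpleGraph (Fin n) :=
  SimpleGraph.fromRel fun u v => ∃ p, p.1 = u ∧ (σ p).1 = v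

/-- The edges: each edge is represented by its point at the smaller vertex. -/
noncomputable def ES (σ : Pt n d → Pt n d) : Finset (Pt n d) := univ.filter fun p => p.1 < (σ p).1

/-- The ends of an edge. -/
def en (σ : Pt n d → Pt n d) (p : Pt n d) : Fin n × Fin n := (p.1, (σ p).1)

/-- The list of the edges in `A`. -/
noncomputable def lst (σ : Pt n d → Pt n d) (A : Finset (Pt n d)) : List (Fin n × Fin n) :=
  ((ES σ).toList.filter (· ∈ A)).map (en σ)

/-- The flow polynomial of a set of edges. -/
noncomputable def fl (q : ℂ) (σ : Pt n d → Pt n d) (A : Finset (Pt n d)) : ℂ :=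
  flow q id (lst σ A)

/-- The weight of a set of edges. -/
noncomputable def wt (q : ℂ) (σ : Pt n d → Pt n d) (A : Finset (Pt n d)) : ℂ :=
  (-1 / (q - 1)) ^ A.card * fl q σ A

/-- The vertices of a set of edges. -/
noncomputable def vt (σ : Pt n d → Pt n d) (A : Finset (Pt n d)) : Finset (Fin n) :=
  A.biUnion fun p => {p.1, (σ p).1}

/-- The degree. -/
noncomputable def dg (σ : Pt n d → Pt n d) (A : Finset (Pt n d)) (v : Fin n) : ℕ :=
  (A.filter fun p => p.1 = v ∨ (σ p).1 = v).card

/-- The colouring `c` (`some true`: tail, `some false`: head, `none`: not in the set) is an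
orientation of a set of edges. -/
def Comp (σ : Pt n d → Pt n d) (c : Pt n d → Option Bool) : Prop := ∀ p, c (σ p) = (c p).map not

/-- There is no source and no sink. -/
def Valid (c : Pt n d → Option Bool) : Prop :=
  ∀ v, (∃ i, c (v, i) ≠ none) → (∃ i, c (v, i) = some true) ∧ ∃ i, c (v, i) = some false

/-- The number of tails. -/
noncomputable def plus (c : Pt n d → Option Bool) : ℕ := (univ.filter fun p => c p = some true).card

/-- The number of heads. -/
noncomputable def minus (c : Pt n d → Option Bool) : ℕ := (univ.filter fun p => c p = some false).card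

/-- The number of vertices of the oriented set of edges. -/
noncomputable def tch (c : Pt n d → Option Bool) : ℕ :=
  (univ.filter fun v : Fin n => ∃ i, c (v, i) ≠ none).card

/-- The set of edges that is oriented by `c`. -/
noncomputable def supp (σ : Pt n d → Pt n d) (c : Pt n d → Option Bool) : Finset (Pt n d) :=
  (ES σ).filter fun p => c p ≠ none

/-- The number of orientations of `A` without source and sink. -/
noncomputable def NS (σ : Pt n d → Pt n d) (A : Finset (Pt n d)) : ℕ :=
  (univ.filter fun c => Comp σ c ∧ Valid c ∧ supp σ c = A).card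

/-- The weighted number of the orientations of sets of `s` edges without source and sink. -/
noncomputable def Y (σ : Pt n d → Pt n d) (x : ℝ) (s : ℕ) : ℝ :=
  ∑ c ∈ univ.filter (fun c => Comp σ c ∧ Valid c ∧ plus c = s), (1 / 2) ^ s * x ^ tch c

/-- There are at most `2 g` vertices with more edges than vertices. -/
def Dense (σ : Pt n d → Pt n d) (g : ℕ) : Prop :=
  ∃ B ⊆ ES σ, (vt σ B).card ≤ 2 * g ∧ (vt σ B).card < B.card

/-- All degrees are `0` or `2`. -/
def Reg2 (σ : Pt n d → Pt n d) (C : Finset (Pt n d)) : Prop :=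
  C ⊆ ES σ ∧ ∀ v, dg σ C v = 0 ∨ dg σ C v = 2

/-- The cycles with at most `g` vertices. -/
noncomputable def SC (σ : Pt n d → Pt n d) (g : ℕ) : Finset (Finset (Pt n d)) :=
  univ.filter fun C => C.Nonempty ∧ Reg2 σ C ∧ (vt σ C).card ≤ g ∧
    ∀ C' ⊆ C, C'.Nonempty → Reg2 σ C' → C' = C

/-- `C` is a component of `A`. -/
def IsComp (σ : Pt n d → Pt n d) (C A : Finset (Pt n d)) : Prop :=
  C ⊆ A ∧ Disjoint (vt σ C) (vt σ (A \ C))

/-- The function of one vertex. -/
noncomputable def ww (d : ℕ) (x t : ℝ) : ℝ := 1 + x * ((1 + 2 * t) ^ d - 2 * (1 + t) ^ d + 1)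

theorem wg_live {σ : Pt n d → Pt n d} {c : Pt n d → Option Bool} (hc : Comp σ c) {p : Pt n d}
    (h : c p ≠ none) : σ p ≠ p := by
  intro h1
  have h2 := hc p
  rw [h1] at h2
  cases h3 : c p with
  | none => exact h h3
  | some b =>
    rw [h3] at h2
    cases b <;> simp at h2

theorem wg_es {σ : Pt n d → Pt n d} {p : Pt n d} (h : p ∈ ES σ) : σ p ≠ p := by
  intro h1
  rw [ES, Finset.mem_filter, h1] at h
  exact lt_irrefl _ h.2

/-- The condition on `d` and `x`. -/
def Cond (d : ℕ) (x c : ℝ) : Prop :=
  ∀ r : ℝ, 0 ≤ r → ww d x (r / 2) ^ 2 + c * r ^ 2 * (1 + r ^ 2) ^ (d - 1) ≤ (1 + r ^ 2) ^ d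

end Points

end Pool.Agent.Lib.MP_d38209_co.CR
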