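import Mathlib
import Pool.Agent.Lib.MP_d38209_co.CR.Defs

set_option autoImplicit false

/-!
# The weighted number of orientations as a sum over the sets of edges
-/

namespace Pool.Agent.Lib.MP_d38209_co.CR

open Finset
open scoped Classical

section Points
variable {n d : ℕ}

/-- the representative of the edge at a point -/
noncomputable def c4_rep (σ : Pt n d → Pt n d) (p : Pt n d) : Pt n d :=
  if p ∈ ES σ then p else σ p

theorem c4_mem_ES {σ : Pt n d → Pt n d} {p : Pt n d} : p ∈ ES σ ↔ p.1 < (σ p).1 := by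
  rw [ES, Finset.mem_filter]
  exact ⟨fun h => h.2, fun h => ⟨Finset.mem_univ _, h⟩⟩

theorem c4_ES_or {σ : Pt n d → Pt n d} (hσ : WGood σ) {p : Pt n d} (hp : σ p ≠ p)
    (h : p ∉ ES σ) : σ p ∈ ES σ := by
  rw [c4_mem_ES] at h ⊢
  rw [hσ.inv]
  exact lt_of_le_of_ne (not_lt.mp h) (hσ.ne p hp)

theorem c4_not_ES {σ : Pt n d → Pt n d} (hσ : WGood σ) {p : Pt n d} (h : p ∈ ES σ) :
    σ p ∉ ES σ := by
  rw [c4_mem_ES] at h ⊢
  rw [hσ.inv]
  exact not_lt.mpr h.le

theorem c4_rep_mem {σ : Pt n d → Pt n d} (hσ : WGood σ) {p : Pt n d} (hp : σ p ≠ p) :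
    c4_rep σ p ∈ ES σ := by
  rw [c4_rep]
  split_ifs with h
  · exact h
  · exact c4_ES_or hσ hp h

theorem c4_rep_inc {σ : Pt n d → Pt n d} (hσ : WGood σ) (p : Pt n d) :
    (c4_rep σ p).1 = p.1 ∨ (σ (c4_rep σ p)).1 = p.1 := by
  rw [c4_rep]
  split_ifs with h
  · exact Or.inl rfl
  · right
    rw [hσ.inv]

theorem c4_mem_supp {σ : Pt n d → Pt n d} {c : Pt n d → Option Bool} {p : Pt n d} :
    p ∈ supp σ c ↔ p ∈ ES σ ∧ c p ≠ none := by
  rw [supp, Finset.mem_filter]

theorem c4_ne_none {σ : Pt n d → Pt n d} {c : Pt n d → Option Bool} (hc : Comp σ c) {p : Pt n d}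
    (h : c p ≠ none) : c (σ p) ≠ none := by
  rw [hc p]
  cases hp : c p with
  | none => exact absurd hp h
  | some b => simp

theorem c4_rep_supp {σ : Pt n d → Pt n d} (hσ : WGood σ) {c : Pt n d → Option Bool}
    (hc : Comp σ c) {p : Pt n d} (h : c p ≠ none) : c4_rep σ p ∈ supp σ c := by
  rw [c4_mem_supp]
  refine ⟨c4_rep_mem hσ (wg_live hc h), ?_⟩
  rw [c4_rep]
  split_ifs with h'
  · exact h
  · exact c4_ne_none hc h

theorem c4_mem_vt {σ : Pt n d → Pt n d} {A : Finset (Pt n d)} {v : Fin n} :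
    v ∈ vt σ A ↔ ∃ p ∈ A, p.1 = v ∨ (σ p).1 = v := by
  rw [vt, Finset.mem_biUnion]
  constructor
  · rintro ⟨p, hp, hv⟩
    rw [Finset.mem_insert, Finset.mem_singleton] at hv
    exact ⟨p, hp, hv.imp Eq.symm Eq.symm⟩
  · rintro ⟨p, hp, hv⟩
    refine ⟨p, hp, ?_⟩
    rw [Finset.mem_insert, Finset.mem_singleton]
    exact hv.imp Eq.symm Eq.symm

theorem c4_vt_supp {σ : Pt n d → Pt n d} (hσ : WGood σ) {c : Pt n d → Option Bool}
    (hc : Comp σ c) {v : Fin n} : v ∈ vt σ (supp σ c) ↔ ∃ i, c (v, i) ≠ none := by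
  rw [c4_mem_vt]
  constructor
  · rintro ⟨p, hp, hv⟩
    obtain ⟨-, hp0⟩ := c4_mem_supp.mp hp
    rcases hv with hv | hv
    · exact ⟨p.2, by rw [← hv]; exact hp0⟩
    · refine ⟨(σ p).2, ?_⟩
      rw [← hv]
      exact c4_ne_none hc hp0
  · rintro ⟨i, hi⟩
    exact ⟨c4_rep σ (v, i), c4_rep_supp hσ hc hi, c4_rep_inc hσ (v, i)⟩

theorem c4_plus {σ : Pt n d → Pt n d} (hσ : WGood σ) {c : Pt n d → Option Bool}
    (hc : Comp σ c) : plus c = (supp σ c).card := by
  have h1 : (supp σ c).card = ((ES σ).filter fun p => c p = some true).card +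
      ((ES σ).filter fun p => c p = some false).card := by
    rw [supp, ← Finset.card_union_of_disjoint]
    · congr 1
      ext p
      rw [Finset.mem_union, Finset.mem_filter, Finset.mem_filter, Finset.mem_filter]
      cases hp : c p with
      | none => simp
      | some b => cases b <;> simp
    · rw [Finset.disjoint_left]
      intro p hp hp'
      rw [Finset.mem_filter] at hp hp'
      rw [hp.2] at hp'
      exact absurd hp'.2 (by simp)
  have h2 : plus c = ((ES σ).filter fun p => c p = some true).card +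
      ((univ.filter fun p => c p = some true).filter fun p => p ∉ ES σ).card := by
    rw [plus, ← Finset.card_union_of_disjoint]
    · congr 1
      ext p
      simp only [Finset.mem_union, Finset.mem_filter, Finset.mem_univ, true_and]
      tauto
    · rw [Finset.disjoint_left]
      intro p hp hp'
      rw [Finset.mem_filter] at hp hp'
      exact hp'.2 hp.1
  have h3 : ((ES σ).filter fun p => c p = some false).card =
      ((univ.filter fun p => c p = some true).filter fun p => p ∉ ES σ).card := by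
    apply Finset.card_nbij' (fun p => σ p) (fun p => σ p)
    · intro p hp
      simp only [Finset.coe_filter, Set.mem_ofPred_eq, Finset.mem_filter, Finset.mem_univ,
        true_and] at hp ⊢
      refine ⟨?_, c4_not_ES hσ hp.1⟩
      rw [hc p, hp.2]
      rfl
    · intro p hp
      simp only [Finset.coe_filter, Set.mem_ofPred_eq, Finset.mem_filter, Finset.mem_univ,
        true_and] at hp ⊢
      refine ⟨c4_ES_or hσ (wg_live hc (by rw [hp.1]; exact Option.some_ne_none _)) hp.2, ?_⟩
      rw [hc p, hp.1]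
      rfl
    · intro p _
      exact hσ.inv p
    · intro p _
      exact hσ.inv p
  omega

theorem c4_tch {σ : Pt n d → Pt n d} (hσ : WGood σ) {c : Pt n d → Option Bool}
    (hc : Comp σ c) : tch c = (vt σ (supp σ c)).card := by
  rw [tch]
  congr 1
  ext v
  rw [c4_vt_supp hσ hc, Finset.mem_filter]
  simp

/-- `Y` is the sum over the sets of edges -/
theorem Y_eq {σ : Pt n d → Pt n d} (hσ : WGood σ) (x : ℝ) (s : ℕ) :
    Y σ x s = ∑ A ∈ (ES σ).powerset.filter (fun A => A.card = s),
      (NS σ A : ℝ) * ((1 / 2) ^ A.card * x ^ (vt σ A).card) := by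
  rw [Y, ← Finset.sum_fiberwise_of_maps_to (s := univ.filter
      (fun c => Comp σ c ∧ Valid c ∧ plus c = s)) (g := fun c => supp σ c)
    (t := (ES σ).powerset.filter (fun A => A.card = s))]
  · apply Finset.sum_congr rfl
    intro A hA
    rw [Finset.mem_filter, Finset.mem_powerset] at hA
    have h1 : ((univ.filter (fun c => Comp σ c ∧ Valid c ∧ plus c = s)).filter
        fun c => supp σ c = A) = univ.filter (fun c => Comp σ c ∧ Valid c ∧ supp σ c = A) := by
      ext c
      simp only [Finset.mem_filter, Finset.mem_univ, true_and]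
      constructor
      · rintro ⟨⟨h1, h2, -⟩, h4⟩
        exact ⟨h1, h2, h4⟩
      · rintro ⟨h1, h2, h4⟩
        exact ⟨⟨h1, h2, by rw [c4_plus hσ h1, h4, hA.2]⟩, h4⟩
    rw [h1, NS, ← nsmul_eq_mul, ← Finset.sum_const]
    apply Finset.sum_congr rfl
    intro c hc
    simp only [Finset.mem_filter, Finset.mem_univ, true_and] at hc
    rw [c4_tch hσ hc.1, hc.2.2, hA.2]
  · intro c hc
    simp only [Finset.mem_filter, Finset.mem_univ, true_and] at hc
    rw [Finset.mem_filter, Finset.mem_powerset]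
    exact ⟨Finset.filter_subset _ _, by rw [← c4_plus hσ hc.1, hc.2.2]⟩

end Points

end Pool.Agent.Lib.MP_d38209_co.CR
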