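import Mathlib
import Pool.Agent.Lib.MP_d38209_co.CR.Defs
import Pool.Agent.Lib.MP_d38209_co.CR.Fibres

set_option autoImplicit false

/-!
# The components which are no short cycles have many vertices
-/

namespace Pool.Agent.Lib.MP_d38209_co.CR

open Finset
open scoped Classical

section Points
variable {n d : ℕ}

theorem c3_rep_inj {σ : Pt n d → Pt n d} (hσ : WGood σ) {p q : Pt n d} (hp0 : σ p ≠ p)
    (hq0 : σ q ≠ q) (hv : p.1 = q.1) (h : c4_rep σ p = c4_rep σ q) : p = q := by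
  rw [c4_rep, c4_rep] at h
  split_ifs at h with h1 h2 h2
  · exact h
  · exfalso
    apply hσ.ne q hq0
    rw [← h]
    exact hv
  · exfalso
    apply hσ.ne p hp0
    rw [h]
    exact hv.symm
  · have h3 := congrArg σ h
    rwa [hσ.inv, hσ.inv] at h3

theorem c3_deg {σ : Pt n d → Pt n d} (hσ : WGood σ) {A : Finset (Pt n d)} (hNS : 0 < NS σ A)
    {v : Fin n} (hv : v ∈ vt σ A) : 2 ≤ dg σ A v := by
  rw [NS] at hNS
  obtain ⟨c, hc⟩ := Finset.card_pos.mp hNS
  simp only [Finset.mem_filter, Finset.mem_univ, true_and] at hc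
  obtain ⟨hc1, hc2, hc3⟩ := hc
  rw [← hc3, c4_vt_supp hσ hc1] at hv
  obtain ⟨⟨i, hi⟩, j, hj⟩ := hc2 v hv
  rw [dg]
  have h1 : c4_rep σ (v, i) ∈ A.filter fun p => p.1 = v ∨ (σ p).1 = v := by
    rw [Finset.mem_filter, ← hc3]
    exact ⟨c4_rep_supp hσ hc1 (by rw [hi]; simp), c4_rep_inc hσ (v, i)⟩
  have h2 : c4_rep σ (v, j) ∈ A.filter fun p => p.1 = v ∨ (σ p).1 = v := by
    rw [Finset.mem_filter, ← hc3]
    exact ⟨c4_rep_supp hσ hc1 (by rw [hj]; simp), c4_rep_inc hσ (v, j)⟩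
  refine Finset.one_lt_card.mpr ⟨_, h1, _, h2, fun h => ?_⟩
  have h3 := c3_rep_inj (p := (v, i)) (q := (v, j)) hσ
    (wg_live hc1 (by rw [hi]; exact Option.some_ne_none _))
    (wg_live hc1 (by rw [hj]; exact Option.some_ne_none _)) rfl h
  rw [h3, hj] at hi
  simp at hi

theorem c3_sum_deg {σ : Pt n d → Pt n d} (hσ : WGood σ) (A : Finset (Pt n d))
    (hAE : A ⊆ ES σ) :
    ∑ v ∈ vt σ A, dg σ A v = 2 * A.card := by
  have h := Finset.sum_card_bipartiteAbove_eq_sum_card_bipartiteBelow (s := vt σ A) (t := A)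
    (fun (v : Fin n) (p : Pt n d) => p.1 = v ∨ (σ p).1 = v)
  have h1 : ∑ v ∈ vt σ A, dg σ A v = ∑ v ∈ vt σ A,
      (A.bipartiteAbove (fun (v : Fin n) (p : Pt n d) => p.1 = v ∨ (σ p).1 = v) v).card := rfl
  rw [h1, h, mul_comm, ← smul_eq_mul, ← Finset.sum_const]
  apply Finset.sum_congr rfl
  intro p hp
  have h2 : (vt σ A).bipartiteBelow (fun (v : Fin n) (p : Pt n d) => p.1 = v ∨ (σ p).1 = v) p =
      {p.1, (σ p).1} := by
    ext v
    rw [Finset.mem_bipartiteBelow, Finset.mem_insert, Finset.mem_singleton, c4_mem_vt]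
    constructor
    · rintro ⟨-, h3⟩
      exact h3.imp Eq.symm Eq.symm
    · intro h3
      exact ⟨⟨p, hp, h3.imp Eq.symm Eq.symm⟩, h3.imp Eq.symm Eq.symm⟩
  rw [h2, Finset.card_pair (hσ.ne p (wg_es (hAE hp))).symm]

theorem c3_card_le {σ : Pt n d → Pt n d} (hσ : WGood σ) {A : Finset (Pt n d)}
    (hAE : A ⊆ ES σ)
    (hA : ∀ v ∈ vt σ A, 2 ≤ dg σ A v) : (vt σ A).card ≤ A.card := by
  have h1 := c3_sum_deg hσ A hAE
  have h2 : ∑ v ∈ vt σ A, 2 ≤ ∑ v ∈ vt σ A, dg σ A v := Finset.sum_le_sum hA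
  rw [Finset.sum_const, smul_eq_mul] at h2
  omega

theorem c3_reg2 {σ : Pt n d → Pt n d} (hσ : WGood σ) {A : Finset (Pt n d)}
    (hAE : A ⊆ ES σ)
    (hA : ∀ v ∈ vt σ A, 2 ≤ dg σ A v) (hc : A.card ≤ (vt σ A).card) :
    ∀ v ∈ vt σ A, dg σ A v = 2 := by
  have h1 := c3_sum_deg hσ A hAE
  have h2 : ∑ v ∈ vt σ A, 2 = ∑ v ∈ vt σ A, dg σ A v := by
    have h3 : ∑ v ∈ vt σ A, 2 ≤ ∑ v ∈ vt σ A, dg σ A v := Finset.sum_le_sum hA
    rw [Finset.sum_const, smul_eq_mul] at h3 ⊢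
    omega
  intro v hv
  exact ((Finset.sum_eq_sum_iff_of_le hA).mp h2 v hv).symm

theorem c3_dg_zero {σ : Pt n d → Pt n d} {A : Finset (Pt n d)} {v : Fin n} (hv : v ∉ vt σ A) :
    dg σ A v = 0 := by
  rw [dg, Finset.card_eq_zero, Finset.filter_eq_empty_iff]
  intro p hp h
  exact hv (c4_mem_vt.mpr ⟨p, hp, h⟩)

theorem c3_isComp {σ : Pt n d → Pt n d} {A C : Finset (Pt n d)} (hCA : C ⊆ A)
    (h : ∀ v ∈ vt σ C, dg σ A v ≤ dg σ C v) : IsComp σ C A := by
  refine ⟨hCA, ?_⟩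
  rw [Finset.disjoint_left]
  intro v hv hv'
  obtain ⟨p, hp, hpv⟩ := c4_mem_vt.mp hv'
  rw [Finset.mem_sdiff] at hp
  have h1 : C.filter (fun p => p.1 = v ∨ (σ p).1 = v) ⊂
      A.filter (fun p => p.1 = v ∨ (σ p).1 = v) := by
    rw [Finset.ssubset_iff_of_subset (Finset.filter_subset_filter _ hCA)]
    exact ⟨p, Finset.mem_filter.mpr ⟨hp.1, hpv⟩, fun h' => hp.2 (Finset.mem_filter.mp h').1⟩
  have h2 := Finset.card_lt_card h1
  have h3 := h v hv
  rw [dg, dg] at h3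
  omega

theorem c3_min {σ : Pt n d → Pt n d} {B : Finset (Pt n d)} (hB : B.Nonempty)
    (hR : Reg2 σ B) : ∃ C ⊆ B, C.Nonempty ∧ Reg2 σ C ∧
      ∀ C' ⊆ C, C'.Nonempty → Reg2 σ C' → C' = C := by
  obtain ⟨C, hC, hmin⟩ := Finset.exists_min_image
    (B.powerset.filter fun C => C.Nonempty ∧ Reg2 σ C) Finset.card
    ⟨B, Finset.mem_filter.mpr ⟨Finset.mem_powerset_self _, hB, hR⟩⟩
  rw [Finset.mem_filter, Finset.mem_powerset] at hC
  refine ⟨C, hC.1, hC.2.1, hC.2.2, fun C' hC' hne hR' => ?_⟩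
  exact Finset.eq_of_subset_of_card_le hC' (hmin C' (Finset.mem_filter.mpr
    ⟨Finset.mem_powerset.mpr (hC'.trans hC.1), hne, hR'⟩))

/-- the other components have more than `g` vertices -/
theorem big_comp {σ : Pt n d → Pt n d} (hσ : WGood σ) {g : ℕ} (hD : ¬ Dense σ g)
    {A : Finset (Pt n d)} (hA : A ⊆ ES σ) (hNS : 0 < NS σ A)
    (hno : ∀ C ∈ SC σ g, ¬ IsComp σ C A) (part : Fin n → Fin n)
    (hpart : ∀ p ∈ A, part p.1 = part (σ p).1) :
    ((vt σ A).image part).card * (g + 1) ≤ (vt σ A).card ∧ (A.Nonempty → g < A.card) := by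
  have hdeg : ∀ v ∈ vt σ A, 2 ≤ dg σ A v := fun v hv => c3_deg hσ hNS hv
  have key : ∀ t ∈ (vt σ A).image part, g + 1 ≤ ((vt σ A).filter fun v => part v = t).card := by
    intro t ht
    obtain ⟨v₀, hv₀, hv₀t⟩ := Finset.mem_image.mp ht
    by_contra hlt
    rw [not_le] at hlt
    set B := A.filter fun p => part p.1 = t with hB
    have hBA : B ⊆ A := Finset.filter_subset _ _
    have hvt : vt σ B = (vt σ A).filter fun v => part v = t := by
      ext v
      rw [Finset.mem_filter, c4_mem_vt, c4_mem_vt]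
      constructor
      · rintro ⟨p, hp, hv⟩
        rw [hB, Finset.mem_filter] at hp
        refine ⟨⟨p, hp.1, hv⟩, ?_⟩
        rcases hv with hv | hv
        · rw [← hv]
          exact hp.2
        · rw [← hv, ← hpart p hp.1]
          exact hp.2
      · rintro ⟨⟨p, hp, hv⟩, hvt⟩
        refine ⟨p, Finset.mem_filter.mpr ⟨hp, ?_⟩, hv⟩
        rcases hv with hv | hv
        · rw [hv]
          exact hvt
        · rw [hpart p hp, hv]
          exact hvt
    have hdgB : ∀ v ∈ vt σ B, dg σ B v = dg σ A v := by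
      intro v hv
      rw [dg, dg]
      congr 1
      ext p
      constructor
      · intro h
        obtain ⟨h3, h4⟩ := Finset.mem_filter.mp h
        exact Finset.mem_filter.mpr ⟨hBA h3, h4⟩
      · intro h
        obtain ⟨hp, hv'⟩ := Finset.mem_filter.mp h
        refine Finset.mem_filter.mpr ⟨Finset.mem_filter.mpr ⟨hp, ?_⟩, hv'⟩
        rw [hvt, Finset.mem_filter] at hv
        rcases hv' with h | h
        · rw [h]
          exact hv.2
        · rw [hpart p hp, h]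
          exact hv.2
    have hBdeg : ∀ v ∈ vt σ B, 2 ≤ dg σ B v := by
      intro v hv
      rw [hdgB v hv]
      rw [hvt, Finset.mem_filter] at hv
      exact hdeg v hv.1
    have hBc : (vt σ B).card ≤ g := by
      rw [hvt]
      omega
    have hBE : B ⊆ ES σ := hBA.trans hA
    have hBle : B.card ≤ (vt σ B).card := by
      by_contra h
      rw [not_le] at h
      exact hD ⟨B, hBE, by omega, h⟩
    have hB2 := c3_reg2 hσ hBE hBdeg hBle
    have hBne : B.Nonempty := by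
      have h1 : v₀ ∈ vt σ B := by
        rw [hvt, Finset.mem_filter]
        exact ⟨hv₀, hv₀t⟩
      obtain ⟨p, hp, -⟩ := c4_mem_vt.mp h1
      exact ⟨p, hp⟩
    have hBR : Reg2 σ B := by
      refine ⟨hBE, fun v => ?_⟩
      by_cases hv : v ∈ vt σ B
      · exact Or.inr (hB2 v hv)
      · exact Or.inl (c3_dg_zero hv)
    obtain ⟨C, hCB, hCne, hCR, hCmin⟩ := c3_min hBne hBR
    have hvtC : vt σ C ⊆ vt σ B := by
      intro v hv
      obtain ⟨p, hp, h⟩ := c4_mem_vt.mp hv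
      exact c4_mem_vt.mpr ⟨p, hCB hp, h⟩
    have hCS : C ∈ SC σ g := by
      rw [SC, Finset.mem_filter]
      exact ⟨Finset.mem_univ _, hCne, hCR, (Finset.card_le_card hvtC).trans hBc, hCmin⟩
    apply hno C hCS
    apply c3_isComp (hCB.trans hBA)
    intro v hv
    rw [← hdgB v (hvtC hv), hB2 v (hvtC hv)]
    rcases hCR.2 v with h | h
    · exfalso
      rw [dg, Finset.card_eq_zero, Finset.filter_eq_empty_iff] at h
      obtain ⟨p, hp, hpv⟩ := c4_mem_vt.mp hv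
      exact h hp hpv
    · exact h.ge
  have h1 : ((vt σ A).image part).card * (g + 1) ≤ (vt σ A).card := by
    rw [Finset.card_eq_sum_card_image part (vt σ A), ← smul_eq_mul, ← Finset.sum_const]
    exact Finset.sum_le_sum key
  refine ⟨h1, fun hne => ?_⟩
  have h2 := c3_card_le hσ hA hdeg
  obtain ⟨p, hp⟩ := hne
  have h3 : 0 < ((vt σ A).image part).card :=
    Finset.card_pos.mpr ⟨part p.1, Finset.mem_image_of_mem _ (c4_mem_vt.mpr ⟨p, hp, Or.inl rfl⟩)⟩
  have h4 : 1 * (g + 1) ≤ ((vt σ A).image part).card * (g + 1) := Nat.mul_le_mul_right _ h3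
  omega

end Points

end Pool.Agent.Lib.MP_d38209_co.CR
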