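import Pool.Agent.Lib.MP_d38209_co.CR.Defs

set_option autoImplicit false

/-!
# Chromatic roots of almost all regular graphs: the choice of `t` (module A1)

`t = √u / 2`, `u = s / (r + 1 - s)`.
-/

namespace Pool.Agent.Lib.MP_d38209_co.CR

open Finset
open scoped Classical

/-- comparison of the odd numbers with the falling factorial -/
theorem a1_prod (r s : ℕ) (h : s ≤ r) :
    (2 : ℝ) ^ s * (∏ i ∈ range s, ((r : ℝ) + 1 - i)) * ((r : ℝ) + 1 - s) ^ 2 ≤
      ((r : ℝ) + 1) ^ 2 * ∏ i ∈ range s, (2 * (r : ℝ) - 2 * i - 1) := by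
  induction s with
  | zero => simp
  | succ s ih =>
    have ih' := ih (by omega)
    have hj : (1 : ℝ) ≤ (r : ℝ) - s := by
      have : ((s + 1 : ℕ) : ℝ) ≤ r := by exact_mod_cast h
      push_cast at this
      linarith
    have hP : 0 ≤ ∏ i ∈ range s, (2 * (r : ℝ) - 2 * i - 1) := by
      apply prod_nonneg
      intro i hi
      have h1 : ((i + 1 : ℕ) : ℝ) ≤ s := by exact_mod_cast mem_range.mp hi
      push_cast at h1
      linarith
    have hP0 : 0 ≤ ((r : ℝ) + 1) ^ 2 * ∏ i ∈ range s, (2 * (r : ℝ) - 2 * i - 1) := by positivity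
    rw [prod_range_succ, prod_range_succ]
    push_cast
    set Q := ∏ i ∈ range s, ((r : ℝ) + 1 - i)
    set P := ∏ i ∈ range s, (2 * (r : ℝ) - 2 * i - 1)
    have hj1 : 0 < (r : ℝ) + 1 - s := by linarith
    refine le_of_mul_le_mul_left ?_ hj1
    calc ((r : ℝ) + 1 - s) * (2 ^ (s + 1) * (Q * ((r : ℝ) + 1 - s)) * ((r : ℝ) + 1 - (s + 1)) ^ 2)
        = (2 ^ s * Q * ((r : ℝ) + 1 - s) ^ 2) * (2 * ((r : ℝ) - s) ^ 2) := by ring
      _ ≤ (((r : ℝ) + 1) ^ 2 * P) * (2 * ((r : ℝ) - s) ^ 2) :=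
          mul_le_mul_of_nonneg_right ih' (by positivity)
      _ ≤ (((r : ℝ) + 1) ^ 2 * P) * (((r : ℝ) + 1 - s) * (2 * (r : ℝ) - 2 * s - 1)) := by
          apply mul_le_mul_of_nonneg_left _ hP0
          nlinarith
      _ = ((r : ℝ) + 1 - s) * (((r : ℝ) + 1) ^ 2 * (P * (2 * (r : ℝ) - 2 * s - 1))) := by ring

/-- the largest term of the binomial sum -/
theorem a1_choose (r s : ℕ) (h : s ≤ r) :
    (1 + (s : ℝ) / ((r : ℝ) + 1 - s)) ^ (r + 1) ≤
      ((r : ℝ) + 2) * (((r + 1).choose s : ℝ) * ((s : ℝ) / ((r : ℝ) + 1 - s)) ^ s) := by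
  have hsr : (s : ℝ) ≤ r := by exact_mod_cast h
  have hpos : 0 < (r : ℝ) + 1 - s := by linarith
  set u : ℝ := (s : ℝ) / ((r : ℝ) + 1 - s) with hu
  have hu0 : 0 ≤ u := by positivity
  have hus : u * ((r : ℝ) + 1 - s) = s := by rw [hu]; field_simp
  set T : ℕ → ℝ := fun k => ((r + 1).choose k : ℝ) * u ^ k with hT
  have hTn : ∀ k, 0 ≤ T k := fun k => by positivity
  have hrec : ∀ k, k ≤ r → T (k + 1) * ((k + 1) * ((r : ℝ) + 1 - s)) = T k * (((r : ℝ) + 1 - k) * s) := by
    intro k hk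
    have h1 := Nat.choose_succ_right_eq (r + 1) k
    have h2 : (((r + 1).choose (k + 1) : ℝ)) * (k + 1) = ((r + 1).choose k : ℝ) * ((r : ℝ) + 1 - k) := by
      have h3 : (((r + 1).choose (k + 1) * (k + 1) : ℕ) : ℝ) = (((r + 1).choose k * (r + 1 - k) : ℕ) : ℝ) := by
        exact_mod_cast h1
      rw [Nat.cast_mul, Nat.cast_mul, Nat.cast_sub (by omega)] at h3
      push_cast at h3
      exact h3
    show ((r + 1).choose (k + 1) : ℝ) * u ^ (k + 1) * ((k + 1) * ((r : ℝ) + 1 - s)) =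
      ((r + 1).choose k : ℝ) * u ^ k * (((r : ℝ) + 1 - k) * s)
    rw [pow_succ]
    calc ((r + 1).choose (k + 1) : ℝ) * (u ^ k * u) * ((k + 1) * ((r : ℝ) + 1 - s))
        = (((r + 1).choose (k + 1) : ℝ) * (k + 1)) * u ^ k * (u * ((r : ℝ) + 1 - s)) := by ring
      _ = _ := by rw [h2, hus]; ring
  have hup : ∀ k, k + 1 ≤ s → T k ≤ T (k + 1) := by
    intro k hk
    have hk' : ((k : ℝ) + 1) ≤ s := by exact_mod_cast hk
    have h0 := hrec k (by omega)
    have hc : 0 < ((k : ℝ) + 1) * ((r : ℝ) + 1 - s) := by positivity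
    refine le_of_mul_le_mul_right ?_ hc
    rw [h0]
    apply mul_le_mul_of_nonneg_left _ (hTn k)
    nlinarith
  have hdn : ∀ k, s ≤ k → k ≤ r → T (k + 1) ≤ T k := by
    intro k hk hkr
    have hk' : (s : ℝ) ≤ k := by exact_mod_cast hk
    have h0 := hrec k hkr
    have hc : 0 < ((k : ℝ) + 1) * ((r : ℝ) + 1 - s) := by positivity
    refine le_of_mul_le_mul_right ?_ hc
    rw [h0]
    apply mul_le_mul_of_nonneg_left _ (hTn k)
    nlinarith
  have hlow : ∀ k, k ≤ s → T k ≤ T s := by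
    intro k hk
    obtain ⟨m, rfl⟩ : ∃ m, s = k + m := ⟨s - k, by omega⟩
    clear hk
    have : ∀ j, j ≤ m → T k ≤ T (k + j) := by
      intro j
      induction j with
      | zero => intro _; exact le_rfl
      | succ j ih =>
        intro hj
        exact (ih (by omega)).trans (hup (k + j) (by omega))
    exact this m le_rfl
  have hhigh : ∀ j, s + j ≤ r + 1 → T (s + j) ≤ T s := by
    intro j
    induction j with
    | zero => intro _; exact le_rfl
    | succ j ih =>
      intro hj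
      exact (hdn (s + j) (by omega) (by omega)).trans (ih (by omega))
  have hall : ∀ k ∈ range (r + 1 + 1), T k ≤ T s := by
    intro k hk
    have hk' := mem_range.mp hk
    rcases le_total k s with h1 | h1
    · exact hlow k h1
    · obtain ⟨j, rfl⟩ : ∃ j, k = s + j := ⟨k - s, by omega⟩
      exact hhigh j (by omega)
  calc (1 + u) ^ (r + 1) = ∑ k ∈ range (r + 1 + 1), T k := by
        rw [add_comm 1 u, add_pow]
        apply sum_congr rfl
        intro k _
        rw [one_pow, mul_one]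
        exact mul_comm _ _
    _ ≤ ∑ k ∈ range (r + 1 + 1), T s := sum_le_sum hall
    _ = ((r : ℝ) + 2) * T s := by
        rw [sum_const, card_range, nsmul_eq_mul]
        push_cast
        ring

/-- `s! ≤ e s (s/e)^s` -/
theorem a1_factorial (s : ℕ) (hs : 1 ≤ s) :
    (s.factorial : ℝ) ≤ Real.exp 1 * s * Real.exp (-s) * (s : ℝ) ^ s := by
  induction s, hs using Nat.le_induction with
  | base =>
    have h1 : Real.exp 1 * Real.exp (-1) = 1 := by rw [← Real.exp_add]; simp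
    simp only [Nat.factorial_one, Nat.cast_one, mul_one, one_pow, h1, le_refl]
  | succ s hs ih =>
    have hs0 : (0 : ℝ) < s := by exact_mod_cast hs
    have key : Real.exp 1 * (s : ℝ) ^ (s + 1) ≤ ((s : ℝ) + 1) ^ (s + 1) := by
      have h1 : 1 / ((s : ℝ) + 1) ≤ Real.log (((s : ℝ) + 1) / s) := by
        have h2 := Real.one_sub_inv_le_log_of_pos (x := ((s : ℝ) + 1) / s) (by positivity)
        refine le_trans (le_of_eq ?_) h2
        rw [inv_div]
        field_simp
        ring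
      have h3 : Real.exp 1 ≤ (((s : ℝ) + 1) / s) ^ (s + 1) := by
        rw [← Real.exp_log (x := (((s : ℝ) + 1) / s) ^ (s + 1)) (by positivity)]
        apply Real.exp_le_exp.mpr
        rw [Real.log_pow]
        push_cast
        calc (1 : ℝ) = ((s : ℝ) + 1) * (1 / ((s : ℝ) + 1)) := by field_simp
          _ ≤ ((s : ℝ) + 1) * Real.log (((s : ℝ) + 1) / s) :=
              mul_le_mul_of_nonneg_left h1 (by positivity)
      rw [div_pow, le_div_iff₀ (by positivity)] at h3
      exact h3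
    rw [Nat.factorial_succ]
    push_cast
    calc ((s : ℝ) + 1) * (s.factorial : ℝ)
        ≤ ((s : ℝ) + 1) * (Real.exp 1 * s * Real.exp (-s) * (s : ℝ) ^ s) :=
          mul_le_mul_of_nonneg_left ih (by positivity)
      _ = ((s : ℝ) + 1) * Real.exp (-s) * (Real.exp 1 * (s : ℝ) ^ (s + 1)) := by
          rw [pow_succ]; ring
      _ ≤ ((s : ℝ) + 1) * Real.exp (-s) * ((s : ℝ) + 1) ^ (s + 1) :=
          mul_le_mul_of_nonneg_left key (by positivity)
      _ = Real.exp 1 * ((s : ℝ) + 1) * Real.exp (-((s : ℝ) + 1)) * ((s : ℝ) + 1) ^ (s + 1) := by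
          have : Real.exp 1 * Real.exp (-((s : ℝ) + 1)) = Real.exp (-s) := by
            rw [← Real.exp_add]; congr 1; ring
          rw [← this]; ring

/-- the small `s` -/
theorem a1_small (r s : ℕ) (hs : 1 ≤ s) (h : s ≤ r) :
    (s.factorial : ℝ) ≤ Real.exp 1 * s * Real.exp (-s) *
      ((∏ i ∈ range s, ((r : ℝ) + 1 - i)) * ((s : ℝ) / ((r : ℝ) + 1 - s)) ^ s) := by
  have hsr : (s : ℝ) ≤ r := by exact_mod_cast h
  have hpos : 0 < (r : ℝ) + 1 - s := by linarith
  refine (a1_factorial s hs).trans ?_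
  apply mul_le_mul_of_nonneg_left _ (by positivity)
  have h1 : ((r : ℝ) + 1 - s) ^ s ≤ ∏ i ∈ range s, ((r : ℝ) + 1 - i) := by
    calc ((r : ℝ) + 1 - s) ^ s = ∏ i ∈ range s, ((r : ℝ) + 1 - s) := by
          rw [prod_const, card_range]
      _ ≤ ∏ i ∈ range s, ((r : ℝ) + 1 - i) := by
          apply prod_le_prod
          · intro i _
            exact hpos.le
          · intro i hi
            have : (i : ℝ) ≤ s := by exact_mod_cast (mem_range.mp hi).le
            linarith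
  calc (s : ℝ) ^ s = ((r : ℝ) + 1 - s) ^ s * ((s : ℝ) / ((r : ℝ) + 1 - s)) ^ s := by
        rw [← mul_pow]
        congr 1
        field_simp
    _ ≤ _ := mul_le_mul_of_nonneg_right h1 (by positivity)

/-- the power of the function of one vertex -/
theorem a1_ww {d : ℕ} (hd : 1 ≤ d) (x c : ℝ) (hc : 0 < c) (hC : Cond d x c) (n r s : ℕ)
    (hnd : n * d = 2 * r) (hs : 1 ≤ s) (hsr : s ≤ r) :
    ww d x (√((s : ℝ) / ((r : ℝ) + 1 - s)) / 2) ^ n ≤
      (1 + (s : ℝ) / ((r : ℝ) + 1 - s)) ^ r * Real.exp (-(c / (d + 2) * s)) := by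
  have hsr' : (s : ℝ) ≤ r := by exact_mod_cast hsr
  have hpos : 0 < (r : ℝ) + 1 - s := by linarith
  have hs0 : (0 : ℝ) < s := by exact_mod_cast hs
  have hn : 1 ≤ n := by
    rcases Nat.eq_zero_or_pos n with h0 | h0
    · subst h0
      omega
    · exact h0
  have hn' : (1 : ℝ) ≤ n := by exact_mod_cast hn
  set u : ℝ := (s : ℝ) / ((r : ℝ) + 1 - s) with hu
  have hu0 : 0 < u := by positivity
  have hC1 := hC (√u) (Real.sqrt_nonneg u)
  rw [Real.sq_sqrt hu0.le] at hC1
  set w := ww d x (√u / 2)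
  set y : ℝ := c * s / (r + 1) with hy
  have hr1 : 0 < (r : ℝ) + 1 := by positivity
  have hu1 : 1 + u = ((r : ℝ) + 1) / ((r : ℝ) + 1 - s) := by
    rw [hu]; field_simp; ring
  have hd1 : (1 + u) ^ d = (1 + u) ^ (d - 1) * (1 + u) := by
    rw [← pow_succ]
    congr 1
    omega
  have hcu : c * u * (1 + u) ^ (d - 1) = y * (1 + u) ^ d := by
    rw [hd1]
    have : c * u = y * (1 + u) := by
      rw [hu1, hy, hu]
      field_simp
    rw [this]
    ring
  have hw2 : w ^ 2 ≤ (1 + u) ^ d * Real.exp (-y) := by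
    have h1 : 1 - y ≤ Real.exp (-y) := by
      have := Real.add_one_le_exp (-y)
      linarith
    calc w ^ 2 ≤ (1 + u) ^ d - y * (1 + u) ^ d := by linarith
      _ = (1 + u) ^ d * (1 - y) := by ring
      _ ≤ _ := mul_le_mul_of_nonneg_left h1 (by positivity)
  have hsq : (w ^ n) ^ 2 ≤ ((1 + u) ^ r * Real.exp (-(c / (d + 2) * s))) ^ 2 := by
    have hnd' : (n : ℝ) * d = 2 * r := by exact_mod_cast hnd
    have hyn : 2 * (c / (d + 2) * s) ≤ y * n := by
      rw [hy]
      rw [div_mul_eq_mul_div, div_mul_eq_mul_div, mul_div_assoc', div_le_div_iff₀ (by positivity) hr1]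
      have : 2 * (r : ℝ) + 2 ≤ n * (d + 2) := by
        have : (n : ℝ) * (d + 2) = 2 * r + 2 * n := by rw [mul_add, hnd']; ring
        linarith
      have hcs : 0 < c * s := by positivity
      nlinarith
    calc (w ^ n) ^ 2 = (w ^ 2) ^ n := by rw [← pow_mul, ← pow_mul, mul_comm]
      _ ≤ ((1 + u) ^ d * Real.exp (-y)) ^ n := pow_le_pow_left₀ (sq_nonneg w) hw2 n
      _ = (1 + u) ^ (n * d) * Real.exp (-(y * n)) := by
          rw [mul_pow, ← pow_mul, ← Real.exp_nat_mul, mul_comm d n]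
          congr 2
          ring
      _ ≤ (1 + u) ^ (n * d) * Real.exp (-(2 * (c / (d + 2) * s))) := by
          apply mul_le_mul_of_nonneg_left _ (by positivity)
          apply Real.exp_le_exp.mpr
          linarith
      _ = ((1 + u) ^ r * Real.exp (-(c / (d + 2) * s))) ^ 2 := by
          rw [mul_pow, ← pow_mul, ← Real.exp_nat_mul, hnd, mul_comm 2 r]
          congr 2
          push_cast
          ring
  exact (abs_le_of_sq_le_sq' hsq (by positivity)).2

/-! A1: the choice of `t`; `r = n d / 2` -/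
theorem bound {d : ℕ} (hd : 1 ≤ d) (x c : ℝ) (hx : 0 < x) (hx1 : x ≤ 1) (hc : 0 < c)
    (hC : Cond d x c) :
    ∃ (K κ : ℝ) (k : ℕ), 0 < K ∧ 0 < κ ∧ ∀ n r s : ℕ, n * d = 2 * r → 1 ≤ s → s ≤ r →
      ∃ t : ℝ, 0 < t ∧
        (1 / 2) ^ s * ((s.factorial : ℝ) / ∏ i ∈ range s, ((n * d : ℝ) - 2 * i - 1)) *
          ((t ^ (2 * s))⁻¹ * ww d x t ^ n) ≤
        (if s ^ 2 ≤ n then K * s else K * (n : ℝ) ^ k) * Real.exp (-(κ * s)) := by
  refine ⟨25 * Real.exp 5 + ((d : ℝ) + 2) ^ 2, c / (d + 2), 2, by positivity, by positivity, ?_⟩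
  intro n r s hnd hs hsr
  have hsr' : (s : ℝ) ≤ r := by exact_mod_cast hsr
  have hpos : 0 < (r : ℝ) + 1 - s := by linarith
  have hs0 : (0 : ℝ) < s := by exact_mod_cast hs
  have hs1 : (1 : ℝ) ≤ s := by exact_mod_cast hs
  have hd' : (1 : ℝ) ≤ d := by exact_mod_cast hd
  have hn : 1 ≤ n := by
    rcases Nat.eq_zero_or_pos n with h0 | h0
    · subst h0
      omega
    · exact h0
  have hn' : (1 : ℝ) ≤ n := by exact_mod_cast hn
  have hnd' : (n : ℝ) * d = 2 * r := by exact_mod_cast hnd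
  have hW := a1_ww hd x c hc hC n r s hnd hs hsr
  have hL := a1_prod r s hsr
  have hG := a1_choose r s hsr
  have hS := a1_small r s hs hsr
  set u : ℝ := (s : ℝ) / ((r : ℝ) + 1 - s) with hu
  have hu0 : 0 < u := by positivity
  have hu1 : 1 + u = ((r : ℝ) + 1) / ((r : ℝ) + 1 - s) := by
    rw [hu]; field_simp; ring
  set κ : ℝ := c / (d + 2)
  set Q : ℝ := ∏ i ∈ range s, ((r : ℝ) + 1 - i) with hQ
  have hprod : ∏ i ∈ range s, ((n * d : ℝ) - 2 * i - 1) =
      ∏ i ∈ range s, (2 * (r : ℝ) - 2 * i - 1) := by rw [hnd']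
  set P : ℝ := ∏ i ∈ range s, (2 * (r : ℝ) - 2 * i - 1) with hP
  have hP0 : 0 < P := by
    apply prod_pos
    intro i hi
    have h1 : ((i + 1 : ℕ) : ℝ) ≤ s := by exact_mod_cast mem_range.mp hi
    push_cast at h1
    linarith
  have hQ0 : 0 < Q := by
    apply prod_pos
    intro i hi
    have h1 : ((i + 1 : ℕ) : ℝ) ≤ s := by exact_mod_cast mem_range.mp hi
    push_cast at h1
    linarith
  refine ⟨√u / 2, by positivity, ?_⟩
  rw [hprod]
  have hQu : 0 < Q * u ^ s := by positivity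
  -- the main estimate
  have hmain : (1 / 2) ^ s * ((s.factorial : ℝ) / P) *
      (((√u / 2) ^ (2 * s))⁻¹ * ww d x (√u / 2) ^ n) ≤
      (1 + u) ^ 2 * ((s.factorial : ℝ) / (Q * u ^ s)) * ((1 + u) ^ r * Real.exp (-(κ * s))) := by
    have h1 : ((√u / 2) ^ (2 * s)) = u ^ s / 4 ^ s := by
      rw [pow_mul, div_pow, Real.sq_sqrt hu0.le, ← div_pow]
      norm_num
    have h2 : (2 : ℝ) ^ s / P ≤ (1 + u) ^ 2 / Q := by
      rw [div_le_div_iff₀ hP0 hQ0, hu1, div_pow, div_mul_eq_mul_div, le_div_iff₀ (by positivity)]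
      exact hL
    have h3 : (1 / 2 : ℝ) ^ s * ((s.factorial : ℝ) / P) *
        (((√u / 2) ^ (2 * s))⁻¹ * ww d x (√u / 2) ^ n) =
        (2 : ℝ) ^ s / P * ((s.factorial : ℝ) / u ^ s) * ww d x (√u / 2) ^ n := by
      rw [h1, inv_div]
      have h4 : (4 : ℝ) ^ s = 2 ^ s * 2 ^ s := by rw [← mul_pow]; norm_num
      rw [h4, one_div, inv_pow]
      field_simp
    rw [h3]
    calc (2 : ℝ) ^ s / P * ((s.factorial : ℝ) / u ^ s) * ww d x (√u / 2) ^ n
        ≤ (2 : ℝ) ^ s / P * ((s.factorial : ℝ) / u ^ s) * ((1 + u) ^ r * Real.exp (-(κ * s))) :=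
          mul_le_mul_of_nonneg_left hW (by positivity)
      _ ≤ (1 + u) ^ 2 / Q * ((s.factorial : ℝ) / u ^ s) * ((1 + u) ^ r * Real.exp (-(κ * s))) := by
          gcongr
      _ = _ := by
          field_simp
  refine hmain.trans ?_
  split_ifs with hsn
  · -- the small case
    have hsn' : (s : ℝ) ^ 2 ≤ n := by exact_mod_cast hsn
    have hn2r : (n : ℝ) ≤ 2 * r := by nlinarith
    have h4 : (s : ℝ) ^ 2 ≤ 4 * ((r : ℝ) + 1 - s) := by nlinarith [sq_nonneg ((s : ℝ) - 2)]
    have hu4 : u ≤ 4 := by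
      rw [hu, div_le_iff₀ hpos]
      nlinarith
    have hur : u * r ≤ s + 4 := by
      rw [hu, div_mul_eq_mul_div, div_le_iff₀ hpos]
      nlinarith
    have hpow : (1 + u) ^ r ≤ Real.exp (s + 4) := by
      calc (1 + u) ^ r ≤ Real.exp u ^ r := by
            apply pow_le_pow_left₀ (by positivity)
            have := Real.add_one_le_exp u
            linarith
        _ = Real.exp (u * r) := by rw [← Real.exp_nat_mul]; congr 1; ring
        _ ≤ Real.exp (s + 4) := Real.exp_le_exp.mpr hur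
    have hfac : (s.factorial : ℝ) / (Q * u ^ s) ≤ Real.exp 1 * s * Real.exp (-s) := by
      rw [div_le_iff₀ hQu]
      exact hS
    have h25 : (1 + u) ^ 2 ≤ 25 := by nlinarith
    calc (1 + u) ^ 2 * ((s.factorial : ℝ) / (Q * u ^ s)) * ((1 + u) ^ r * Real.exp (-(κ * s)))
        ≤ 25 * (Real.exp 1 * s * Real.exp (-s)) * (Real.exp (s + 4) * Real.exp (-(κ * s))) := by
          gcongr
      _ = 25 * Real.exp 5 * s * Real.exp (-(κ * s)) := by
          have h5 : Real.exp 1 * Real.exp (-s) * Real.exp (s + 4) = Real.exp 5 := by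
            rw [← Real.exp_add, ← Real.exp_add]; congr 1; ring
          rw [← h5]; ring
      _ ≤ (25 * Real.exp 5 + ((d : ℝ) + 2) ^ 2) * s * Real.exp (-(κ * s)) := by
          have : 0 ≤ ((d : ℝ) + 2) ^ 2 := by positivity
          gcongr
          linarith
  · -- the general case
    have hdesc : Q = (s.factorial : ℝ) * ((r + 1).choose s : ℝ) := by
      rw [← Nat.cast_mul, ← Nat.descFactorial_eq_factorial_mul_choose, Nat.descFactorial_eq_prod_range,
        hQ, Nat.cast_prod]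
      apply prod_congr rfl
      intro i hi
      rw [Nat.cast_sub (by have := mem_range.mp hi; omega)]
      push_cast
      ring
    have hs! : (0 : ℝ) < s.factorial := by exact_mod_cast Nat.factorial_pos s
    have hch : 0 < ((r + 1).choose s : ℝ) := by exact_mod_cast Nat.choose_pos (by omega)
    have hfac : (s.factorial : ℝ) / (Q * u ^ s) ≤ ((r : ℝ) + 2) / (1 + u) ^ (r + 1) := by
      rw [div_le_div_iff₀ hQu (by positivity)]
      calc (s.factorial : ℝ) * (1 + u) ^ (r + 1)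
          ≤ (s.factorial : ℝ) * (((r : ℝ) + 2) * (((r + 1).choose s : ℝ) * u ^ s)) :=
            mul_le_mul_of_nonneg_left hG hs!.le
        _ = ((r : ℝ) + 2) * (Q * u ^ s) := by rw [hdesc]; ring
    have hR : 1 + u ≤ (r : ℝ) + 1 := by
      rw [hu1, div_le_iff₀ hpos]
      nlinarith
    have hr0 : (0 : ℝ) ≤ r := by positivity
    have hpoly : (1 + u) * ((r : ℝ) + 2) ≤ ((d : ℝ) + 2) ^ 2 * (n : ℝ) ^ 2 := by
      have h1 : (r : ℝ) + 1 ≤ (d + 2) * n := by nlinarith
      have h2 : (r : ℝ) + 2 ≤ (d + 2) * n := by nlinarith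
      calc (1 + u) * ((r : ℝ) + 2) ≤ ((d + 2) * n) * ((d + 2) * n) := by
            apply mul_le_mul (hR.trans h1) h2 (by positivity) (by positivity)
        _ = ((d : ℝ) + 2) ^ 2 * (n : ℝ) ^ 2 := by ring
    calc (1 + u) ^ 2 * ((s.factorial : ℝ) / (Q * u ^ s)) * ((1 + u) ^ r * Real.exp (-(κ * s)))
        ≤ (1 + u) ^ 2 * (((r : ℝ) + 2) / (1 + u) ^ (r + 1)) *
            ((1 + u) ^ r * Real.exp (-(κ * s))) := by
          gcongr
      _ = (1 + u) * ((r : ℝ) + 2) * Real.exp (-(κ * s)) := by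
          rw [pow_succ (1 + u) r]
          field_simp
      _ ≤ ((d : ℝ) + 2) ^ 2 * (n : ℝ) ^ 2 * Real.exp (-(κ * s)) :=
          mul_le_mul_of_nonneg_right hpoly (Real.exp_pos _).le
      _ ≤ (25 * Real.exp 5 + ((d : ℝ) + 2) ^ 2) * (n : ℝ) ^ 2 * Real.exp (-(κ * s)) := by
          have : 0 < Real.exp 5 := Real.exp_pos _
          gcongr
          linarith

end Pool.Agent.Lib.MP_d38209_co.CR
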