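import Pool.Agent.Lib.MP_d38209_co.CR.Defs

set_option autoImplicit false

/-!
# F7: the expansion of the chromatic polynomial over the flow polynomials of the sets of edges
-/

namespace Pool.Agent.Lib.MP_d38209_co.CR

open Finset
open scoped Classical

section Sub

variable {α β : Type}

/-- The sum of `g` over the sublists. -/
noncomputable def subsum : (List α → ℂ) → List α → ℂ
  | g, [] => g []
  | g, e :: L => subsum g L + subsum (fun A => g (e :: A)) L

theorem subsum_lin (a b : ℂ) (L : List α) (g h : List α → ℂ) :
    subsum (fun A => a * g A + b * h A) L = a * subsum g L + b * subsum h L := by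
  induction L generalizing g h with
  | nil => rfl
  | cons e L ih =>
    have h2 := ih (fun A => g (e :: A)) (fun A => h (e :: A))
    simp only [subsum]
    rw [ih g h, h2]
    ring

theorem subsum_mul (a : ℂ) (L : List α) (g : List α → ℂ) :
    subsum (fun A => a * g A) L = a * subsum g L := by
  have := subsum_lin a 0 L g g
  simpa using this

theorem sum_powerset_list [DecidableEq α] (en : α → β) (l : List α) (hl : l.Nodup)
    (g : List β → ℂ) :
    ∑ A ∈ l.toFinset.powerset, g ((l.filter (· ∈ A)).map en) = subsum g (l.map en) := by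
  induction l generalizing g with
  | nil => simp [subsum]
  | cons p l ih =>
    have hp : p ∉ l := (List.nodup_cons.mp hl).1
    have hl' : l.Nodup := (List.nodup_cons.mp hl).2
    have hp' : p ∉ l.toFinset := by simpa using hp
    rw [List.toFinset_cons, Finset.sum_powerset_insert hp']
    simp only [List.map_cons, subsum]
    rw [← ih hl' g, ← ih hl' (fun A => g (en p :: A))]
    congr 1
    · refine Finset.sum_congr rfl fun A hA => ?_
      have hpA : p ∉ A := fun h => hp' (Finset.mem_powerset.mp hA h)
      rw [List.filter_cons_of_neg (by simpa using hpA)]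
    · refine Finset.sum_congr rfl fun A hA => ?_
      rw [List.filter_cons_of_pos (by simp)]
      have : l.filter (fun x => decide (x ∈ insert p A)) = l.filter (fun x => decide (x ∈ A)) := by
        refine List.filter_congr fun x hx => ?_
        have hxp : x ≠ p := fun h => hp (h ▸ hx)
        simp [Finset.mem_insert, hxp]
      rw [this, List.map_cons]

theorem length_filter_mem [DecidableEq α] (l : List α) (hl : l.Nodup) (A : Finset α)
    (hA : A ⊆ l.toFinset) : (l.filter (· ∈ A)).length = A.card := by
  have h1 : (l.filter (· ∈ A)).toFinset = A := by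
    ext x
    simp only [List.mem_toFinset, List.mem_filter, decide_eq_true_eq]
    exact ⟨fun h => h.2, fun h => ⟨by simpa using hA h, h⟩⟩
  rw [← List.toFinset_card_of_nodup (hl.filter _), h1]

end Sub

section Cp

variable {V : Type} [Fintype V]

/-- The chromatic polynomial of the list `L` after the identifications `f`, by deletion and
contraction. -/
noncomputable def cp : (V → V) → List (V × V) → Polynomial ℂ
  | f, [] => Polynomial.X ^ (univ.image f).card
  | f, e :: L => if f e.1 = f e.2 then 0 else cp f L - cp (merge f e.1 e.2) L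

theorem card_merge (f : V → V) (a b : V) (hab : f a ≠ f b) :
    (univ.image (merge f a b)).card + 1 = (univ.image f).card := by
  have h1 : univ.image (merge f a b) = (univ.image f).erase (f b) := by
    ext y
    simp only [Finset.mem_image, Finset.mem_univ, true_and, Finset.mem_erase, merge]
    constructor
    · rintro ⟨x, hx⟩
      by_cases h : f x = f b
      · rw [if_pos h] at hx
        exact ⟨fun h' => hab (hx.trans h'), a, hx⟩
      · rw [if_neg h] at hx
        exact ⟨fun h' => h (hx.trans h'), x, hx⟩
    · rintro ⟨h1, x, hx⟩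
      exact ⟨x, by rw [if_neg (by rw [hx]; exact h1), hx]⟩
  rw [h1, Finset.card_erase_add_one]
  exact Finset.mem_image_of_mem f (Finset.mem_univ b)

theorem subsum_flow (q : ℂ) (h0 : q ≠ 0) (h1 : q ≠ 1) (L : List (V × V)) (f : V → V) :
    subsum (fun A => (-1 / (q - 1)) ^ A.length * flow q f A) L =
      (q / (q - 1)) ^ L.length * (q ^ (univ.image f).card)⁻¹ * (cp f L).eval q := by
  have hq1 : q - 1 ≠ 0 := sub_ne_zero.mpr h1
  induction L generalizing f with
  | nil =>
    simp only [subsum, List.length_nil, pow_zero, flow, mul_one, one_mul, cp, Polynomial.eval_pow,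
      Polynomial.eval_X]
    exact (inv_mul_cancel₀ (pow_ne_zero _ h0)).symm
  | cons e L ih =>
    simp only [subsum]
    by_cases he : f e.1 = f e.2
    · have h2 : (fun A : List (V × V) => (-1 / (q - 1)) ^ (e :: A).length * flow q f (e :: A)) =
          fun A => (-1 : ℂ) * ((-1 / (q - 1)) ^ A.length * flow q f A) := by
        funext A
        simp only [List.length_cons, flow, if_pos he, pow_succ]
        field_simp
      rw [h2, subsum_mul]
      simp [cp, he]
    · have h2 : (fun A : List (V × V) => (-1 / (q - 1)) ^ (e :: A).length * flow q f (e :: A)) =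
          fun A => (-1 / (q - 1)) * ((-1 / (q - 1)) ^ A.length * flow q (merge f e.1 e.2) A) +
            (1 / (q - 1)) * ((-1 / (q - 1)) ^ A.length * flow q f A) := by
        funext A
        simp only [List.length_cons, flow, if_neg he, pow_succ]
        ring
      rw [h2, subsum_lin, ih f, ih (merge f e.1 e.2)]
      have h3 := card_merge f e.1 e.2 he
      rw [← h3]
      simp only [cp, if_neg he, Polynomial.eval_sub, List.length_cons, pow_succ]
      field_simp
      ring

omit [Fintype V] in
theorem merge_const {W : Type} (f : V → V) (a b : V) (c : V → W) :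
    (∀ x y, merge f a b x = merge f a b y → c x = c y) ↔
      (∀ x y, f x = f y → c x = c y) ∧ c a = c b := by
  constructor
  · intro h
    refine ⟨fun x y hxy => h x y ?_, h a b ?_⟩
    · simp only [merge, hxy]
    · simp only [merge, if_true]
      by_cases hab : f a = f b
      · rw [if_pos hab]
      · rw [if_neg hab]
  · rintro ⟨h, hab⟩ x y hxy
    simp only [merge] at hxy
    by_cases hx : f x = f b
    · by_cases hy : f y = f b
      · exact h x y (hx.trans hy.symm)
      · rw [if_pos hx, if_neg hy] at hxy
        exact (h x b hx).trans (hab.symm.trans (h a y hxy))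
    · by_cases hy : f y = f b
      · rw [if_neg hx, if_pos hy] at hxy
        exact (h x a hxy).trans (hab.trans (h b y hy.symm))
      · rw [if_neg hx, if_neg hy] at hxy
        exact h x y hxy

theorem card_const (k : ℕ) (f : V → V) :
    (univ.filter (fun c : V → Fin k => ∀ x y, f x = f y → c x = c y)).card =
      k ^ (univ.image f).card := by
  have h1 : (univ : Finset ({y // y ∈ univ.image f} → Fin k)).card = k ^ (univ.image f).card := by
    rw [Finset.card_univ, Fintype.card_fun, Fintype.card_fin, Fintype.card_coe]
  rw [← h1]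
  symm
  refine Finset.card_bij (fun g _ => fun x => g ⟨f x, Finset.mem_image_of_mem f (Finset.mem_univ x)⟩)
    ?_ ?_ ?_
  · intro g _
    simp only [Finset.mem_filter, Finset.mem_univ, true_and]
    intro x y hxy
    simp only [hxy]
  · intro g _ g' _ h
    funext ⟨y, hy⟩
    obtain ⟨x, _, rfl⟩ := Finset.mem_image.mp hy
    exact congrFun h x
  · intro c hc
    simp only [Finset.mem_filter, Finset.mem_univ, true_and] at hc
    have hch : ∀ y : {y // y ∈ univ.image f}, ∃ x, f x = y.1 := fun y => by
      obtain ⟨x, _, hx⟩ := Finset.mem_image.mp y.2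
      exact ⟨x, hx⟩
    choose r hr using hch
    refine ⟨fun y => c (r y), Finset.mem_univ _, ?_⟩
    funext x
    exact hc _ _ (hr _)

theorem cp_eval (k : ℕ) (L : List (V × V)) (f : V → V) :
    (cp f L).eval (k : ℂ) =
      ((univ.filter (fun c : V → Fin k => (∀ x y, f x = f y → c x = c y) ∧
        ∀ e ∈ L, c e.1 ≠ c e.2)).card : ℂ) := by
  induction L generalizing f with
  | nil =>
    simp only [cp, Polynomial.eval_pow, Polynomial.eval_X, List.not_mem_nil, false_imp_iff,
      implies_true, and_true]
    rw [card_const]
    push_cast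
    rfl
  | cons e L ih =>
    by_cases he : f e.1 = f e.2
    · simp only [cp, if_pos he, Polynomial.eval_zero]
      rw [Finset.filter_eq_empty_iff.mpr]
      · simp
      · rintro c _ ⟨h1, h2⟩
        exact h2 e (by simp) (h1 _ _ he)
    · simp only [cp, if_neg he, Polynomial.eval_sub]
      rw [ih f, ih (merge f e.1 e.2)]
      have h1 := Finset.card_filter_add_card_filter_not
        (s := univ.filter (fun c : V → Fin k => (∀ x y, f x = f y → c x = c y) ∧
          ∀ e ∈ L, c e.1 ≠ c e.2)) (fun c : V → Fin k => c e.1 = c e.2)
      rw [Finset.filter_filter, Finset.filter_filter] at h1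
      have h2 : univ.filter (fun c : V → Fin k => ((∀ x y, f x = f y → c x = c y) ∧
          ∀ e ∈ L, c e.1 ≠ c e.2) ∧ c e.1 = c e.2) =
          univ.filter (fun c : V → Fin k => (∀ x y, merge f e.1 e.2 x = merge f e.1 e.2 y →
            c x = c y) ∧ ∀ e ∈ L, c e.1 ≠ c e.2) := by
        ext c
        simp only [Finset.mem_filter, Finset.mem_univ, true_and, merge_const]
        tauto
      have h3 : univ.filter (fun c : V → Fin k => ((∀ x y, f x = f y → c x = c y) ∧
          ∀ e ∈ L, c e.1 ≠ c e.2) ∧ ¬ c e.1 = c e.2) =
          univ.filter (fun c : V → Fin k => (∀ x y, f x = f y → c x = c y) ∧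
            ∀ e' ∈ e :: L, c e'.1 ≠ c e'.2) := by
        ext c
        simp only [Finset.mem_filter, Finset.mem_univ, true_and, List.mem_cons, forall_eq_or_imp]
        tauto
      rw [h2, h3] at h1
      rw [← h1]
      push_cast
      ring

end Cp

section Points
variable {n d : ℕ}

theorem nat_card_colourings {σ : Pt n d → Pt n d} (hσ : WGood σ) (k : ℕ) :
    Nat.card {c : Fin n → Fin k // ∀ x y, (gr σ).Adj x y → c x ≠ c y} =
      (univ.filter (fun c : Fin n → Fin k => (∀ x y, id x = id y → c x = c y) ∧
        ∀ e ∈ (ES σ).toList.map (en σ), c e.1 ≠ c e.2)).card := by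
  rw [Nat.card_eq_fintype_card, Fintype.card_subtype]
  congr 1
  ext c
  simp only [Finset.mem_filter, Finset.mem_univ, true_and, id, List.mem_map, Finset.mem_toList,
    forall_exists_index, and_imp, ES, en]
  constructor
  · intro h
    refine ⟨fun x y hxy => by rw [hxy], ?_⟩
    rintro e p hp rfl
    refine h _ _ ?_
    rw [gr, SimpleGraph.fromRel_adj]
    exact ⟨ne_of_lt hp, Or.inl ⟨p, rfl, rfl⟩⟩
  · rintro ⟨-, h⟩ x y hxy
    rw [gr, SimpleGraph.fromRel_adj] at hxy
    obtain ⟨hne, hxy⟩ := hxy
    have key : ∀ p : Pt n d, p.1 ≠ (σ p).1 → c p.1 ≠ c (σ p).1 := by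
      intro p hpne
      rcases lt_trichotomy p.1 (σ p).1 with hp | hp | hp
      · exact h _ p hp rfl
      · exact absurd hp hpne
      · have := h _ (σ p) (by rw [hσ.inv]; exact hp) rfl
        rw [hσ.inv] at this
        exact this.symm
    rcases hxy with ⟨p, rfl, rfl⟩ | ⟨p, rfl, rfl⟩
    · exact key p hne
    · exact (key p hne.symm).symm

/-- F7: at a chromatic root the sum of the weights is zero. -/
theorem chrom_zero {σ : Pt n d → Pt n d} (hσ : WGood σ) (q : ℂ) (h0 : q ≠ 0) (h1 : q ≠ 1)
    (P : Polynomial ℂ) (hP : IsChromaticPolynomial (gr σ) P) (hq : P.eval q = 0) :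
    ∑ A ∈ (ES σ).powerset, wt q σ A = 0 := by
  have hPc : P = cp id ((ES σ).toList.map (en σ)) := by
    refine Polynomial.eq_of_infinite_eval_eq _ _ ?_
    refine Set.infinite_of_injective_forall_mem (f := fun k : ℕ => ((k + 1 : ℕ) : ℂ)) ?_ ?_
    · intro a b hab
      have : a + 1 = b + 1 := Nat.cast_injective hab
      omega
    · intro k
      show P.eval ((k + 1 : ℕ) : ℂ) = _
      rw [hP (k + 1) (Nat.succ_pos k), nat_card_colourings hσ, cp_eval]
      congr 1
      congr 1
      congr 1
      exact congrArg (fun i => @Finset.univ _ i) (Subsingleton.elim _ _)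
  have h2 := subsum_flow q h0 h1 ((ES σ).toList.map (en σ)) id
  rw [← hPc, hq, mul_zero] at h2
  rw [← h2, ← sum_powerset_list (en σ) (ES σ).toList (Finset.nodup_toList _)]
  rw [Finset.toList_toFinset]
  refine Finset.sum_congr rfl fun A hA => ?_
  have h3 := length_filter_mem (ES σ).toList (Finset.nodup_toList _) A
    (by rw [Finset.toList_toFinset]; exact Finset.mem_powerset.mp hA)
  rw [wt, fl, lst, List.length_map, h3]

end Points

end Pool.Agent.Lib.MP_d38209_co.CR
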