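import Pool.Agent.Lib.MP_d38209_co.CR.Defs

set_option autoImplicit false

/-!
# Short cycles in a pairing: number of edges, disjointness
-/

namespace Pool.Agent.Lib.MP_d38209_co.CR

open Finset
open scoped Classical

variable {n d : ℕ}

theorem c1_dg_sum {σ : Pt n d → Pt n d} (hσ : WGood σ) (C : Finset (Pt n d))
    (hCE : C ⊆ ES σ) :
    ∑ v, dg σ C v = 2 * C.card := by
  have h1 : ∀ v, dg σ C v = ∑ p ∈ C, ((if p.1 = v then 1 else 0) + if (σ p).1 = v then 1 else 0) := by
    intro v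
    unfold dg
    rw [card_eq_sum_ones, sum_filter]
    apply sum_congr rfl
    intro p hp
    have h2 := hσ.ne p (wg_es (hCE hp))
    by_cases h3 : p.1 = v
    · have h4 : (σ p).1 ≠ v := fun h => h2 (h.trans h3.symm)
      simp [h3, h4]
    · by_cases h4 : (σ p).1 = v
      · simp [h3, h4]
      · simp [h3, h4]
  simp only [h1]
  rw [sum_comm]
  have h2 : ∀ p : Pt n d, ∑ v : Fin n, ((if p.1 = v then 1 else 0) +
      if (σ p).1 = v then 1 else 0) = 2 := by
    intro p
    rw [sum_add_distrib]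
    simp
  simp only [h2]
  rw [sum_const, smul_eq_mul, mul_comm]

theorem c1_mem_vt {σ : Pt n d → Pt n d} {C : Finset (Pt n d)} {v : Fin n} :
    v ∈ vt σ C ↔ dg σ C v ≠ 0 := by
  unfold vt dg
  rw [Ne, card_eq_zero, ← Ne, ← nonempty_iff_ne_empty]
  constructor
  · intro h
    rw [mem_biUnion] at h
    obtain ⟨p, hp, h⟩ := h
    rw [mem_insert, mem_singleton] at h
    exact ⟨p, mem_filter.mpr ⟨hp, h.elim (fun h => Or.inl h.symm) (fun h => Or.inr h.symm)⟩⟩
  · rintro ⟨p, hp⟩
    rw [mem_filter] at hp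
    rw [mem_biUnion]
    refine ⟨p, hp.1, ?_⟩
    rw [mem_insert, mem_singleton]
    exact hp.2.elim (fun h => Or.inl h.symm) (fun h => Or.inr h.symm)

theorem c1_dg_mono {σ : Pt n d → Pt n d} {A C : Finset (Pt n d)} (h : A ⊆ C) (v : Fin n) :
    dg σ A v ≤ dg σ C v := by
  unfold dg
  exact card_le_card (filter_subset_filter _ h)

theorem c1_vt_mono {σ : Pt n d → Pt n d} {A C : Finset (Pt n d)} (h : A ⊆ C) :
    vt σ A ⊆ vt σ C := by
  unfold vt
  exact biUnion_subset_biUnion_of_subset_left _ h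

theorem c1_card {σ : Pt n d → Pt n d} (hσ : WGood σ) {C : Finset (Pt n d)} (hC : Reg2 σ C) :
    C.card = (vt σ C).card := by
  have h1 := c1_dg_sum hσ C hC.1
  have h2 : ∑ v, dg σ C v = ∑ v ∈ vt σ C, 2 := by
    rw [← sum_subset (subset_univ (vt σ C))]
    · apply sum_congr rfl
      intro v hv
      rcases hC.2 v with h | h
      · exact absurd h (c1_mem_vt.mp hv)
      · exact h
    · intro v _ hv
      by_contra h
      exact hv (c1_mem_vt.mpr h)
  rw [h2, sum_const, smul_eq_mul] at h1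
  omega

theorem sc_card {σ : Pt n d → Pt n d} (hσ : WGood σ) {g : ℕ} {C : Finset (Pt n d)}
    (hC : C ∈ SC σ g) : C.card = (vt σ C).card ∧ 2 ≤ C.card := by
  unfold SC at hC
  rw [mem_filter] at hC
  obtain ⟨-, ⟨p, hp⟩, hR, -, -⟩ := hC
  refine ⟨c1_card hσ hR, ?_⟩
  have h1 : dg σ C p.1 ≠ 0 := by
    rw [← c1_mem_vt]
    unfold vt
    rw [mem_biUnion]
    exact ⟨p, hp, by simp⟩
  rcases hR.2 p.1 with h | h
  · exact absurd h h1
  · rw [← h]
    unfold dg
    exact card_le_card (filter_subset _ _)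

theorem sc_disjoint {σ : Pt n d → Pt n d} (hσ : WGood σ) {g : ℕ} (hD : ¬ Dense σ g)
    {C C' : Finset (Pt n d)} (hC : C ∈ SC σ g) (hC' : C' ∈ SC σ g) (hne : C ≠ C') :
    Disjoint (vt σ C) (vt σ C') := by
  by_contra hdis
  rw [Finset.not_disjoint_iff] at hdis
  obtain ⟨v, hv, hv'⟩ := hdis
  unfold SC at hC hC'
  rw [mem_filter] at hC hC'
  obtain ⟨-, hne1, hR1, hg1, hmin1⟩ := hC
  obtain ⟨-, hne2, hR2, hg2, hmin2⟩ := hC'
  apply hD
  have hI : (C ∩ C').card < (vt σ C ∩ vt σ C').card := by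
    by_cases h0 : (C ∩ C').Nonempty
    swap
    · rw [not_nonempty_iff_eq_empty] at h0
      rw [h0, card_empty]
      exact card_pos.mpr ⟨v, mem_inter.mpr ⟨hv, hv'⟩⟩
    · have hIC : C ∩ C' ⊆ C := inter_subset_left
      have hIC' : C ∩ C' ⊆ C' := inter_subset_right
      have hsub : vt σ (C ∩ C') ⊆ vt σ C ∩ vt σ C' :=
        subset_inter (c1_vt_mono hIC) (c1_vt_mono hIC')
      refine lt_of_lt_of_le ?_ (card_le_card hsub)
      have hnotR : ¬ Reg2 σ (C ∩ C') := by
        intro hR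
        have e1 := hmin1 _ hIC h0 hR
        have e2 := hmin2 _ hIC' h0 hR
        exact hne (e1.symm.trans e2)
      have hle : ∀ u, dg σ (C ∩ C') u ≤ 2 := by
        intro u
        refine le_trans (c1_dg_mono hIC u) ?_
        rcases hR1.2 u with h | h <;> omega
      have hex : ∃ u, dg σ (C ∩ C') u = 1 := by
        by_contra hall
        push Not at hall
        apply hnotR
        refine ⟨hIC.trans hR1.1, fun u => ?_⟩
        have h1 := hle u
        have h2 := hall u
        omega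
      obtain ⟨u, hu⟩ := hex
      have h1 := c1_dg_sum hσ (C ∩ C') (hIC.trans hR1.1)
      have h2 : ∑ w, dg σ (C ∩ C') w < ∑ w ∈ vt σ (C ∩ C'), 2 := by
        rw [← sum_subset (subset_univ (vt σ (C ∩ C')))]
        · apply sum_lt_sum
          · intro w _
            exact hle w
          · exact ⟨u, c1_mem_vt.mpr (by omega), by omega⟩
        · intro w _ hw
          by_contra h
          exact hw (c1_mem_vt.mpr h)
      rw [h1, sum_const, smul_eq_mul] at h2
      omega
  have hvt : vt σ (C ∪ C') = vt σ C ∪ vt σ C' := by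
    unfold vt
    exact union_biUnion
  have hc1 := c1_card hσ hR1
  have hc2 := c1_card hσ hR2
  have u1 := card_union_add_card_inter C C'
  have u2 := card_union_add_card_inter (vt σ C) (vt σ C')
  refine ⟨C ∪ C', union_subset hR1.1 hR2.1, ?_, ?_⟩
  · rw [hvt]
    omega
  · rw [hvt]
    omega

end Pool.Agent.Lib.MP_d38209_co.CR
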