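import Pool.Agent.Lib.MP_d38209_co.CR.Defs

set_option autoImplicit false

/-!
# The nullity of a list of edges

`nul id L = |L| - |V| + (number of components)`.
-/

namespace Pool.Agent.Lib.MP_d38209_co.CR

open Finset
open scoped Classical

section Flow
variable {V : Type}

theorem image_merge_card [Fintype V] (f : V → V) (a b : V) (h : f a ≠ f b) :
    (univ.image (merge f a b)).card + 1 = (univ.image f).card := by
  have h1 : univ.image (merge f a b) = (univ.image f).erase (f b) := by
    ext y
    simp only [mem_image, mem_univ, true_and, mem_erase]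
    constructor
    · rintro ⟨x, rfl⟩
      unfold merge
      split_ifs with hx
      · exact ⟨h, a, rfl⟩
      · exact ⟨hx, x, rfl⟩
    · rintro ⟨hy, x, rfl⟩
      refine ⟨x, ?_⟩
      unfold merge
      rw [if_neg hy]
  rw [h1]
  exact card_erase_add_one (mem_image_of_mem f (mem_univ b))

theorem nul_formula_aux [Fintype V] (L : List (V × V)) : ∀ f : V → V,
    ∃ part : V → V, (∀ x y, f x = f y → part x = part y) ∧ (∀ e ∈ L, part e.1 = part e.2) ∧
      nul f L + (univ.image f).card = L.length + (univ.image part).card := by
  induction L with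
  | nil =>
    intro f
    refine ⟨f, fun x y h => h, by simp, ?_⟩
    simp [nul]
  | cons e L ih =>
    intro f
    by_cases he : f e.1 = f e.2
    · obtain ⟨part, h1, h2, h3⟩ := ih f
      refine ⟨part, h1, ?_, ?_⟩
      · intro e' he'
        rcases List.mem_cons.1 he' with rfl | h
        · exact h1 _ _ he
        · exact h2 _ h
      · rw [nul, if_pos he, List.length_cons]
        omega
    · obtain ⟨part, h1, h2, h3⟩ := ih (merge f e.1 e.2)
      refine ⟨part, ?_, ?_, ?_⟩
      · intro x y hxy
        apply h1
        unfold merge
        rw [hxy]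
      · intro e' he'
        rcases List.mem_cons.1 he' with rfl | h
        · apply h1
          unfold merge
          rw [if_neg he, if_pos rfl]
        · exact h2 _ h
      · rw [nul, if_neg he, List.length_cons]
        have := image_merge_card f e.1 e.2 he
        omega

theorem nul_formula [Fintype V] (L : List (V × V)) :
    ∃ part : V → V, (∀ e ∈ L, part e.1 = part e.2) ∧
      nul id L + Fintype.card V = L.length + (univ.image part).card := by
  obtain ⟨part, -, h2, h3⟩ := nul_formula_aux L id
  refine ⟨part, h2, ?_⟩
  rwa [image_id, card_univ] at h3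

theorem nul_le_length (L : List (V × V)) : ∀ f : V → V, nul f L ≤ L.length := by
  induction L with
  | nil => intro f; simp [nul]
  | cons e L ih =>
    intro f
    rw [nul, List.length_cons]
    split_ifs
    · have := ih f
      omega
    · have := ih (merge f e.1 e.2)
      omega

end Flow

section Points
variable {n d : ℕ}

theorem lst_length {σ : Pt n d → Pt n d} {A : Finset (Pt n d)} (hA : A ⊆ ES σ) :
    (lst σ A).length = A.card := by
  have h1 : ((ES σ).toList.filter (· ∈ A)).Perm A.toList := by
    rw [List.perm_ext_iff_of_nodup ((nodup_toList _).filter _) (nodup_toList _)]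
    intro p
    simp only [List.mem_filter, mem_toList, decide_eq_true_eq]
    exact ⟨fun h => h.2, fun h => ⟨hA h, h⟩⟩
  unfold lst
  rw [List.length_map, h1.length_eq, length_toList]

theorem mem_lst {σ : Pt n d → Pt n d} {A : Finset (Pt n d)} (hA : A ⊆ ES σ) {p : Pt n d}
    (hp : p ∈ A) : en σ p ∈ lst σ A := by
  unfold lst
  refine List.mem_map.2 ⟨p, ?_, rfl⟩
  simp only [List.mem_filter, mem_toList, decide_eq_true_eq]
  exact ⟨hA hp, hp⟩

theorem nul_points {σ : Pt n d → Pt n d} (hσ : WGood σ) {A : Finset (Pt n d)} (hA : A ⊆ ES σ) :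
    ∃ part : Fin n → Fin n, (∀ p ∈ A, part p.1 = part (σ p).1) ∧
      nul id (lst σ A) + (vt σ A).card ≤ A.card + ((vt σ A).image part).card := by
  obtain ⟨part, h1, h2⟩ := nul_formula (lst σ A)
  refine ⟨part, fun p hp => h1 _ (mem_lst hA hp), ?_⟩
  rw [lst_length hA, Fintype.card_fin] at h2
  have h3 : (univ.image part).card ≤ ((vt σ A).image part).card + ((vt σ A)ᶜ.image part).card := by
    refine le_trans (card_le_card ?_) (card_union_le _ _)
    intro y hy
    obtain ⟨x, -, rfl⟩ := mem_image.1 hy
    by_cases hx : x ∈ vt σ A
    · exact mem_union_left _ (mem_image_of_mem _ hx)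
    · exact mem_union_right _ (mem_image_of_mem _ (mem_compl.2 hx))
  have h4 : ((vt σ A)ᶜ.image part).card ≤ (vt σ A)ᶜ.card := card_image_le
  have h5 : (vt σ A)ᶜ.card + (vt σ A).card = n := by
    rw [card_compl, Fintype.card_fin]
    have : (vt σ A).card ≤ n := by
      simpa using card_le_univ (vt σ A)
    omega
  have h6 : (@image _ _ (fun a b => Classical.propDecidable (a = b)) part univ).card
      = (univ.image part).card := by
    congr
    exact Subsingleton.elim _ _
  omega

theorem nul_le_card {σ : Pt n d → Pt n d} {A : Finset (Pt n d)} (hA : A ⊆ ES σ) :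
    nul id (lst σ A) ≤ A.card := by
  rw [← lst_length hA]
  exact nul_le_length _ _

end Points

end Pool.Agent.Lib.MP_d38209_co.CR
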