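import Pool.Agent.Lib.MP_d38209_co.CR.Cyc1
import Pool.Agent.Lib.MP_d38209_co.CR.NulFormula

set_option autoImplicit false

/-!
# Short cycles in a pairing: nullity and orientations
-/

namespace Pool.Agent.Lib.MP_d38209_co.CR

open Finset
open scoped Classical

variable {n d : ℕ}

theorem c2_part {σ : Pt n d → Pt n d} {C : Finset (Pt n d)} (hR : Reg2 σ C) (part : Fin n → Fin n)
    (hpart : ∀ p ∈ C, part p.1 = part (σ p).1) (a : Fin n) :
    Reg2 σ (C.filter fun p => part p.1 = a) := by
  refine ⟨(filter_subset _ _).trans hR.1, fun v => ?_⟩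
  by_cases hv : part v = a
  · have h1 : dg σ (C.filter fun p => part p.1 = a) v = dg σ C v := by
      unfold dg
      congr 1
      ext p
      simp only [mem_filter]
      constructor
      · rintro ⟨⟨h1, -⟩, h2⟩
        exact ⟨h1, h2⟩
      · rintro ⟨h1, h2⟩
        refine ⟨⟨h1, ?_⟩, h2⟩
        rcases h2 with h2 | h2
        · rw [h2, hv]
        · rw [hpart p h1, h2, hv]
    rw [h1]
    exact hR.2 v
  · left
    unfold dg
    rw [card_eq_zero, filter_eq_empty_iff]
    intro p hp h2
    rw [mem_filter] at hp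
    apply hv
    rcases h2 with h2 | h2
    · rw [← h2, hp.2]
    · rw [← h2, ← hpart p hp.1, hp.2]

theorem sc_nul {σ : Pt n d → Pt n d} (hσ : WGood σ) {g : ℕ} {C : Finset (Pt n d)}
    (hC : C ∈ SC σ g) : nul id (lst σ C) ≤ 1 := by
  have hcard := (sc_card hσ hC).1
  unfold SC at hC
  rw [mem_filter] at hC
  obtain ⟨-, -, hR, -, hmin⟩ := hC
  obtain ⟨part, hpart, h⟩ := nul_points hσ hR.1
  have himg : ((vt σ C).image part).card ≤ 1 := by
    rw [card_le_one]
    have hex : ∀ v ∈ vt σ C, ∃ p ∈ C, part p.1 = part v := by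
      intro v hv
      unfold vt at hv
      rw [mem_biUnion] at hv
      obtain ⟨p, hp, hv⟩ := hv
      rw [mem_insert, mem_singleton] at hv
      rcases hv with hv | hv
      · exact ⟨p, hp, by rw [hv]⟩
      · exact ⟨p, hp, by rw [hv]; exact hpart p hp⟩
    intro a ha b hb
    rw [mem_image] at ha hb
    obtain ⟨v, hv, rfl⟩ := ha
    obtain ⟨w, hw, rfl⟩ := hb
    obtain ⟨p, hp, hpv⟩ := hex v hv
    obtain ⟨q, hq, hqw⟩ := hex w hw
    have h1 := hmin (C.filter fun p => part p.1 = part v) (filter_subset _ _)
      ⟨p, mem_filter.mpr ⟨hp, hpv⟩⟩ (c2_part hR part hpart _)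
    rw [← h1, mem_filter] at hq
    rw [← hq.2, hqw]
  omega

/-- the point of the edge `p` at the vertex `v` -/
noncomputable def c2_q (σ : Pt n d → Pt n d) (v : Fin n) (p : Pt n d) : Pt n d :=
  if p.1 = v then p else σ p

theorem c2_q_iff {σ : Pt n d → Pt n d} {c c' : Pt n d → Option Bool} (hc : Comp σ c)
    (hc' : Comp σ c') (v : Fin n) (p : Pt n d) :
    c (c2_q σ v p) = c' (c2_q σ v p) ↔ c p = c' p := by
  unfold c2_q
  split_ifs with h
  · rfl
  · rw [hc p, hc' p]
    cases h1 : c p with
    | none => cases h2 : c' p <;> simp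
    | some a => cases h2 : c' p <;> simp

theorem c2_vertex {σ : Pt n d → Pt n d} (hσ : WGood σ) {c : Pt n d → Option Bool}
    (hc : Comp σ c) (hv : Valid c) {C : Finset (Pt n d)} (hs : supp σ c = C) {v : Fin n}
    {p₁ p₂ : Pt n d}
    (hp : C.filter (fun p => p.1 = v ∨ (σ p).1 = v) = {p₁, p₂}) :
    ∃ b, c (c2_q σ v p₁) = some b ∧ c (c2_q σ v p₂) = some !b := by
  have hmem : ∀ u : Pt n d, u.1 = v → c u ≠ none → u = c2_q σ v p₁ ∨ u = c2_q σ v p₂ := by
    intro u hu hcu
    -- the edge of `u`
    obtain ⟨p, hpE, hpu, hpv, hcp⟩ : ∃ p ∈ ES σ, u = c2_q σ v p ∧ (p.1 = v ∨ (σ p).1 = v) ∧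
        c p ≠ none := by
      by_cases h : u.1 < (σ u).1
      · exact ⟨u, mem_filter.mpr ⟨mem_univ _, h⟩, by rw [c2_q, if_pos hu], Or.inl hu, hcu⟩
      · have h1 : (σ u).1 < u.1 := lt_of_le_of_ne (not_lt.mp h) (hσ.ne u (wg_live hc hcu))
        refine ⟨σ u, mem_filter.mpr ⟨mem_univ _, by rw [hσ.inv]; exact h1⟩, ?_, ?_, ?_⟩
        · rw [c2_q, if_neg, hσ.inv]
          intro h2
          exact hσ.ne u (wg_live hc hcu) (h2.trans hu.symm)
        · right
          rw [hσ.inv]
          exact hu
        · rw [hc u]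
          intro h2
          apply hcu
          rw [Option.map_eq_none_iff] at h2
          exact h2
    have hpC : p ∈ C.filter (fun p => p.1 = v ∨ (σ p).1 = v) := by
      rw [mem_filter, ← hs, supp, mem_filter]
      exact ⟨⟨hpE, hcp⟩, hpv⟩
    rw [hp, mem_insert, mem_singleton] at hpC
    rcases hpC with rfl | rfl
    · exact Or.inl hpu
    · exact Or.inr hpu
  have hq : (c2_q σ v p₁).1 = v ∧ c (c2_q σ v p₁) ≠ none := by
    have h1 : p₁ ∈ C.filter (fun p => p.1 = v ∨ (σ p).1 = v) := by
      rw [hp]
      exact mem_insert_self _ _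
    rw [mem_filter, ← hs, supp, mem_filter] at h1
    unfold c2_q
    split_ifs with h
    · exact ⟨h, h1.1.2⟩
    · refine ⟨h1.2.resolve_left h, ?_⟩
      rw [hc]
      intro h2
      rw [Option.map_eq_none_iff] at h2
      exact h1.1.2 h2
  obtain ⟨⟨i, hi⟩, j, hj⟩ := hv v ⟨(c2_q σ v p₁).2, by
    have h1 : (v, (c2_q σ v p₁).2) = c2_q σ v p₁ := Prod.ext hq.1.symm rfl
    rw [h1]
    exact hq.2⟩
  have h1 := hmem (v, i) rfl (by rw [hi]; simp)
  have h2 := hmem (v, j) rfl (by rw [hj]; simp)
  rcases h1 with h1 | h1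
  · rcases h2 with h2 | h2
    · exfalso
      rw [h1.trans h2.symm, hj] at hi
      simp at hi
    · exact ⟨true, by rw [← h1, hi], by rw [← h2, hj]; rfl⟩
  · rcases h2 with h2 | h2
    · exact ⟨false, by rw [← h2, hj], by rw [← h1, hi]; rfl⟩
    · exfalso
      rw [h1.trans h2.symm, hj] at hi
      simp at hi

theorem c2_point {σ : Pt n d → Pt n d} (hσ : WGood σ) (p : Pt n d) :
    p ∈ ES σ ∨ σ p ∈ ES σ ∨ σ p = p := by
  by_cases h0 : σ p = p
  · exact Or.inr (Or.inr h0)
  by_cases h : p.1 < (σ p).1
  · exact Or.inl (mem_filter.mpr ⟨mem_univ _, h⟩)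
  · right
    left
    refine mem_filter.mpr ⟨mem_univ _, ?_⟩
    rw [hσ.inv]
    exact lt_of_le_of_ne (not_lt.mp h) (hσ.ne p h0)

theorem c2_dead {σ : Pt n d → Pt n d} {c : Pt n d → Option Bool} (hc : Comp σ c) {p : Pt n d}
    (h : σ p = p) : c p = none := by
  by_contra h1
  exact wg_live hc h1 h

theorem sc_NS {σ : Pt n d → Pt n d} (hσ : WGood σ) {g : ℕ} {C : Finset (Pt n d)}
    (hC : C ∈ SC σ g) : NS σ C ≤ 2 := by
  unfold SC at hC
  rw [mem_filter] at hC
  obtain ⟨-, -, hR, -, hmin⟩ := hC
  unfold NS
  set F := univ.filter fun c : Pt n d → Option Bool => Comp σ c ∧ Valid c ∧ supp σ c = C with hF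
  rcases F.eq_empty_or_nonempty with h0 | ⟨c, hc⟩
  · rw [h0, card_empty]
    omega
  have hsub : F ⊆ {c, fun p => (c p).map not} := by
    intro c' hc'
    rw [hF, mem_filter] at hc hc'
    obtain ⟨-, hc1, hc2, hc3⟩ := hc
    obtain ⟨-, hc1', hc2', hc3'⟩ := hc'
    have hsupp : ∀ p ∈ ES σ, c p = none ↔ c' p = none := by
      intro p hp
      constructor
      · intro h
        by_contra h'
        have h1 : p ∈ supp σ c' := mem_filter.mpr ⟨hp, h'⟩
        rw [hc3', ← hc3] at h1
        exact (mem_filter.mp h1).2 h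
      · intro h
        by_contra h'
        have h1 : p ∈ supp σ c := mem_filter.mpr ⟨hp, h'⟩
        rw [hc3, ← hc3'] at h1
        exact (mem_filter.mp h1).2 h
    have hReg : Reg2 σ (C.filter fun p => c p = c' p) := by
      refine ⟨(filter_subset _ _).trans hR.1, fun v => ?_⟩
      rcases hR.2 v with h | h
      · left
        have := c1_dg_mono (σ := σ) (filter_subset (fun p => c p = c' p) C) v
        omega
      · unfold dg at h
        obtain ⟨p₁, p₂, hne, hp⟩ := card_eq_two.mp h
        obtain ⟨b, hb1, hb2⟩ := c2_vertex hσ hc1 hc2 hc3 hp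
        obtain ⟨b', hb1', hb2'⟩ := c2_vertex hσ hc1' hc2' hc3' hp
        have e1 := c2_q_iff hc1 hc1' v p₁
        have e2 := c2_q_iff hc1 hc1' v p₂
        rw [hb1, hb1'] at e1
        rw [hb2, hb2'] at e2
        have h3 : (C.filter fun p => c p = c' p).filter (fun p => p.1 = v ∨ (σ p).1 = v) =
            ({p₁, p₂} : Finset (Pt n d)).filter fun p => c p = c' p := by
          rw [← hp]
          ext p
          simp only [mem_filter]
          tauto
        unfold dg
        rw [h3]
        by_cases hbb : b = b'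
        · right
          rw [filter_true_of_mem, ← hp, h]
          intro p hp'
          rw [mem_insert, mem_singleton] at hp'
          rcases hp' with rfl | rfl
          · exact e1.mp (by rw [hbb])
          · exact e2.mp (by rw [hbb])
        · left
          rw [card_eq_zero, filter_eq_empty_iff]
          intro p hp' h4
          rw [mem_insert, mem_singleton] at hp'
          rcases hp' with rfl | rfl
          · exact hbb (by simpa using e1.mpr h4)
          · exact hbb (by simpa using e2.mpr h4)
    rw [mem_insert, mem_singleton]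
    by_cases hne : (C.filter fun p => c p = c' p).Nonempty
    · left
      have h1 := hmin _ (filter_subset _ _) hne hReg
      have h2 : ∀ p ∈ ES σ, c' p = c p := by
        intro p hp
        by_cases h : c p = none
        · rw [h, (hsupp p hp).mp h]
        · have h3 : p ∈ C := by
            rw [← hc3]
            exact mem_filter.mpr ⟨hp, h⟩
          rw [← h1, mem_filter] at h3
          exact h3.2.symm
      funext p
      rcases c2_point hσ p with h | h | h
      · exact h2 p h
      · have h3 := hc1 (σ p)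
        have h4 := hc1' (σ p)
        rw [hσ.inv] at h3 h4
        rw [h3, h4, h2 _ h]
      · rw [c2_dead hc1 h, c2_dead hc1' h]
    · right
      rw [not_nonempty_iff_eq_empty, filter_eq_empty_iff] at hne
      have h2 : ∀ p ∈ ES σ, c' p = (c p).map not := by
        intro p hp
        by_cases h : c p = none
        · rw [h, (hsupp p hp).mp h]
          rfl
        · have h3 : p ∈ C := by
            rw [← hc3]
            exact mem_filter.mpr ⟨hp, h⟩
          have h4 := hne h3
          have h5 : c' p ≠ none := fun h6 => h ((hsupp p hp).mpr h6)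
          cases h6 : c p with
          | none => exact absurd h6 h
          | some a =>
            cases h7 : c' p with
            | none => exact absurd h7 h5
            | some a' =>
              rw [h6, h7] at h4
              simp only [Option.map_some]
              congr 1
              cases a <;> cases a' <;> simp_all
      funext p
      rcases c2_point hσ p with h | h | h
      · exact h2 p h
      · have h3 := hc1 (σ p)
        have h4 := hc1' (σ p)
        rw [hσ.inv] at h3 h4
        rw [h3, h4, h2 _ h]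
      · rw [c2_dead hc1 h, c2_dead hc1' h]
        rfl
  exact (card_le_card hsub).trans card_le_two

end Pool.Agent.Lib.MP_d38209_co.CR
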