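import Pool.Agent.Lib.MP_d38209_co.CR.Defs

set_option autoImplicit false

/-!
# Abstract decomposition into small components and the rest
-/

namespace Pool.Agent.Lib.MP_d38209_co.CR

open Finset
open scoped Classical

theorem decomp {ι V : Type} [DecidableEq ι] [DecidableEq V] (E : Finset ι) (ve : ι → Finset V)
    (hve : ∀ i, (ve i).Nonempty) (S : Finset (Finset ι)) (hSE : ∀ C ∈ S, C ⊆ E)
    (hS0 : ∀ C ∈ S, C.Nonempty)
    (hSd : ∀ C ∈ S, ∀ C' ∈ S, C ≠ C' → Disjoint (C.biUnion ve) (C'.biUnion ve))
    (w : Finset ι → ℂ)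
    (hw : ∀ A ⊆ E, ∀ B ⊆ E, Disjoint (A.biUnion ve) (B.biUnion ve) → w (A ∪ B) = w A * w B) :
    ∑ A ∈ E.powerset, w A =
      ∑ A ∈ E.powerset.filter (fun A => ∀ C ∈ S, ¬ (C ⊆ A ∧
          Disjoint (C.biUnion ve) ((A \ C).biUnion ve))),
        w A * ∏ C ∈ S.filter (fun C => Disjoint (A.biUnion ve) (C.biUnion ve)), (1 + w C) := by
  induction S using Finset.induction_on with
  | empty => simp
  | insert C₀ S hC₀ ih =>
    have ih' := ih (fun C hC => hSE C (mem_insert_of_mem hC))
      (fun C hC => hS0 C (mem_insert_of_mem hC))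
      (fun C hC C' hC' => hSd C (mem_insert_of_mem hC) C' (mem_insert_of_mem hC'))
    rw [ih']
    have hE₀ : C₀ ⊆ E := hSE C₀ (mem_insert_self _ _)
    have h0 : C₀.Nonempty := hS0 C₀ (mem_insert_self _ _)
    have hd : ∀ C ∈ S, Disjoint (C₀.biUnion ve) (C.biUnion ve) := by
      intro C hC
      refine hSd C₀ (mem_insert_self _ _) C (mem_insert_of_mem hC) ?_
      rintro rfl
      exact hC₀ hC
    -- a vertex-disjoint pair of edge sets is disjoint
    have hdis : ∀ A B : Finset ι, Disjoint (A.biUnion ve) (B.biUnion ve) → Disjoint A B := by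
      intro A B h
      rw [Finset.disjoint_left]
      intro i hA hB
      obtain ⟨v, hv⟩ := hve i
      exact (Finset.disjoint_left.mp h) (mem_biUnion.mpr ⟨i, hA, hv⟩) (mem_biUnion.mpr ⟨i, hB, hv⟩)
    -- the factor of the new member
    have hprod : ∀ A : Finset ι,
        ∏ C ∈ (insert C₀ S).filter (fun C => Disjoint (A.biUnion ve) (C.biUnion ve)), (1 + w C) =
          (if Disjoint (A.biUnion ve) (C₀.biUnion ve) then 1 + w C₀ else 1) *
          ∏ C ∈ S.filter (fun C => Disjoint (A.biUnion ve) (C.biUnion ve)), (1 + w C) := by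
      intro A
      rw [filter_insert]
      split_ifs with h
      · rw [prod_insert]
        intro hm
        exact hC₀ (mem_filter.mp hm).1
      · rw [one_mul]
    -- the key bijection
    have key : ∑ A ∈ (E.powerset.filter (fun A => ∀ C ∈ S, ¬ (C ⊆ A ∧
          Disjoint (C.biUnion ve) ((A \ C).biUnion ve)))).filter
          (fun A => C₀ ⊆ A ∧ Disjoint (C₀.biUnion ve) ((A \ C₀).biUnion ve)),
        w A * ∏ C ∈ S.filter (fun C => Disjoint (A.biUnion ve) (C.biUnion ve)), (1 + w C) =
      ∑ A ∈ ((E.powerset.filter (fun A => ∀ C ∈ S, ¬ (C ⊆ A ∧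
          Disjoint (C.biUnion ve) ((A \ C).biUnion ve)))).filter
          (fun A => ¬ (C₀ ⊆ A ∧ Disjoint (C₀.biUnion ve) ((A \ C₀).biUnion ve)))).filter
          (fun A => Disjoint (A.biUnion ve) (C₀.biUnion ve)),
        w A * w C₀ * ∏ C ∈ S.filter (fun C => Disjoint (A.biUnion ve) (C.biUnion ve)),
          (1 + w C) := by
      refine sum_nbij' (fun A => A \ C₀) (fun A => A ∪ C₀) ?_ ?_ ?_ ?_ ?_
      · intro A hA
        obtain ⟨hA1, hR⟩ := mem_filter.mp hA
        obtain ⟨hAE, hP⟩ := mem_filter.mp hA1
        rw [mem_powerset] at hAE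
        refine mem_filter.mpr ⟨mem_filter.mpr ⟨mem_filter.mpr ⟨?_, ?_⟩, ?_⟩, ?_⟩
        · rw [mem_powerset]
          exact sdiff_subset.trans hAE
        · rintro C hC ⟨h1, h2⟩
          refine hP C hC ⟨h1.trans sdiff_subset, ?_⟩
          have h3 : A \ C ⊆ ((A \ C₀) \ C) ∪ C₀ := by
            intro i hi
            rw [mem_sdiff] at hi
            by_cases h : i ∈ C₀
            · exact mem_union_right _ h
            · exact mem_union_left _ (mem_sdiff.mpr ⟨mem_sdiff.mpr ⟨hi.1, h⟩, hi.2⟩)
          refine disjoint_of_subset_right (biUnion_subset_biUnion_of_subset_left ve h3) ?_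
          rw [union_biUnion, disjoint_union_right]
          exact ⟨h2, (hd C hC).symm⟩
        · rintro ⟨h1, -⟩
          obtain ⟨i, hi⟩ := h0
          exact (mem_sdiff.mp (h1 hi)).2 hi
        · exact hR.2.symm
      · intro A hA
        obtain ⟨hA1, hdA⟩ := mem_filter.mp hA
        obtain ⟨hA2, hR⟩ := mem_filter.mp hA1
        obtain ⟨hAE, hP⟩ := mem_filter.mp hA2
        rw [mem_powerset] at hAE
        refine mem_filter.mpr ⟨mem_filter.mpr ⟨?_, ?_⟩, ?_⟩
        · rw [mem_powerset]
          exact union_subset hAE hE₀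
        · rintro C hC ⟨h1, h2⟩
          have h3 : Disjoint C₀ C := hdis _ _ (hd C hC)
          refine hP C hC ⟨?_, ?_⟩
          · intro i hi
            rcases mem_union.mp (h1 hi) with h | h
            · exact h
            · exact absurd hi (Finset.disjoint_left.mp h3 h)
          · exact disjoint_of_subset_right (biUnion_subset_biUnion_of_subset_left ve
              (sdiff_subset_sdiff subset_union_left (Subset.refl C))) h2
        · refine ⟨subset_union_right, ?_⟩
          refine disjoint_of_subset_right (biUnion_subset_biUnion_of_subset_left ve ?_) hdA.symm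
          intro i hi
          rw [mem_sdiff, mem_union] at hi
          exact hi.1.resolve_right hi.2
      · intro A hA
        obtain ⟨-, hR⟩ := mem_filter.mp hA
        exact sdiff_union_of_subset hR.1
      · intro A hA
        obtain ⟨-, hdA⟩ := mem_filter.mp hA
        exact union_sdiff_cancel_right (hdis _ _ hdA)
      · intro A hA
        obtain ⟨hA1, hR⟩ := mem_filter.mp hA
        obtain ⟨hAE, hP⟩ := mem_filter.mp hA1
        rw [mem_powerset] at hAE
        have e : w A = w (A \ C₀) * w C₀ := by
          rw [← hw (A \ C₀) (sdiff_subset.trans hAE) C₀ hE₀ hR.2.symm,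
            sdiff_union_of_subset hR.1]
        have e2 : S.filter (fun C => Disjoint (A.biUnion ve) (C.biUnion ve)) =
            S.filter (fun C => Disjoint ((A \ C₀).biUnion ve) (C.biUnion ve)) := by
          apply filter_congr
          intro C hC
          have e3 : A.biUnion ve = (A \ C₀).biUnion ve ∪ C₀.biUnion ve := by
            rw [← union_biUnion, sdiff_union_of_subset hR.1]
          rw [e3, disjoint_union_left]
          exact ⟨fun h => h.1, fun h => ⟨h, hd C hC⟩⟩
        rw [e, e2]
    rw [← sum_filter_add_sum_filter_not (E.powerset.filter (fun A => ∀ C ∈ S, ¬ (C ⊆ A ∧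
          Disjoint (C.biUnion ve) ((A \ C).biUnion ve))))
          (fun A => C₀ ⊆ A ∧ Disjoint (C₀.biUnion ve) ((A \ C₀).biUnion ve)), key.trans (sum_filter _ _)]
    have hset : E.powerset.filter (fun A => ∀ C ∈ insert C₀ S, ¬ (C ⊆ A ∧
          Disjoint (C.biUnion ve) ((A \ C).biUnion ve))) =
        (E.powerset.filter (fun A => ∀ C ∈ S, ¬ (C ⊆ A ∧
          Disjoint (C.biUnion ve) ((A \ C).biUnion ve)))).filter
          (fun A => ¬ (C₀ ⊆ A ∧ Disjoint (C₀.biUnion ve) ((A \ C₀).biUnion ve))) := by
      rw [filter_filter]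
      apply filter_congr
      intro A _
      rw [forall_mem_insert]
      exact and_comm
    rw [hset, ← sum_add_distrib]
    apply sum_congr rfl
    intro A _
    rw [hprod]
    split_ifs
    · ring
    · ring

end Pool.Agent.Lib.MP_d38209_co.CR
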