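import Pool.Agent.Lib.MP_d38209_co.CR.PairCount

set_option autoImplicit false

/-!
# P4 : a random pairing has no dense small set of vertices

If `σ` is dense there are `W` with `|W| ≤ 2 g` and `|W| + 1` edges inside `W`; oriented they are a
colouring `c` of the points of `W` with `|W| + 1` tails that is compatible with the pairing.  Union
bound over `W` and `c` with `pr_comp`.
-/

namespace Pool.Agent.Lib.MP_d38209_co.CR

open Finset
open scoped Classical
open Pool.Agent.HC (Pairing av pr)

/-- The colourings that colour only points of `W`, with `s` tails. -/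
noncomputable def p4S (n d : ℕ) (W : Finset (Fin n)) (s : ℕ) : Finset (Pt n d → Option Bool) :=
  (Fintype.piFinset fun p : Pt n d => if p.1 ∈ W then (univ : Finset (Option Bool)) else {none}).filter
    fun c => plus c = s

lemma p4_card (n d : ℕ) (W : Finset (Fin n)) (s : ℕ) : (p4S n d W s).card ≤ 3 ^ (W.card * d) := by
  refine (card_filter_le _ _).trans ?_
  rw [Fintype.card_piFinset]
  have h1 : ∀ p : Pt n d, (if p.1 ∈ W then (univ : Finset (Option Bool)) else {none}).card =
      if p.1 ∈ W then 3 else 1 := by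
    intro p
    split_ifs
    · rfl
    · rfl
  simp only [h1]
  rw [prod_ite, prod_const, prod_const, one_pow, mul_one]
  refine Nat.pow_le_pow_right (by norm_num) (le_of_eq ?_)
  have h2 : (univ.filter fun p : Pt n d => p.1 ∈ W) = W ×ˢ (univ : Finset (Fin d)) := by
    ext p
    simp [mem_product]
  rw [h2, card_product, card_univ, Fintype.card_fin]

lemma p4_ex {n d : ℕ} (g : ℕ) (π : Pairing (Pt n d)) (h : Dense π.1 g) :
    ∃ v ∈ range (2 * g + 1), ∃ W ∈ powersetCard v (univ : Finset (Fin n)),
      ∃ c ∈ p4S n d W (v + 1), Comp π.1 c := by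
  obtain ⟨B, hB, h1, h2⟩ := h
  obtain ⟨B', hB', hc⟩ := exists_subset_card_eq (show (vt π.1 B).card + 1 ≤ B.card from h2)
  refine ⟨(vt π.1 B).card, by rw [mem_range]; omega, vt π.1 B, ?_, ?_⟩
  · rw [mem_powersetCard]
    exact ⟨subset_univ _, rfl⟩
  have hinv : ∀ p, π.1 (π.1 p) = p := fun p => (π.2 p).2
  have hlt : ∀ p ∈ B', p.1 < (π.1 p).1 := by
    intro p hp
    have := hB (hB' hp)
    unfold ES at this
    exact (mem_filter.1 this).2
  have hno : ∀ p ∈ B', π.1 p ∉ B' := by
    intro p hp hp'
    have h3 := hlt p hp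
    have h4 := hlt _ hp'
    rw [hinv] at h4
    exact lt_asymm h3 h4
  refine ⟨fun p => if p ∈ B' then some true else if π.1 p ∈ B' then some false else none, ?_, ?_⟩
  · unfold p4S
    rw [mem_filter, Fintype.mem_piFinset]
    constructor
    · intro p
      by_cases hp : p ∈ B'
      · have hv : p.1 ∈ vt π.1 B := by
          unfold vt
          rw [mem_biUnion]
          exact ⟨p, hB' hp, by simp⟩
        rw [if_pos hv]
        exact mem_univ _
      · by_cases hp2 : π.1 p ∈ B'
        · have hv : p.1 ∈ vt π.1 B := by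
            unfold vt
            rw [mem_biUnion]
            exact ⟨π.1 p, hB' hp2, by rw [hinv]; simp⟩
          rw [if_pos hv]
          exact mem_univ _
        · simp only [hp, hp2, if_false]
          split_ifs <;> simp
    · unfold plus
      rw [← hc]
      congr 1
      ext p
      simp only [mem_filter, mem_univ, true_and]
      constructor
      · intro h
        by_contra hp
        rw [if_neg hp] at h
        split_ifs at h
        simp at h
      · intro hp
        rw [if_pos hp]
  · intro p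
    by_cases hp : p ∈ B'
    · have h3 := hno p hp
      simp only [hinv, hp, h3, if_true, if_false]
      rfl
    · by_cases hp2 : π.1 p ∈ B'
      · simp only [hp, hp2, if_true, if_false]
        rfl
      · simp only [hinv, hp, hp2, if_false]
        rfl

theorem dense_prob (d : ℕ) (hd : 1 ≤ d) (g : ℕ) (ε : ℝ) (hε : 0 < ε) :
    ∃ n₀ : ℕ, ∀ n ≥ n₀, Even (n * d) → pr (fun π : Pairing (Pt n d) => Dense π.1 g) ≤ ε := by
  set K : ℝ := ((2 * g + 1).factorial : ℝ) * 3 ^ (2 * g * d) * 2 ^ (2 * g + 1) with hK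
  have hK0 : 0 < K := by positivity
  obtain ⟨n₁, hn₁⟩ := exists_nat_ge ((2 * g + 1) * K / ε)
  refine ⟨max n₁ (8 * g + 2), fun n hn _ => ?_⟩
  have hn1 : n₁ ≤ n := le_trans (le_max_left _ _) hn
  have hn2 : 8 * g + 2 ≤ n := le_trans (le_max_right _ _) hn
  have hnd : n ≤ n * d := Nat.le_mul_of_pos_right n hd
  have hn0 : (0 : ℝ) < n := by
    have : 0 < n := by omega
    exact_mod_cast this
  have h1 : pr (fun π : Pairing (Pt n d) => Dense π.1 g) ≤
      ∑ v ∈ range (2 * g + 1), ∑ W ∈ powersetCard v (univ : Finset (Fin n)),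
        ∑ c ∈ p4S n d W (v + 1), pr (fun π : Pairing (Pt n d) => Comp π.1 c) := by
    refine (HC.pr_mono (fun π h => p4_ex g π h)).trans ?_
    refine (HC.pr_exists_le _ _).trans (sum_le_sum fun v _ => ?_)
    refine (HC.pr_exists_le _ _).trans (sum_le_sum fun W _ => ?_)
    exact HC.pr_exists_le _ _
  have h2 : ∀ v ∈ range (2 * g + 1), ∀ W ∈ powersetCard v (univ : Finset (Fin n)),
      ∑ c ∈ p4S n d W (v + 1), pr (fun π : Pairing (Pt n d) => Comp π.1 c) ≤
        K / (n : ℝ) ^ (v + 1) := by
    intro v hv W hW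
    rw [mem_range] at hv
    rw [mem_powersetCard] at hW
    have h3 : ∀ c ∈ p4S n d W (v + 1), pr (fun π : Pairing (Pt n d) => Comp π.1 c) ≤
        ((2 * g + 1).factorial : ℝ) * (2 / n) ^ (v + 1) := by
      intro c hc
      unfold p4S at hc
      rw [mem_filter] at hc
      refine (pr_comp (s := v + 1) (by omega) c hc.2).trans ?_
      split_ifs
      · have h5 : ((n : ℝ) / 2) ^ (v + 1) ≤ ∏ i ∈ range (v + 1), ((n * d : ℝ) - 2 * i - 1) := by
          rw [← Finset.card_range (v + 1), ← prod_const, Finset.card_range]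
          refine prod_le_prod (fun i _ => by positivity) (fun i hi => ?_)
          rw [mem_range] at hi
          have h6 : (8 : ℝ) * g + 2 ≤ n := by exact_mod_cast hn2
          have h7 : (n : ℝ) ≤ n * d := by exact_mod_cast hnd
          have h8 : (i : ℝ) ≤ 2 * g := by
            have : i ≤ 2 * g := by omega
            exact_mod_cast this
          linarith
        have h6 : ((v + 1).factorial : ℝ) ≤ ((2 * g + 1).factorial : ℝ) := by
          have : (v + 1).factorial ≤ (2 * g + 1).factorial := Nat.factorial_le (by omega)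
          exact_mod_cast this
        have h7 : (0 : ℝ) < ((n : ℝ) / 2) ^ (v + 1) := by positivity
        calc ((v + 1).factorial : ℝ) / ∏ i ∈ range (v + 1), ((n * d : ℝ) - 2 * i - 1)
            ≤ ((2 * g + 1).factorial : ℝ) / ((n : ℝ) / 2) ^ (v + 1) :=
              div_le_div₀ (by positivity) h6 h7 h5
          _ = ((2 * g + 1).factorial : ℝ) * (2 / n) ^ (v + 1) := by
              rw [div_eq_mul_inv, ← inv_pow, inv_div]
      · positivity
    refine (sum_le_card_nsmul _ _ _ h3).trans ?_
    rw [nsmul_eq_mul]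
    have h4 : ((p4S n d W (v + 1)).card : ℝ) ≤ 3 ^ (2 * g * d) := by
      have h5 := p4_card n d W (v + 1)
      have h6 : 3 ^ (W.card * d) ≤ 3 ^ (2 * g * d) := by
        refine Nat.pow_le_pow_right (by norm_num) (Nat.mul_le_mul_right _ ?_)
        omega
      exact_mod_cast h5.trans h6
    have h5 : (2 : ℝ) ^ (v + 1) ≤ 2 ^ (2 * g + 1) := pow_le_pow_right₀ (by norm_num) (by omega)
    have h7 : (0 : ℝ) ≤ ((2 * g + 1).factorial : ℝ) := by positivity
    rw [div_pow, hK]
    calc ((p4S n d W (v + 1)).card : ℝ) * (((2 * g + 1).factorial : ℝ) * (2 ^ (v + 1) / (n : ℝ) ^ (v + 1)))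
        ≤ 3 ^ (2 * g * d) * (((2 * g + 1).factorial : ℝ) * (2 ^ (2 * g + 1) / (n : ℝ) ^ (v + 1))) := by
          refine mul_le_mul h4 ?_ (by positivity) (by positivity)
          refine mul_le_mul_of_nonneg_left ?_ h7
          exact div_le_div_of_nonneg_right h5 (by positivity)
      _ = _ := by ring
  have h3 : ∀ v ∈ range (2 * g + 1), ∑ W ∈ powersetCard v (univ : Finset (Fin n)),
        ∑ c ∈ p4S n d W (v + 1), pr (fun π : Pairing (Pt n d) => Comp π.1 c) ≤ K / n := by
    intro v hv
    refine (sum_le_card_nsmul _ _ _ (h2 v hv)).trans ?_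
    rw [nsmul_eq_mul, card_powersetCard, card_univ, Fintype.card_fin]
    have h4 : ((n.choose v : ℕ) : ℝ) ≤ (n : ℝ) ^ v := by
      exact_mod_cast Nat.choose_le_pow n v
    calc ((n.choose v : ℕ) : ℝ) * (K / (n : ℝ) ^ (v + 1)) ≤ (n : ℝ) ^ v * (K / (n : ℝ) ^ (v + 1)) :=
          mul_le_mul_of_nonneg_right h4 (by positivity)
      _ = K / n := by
          rw [pow_succ]
          field_simp
  refine h1.trans ((sum_le_card_nsmul _ _ _ h3).trans ?_)
  rw [card_range, nsmul_eq_mul]
  have h4 : (2 * (g : ℝ) + 1) * K / ε ≤ n := hn₁.trans (by exact_mod_cast hn1)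
  rw [div_le_iff₀ hε] at h4
  push_cast
  rw [mul_div_assoc', div_le_iff₀ hn0]
  linarith

end Pool.Agent.Lib.MP_d38209_co.CR
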