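import Pool.Agent.Lib.MP_d38209_co.CR.FlowBasic

set_option autoImplicit false

namespace Pool.Agent.Lib.MP_d38209_co.CR

open Finset
open scoped Classical

section Flow
variable {V : Type}

theorem tc_nil (f : V → V) : tcount f ([] : List (V × V)) = 1 := by
  have h : (univ.filter fun o : Fin ([] : List (V × V)).length → Bool => TC f [] o) = univ := by
    apply Finset.filter_true_of_mem
    intro o _ S _ _ i
    exact i.elim0
  unfold tcount
  rw [h, Finset.card_univ]
  rfl

/-- The set `S` is invariant. -/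
def InvS (f : V → V) (S : Set V) : Prop := ∀ x y, f x = f y → (x ∈ S ↔ y ∈ S)

/-- `S` is closed. -/
def ClS (L : List (V × V)) (o : Fin L.length → Bool) (S : Set V) : Prop :=
  ∀ i, (o i = true → (L.get i).1 ∈ S → (L.get i).2 ∈ S) ∧
    (o i = false → (L.get i).2 ∈ S → (L.get i).1 ∈ S)

theorem tc_cons (f : V → V) (e : V × V) (L : List (V × V)) (b : Bool) (o : Fin L.length → Bool)
    (h : ∀ S : Set V, InvS f S → (b = true → e.1 ∈ S → e.2 ∈ S) → (b = false → e.2 ∈ S → e.1 ∈ S) →
      ClS L o S → (e.1 ∈ S ↔ e.2 ∈ S) ∧ ∀ i, ((L.get i).1 ∈ S ↔ (L.get i).2 ∈ S)) :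
    TC f (e :: L) (Fin.cons b o : Fin (L.length + 1) → Bool) := by
  intro S hS hc
  have h0 := hc (0 : Fin (L.length + 1))
  have hs : ClS L o S := fun i => hc (Fin.succ i)
  have := h S hS h0.1 h0.2 hs
  intro i
  refine Fin.cases ?_ ?_ i
  · exact this.1
  · exact this.2

theorem tc_cons_of (f : V → V) (e : V × V) (L : List (V × V))
    (hb : ∀ S : Set V, Sep f L S → (e.1 ∈ S ↔ e.2 ∈ S)) (b : Bool) (o : Fin L.length → Bool)
    (ho : TC f L o) : TC f (e :: L) (Fin.cons b o : Fin (L.length + 1) → Bool) := by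
  apply tc_cons
  intro S hS _ _ hc
  have h1 := ho S hS hc
  refine ⟨hb S ⟨hS, ?_⟩, h1⟩
  intro e' he'
  obtain ⟨i, hi⟩ := List.get_of_mem he'
  rw [← hi]
  exact h1 i

theorem tc_loop (f : V → V) (e : V × V) (L : List (V × V)) (he : f e.1 = f e.2) :
    2 * tcount f L ≤ tcount f (e :: L) := by
  have hinj : Function.Injective (fun p : Bool × (Fin L.length → Bool) =>
      (Fin.cons p.1 p.2 : Fin (L.length + 1) → Bool)) := by
    intro p q h
    have := Fin.cons_inj.1 h
    exact Prod.ext this.1 this.2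
  have h1 : ((univ : Finset Bool) ×ˢ (univ.filter fun o : Fin L.length → Bool => TC f L o)).card =
      2 * tcount f L := by
    rw [Finset.card_product]
    rfl
  rw [← h1]
  refine Finset.card_le_card_of_injOn (fun p : Bool × (Fin L.length → Bool) =>
      (Fin.cons p.1 p.2 : Fin (L.length + 1) → Bool)) ?_ hinj.injOn
  intro p hp
  have hp' : p ∈ ((univ : Finset Bool) ×ˢ (univ.filter fun o : Fin L.length → Bool => TC f L o)) :=
    hp
  rw [Finset.mem_product, Finset.mem_filter] at hp'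
  have : TC f (e :: L) (Fin.cons p.1 p.2 : Fin (L.length + 1) → Bool) :=
    tc_cons_of f e L (fun S hS => hS.1 _ _ he) p.1 p.2 hp'.2.2
  exact Finset.mem_coe.2 (Finset.mem_filter.2 ⟨Finset.mem_univ _, this⟩)

theorem inv_merge {f : V → V} {a b : V} {S : Set V} (hS : InvS f S) (hab : a ∈ S ↔ b ∈ S) :
    InvS (merge f a b) S := by
  intro x y hxy
  rw [merge_ker] at hxy
  rcases hxy with h | ⟨h, h'⟩ | ⟨h, h'⟩
  · exact hS x y h
  · rw [hS x a h, hS y b h', hab]
  · rw [hS x b h, hS y a h', hab]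

theorem tc_one (f : V → V) (e : V × V) (L : List (V × V))
    (hb : ∀ S : Set V, Sep f L S → (e.1 ∈ S ↔ e.2 ∈ S)) (o : Fin L.length → Bool)
    (ho : TC (merge f e.1 e.2) L o) :
    ∃ b : Bool, TC f (e :: L) (Fin.cons b o : Fin (L.length + 1) → Bool) := by
  by_contra hno
  push Not at hno
  have h1 : ∃ S : Set V, InvS f S ∧ e.1 ∉ S ∧ e.2 ∈ S ∧ ClS L o S := by
    by_contra hn
    apply hno true
    apply tc_cons
    intro S hS ht _ hc
    by_cases h12 : e.1 ∈ S ↔ e.2 ∈ S
    · exact ⟨h12, ho S (inv_merge hS h12) hc⟩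
    · exfalso
      have h3 : e.1 ∉ S := fun h3 => h12 ⟨fun _ => ht rfl h3, fun _ => h3⟩
      have h4 : e.2 ∈ S := by
        by_contra h4
        exact h12 ⟨fun h => absurd h h3, fun h => absurd h h4⟩
      exact hn ⟨S, hS, h3, h4, hc⟩
  have h2 : ∃ S : Set V, InvS f S ∧ e.1 ∈ S ∧ e.2 ∉ S ∧ ClS L o S := by
    by_contra hn
    apply hno false
    apply tc_cons
    intro S hS _ ht hc
    by_cases h12 : e.1 ∈ S ↔ e.2 ∈ S
    · exact ⟨h12, ho S (inv_merge hS h12) hc⟩
    · exfalso
      have h3 : e.2 ∉ S := fun h3 => h12 ⟨fun _ => h3, fun _ => ht rfl h3⟩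
      have h4 : e.1 ∈ S := by
        by_contra h4
        exact h12 ⟨fun h => absurd h h4, fun h => absurd h h3⟩
      exact hn ⟨S, hS, h4, h3, hc⟩
  obtain ⟨S, hS, hS1, hS2, hSc⟩ := h1
  obtain ⟨T, hT, hT1, hT2, hTc⟩ := h2
  have hi := ho (S ∩ T) (inv_merge (fun x y h => and_congr (hS x y h) (hT x y h))
    ⟨fun h => absurd h.1 hS1, fun h => absurd h.2 hT2⟩)
    (fun i => ⟨fun h h' => ⟨(hSc i).1 h h'.1, (hTc i).1 h h'.2⟩,
      fun h h' => ⟨(hSc i).2 h h'.1, (hTc i).2 h h'.2⟩⟩)
  have hu := ho (S ∪ T) (inv_merge (fun x y h => or_congr (hS x y h) (hT x y h))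
    ⟨fun _ => Or.inl hS2, fun _ => Or.inr hT1⟩)
    (fun i => ⟨fun h h' => h'.imp ((hSc i).1 h) ((hTc i).1 h),
      fun h h' => h'.imp ((hSc i).2 h) ((hTc i).2 h)⟩)
  have hsep : Sep f L S := by
    refine ⟨hS, ?_⟩
    intro e' he'
    obtain ⟨i, hi'⟩ := List.get_of_mem he'
    rw [← hi']
    have a1 := hi i
    have a2 := hu i
    have a3 := hSc i
    have a4 := hTc i
    simp only [Set.mem_inter_iff, Set.mem_union] at a1 a2
    cases hoi : o i
    · have b3 := a3.2 hoi
      have b4 := a4.2 hoi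
      refine ⟨fun h => ?_, b3⟩
      rcases a2.1 (Or.inl h) with h5 | h5
      · exact h5
      · exact (a1.1 ⟨h, b4 h5⟩).1
    · have b3 := a3.1 hoi
      have b4 := a4.1 hoi
      refine ⟨b3, fun h => ?_⟩
      rcases a2.2 (Or.inl h) with h5 | h5
      · exact h5
      · exact (a1.2 ⟨h, b4 h5⟩).1
  exact hS1 ((hb S hsep).2 hS2)

theorem tc_merge_of (f : V → V) (a b : V) (L : List (V × V)) (o : Fin L.length → Bool)
    (ho : TC f L o) : TC (merge f a b) L o := by
  intro S hS hc
  exact ho S (fun x y h => hS x y ((merge_ker f a b x y).2 (Or.inl h))) hc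

theorem tc_step (f : V → V) (e : V × V) (L : List (V × V)) (he : f e.1 ≠ f e.2)
    (hb : ∀ S : Set V, Sep f L S → (e.1 ∈ S ↔ e.2 ∈ S)) :
    tcount (merge f e.1 e.2) L + tcount f L ≤ tcount f (e :: L) := by
  have hex : ∀ o : Fin L.length → Bool, ∃ b : Bool, TC (merge f e.1 e.2) L o →
      TC f (e :: L) (Fin.cons b o : Fin (L.length + 1) → Bool) := by
    intro o
    by_cases ho : TC (merge f e.1 e.2) L o
    · obtain ⟨b, hb'⟩ := tc_one f e L hb o ho
      exact ⟨b, fun _ => hb'⟩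
    · exact ⟨true, fun h => absurd h ho⟩
  choose β hβ using hex
  let A := univ.filter fun o : Fin L.length → Bool => TC (merge f e.1 e.2) L o
  let B := univ.filter fun o : Fin L.length → Bool => TC f L o
  let g1 : (Fin L.length → Bool) → (Fin (L.length + 1) → Bool) := fun o => Fin.cons (β o) o
  let g2 : (Fin L.length → Bool) → (Fin (L.length + 1) → Bool) := fun o => Fin.cons (!β o) o
  have i1 : Function.Injective g1 := fun o o' h => (Fin.cons_inj.1 h).2
  have i2 : Function.Injective g2 := fun o o' h => (Fin.cons_inj.1 h).2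
  have hd : Disjoint (A.image g1) (B.image g2) := by
    rw [Finset.disjoint_left]
    intro u hu1 hu2
    obtain ⟨o, _, rfl⟩ := Finset.mem_image.1 hu1
    obtain ⟨o', _, h⟩ := Finset.mem_image.1 hu2
    have h' := Fin.cons_inj.1 h
    have h'' := h'.1
    rw [h'.2] at h''
    cases hx : β o <;> simp [hx] at h''
  have hc1 : (A.image g1).card = tcount (merge f e.1 e.2) L :=
    Finset.card_image_of_injective A i1
  have hc2 : (B.image g2).card = tcount f L := Finset.card_image_of_injective B i2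
  rw [← hc1, ← hc2, ← Finset.card_union_of_disjoint hd]
  unfold tcount
  apply Finset.card_le_card
  intro u hu
  refine Finset.mem_filter.2 ⟨Finset.mem_univ _, ?_⟩
  rcases Finset.mem_union.1 hu with hu | hu
  · obtain ⟨o, ho, rfl⟩ := Finset.mem_image.1 hu
    exact hβ o (Finset.mem_filter.1 ho).2
  · obtain ⟨o, ho, rfl⟩ := Finset.mem_image.1 hu
    exact tc_cons_of f e L hb _ o (Finset.mem_filter.1 ho).2

end Flow

end Pool.Agent.Lib.MP_d38209_co.CR
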