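import Pool.Agent.Lib.MP_d38209_co.CR.FlowBasic
import Pool.Agent.Lib.MP_d38209_co.CR.TCount

set_option autoImplicit false

namespace Pool.Agent.Lib.MP_d38209_co.CR

open Finset
open scoped Classical

section Flow
variable {V : Type}

theorem flow_bound (q : ℂ) (hq : 2 ≤ ‖q - 1‖) (L : List (V × V)) (f : V → V) :
    ‖flow q f L‖ ≤ (‖q - 1‖ / 2) ^ nul f L * tcount f L := by
  have hr : 1 ≤ ‖q - 1‖ / 2 := by linarith
  have hr0 : 0 ≤ ‖q - 1‖ / 2 := by linarith
  induction L generalizing f with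
  | nil =>
    rw [tc_nil]
    simp [flow, nul]
  | cons e L ih =>
    by_cases he : f e.1 = f e.2
    · rw [flow, nul, if_pos he, if_pos he, norm_mul]
      have h1 := ih f
      have h2 : (2 * tcount f L : ℝ) ≤ tcount f (e :: L) := by
        exact_mod_cast tc_loop f e L he
      calc ‖q - 1‖ * ‖flow q f L‖
          ≤ ‖q - 1‖ * ((‖q - 1‖ / 2) ^ nul f L * tcount f L) :=
            mul_le_mul_of_nonneg_left h1 (norm_nonneg _)
        _ = (‖q - 1‖ / 2) ^ (nul f L + 1) * (2 * tcount f L) := by ring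
        _ ≤ (‖q - 1‖ / 2) ^ (nul f L + 1) * tcount f (e :: L) :=
            mul_le_mul_of_nonneg_left h2 (pow_nonneg hr0 _)
    · rw [flow, nul, if_neg he, if_neg he]
      by_cases hb : ∀ S : Set V, Sep f L S → (e.1 ∈ S ↔ e.2 ∈ S)
      · have h3 : (tcount (merge f e.1 e.2) L + tcount f L : ℝ) ≤ tcount f (e :: L) := by
          exact_mod_cast tc_step f e L he hb
        have h4 : (‖q - 1‖ / 2) ^ nul f L ≤ (‖q - 1‖ / 2) ^ nul (merge f e.1 e.2) L :=
          pow_le_pow_right₀ hr (nul_merge L f e.1 e.2)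
        calc ‖flow q (merge f e.1 e.2) L - flow q f L‖
            ≤ ‖flow q (merge f e.1 e.2) L‖ + ‖flow q f L‖ := norm_sub_le _ _
          _ ≤ (‖q - 1‖ / 2) ^ nul (merge f e.1 e.2) L * tcount (merge f e.1 e.2) L +
              (‖q - 1‖ / 2) ^ nul f L * tcount f L := add_le_add (ih _) (ih _)
          _ ≤ (‖q - 1‖ / 2) ^ nul (merge f e.1 e.2) L * tcount (merge f e.1 e.2) L +
              (‖q - 1‖ / 2) ^ nul (merge f e.1 e.2) L * tcount f L :=
              add_le_add le_rfl (mul_le_mul_of_nonneg_right h4 (Nat.cast_nonneg _))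
          _ = (‖q - 1‖ / 2) ^ nul (merge f e.1 e.2) L *
              (tcount (merge f e.1 e.2) L + tcount f L) := by ring
          _ ≤ _ := mul_le_mul_of_nonneg_left h3 (pow_nonneg hr0 _)
      · push Not at hb
        obtain ⟨S, hS, hne⟩ := hb
        have hz : flow q (merge f e.1 e.2) L = flow q f L := by
          rcases hne with ⟨h1, h2⟩ | ⟨h1, h2⟩
          · exact flow_bridge q L f S hS _ _ h1 h2
          · refine flow_bridge q L f Sᶜ ⟨fun x y h => not_congr (hS.1 x y h),
              fun e' he' => not_congr (hS.2 e' he')⟩ _ _ h1 (fun h => h h2)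
        rw [hz, sub_self, norm_zero]
        exact mul_nonneg (pow_nonneg hr0 _) (Nat.cast_nonneg _)

end Flow

end Pool.Agent.Lib.MP_d38209_co.CR
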