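import Pool.Agent.Lib.MP_d38209_co.CR.Decomp

set_option autoImplicit false

/-!
# The sum over all sets does not vanish
-/

namespace Pool.Agent.Lib.MP_d38209_co.CR

open Finset
open scoped Classical

theorem exp_le_one_sub {b : ℝ} (h0 : 0 ≤ b) (h1 : b ≤ 1 / 2) : Real.exp (-(2 * b)) ≤ 1 - b := by
  have hpos : 0 < 1 - b := by linarith
  have h2 : 1 - (1 - b)⁻¹ ≤ Real.log (1 - b) := Real.one_sub_inv_le_log_of_pos hpos
  have h3 : -(2 * b) ≤ 1 - (1 - b)⁻¹ := by
    have h4 : (1 - b)⁻¹ ≤ 1 + 2 * b := by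
      rw [inv_le_iff_one_le_mul₀ hpos]
      nlinarith
    linarith
  calc Real.exp (-(2 * b)) ≤ Real.exp (Real.log (1 - b)) := Real.exp_le_exp.mpr (h3.trans h2)
    _ = 1 - b := Real.exp_log hpos

theorem nonzero {ι V : Type} [DecidableEq ι] [DecidableEq V] (E : Finset ι) (ve : ι → Finset V)
    (hve : ∀ i, (ve i).Nonempty) (S : Finset (Finset ι)) (hSE : ∀ C ∈ S, C ⊆ E)
    (hS0 : ∀ C ∈ S, C.Nonempty)
    (hSd : ∀ C ∈ S, ∀ C' ∈ S, C ≠ C' → Disjoint (C.biUnion ve) (C'.biUnion ve))
    (w : Finset ι → ℂ) (hw1 : w ∅ = 1)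
    (hw : ∀ A ⊆ E, ∀ B ⊆ E, Disjoint (A.biUnion ve) (B.biUnion ve) → w (A ∪ B) = w A * w B)
    (b : Finset ι → ℝ) (hb : ∀ A ⊆ E, ‖w A‖ ≤ b A) (hS : ∀ C ∈ S, b C ≤ 1 / 2) (X Z : ℝ)
    (hX : ∑ C ∈ S, b C ≤ X)
    (hZ : ∑ A ∈ E.powerset.filter (fun A => A.Nonempty ∧ ∀ C ∈ S, ¬ (C ⊆ A ∧
          Disjoint (C.biUnion ve) ((A \ C).biUnion ve))), b A ≤ Z)
    (hXZ : Z * Real.exp (3 * X) < 1) :
    ∑ A ∈ E.powerset, w A ≠ 0 := by
  intro h0
  have hb0 : ∀ A ⊆ E, 0 ≤ b A := fun A hA => (norm_nonneg _).trans (hb A hA)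
  rw [decomp E ve hve S hSE hS0 hSd w hw] at h0
  -- the empty set
  have hmem : (∅ : Finset ι) ∈ E.powerset.filter (fun A => ∀ C ∈ S, ¬ (C ⊆ A ∧
      Disjoint (C.biUnion ve) ((A \ C).biUnion ve))) := by
    refine mem_filter.mpr ⟨empty_mem_powerset E, ?_⟩
    rintro C hC ⟨h1, -⟩
    exact (hS0 C hC).ne_empty (subset_empty.mp h1)
  rw [← add_sum_erase _ _ hmem] at h0
  have hset : (E.powerset.filter (fun A => ∀ C ∈ S, ¬ (C ⊆ A ∧
      Disjoint (C.biUnion ve) ((A \ C).biUnion ve)))).erase ∅ =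
      E.powerset.filter (fun A => A.Nonempty ∧ ∀ C ∈ S, ¬ (C ⊆ A ∧
          Disjoint (C.biUnion ve) ((A \ C).biUnion ve))) := by
    ext A
    rw [mem_erase, mem_filter, mem_filter, nonempty_iff_ne_empty]
    tauto
  rw [hset] at h0
  have hfil : S.filter (fun C => Disjoint ((∅ : Finset ι).biUnion ve) (C.biUnion ve)) = S := by
    apply filter_true_of_mem
    intro C _
    rw [biUnion_empty]
    exact disjoint_empty_left _
  rw [hfil, hw1, one_mul] at h0
  have h1 : ‖∏ C ∈ S, (1 + w C)‖ = ‖∑ A ∈ E.powerset.filter (fun A => A.Nonempty ∧ ∀ C ∈ S,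
      ¬ (C ⊆ A ∧ Disjoint (C.biUnion ve) ((A \ C).biUnion ve))),
      w A * ∏ C ∈ S.filter (fun C => Disjoint (A.biUnion ve) (C.biUnion ve)), (1 + w C)‖ := by
    rw [eq_neg_of_add_eq_zero_left h0, norm_neg]
  -- lower bound
  have hlow : Real.exp (-(2 * X)) ≤ ‖∏ C ∈ S, (1 + w C)‖ := by
    rw [norm_prod]
    calc Real.exp (-(2 * X)) ≤ Real.exp (∑ C ∈ S, -(2 * b C)) := by
          apply Real.exp_le_exp.mpr
          rw [sum_neg_distrib, ← mul_sum]
          linarith
      _ = ∏ C ∈ S, Real.exp (-(2 * b C)) := Real.exp_sum _ _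
      _ ≤ ∏ C ∈ S, ‖1 + w C‖ := by
          apply prod_le_prod
          · intro C _
            exact (Real.exp_pos _).le
          · intro C hC
            have h2 := exp_le_one_sub (hb0 C (hSE C hC)) (hS C hC)
            have h3 : ‖(1 : ℂ)‖ ≤ ‖1 + w C‖ + ‖w C‖ := by
              calc ‖(1 : ℂ)‖ = ‖(1 + w C) - w C‖ := by
                    congr 1
                    ring
                _ ≤ ‖1 + w C‖ + ‖w C‖ := norm_sub_le _ _
            rw [norm_one] at h3
            have h4 := hb C (hSE C hC)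
            linarith
  -- upper bound
  have hup : ‖∑ A ∈ E.powerset.filter (fun A => A.Nonempty ∧ ∀ C ∈ S,
      ¬ (C ⊆ A ∧ Disjoint (C.biUnion ve) ((A \ C).biUnion ve))),
      w A * ∏ C ∈ S.filter (fun C => Disjoint (A.biUnion ve) (C.biUnion ve)), (1 + w C)‖ ≤
      Z * Real.exp X := by
    calc _ ≤ ∑ A ∈ E.powerset.filter (fun A => A.Nonempty ∧ ∀ C ∈ S,
          ¬ (C ⊆ A ∧ Disjoint (C.biUnion ve) ((A \ C).biUnion ve))), b A * Real.exp X := by
          refine norm_sum_le_of_le _ ?_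
          intro A hA
          obtain ⟨hAE, -⟩ := mem_filter.mp hA
          rw [mem_powerset] at hAE
          rw [norm_mul, norm_prod]
          refine mul_le_mul (hb A hAE) ?_ (prod_nonneg fun C _ => norm_nonneg _) (hb0 A hAE)
          calc ∏ C ∈ S.filter (fun C => Disjoint (A.biUnion ve) (C.biUnion ve)), ‖1 + w C‖
              ≤ ∏ C ∈ S.filter (fun C => Disjoint (A.biUnion ve) (C.biUnion ve)),
                  Real.exp (b C) := by
                apply prod_le_prod
                · intro C _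
                  exact norm_nonneg _
                · intro C hC
                  have hCE := hSE C (mem_filter.mp hC).1
                  calc ‖1 + w C‖ ≤ ‖(1 : ℂ)‖ + ‖w C‖ := norm_add_le _ _
                    _ ≤ 1 + b C := by
                      rw [norm_one]
                      linarith [hb C hCE]
                    _ ≤ Real.exp (b C) := by
                      linarith [Real.add_one_le_exp (b C)]
            _ = Real.exp (∑ C ∈ S.filter (fun C => Disjoint (A.biUnion ve) (C.biUnion ve)),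
                  b C) := (Real.exp_sum _ _).symm
            _ ≤ Real.exp X := by
                apply Real.exp_le_exp.mpr
                refine le_trans ?_ hX
                exact sum_le_sum_of_subset_of_nonneg (filter_subset _ _)
                  (fun C hC _ => hb0 C (hSE C hC))
      _ = (∑ A ∈ E.powerset.filter (fun A => A.Nonempty ∧ ∀ C ∈ S,
          ¬ (C ⊆ A ∧ Disjoint (C.biUnion ve) ((A \ C).biUnion ve))), b A) * Real.exp X := by
          rw [sum_mul]
      _ ≤ Z * Real.exp X := mul_le_mul_of_nonneg_right hZ (Real.exp_pos _).le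
  have hfin : Real.exp (-(2 * X)) ≤ Z * Real.exp X := by
    calc _ ≤ _ := hlow
      _ = _ := h1
      _ ≤ _ := hup
  have h5 : (1 : ℝ) ≤ Z * Real.exp (3 * X) := by
    calc (1 : ℝ) = Real.exp (-(2 * X)) * Real.exp (2 * X) := by
          rw [← Real.exp_add, neg_add_cancel, Real.exp_zero]
      _ ≤ Z * Real.exp X * Real.exp (2 * X) :=
          mul_le_mul_of_nonneg_right hfin (Real.exp_pos _).le
      _ = Z * Real.exp (3 * X) := by
          rw [mul_assoc, ← Real.exp_add]
          congr 2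
          ring
  linarith

end Pool.Agent.Lib.MP_d38209_co.CR
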