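import Pool.Agent.Lib.MP_d38209_co.CR.Defs

set_option autoImplicit false

/-!
# Totally cyclic orientations have no source and no sink
-/

namespace Pool.Agent.Lib.MP_d38209_co.CR

open Finset
open scoped Classical

variable {n d : ℕ}

/-- the edges of the list are the points of `A` -/
theorem f6_index {σ : Pt n d → Pt n d} {A : Finset (Pt n d)} (hA : A ⊆ ES σ) :
    ∃ g : Fin (lst σ A).length → Pt n d, Function.Injective g ∧
      (∀ i, (lst σ A).get i = en σ (g i)) ∧ ∀ p, p ∈ A ↔ ∃ i, g i = p := by
  have hlen : (lst σ A).length = ((ES σ).toList.filter (· ∈ A)).length := by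
    unfold lst
    rw [List.length_map]
  have hnd : ((ES σ).toList.filter (· ∈ A)).Nodup := (Finset.nodup_toList _).filter _
  refine ⟨fun i => ((ES σ).toList.filter (· ∈ A)).get (i.cast hlen), ?_, ?_, ?_⟩
  · intro i j hij
    have h1 := List.nodup_iff_injective_get.1 hnd hij
    exact Fin.cast_injective hlen h1
  · intro i
    simp only [lst, List.get_eq_getElem, List.getElem_map, Fin.val_cast]
  · intro p
    constructor
    · intro hp
      have h1 : p ∈ (ES σ).toList.filter (· ∈ A) := by
        rw [List.mem_filter, Finset.mem_toList]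
        exact ⟨hA hp, by simpa using hp⟩
      obtain ⟨i, hi⟩ := List.mem_iff_get.1 h1
      exact ⟨i.cast hlen.symm, hi⟩
    · rintro ⟨i, rfl⟩
      have h1 := List.get_mem ((ES σ).toList.filter (· ∈ A)) (i.cast hlen)
      have h2 := (List.mem_filter.1 h1).2
      simpa using h2

/-- totally cyclic orientations have no source and no sink -/
theorem tcount_le_NS {σ : Pt n d → Pt n d} (hσ : WGood σ) {A : Finset (Pt n d)} (hA : A ⊆ ES σ) :
    tcount id (lst σ A) ≤ NS σ A := by
  obtain ⟨g, hg, hget, hmem⟩ := f6_index hA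
  -- the other end of an edge of `A` is not in `A`
  have hES : ∀ p, p ∈ A → σ p ∉ ES σ := by
    intro p hp h1
    have h2 := (Finset.mem_filter.1 (hA hp)).2
    have h3 := (Finset.mem_filter.1 h1).2
    rw [hσ.inv] at h3
    exact absurd h2 (not_lt.2 h3.le)
  let ψ : (Fin (lst σ A).length → Bool) → Pt n d → Option Bool := fun o p =>
    if h : ∃ i, g i = p then some (o h.choose)
    else if h : ∃ i, g i = σ p then some (!(o h.choose)) else none
  have hψ1 : ∀ o i, ψ o (g i) = some (o i) := by
    intro o i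
    have h : ∃ j, g j = g i := ⟨i, rfl⟩
    have h1 : h.choose = i := hg h.choose_spec
    simp only [ψ, dif_pos h, h1]
  have hψ2 : ∀ o i, ψ o (σ (g i)) = some (!(o i)) := by
    intro o i
    have h0 : ¬ ∃ j, g j = σ (g i) := fun h =>
      hES (g i) ((hmem _).2 ⟨i, rfl⟩) (hA ((hmem _).2 h))
    have h : ∃ j, g j = σ (σ (g i)) := ⟨i, (hσ.inv _).symm⟩
    have h1 : h.choose = i := hg (h.choose_spec.trans (hσ.inv _))
    simp only [ψ, dif_neg h0, dif_pos h, h1]
  have hψ0 : ∀ o p, p ∉ A → σ p ∉ A → ψ o p = none := by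
    intro o p h1 h2
    rw [hmem] at h1 h2
    simp only [ψ, dif_neg h1, dif_neg h2]
  have hcases : ∀ p, (∃ i, p = g i) ∨ (∃ i, p = σ (g i)) ∨ (p ∉ A ∧ σ p ∉ A) := by
    intro p
    by_cases h1 : p ∈ A
    · obtain ⟨i, hi⟩ := (hmem p).1 h1
      exact Or.inl ⟨i, hi.symm⟩
    · by_cases h2 : σ p ∈ A
      · obtain ⟨i, hi⟩ := (hmem (σ p)).1 h2
        exact Or.inr (Or.inl ⟨i, by rw [hi, hσ.inv]⟩)
      · exact Or.inr (Or.inr ⟨h1, h2⟩)
  have hcomp : ∀ o, Comp σ (ψ o) := by
    intro o p
    rcases hcases p with ⟨i, rfl⟩ | ⟨i, rfl⟩ | ⟨h1, h2⟩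
    · rw [hψ2, hψ1]
      rfl
    · rw [hσ.inv, hψ1, hψ2]
      simp
    · rw [hψ0 o p h1 h2, hψ0 o (σ p) h2 (by rw [hσ.inv]; exact h1)]
      rfl
  have hsupp : ∀ o, supp σ (ψ o) = A := by
    intro o
    ext p
    rw [supp, Finset.mem_filter]
    constructor
    · rintro ⟨h1, h2⟩
      rcases hcases p with ⟨i, rfl⟩ | ⟨i, rfl⟩ | ⟨h3, h4⟩
      · exact (hmem _).2 ⟨i, rfl⟩
      · exact absurd h1 (hES (g i) ((hmem _).2 ⟨i, rfl⟩))
      · exact absurd (hψ0 o p h3 h4) h2
    · intro h1
      refine ⟨hA h1, ?_⟩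
      obtain ⟨i, rfl⟩ := (hmem p).1 h1
      rw [hψ1]
      exact Option.some_ne_none _
  -- an edge at `v`
  have hedge : ∀ (o : Fin (lst σ A).length → Bool) (v : Fin n), (∃ j, ψ o (v, j) ≠ none) →
      ¬ ∀ i, (((lst σ A).get i).1 = v ↔ ((lst σ A).get i).2 = v) := by
    rintro o v ⟨j, hj⟩ hall
    rcases hcases (v, j) with ⟨i, hi⟩ | ⟨i, hi⟩ | ⟨h3, h4⟩
    · have h1 := hall i
      rw [hget] at h1
      simp only [en, ← hi] at h1
      have h2 := h1.1 trivial
      exact hσ.ne (v, j) (wg_live (hcomp o) hj) h2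
    · have h1 := hall i
      rw [hget] at h1
      simp only [en, ← hi] at h1
      have h2 := h1.2 trivial
      apply hσ.ne (g i) (wg_es (hA ((hmem _).2 ⟨i, rfl⟩)))
      rw [h2, ← hi]
    · exact hj (hψ0 o _ h3 h4)
  have hvalid : ∀ o, TC id (lst σ A) o → Valid (ψ o) := by
    intro o hTC v hv
    constructor
    · by_contra hno
      push Not at hno
      refine hedge o v hv ?_
      have h1 := hTC {x | x = v} (fun x y hxy => by
        have hxy' : x = y := hxy
        rw [hxy']) (fun i => ?_)
      · intro i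
        simpa using h1 i
      · rw [hget]
        simp only [en]
        constructor
        · intro h2 h3
          exfalso
          have h3' : (g i).1 = v := h3
          apply hno (g i).2
          rw [← h3', Prod.mk.eta, hψ1, h2]
        · intro h2 h3
          exfalso
          have h3' : (σ (g i)).1 = v := h3
          apply hno (σ (g i)).2
          rw [← h3', Prod.mk.eta, hψ2, h2]
          rfl
    · by_contra hno
      push Not at hno
      refine hedge o v hv ?_
      have h1 := hTC {x | x ≠ v} (fun x y hxy => by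
        have hxy' : x = y := hxy
        rw [hxy']) (fun i => ?_)
      · intro i
        have h2 := h1 i
        simp only [Set.mem_ofPred_eq] at h2
        exact not_iff_not.1 h2
      · rw [hget]
        simp only [en]
        constructor
        · intro h2 _ h3
          have h3' : (σ (g i)).1 = v := h3
          apply hno (σ (g i)).2
          rw [← h3', Prod.mk.eta, hψ2, h2]
          rfl
        · intro h2 _ h3
          have h3' : (g i).1 = v := h3
          apply hno (g i).2
          rw [← h3', Prod.mk.eta, hψ1, h2]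
  unfold tcount NS
  refine Finset.card_le_card_of_injOn ψ ?_ ?_
  · intro o ho
    have ho' : TC id (lst σ A) o := by
      simpa using ho
    simp only [Finset.coe_filter, Finset.mem_univ, true_and]
    exact ⟨hcomp o, hvalid o ho', hsupp o⟩
  · intro o _ o' _ hoo
    funext i
    have h1 := congrFun hoo (g i)
    rw [hψ1, hψ1] at h1
    exact Option.some_injective _ h1

end Pool.Agent.Lib.MP_d38209_co.CR
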