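import Pool.Agent.Lib.MP_d38209_co.CR.Defs

set_option autoImplicit false

namespace Pool.Agent.Lib.MP_d38209_co.CR

open Finset
open scoped Classical

section Flow
variable {V : Type}

theorem merge_ker (f : V → V) (a b x y : V) :
    merge f a b x = merge f a b y ↔
      f x = f y ∨ (f x = f a ∧ f y = f b) ∨ (f x = f b ∧ f y = f a) := by
  unfold merge
  split_ifs with h1 h2 h2 <;> constructor <;> intro h <;> simp_all [eq_comm]

theorem merge_comm_ker (f : V → V) (a b c e x y : V) :
    merge (merge f a b) c e x = merge (merge f a b) c e y ↔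
      merge (merge f c e) a b x = merge (merge f c e) a b y := by
  rw [merge_ker (merge f a b), merge_ker (merge f c e)]
  simp only [merge_ker]
  grind

theorem flow_congr (q : ℂ) (L : List (V × V)) (T : Set V) (hT : ∀ e ∈ L, e.1 ∈ T ∧ e.2 ∈ T)
    (f g : V → V) (h : ∀ x ∈ T, ∀ y ∈ T, (f x = f y ↔ g x = g y)) :
    flow q f L = flow q g L ∧ nul f L = nul g L := by
  induction L generalizing f g with
  | nil => exact ⟨rfl, rfl⟩
  | cons e L ih =>
    have hT' : ∀ e ∈ L, e.1 ∈ T ∧ e.2 ∈ T := fun e' he' => hT e' (List.mem_cons_of_mem _ he')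
    obtain ⟨h1, h2⟩ := hT e List.mem_cons_self
    have h0 := ih hT' f g h
    have hm := ih hT' (merge f e.1 e.2) (merge g e.1 e.2) (by
      intro x hx y hy
      rw [merge_ker, merge_ker, h x hx y hy, h x hx _ h1, h y hy _ h2, h x hx _ h2, h y hy _ h1])
    have hiff := h _ h1 _ h2
    unfold flow nul
    by_cases he : f e.1 = f e.2
    · have he' : g e.1 = g e.2 := hiff.1 he
      rw [if_pos he, if_pos he', if_pos he, if_pos he', h0.1, h0.2]
      exact ⟨rfl, rfl⟩
    · have he' : ¬ g e.1 = g e.2 := fun h' => he (hiff.2 h')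
      rw [if_neg he, if_neg he', if_neg he, if_neg he', h0.1, hm.1, hm.2]
      exact ⟨rfl, rfl⟩

theorem sep_tail {f : V → V} {e : V × V} {L : List (V × V)} {S : Set V} (hS : Sep f (e :: L) S) :
    Sep f L S := ⟨hS.1, fun e' he' => hS.2 e' (List.mem_cons_of_mem _ he')⟩

theorem sep_merge {f : V → V} {L : List (V × V)} {S : Set V} (hS : Sep f L S) {a b : V}
    (hab : a ∈ S ↔ b ∈ S) : Sep (merge f a b) L S := by
  refine ⟨?_, hS.2⟩
  intro x y hxy
  rw [merge_ker] at hxy
  rcases hxy with h | ⟨h, h'⟩ | ⟨h, h'⟩
  · exact hS.1 x y h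
  · rw [hS.1 x a h, hS.1 y b h', hab]
  · rw [hS.1 x b h, hS.1 y a h', hab]

theorem flow_bridge (q : ℂ) (L : List (V × V)) (f : V → V) (S : Set V) (hS : Sep f L S) (a b : V)
    (ha : a ∈ S) (hb : b ∉ S) : flow q (merge f a b) L = flow q f L := by
  induction L generalizing f with
  | nil => rfl
  | cons e L ih =>
    have hS' : Sep f L S := sep_tail hS
    have he12 : e.1 ∈ S ↔ e.2 ∈ S := hS.2 e List.mem_cons_self
    have h0 := ih f hS'
    have h1 := ih (merge f e.1 e.2) (sep_merge hS' he12)
    have h2 := (flow_congr q L Set.univ (fun _ _ => ⟨trivial, trivial⟩)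
      (merge (merge f a b) e.1 e.2) (merge (merge f e.1 e.2) a b)
      (fun x _ y _ => merge_comm_ker f a b e.1 e.2 x y)).1
    unfold flow
    by_cases he : f e.1 = f e.2
    · have he' : merge f a b e.1 = merge f a b e.2 := (merge_ker f a b _ _).2 (Or.inl he)
      rw [if_pos he, if_pos he', h0]
    · have he' : ¬ merge f a b e.1 = merge f a b e.2 := by
        rw [merge_ker]
        rintro (h | ⟨h, h'⟩ | ⟨h, h'⟩)
        · exact he h
        · have := hS.1 _ _ h
          have := hS.1 _ _ h'
          tauto
        · have := hS.1 _ _ h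
          have := hS.1 _ _ h'
          tauto
      rw [if_neg he, if_neg he', h2, h1, h0]

theorem nul_merge (L : List (V × V)) (f : V → V) (a b : V) : nul f L ≤ nul (merge f a b) L := by
  induction L generalizing f with
  | nil => exact le_refl _
  | cons e L ih =>
    have h2 := (flow_congr 0 L Set.univ (fun _ _ => ⟨trivial, trivial⟩)
      (merge (merge f a b) e.1 e.2) (merge (merge f e.1 e.2) a b)
      (fun x _ y _ => merge_comm_ker f a b e.1 e.2 x y)).2
    unfold nul
    by_cases he : f e.1 = f e.2
    · have he' : merge f a b e.1 = merge f a b e.2 := (merge_ker f a b _ _).2 (Or.inl he)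
      rw [if_pos he, if_pos he']
      exact Nat.add_le_add_right (ih f) 1
    · rw [if_neg he]
      by_cases he' : merge f a b e.1 = merge f a b e.2
      · rw [if_pos he']
        have h3 := (flow_congr 0 L Set.univ (fun _ _ => ⟨trivial, trivial⟩)
          (merge f e.1 e.2) (merge f a b) (fun x _ y _ => by
            rw [merge_ker] at he'
            rw [merge_ker, merge_ker]
            rcases he' with h | ⟨h, h'⟩ | ⟨h, h'⟩
            · exact absurd h he
            · rw [h, h']
            · rw [h, h']
              tauto)).2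
        rw [h3]
        exact Nat.le_succ _
      · rw [if_neg he', h2]
        exact ih _

end Flow

end Pool.Agent.Lib.MP_d38209_co.CR
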