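import Pool.Agent.Lib.MP_d38209_co.CR.FlowBasic

set_option autoImplicit false

namespace Pool.Agent.Lib.MP_d38209_co.CR

open Finset
open scoped Classical

section Flow
variable {V : Type}

theorem flow_mul (q : ℂ) (L : List (V × V)) (f : V → V) (S : Set V) (hS : Sep f L S) :
    flow q f L = flow q f (L.filter fun e => e.1 ∈ S) * flow q f (L.filter fun e => e.1 ∉ S) := by
  induction L generalizing f with
  | nil => simp [flow]
  | cons e L ih =>
    have hS' : Sep f L S := sep_tail hS
    have he12 : e.1 ∈ S ↔ e.2 ∈ S := hS.2 e List.mem_cons_self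
    have h0 := ih f hS'
    have h1 := ih (merge f e.1 e.2) (sep_merge hS' he12)
    by_cases hin : e.1 ∈ S
    · have hin2 : e.2 ∈ S := he12.1 hin
      have hc := (flow_congr q (L.filter fun e => e.1 ∉ S) Sᶜ (by
        intro e' he'
        rw [List.mem_filter] at he'
        have h3 : e'.1 ∉ S := by simpa using he'.2
        exact ⟨h3, fun h4 => h3 ((hS'.2 e' he'.1).2 h4)⟩) (merge f e.1 e.2) f (by
        intro x hx y hy
        rw [merge_ker]
        constructor
        · rintro (h | ⟨h, _⟩ | ⟨h, _⟩)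
          · exact h
          · exact absurd ((hS.1 _ _ h).2 hin) hx
          · exact absurd ((hS.1 _ _ h).2 hin2) hx
        · exact Or.inl)).1
      rw [List.filter_cons_of_pos (by simpa using hin), List.filter_cons_of_neg (by simpa using hin)]
      by_cases he : f e.1 = f e.2
      · rw [flow, flow, if_pos he, if_pos he, h0, mul_assoc]
      · rw [flow, flow, if_neg he, if_neg he, h0, h1, hc, sub_mul]
    · have hin2 : e.2 ∉ S := fun h => hin (he12.2 h)
      have hc := (flow_congr q (L.filter fun e => e.1 ∈ S) S (by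
        intro e' he'
        rw [List.mem_filter] at he'
        have h3 : e'.1 ∈ S := by simpa using he'.2
        exact ⟨h3, (hS'.2 e' he'.1).1 h3⟩) (merge f e.1 e.2) f (by
        intro x hx y hy
        rw [merge_ker]
        constructor
        · rintro (h | ⟨h, _⟩ | ⟨h, _⟩)
          · exact h
          · exact absurd ((hS.1 _ _ h).1 hx) hin
          · exact absurd ((hS.1 _ _ h).1 hx) hin2
        · exact Or.inl)).1
      rw [List.filter_cons_of_neg (by simpa using hin), List.filter_cons_of_pos (by simpa using hin)]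
      by_cases he : f e.1 = f e.2
      · rw [flow, flow, if_pos he, if_pos he, h0]
        ring
      · rw [flow, flow, if_neg he, if_neg he, h0, h1, hc, mul_sub]

end Flow

section Points
variable {n d : ℕ}

theorem mem_vt_left {σ : Pt n d → Pt n d} {A : Finset (Pt n d)} {p : Pt n d} (hp : p ∈ A) :
    p.1 ∈ vt σ A := by
  unfold vt
  exact Finset.mem_biUnion.2 ⟨p, hp, Finset.mem_insert_self _ _⟩

theorem mem_vt_right {σ : Pt n d → Pt n d} {A : Finset (Pt n d)} {p : Pt n d} (hp : p ∈ A) :
    (σ p).1 ∈ vt σ A := by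
  unfold vt
  exact Finset.mem_biUnion.2 ⟨p, hp, Finset.mem_insert_of_mem (Finset.mem_singleton_self _)⟩

theorem disjoint_of_vt {σ : Pt n d → Pt n d} {A B : Finset (Pt n d)}
    (hAB : Disjoint (vt σ A) (vt σ B)) : Disjoint A B :=
  Finset.disjoint_left.2 fun _ hA hB =>
    Finset.disjoint_left.1 hAB (mem_vt_left hA) (mem_vt_left hB)

theorem lst_filter_left {σ : Pt n d → Pt n d} {A B : Finset (Pt n d)}
    (hAB : Disjoint (vt σ A) (vt σ B)) (S : Set (Fin n)) (hS : S = (vt σ A : Set (Fin n))) :
    ((lst σ (A ∪ B)).filter fun e => e.1 ∈ S) = lst σ A := by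
  unfold lst
  rw [List.filter_map, List.filter_filter]
  congr 1
  apply List.filter_congr
  intro p _
  have h : (p.1 ∈ S ∧ p ∈ A ∪ B) ↔ p ∈ A := by
    rw [hS]
    constructor
    · rintro ⟨h1, h2⟩
      rcases Finset.mem_union.1 h2 with h2 | h2
      · exact h2
      · exact absurd (mem_vt_left h2) (Finset.disjoint_left.1 hAB h1)
    · intro h
      exact ⟨mem_vt_left h, Finset.mem_union_left _ h⟩
  simp only [Function.comp, en]
  rw [← Bool.decide_and]
  exact decide_eq_decide.2 h

theorem lst_filter_right {σ : Pt n d → Pt n d} {A B : Finset (Pt n d)}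
    (hAB : Disjoint (vt σ A) (vt σ B)) (S : Set (Fin n)) (hS : S = (vt σ A : Set (Fin n))) :
    ((lst σ (A ∪ B)).filter fun e => e.1 ∉ S) = lst σ B := by
  unfold lst
  rw [List.filter_map, List.filter_filter]
  congr 1
  apply List.filter_congr
  intro p _
  have h : (p.1 ∉ S ∧ p ∈ A ∪ B) ↔ p ∈ B := by
    rw [hS]
    constructor
    · rintro ⟨h1, h2⟩
      rcases Finset.mem_union.1 h2 with h2 | h2
      · exact absurd (mem_vt_left h2) h1
      · exact h2
    · intro h
      exact ⟨fun h' => Finset.disjoint_left.1 hAB h' (mem_vt_left h), Finset.mem_union_right _ h⟩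
  simp only [Function.comp, en]
  rw [← Bool.decide_and]
  exact decide_eq_decide.2 h

theorem fl_union (q : ℂ) {σ : Pt n d → Pt n d} (hσ : WGood σ) {A B : Finset (Pt n d)}
    (hA : A ⊆ ES σ) (hB : B ⊆ ES σ) (hAB : Disjoint (vt σ A) (vt σ B)) :
    fl q σ (A ∪ B) = fl q σ A * fl q σ B := by
  obtain ⟨S, hS⟩ : ∃ S : Set (Fin n), S = (vt σ A : Set (Fin n)) := ⟨_, rfl⟩
  unfold fl
  rw [flow_mul q (lst σ (A ∪ B)) id S ?_, lst_filter_left hAB S hS,
    lst_filter_right hAB S hS]
  refine ⟨fun x y h => by rw [show x = y from h], ?_⟩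
  rw [hS]
  intro e he
  unfold lst at he
  rw [List.mem_map] at he
  obtain ⟨p, hp, rfl⟩ := he
  rw [List.mem_filter] at hp
  have hp2 : p ∈ A ∪ B := by simpa using hp.2
  rcases Finset.mem_union.1 hp2 with h | h
  · exact ⟨fun _ => mem_vt_right h, fun _ => mem_vt_left h⟩
  · exact ⟨fun h' => absurd (mem_vt_left h) (Finset.disjoint_left.1 hAB h'),
      fun h' => absurd (mem_vt_right h) (Finset.disjoint_left.1 hAB h')⟩

theorem fl_empty (q : ℂ) (σ : Pt n d → Pt n d) : fl q σ ∅ = 1 := by
  unfold fl lst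
  simp [flow]

theorem wt_empty (q : ℂ) (σ : Pt n d → Pt n d) : wt q σ ∅ = 1 := by
  unfold wt
  rw [fl_empty]
  simp

theorem wt_union (q : ℂ) {σ : Pt n d → Pt n d} (hσ : WGood σ) {A B : Finset (Pt n d)}
    (hA : A ⊆ ES σ) (hB : B ⊆ ES σ) (hAB : Disjoint (vt σ A) (vt σ B)) :
    wt q σ (A ∪ B) = wt q σ A * wt q σ B := by
  unfold wt
  rw [fl_union q hσ hA hB hAB, Finset.card_union_of_disjoint (disjoint_of_vt hAB), pow_add]
  ring

end Points

end Pool.Agent.Lib.MP_d38209_co.CR
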