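import Pool.Agent.Lib.MP_d38209_co.CR.Bound

set_option autoImplicit false

/-!
# Chromatic roots, arbitrary degree sequences: the choice of `t` (module GA1)

`t = √u / 2`, `u = s / (r + 1 - s)`, `2 r` the sum of the degrees.
-/

namespace Pool.Agent.Lib.MP_d38209_co.CR

open Finset
open scoped Classical

/-- one vertex of degree `k ≥ 1` -/
private theorem gb_one {k : ℕ} (hk : 1 ≤ k) (x c : ℝ) (hC : Cond k x c) (r s : ℕ)
    (hs : 1 ≤ s) (hsr : s ≤ r) :
    ww k x (√((s : ℝ) / ((r : ℝ) + 1 - s)) / 2) ^ 2 ≤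
      (1 + (s : ℝ) / ((r : ℝ) + 1 - s)) ^ k * Real.exp (-(c * s / (r + 1))) := by
  have hsr' : (s : ℝ) ≤ r := by exact_mod_cast hsr
  have hpos : 0 < (r : ℝ) + 1 - s := by linarith
  have hs0 : (0 : ℝ) < s := by exact_mod_cast hs
  set u : ℝ := (s : ℝ) / ((r : ℝ) + 1 - s) with hu
  have hu0 : 0 < u := by positivity
  have hC1 := hC (√u) (Real.sqrt_nonneg u)
  rw [Real.sq_sqrt hu0.le] at hC1
  set w := ww k x (√u / 2)
  set y : ℝ := c * s / (r + 1) with hy
  have hr1 : 0 < (r : ℝ) + 1 := by positivity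
  have hu1 : 1 + u = ((r : ℝ) + 1) / ((r : ℝ) + 1 - s) := by
    rw [hu]; field_simp; ring
  have hd1 : (1 + u) ^ k = (1 + u) ^ (k - 1) * (1 + u) := by
    rw [← pow_succ]
    congr 1
    omega
  have hcu : c * u * (1 + u) ^ (k - 1) = y * (1 + u) ^ k := by
    rw [hd1]
    have : c * u = y * (1 + u) := by
      rw [hu1, hy, hu]
      field_simp
    rw [this]
    ring
  have h1 : 1 - y ≤ Real.exp (-y) := by
    have := Real.add_one_le_exp (-y)
    linarith
  calc w ^ 2 ≤ (1 + u) ^ k - y * (1 + u) ^ k := by linarith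
    _ = (1 + u) ^ k * (1 - y) := by ring
    _ ≤ _ := mul_le_mul_of_nonneg_left h1 (by positivity)

/-- the product over the vertices -/
private theorem gb_ww {d : ℕ} (hd : 1 ≤ d) (x c : ℝ) (hc : 0 < c)
    (hC : ∀ k, 1 ≤ k → k ≤ d → Cond k x c) (n : ℕ) (D : Fin n → ℕ) (r s : ℕ) (hD : ∀ v, D v ≤ d)
    (hsum : ∑ v, D v = 2 * r) (hs : 1 ≤ s) (hsr : s ≤ r) :
    ∏ v, ww (D v) x (√((s : ℝ) / ((r : ℝ) + 1 - s)) / 2) ≤
      (1 + (s : ℝ) / ((r : ℝ) + 1 - s)) ^ r * Real.exp (-(c / (2 * d) * s)) := by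
  have hsr' : (s : ℝ) ≤ r := by exact_mod_cast hsr
  have hpos : 0 < (r : ℝ) + 1 - s := by linarith
  have hs0 : (0 : ℝ) < s := by exact_mod_cast hs
  have hr0 : (1 : ℝ) ≤ r := by exact_mod_cast hs.trans hsr
  have hd0 : (0 : ℝ) < d := by exact_mod_cast hd
  have hr1 : 0 < (r : ℝ) + 1 := by positivity
  have h1 : ∀ v, ww (D v) x (√((s : ℝ) / ((r : ℝ) + 1 - s)) / 2) ^ 2 ≤
      (1 + (s : ℝ) / ((r : ℝ) + 1 - s)) ^ (D v) *
        Real.exp (-(c * s / (r + 1)) * ((D v : ℝ) / d)) := by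
    intro v
    rcases Nat.eq_zero_or_pos (D v) with h0 | h0
    · rw [h0]
      have h2 : ww 0 x (√((s : ℝ) / ((r : ℝ) + 1 - s)) / 2) = 1 := by
        unfold ww
        norm_num
      rw [h2]
      simp
    · refine (gb_one h0 x c (hC _ h0 (hD v)) r s hs hsr).trans ?_
      apply mul_le_mul_of_nonneg_left _ (by positivity)
      apply Real.exp_le_exp.mpr
      have h2 : (D v : ℝ) / d ≤ 1 := by
        rw [div_le_one hd0]
        exact_mod_cast hD v
      have h3 : 0 < c * s / ((r : ℝ) + 1) := by positivity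
      nlinarith
  have hsq : (∏ v, ww (D v) x (√((s : ℝ) / ((r : ℝ) + 1 - s)) / 2)) ^ 2 ≤
      ((1 + (s : ℝ) / ((r : ℝ) + 1 - s)) ^ r * Real.exp (-(c / (2 * d) * s))) ^ 2 := by
    have hsum' : (∑ v, (D v : ℝ)) = 2 * r := by exact_mod_cast hsum
    rw [← prod_pow]
    refine (prod_le_prod (fun v _ => sq_nonneg _) fun v _ => h1 v).trans ?_
    rw [prod_mul_distrib, prod_pow_eq_pow_sum, hsum, ← Real.exp_sum, ← mul_sum, ← sum_div, hsum',
      mul_pow, ← pow_mul, ← Real.exp_nat_mul, mul_comm r 2]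
    apply mul_le_mul_of_nonneg_left _ (by positivity)
    apply Real.exp_le_exp.mpr
    have h4 : c / d * s ≤ c * s / ((r : ℝ) + 1) * (2 * r / d) := by
      rw [div_mul_eq_mul_div, div_mul_div_comm, div_le_div_iff₀ hd0 (by positivity)]
      have h5 : 0 < c * s * d := by positivity
      nlinarith
    have h6 : ((2 : ℕ) : ℝ) * -(c / (2 * d) * s) = -(c / d * s) := by
      push_cast
      field_simp
    rw [h6]
    linarith
  exact (abs_le_of_sq_le_sq' hsq (by positivity)).2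

/-! GA1: as `bound`; there are at least `2 r / d` vertices with `D v ≥ 1` -/
theorem boundG {d : ℕ} (hd : 1 ≤ d) (x c : ℝ) (hx : 0 < x) (hx1 : x ≤ 1) (hc : 0 < c)
    (hC : ∀ k, 1 ≤ k → k ≤ d → Cond k x c) :
    ∃ (K κ : ℝ) (k : ℕ), 0 < K ∧ 0 < κ ∧ ∀ (n : ℕ) (D : Fin n → ℕ) (r s : ℕ), (∀ v, D v ≤ d) →
      ∑ v, D v = 2 * r → 1 ≤ s → s ≤ r → ∃ t : ℝ, 0 < t ∧
        (1 / 2) ^ s * ((s.factorial : ℝ) / ∏ i ∈ range s, ((∑ v, (D v : ℝ)) - 2 * i - 1)) *
          ((t ^ (2 * s))⁻¹ * ∏ v, ww (D v) x t) ≤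
        (if s ^ 2 ≤ r then K * s else K * (r : ℝ) ^ k) * Real.exp (-(κ * s)) := by
  have hd0 : (0 : ℝ) < d := by exact_mod_cast hd
  refine ⟨25 * Real.exp 5 + 6, c / (2 * d), 2, by positivity, by positivity, ?_⟩
  intro n D r s hD hsum hs hsr
  have hsr' : (s : ℝ) ≤ r := by exact_mod_cast hsr
  have hpos : 0 < (r : ℝ) + 1 - s := by linarith
  have hs0 : (0 : ℝ) < s := by exact_mod_cast hs
  have hs1 : (1 : ℝ) ≤ s := by exact_mod_cast hs
  have hr1' : (1 : ℝ) ≤ r := hs1.trans hsr'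
  have hsum' : (∑ v, (D v : ℝ)) = 2 * r := by exact_mod_cast hsum
  have hW := gb_ww hd x c hc hC n D r s hD hsum hs hsr
  have hL := a1_prod r s hsr
  have hG := a1_choose r s hsr
  have hS := a1_small r s hs hsr
  set u : ℝ := (s : ℝ) / ((r : ℝ) + 1 - s) with hu
  have hu0 : 0 < u := by positivity
  have hu1 : 1 + u = ((r : ℝ) + 1) / ((r : ℝ) + 1 - s) := by
    rw [hu]; field_simp; ring
  set κ : ℝ := c / (2 * d)
  set Q : ℝ := ∏ i ∈ range s, ((r : ℝ) + 1 - i) with hQ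
  have hprod : ∏ i ∈ range s, ((∑ v, (D v : ℝ)) - 2 * i - 1) =
      ∏ i ∈ range s, (2 * (r : ℝ) - 2 * i - 1) := by rw [hsum']
  set P : ℝ := ∏ i ∈ range s, (2 * (r : ℝ) - 2 * i - 1) with hP
  have hP0 : 0 < P := by
    apply prod_pos
    intro i hi
    have h1 : ((i + 1 : ℕ) : ℝ) ≤ s := by exact_mod_cast mem_range.mp hi
    push_cast at h1
    linarith
  have hQ0 : 0 < Q := by
    apply prod_pos
    intro i hi
    have h1 : ((i + 1 : ℕ) : ℝ) ≤ s := by exact_mod_cast mem_range.mp hi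
    push_cast at h1
    linarith
  refine ⟨√u / 2, by positivity, ?_⟩
  rw [hprod]
  have hQu : 0 < Q * u ^ s := by positivity
  set W : ℝ := ∏ v, ww (D v) x (√u / 2)
  -- the main estimate
  have hmain : (1 / 2) ^ s * ((s.factorial : ℝ) / P) *
      (((√u / 2) ^ (2 * s))⁻¹ * W) ≤
      (1 + u) ^ 2 * ((s.factorial : ℝ) / (Q * u ^ s)) * ((1 + u) ^ r * Real.exp (-(κ * s))) := by
    have h1 : ((√u / 2) ^ (2 * s)) = u ^ s / 4 ^ s := by
      rw [pow_mul, div_pow, Real.sq_sqrt hu0.le, ← div_pow]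
      norm_num
    have h2 : (2 : ℝ) ^ s / P ≤ (1 + u) ^ 2 / Q := by
      rw [div_le_div_iff₀ hP0 hQ0, hu1, div_pow, div_mul_eq_mul_div, le_div_iff₀ (by positivity)]
      exact hL
    have h3 : (1 / 2 : ℝ) ^ s * ((s.factorial : ℝ) / P) *
        (((√u / 2) ^ (2 * s))⁻¹ * W) =
        (2 : ℝ) ^ s / P * ((s.factorial : ℝ) / u ^ s) * W := by
      rw [h1, inv_div]
      have h4 : (4 : ℝ) ^ s = 2 ^ s * 2 ^ s := by rw [← mul_pow]; norm_num
      rw [h4, one_div, inv_pow]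
      field_simp
    rw [h3]
    calc (2 : ℝ) ^ s / P * ((s.factorial : ℝ) / u ^ s) * W
        ≤ (2 : ℝ) ^ s / P * ((s.factorial : ℝ) / u ^ s) * ((1 + u) ^ r * Real.exp (-(κ * s))) :=
          mul_le_mul_of_nonneg_left hW (by positivity)
      _ ≤ (1 + u) ^ 2 / Q * ((s.factorial : ℝ) / u ^ s) * ((1 + u) ^ r * Real.exp (-(κ * s))) := by
          gcongr
      _ = _ := by
          field_simp
  refine hmain.trans ?_
  split_ifs with hsn
  · -- the small case
    have hsn' : (s : ℝ) ^ 2 ≤ r := by exact_mod_cast hsn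
    have h4 : (s : ℝ) ^ 2 ≤ 4 * ((r : ℝ) + 1 - s) := by nlinarith [sq_nonneg ((s : ℝ) - 2)]
    have hu4 : u ≤ 4 := by
      rw [hu, div_le_iff₀ hpos]
      nlinarith
    have hur : u * r ≤ s + 4 := by
      rw [hu, div_mul_eq_mul_div, div_le_iff₀ hpos]
      nlinarith
    have hpow : (1 + u) ^ r ≤ Real.exp (s + 4) := by
      calc (1 + u) ^ r ≤ Real.exp u ^ r := by
            apply pow_le_pow_left₀ (by positivity)
            have := Real.add_one_le_exp u
            linarith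
        _ = Real.exp (u * r) := by rw [← Real.exp_nat_mul]; congr 1; ring
        _ ≤ Real.exp (s + 4) := Real.exp_le_exp.mpr hur
    have hfac : (s.factorial : ℝ) / (Q * u ^ s) ≤ Real.exp 1 * s * Real.exp (-s) := by
      rw [div_le_iff₀ hQu]
      exact hS
    have h25 : (1 + u) ^ 2 ≤ 25 := by nlinarith
    calc (1 + u) ^ 2 * ((s.factorial : ℝ) / (Q * u ^ s)) * ((1 + u) ^ r * Real.exp (-(κ * s)))
        ≤ 25 * (Real.exp 1 * s * Real.exp (-s)) * (Real.exp (s + 4) * Real.exp (-(κ * s))) := by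
          gcongr
      _ = 25 * Real.exp 5 * s * Real.exp (-(κ * s)) := by
          have h5 : Real.exp 1 * Real.exp (-s) * Real.exp (s + 4) = Real.exp 5 := by
            rw [← Real.exp_add, ← Real.exp_add]; congr 1; ring
          rw [← h5]; ring
      _ ≤ (25 * Real.exp 5 + 6) * s * Real.exp (-(κ * s)) := by
          gcongr
          linarith
  · -- the general case
    have hdesc : Q = (s.factorial : ℝ) * ((r + 1).choose s : ℝ) := by
      rw [← Nat.cast_mul, ← Nat.descFactorial_eq_factorial_mul_choose, Nat.descFactorial_eq_prod_range,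
        hQ, Nat.cast_prod]
      apply prod_congr rfl
      intro i hi
      rw [Nat.cast_sub (by have := mem_range.mp hi; omega)]
      push_cast
      ring
    have hs! : (0 : ℝ) < s.factorial := by exact_mod_cast Nat.factorial_pos s
    have hch : 0 < ((r + 1).choose s : ℝ) := by exact_mod_cast Nat.choose_pos (by omega)
    have hfac : (s.factorial : ℝ) / (Q * u ^ s) ≤ ((r : ℝ) + 2) / (1 + u) ^ (r + 1) := by
      rw [div_le_div_iff₀ hQu (by positivity)]
      calc (s.factorial : ℝ) * (1 + u) ^ (r + 1)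
          ≤ (s.factorial : ℝ) * (((r : ℝ) + 2) * (((r + 1).choose s : ℝ) * u ^ s)) :=
            mul_le_mul_of_nonneg_left hG hs!.le
        _ = ((r : ℝ) + 2) * (Q * u ^ s) := by rw [hdesc]; ring
    have hR : 1 + u ≤ (r : ℝ) + 1 := by
      rw [hu1, div_le_iff₀ hpos]
      nlinarith
    have hr0 : (0 : ℝ) ≤ r := by positivity
    have hpoly : (1 + u) * ((r : ℝ) + 2) ≤ 6 * (r : ℝ) ^ 2 := by
      calc (1 + u) * ((r : ℝ) + 2) ≤ ((r : ℝ) + 1) * ((r : ℝ) + 2) := by
            apply mul_le_mul_of_nonneg_right hR (by positivity)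
        _ ≤ 6 * (r : ℝ) ^ 2 := by nlinarith
    calc (1 + u) ^ 2 * ((s.factorial : ℝ) / (Q * u ^ s)) * ((1 + u) ^ r * Real.exp (-(κ * s)))
        ≤ (1 + u) ^ 2 * (((r : ℝ) + 2) / (1 + u) ^ (r + 1)) *
            ((1 + u) ^ r * Real.exp (-(κ * s))) := by
          gcongr
      _ = (1 + u) * ((r : ℝ) + 2) * Real.exp (-(κ * s)) := by
          rw [pow_succ (1 + u) r]
          field_simp
      _ ≤ 6 * (r : ℝ) ^ 2 * Real.exp (-(κ * s)) :=
          mul_le_mul_of_nonneg_right hpoly (Real.exp_pos _).le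
      _ ≤ (25 * Real.exp 5 + 6) * (r : ℝ) ^ 2 * Real.exp (-(κ * s)) := by
          have : 0 < Real.exp 5 := Real.exp_pos _
          gcongr
          linarith

end Pool.Agent.Lib.MP_d38209_co.CR
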