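import Pool.Agent.Lib.MP_d38209_co.CR.Defs
import Pool.Agent.Lib.MP_ec42c8_pr.Defs

set_option autoImplicit false

/-!
# Pairings for a degree sequence
-/

namespace Pool.Agent.Lib.MP_d38209_co.CR

open Finset
open scoped Classical
open Pool.Agent.HC (Pairing av pr)

/-- The points in use: the first `D v` points of each vertex `v`. -/
abbrev Live {n : ℕ} (d : ℕ) (D : Fin n → ℕ) : Type := {p : Fin n × Fin d // (p.2 : ℕ) < D p.1}

variable {n d : ℕ} {D : Fin n → ℕ}

/-- A pairing of the points in use; the other points are fixed. -/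
noncomputable def ext (π : Pairing (Live d D)) : Pt n d → Pt n d := fun p =>
  if h : (p.2 : ℕ) < D p.1 then (π.1 ⟨p, h⟩).1 else p

/-- There is no loop and no double edge. -/
def LGood (π : Pairing (Live d D)) : Prop :=
  (∀ p, (π.1 p).1.1 ≠ p.1.1) ∧
    ∀ p q : Live d D, p.1.1 = q.1.1 → (π.1 p).1.1 = (π.1 q).1.1 → p = q

theorem ext_live (π : Pairing (Live d D)) (p : Live d D) : ext π p.1 = (π.1 p).1 := by
  unfold ext
  rw [dif_pos p.2]

theorem ext_dead (π : Pairing (Live d D)) {p : Pt n d} (h : ¬ (p.2 : ℕ) < D p.1) :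
    ext π p = p := by
  unfold ext
  rw [dif_neg h]

theorem ext_inv (π : Pairing (Live d D)) (p : Pt n d) : ext π (ext π p) = p := by
  by_cases h : (p.2 : ℕ) < D p.1
  · have h1 : ext π p = (π.1 ⟨p, h⟩).1 := ext_live π ⟨p, h⟩
    rw [h1, ext_live, (π.2 ⟨p, h⟩).2]
  · rw [ext_dead π h, ext_dead π h]

theorem LGood.wgood {π : Pairing (Live d D)} (h : LGood π) : WGood (ext π) := by
  refine ⟨ext_inv π, ?_⟩
  intro p hp
  by_cases hl : (p.2 : ℕ) < D p.1
  · have h1 : ext π p = (π.1 ⟨p, hl⟩).1 := ext_live π ⟨p, hl⟩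
    rw [h1]
    exact h.1 ⟨p, hl⟩
  · exact absurd (ext_dead π hl) hp

theorem card_live (hD : ∀ v, D v ≤ d) : Fintype.card (Live d D) = ∑ v, D v := by
  rw [Fintype.card_subtype]
  have h1 : (univ.filter fun p : Fin n × Fin d => (p.2 : ℕ) < D p.1) =
      univ.biUnion fun v : Fin n => (univ.filter fun i : Fin d => (i : ℕ) < D v).image
        fun i => (v, i) := by
    ext ⟨v, i⟩
    simp
  rw [h1, Finset.card_biUnion]
  · apply Finset.sum_congr rfl
    intro v _
    rw [Finset.card_image_of_injective _ (fun i j h => (Prod.mk.inj h).2)]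
    rw [Fin.card_filter_val_lt]
    exact min_eq_right (hD v)
  · intro v _ w _ hvw
    rw [Function.onFun, Finset.disjoint_left]
    rintro ⟨u, i⟩ h1 h2
    simp only [Finset.mem_image, Prod.mk.injEq] at h1 h2
    obtain ⟨_, _, rfl, _⟩ := h1
    obtain ⟨_, _, h3, _⟩ := h2
    exact hvw h3.symm

end Pool.Agent.Lib.MP_d38209_co.CR
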