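import Pool.Agent.Lib.MP_d38209_co.CR.GPairCount
import Pool.Agent.Lib.MP_d38209_co.CR.DenseProb

set_option autoImplicit false

/-!
# GP4 : a random pairing has no dense small set of vertices, for every degree sequence

As in DenseProb; the sets of vertices consist of vertices of positive degree.
-/

namespace Pool.Agent.Lib.MP_d38209_co.CR

open Finset
open scoped Classical
open Pool.Agent.HC (Pairing av pr)

/-- The vertices of positive degree. -/
noncomputable def gp4V {n : ℕ} (D : Fin n → ℕ) : Finset (Fin n) := univ.filter fun v => 1 ≤ D v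

lemma gp4V_card {n : ℕ} (D : Fin n → ℕ) : (gp4V D).card ≤ ∑ v, D v := by
  unfold gp4V
  rw [card_eq_sum_ones, sum_filter]
  refine sum_le_sum fun v _ => ?_
  split_ifs with h
  · exact h
  · exact Nat.zero_le _

lemma gp4_ex {n d : ℕ} {D : Fin n → ℕ} (g : ℕ) (π : Pairing (Live d D))
    (h : Dense (ext π) g) :
    ∃ v ∈ range (2 * g + 1), ∃ W ∈ powersetCard v (gp4V D),
      ∃ c ∈ p4S n d W (v + 1), Comp (ext π) c := by
  obtain ⟨B, hB, h1, h2⟩ := h
  obtain ⟨B', hB', hc⟩ := exists_subset_card_eq (show (vt (ext π) B).card + 1 ≤ B.card from h2)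
  have hinv : ∀ p, ext π (ext π p) = p := ext_inv π
  have hltB : ∀ p ∈ B, p.1 < (ext π p).1 := by
    intro p hp
    have := hB hp
    unfold ES at this
    exact (mem_filter.1 this).2
  have hlive : ∀ p ∈ B, (p.2 : ℕ) < D p.1 ∧ ((ext π p).2 : ℕ) < D (ext π p).1 := by
    intro p hp
    have h3 : (p.2 : ℕ) < D p.1 := by
      by_contra hn
      have h4 := hltB p hp
      rw [ext_dead π hn] at h4
      exact lt_irrefl _ h4
    refine ⟨h3, ?_⟩
    have h4 : ext π p = (π.1 ⟨p, h3⟩).1 := ext_live π ⟨p, h3⟩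
    rw [h4]
    exact (π.1 ⟨p, h3⟩).2
  refine ⟨(vt (ext π) B).card, by rw [mem_range]; omega, vt (ext π) B, ?_, ?_⟩
  · rw [mem_powersetCard]
    refine ⟨?_, rfl⟩
    intro v hv
    unfold vt at hv
    rw [mem_biUnion] at hv
    obtain ⟨p, hp, hv⟩ := hv
    unfold gp4V
    rw [mem_filter]
    refine ⟨mem_univ _, ?_⟩
    obtain ⟨h3, h4⟩ := hlive p hp
    rw [mem_insert, mem_singleton] at hv
    rcases hv with rfl | rfl
    · omega
    · omega
  have hlt : ∀ p ∈ B', p.1 < (ext π p).1 := fun p hp => hltB p (hB' hp)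
  have hno : ∀ p ∈ B', ext π p ∉ B' := by
    intro p hp hp'
    have h3 := hlt p hp
    have h4 := hlt _ hp'
    rw [hinv] at h4
    exact lt_asymm h3 h4
  refine ⟨fun p => if p ∈ B' then some true else if ext π p ∈ B' then some false else none,
    ?_, ?_⟩
  · unfold p4S
    rw [mem_filter, Fintype.mem_piFinset]
    constructor
    · intro p
      by_cases hp : p ∈ B'
      · have hv : p.1 ∈ vt (ext π) B := by
          unfold vt
          rw [mem_biUnion]
          exact ⟨p, hB' hp, by simp⟩
        rw [if_pos hv]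
        exact mem_univ _
      · by_cases hp2 : ext π p ∈ B'
        · have hv : p.1 ∈ vt (ext π) B := by
            unfold vt
            rw [mem_biUnion]
            exact ⟨ext π p, hB' hp2, by rw [hinv]; simp⟩
          rw [if_pos hv]
          exact mem_univ _
        · simp only [hp, hp2, if_false]
          split_ifs <;> simp
    · unfold plus
      rw [← hc]
      congr 1
      ext p
      simp only [mem_filter, mem_univ, true_and]
      constructor
      · intro h
        by_contra hp
        rw [if_neg hp] at h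
        split_ifs at h
        simp at h
      · intro hp
        rw [if_pos hp]
  · intro p
    by_cases hp : p ∈ B'
    · have h3 := hno p hp
      simp only [hinv, hp, h3, if_true, if_false]
      rfl
    · by_cases hp2 : ext π p ∈ B'
      · simp only [hp, hp2, if_true, if_false]
        rfl
      · simp only [hinv, hp, hp2, if_false]
        rfl

theorem dense_probG (d : ℕ) (hd : 1 ≤ d) (g : ℕ) (ε : ℝ) (hε : 0 < ε) :
    ∃ N₀ : ℕ, ∀ (n : ℕ) (D : Fin n → ℕ), (∀ v, D v ≤ d) → N₀ ≤ ∑ v, D v → Even (∑ v, D v) →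
      pr (fun π : Pairing (Live d D) => Dense (ext π) g) ≤ ε := by
  set K : ℝ := ((2 * g + 1).factorial : ℝ) * 3 ^ (2 * g * d) * 2 ^ (2 * g + 1) with hK
  have hK0 : 0 < K := by positivity
  obtain ⟨n₁, hn₁⟩ := exists_nat_ge ((2 * g + 1) * K / ε)
  refine ⟨max n₁ (8 * g + 2), fun n D hD hn _ => ?_⟩
  obtain ⟨N, hN⟩ : ∃ N, N = ∑ v, D v := ⟨_, rfl⟩
  rw [← hN] at hn
  have hNR : (∑ v, (D v : ℝ)) = (N : ℝ) := by
    rw [hN]
    push_cast
    rfl
  have hn1 : n₁ ≤ N := le_trans (le_max_left _ _) hn
  have hn2 : 8 * g + 2 ≤ N := le_trans (le_max_right _ _) hn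
  have hn0 : (0 : ℝ) < N := by
    have : 0 < N := by omega
    exact_mod_cast this
  have h1 : pr (fun π : Pairing (Live d D) => Dense (ext π) g) ≤
      ∑ v ∈ range (2 * g + 1), ∑ W ∈ powersetCard v (gp4V D),
        ∑ c ∈ p4S n d W (v + 1), pr (fun π : Pairing (Live d D) => Comp (ext π) c) := by
    refine (HC.pr_mono (fun π h => gp4_ex g π h)).trans ?_
    refine (HC.pr_exists_le _ _).trans (sum_le_sum fun v _ => ?_)
    refine (HC.pr_exists_le _ _).trans (sum_le_sum fun W _ => ?_)
    exact HC.pr_exists_le _ _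
  have h2 : ∀ v ∈ range (2 * g + 1), ∀ W ∈ powersetCard v (gp4V D),
      ∑ c ∈ p4S n d W (v + 1), pr (fun π : Pairing (Live d D) => Comp (ext π) c) ≤
        K / (N : ℝ) ^ (v + 1) := by
    intro v hv W hW
    rw [mem_range] at hv
    rw [mem_powersetCard] at hW
    have h3 : ∀ c ∈ p4S n d W (v + 1), pr (fun π : Pairing (Live d D) => Comp (ext π) c) ≤
        ((2 * g + 1).factorial : ℝ) * (2 / N) ^ (v + 1) := by
      intro c hc
      unfold p4S at hc
      rw [mem_filter] at hc
      refine (pr_compG (s := v + 1) hD (by omega) c hc.2).trans ?_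
      rw [hNR]
      split_ifs
      · have h5 : ((N : ℝ) / 2) ^ (v + 1) ≤ ∏ i ∈ range (v + 1), ((N : ℝ) - 2 * i - 1) := by
          rw [← Finset.card_range (v + 1), ← prod_const, Finset.card_range]
          refine prod_le_prod (fun i _ => by positivity) (fun i hi => ?_)
          rw [mem_range] at hi
          have h6 : (8 : ℝ) * g + 2 ≤ N := by exact_mod_cast hn2
          have h8 : (i : ℝ) ≤ 2 * g := by
            have : i ≤ 2 * g := by omega
            exact_mod_cast this
          linarith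
        have h6 : ((v + 1).factorial : ℝ) ≤ ((2 * g + 1).factorial : ℝ) := by
          have : (v + 1).factorial ≤ (2 * g + 1).factorial := Nat.factorial_le (by omega)
          exact_mod_cast this
        have h7 : (0 : ℝ) < ((N : ℝ) / 2) ^ (v + 1) := by positivity
        calc ((v + 1).factorial : ℝ) / ∏ i ∈ range (v + 1), ((N : ℝ) - 2 * i - 1)
            ≤ ((2 * g + 1).factorial : ℝ) / ((N : ℝ) / 2) ^ (v + 1) :=
              div_le_div₀ (by positivity) h6 h7 h5
          _ = ((2 * g + 1).factorial : ℝ) * (2 / N) ^ (v + 1) := by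
              rw [div_eq_mul_inv, ← inv_pow, inv_div]
      · positivity
    refine (sum_le_card_nsmul _ _ _ h3).trans ?_
    rw [nsmul_eq_mul]
    have h4 : ((p4S n d W (v + 1)).card : ℝ) ≤ 3 ^ (2 * g * d) := by
      have h5 := p4_card n d W (v + 1)
      have h6 : 3 ^ (W.card * d) ≤ 3 ^ (2 * g * d) := by
        refine Nat.pow_le_pow_right (by norm_num) (Nat.mul_le_mul_right _ ?_)
        omega
      exact_mod_cast h5.trans h6
    have h5 : (2 : ℝ) ^ (v + 1) ≤ 2 ^ (2 * g + 1) := pow_le_pow_right₀ (by norm_num) (by omega)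
    have h7 : (0 : ℝ) ≤ ((2 * g + 1).factorial : ℝ) := by positivity
    rw [div_pow, hK]
    calc ((p4S n d W (v + 1)).card : ℝ) * (((2 * g + 1).factorial : ℝ) * (2 ^ (v + 1) / (N : ℝ) ^ (v + 1)))
        ≤ 3 ^ (2 * g * d) * (((2 * g + 1).factorial : ℝ) * (2 ^ (2 * g + 1) / (N : ℝ) ^ (v + 1))) := by
          refine mul_le_mul h4 ?_ (by positivity) (by positivity)
          refine mul_le_mul_of_nonneg_left ?_ h7
          exact div_le_div_of_nonneg_right h5 (by positivity)
      _ = _ := by ring
  have h3 : ∀ v ∈ range (2 * g + 1), ∑ W ∈ powersetCard v (gp4V D),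
        ∑ c ∈ p4S n d W (v + 1), pr (fun π : Pairing (Live d D) => Comp (ext π) c) ≤ K / N := by
    intro v hv
    refine (sum_le_card_nsmul _ _ _ (h2 v hv)).trans ?_
    rw [nsmul_eq_mul, card_powersetCard]
    have h4 : (((gp4V D).card.choose v : ℕ) : ℝ) ≤ (N : ℝ) ^ v := by
      have h5 : (gp4V D).card.choose v ≤ N ^ v := by
        refine (Nat.choose_le_pow _ v).trans (Nat.pow_le_pow_left ?_ v)
        rw [hN]
        exact gp4V_card D
      exact_mod_cast h5
    calc (((gp4V D).card.choose v : ℕ) : ℝ) * (K / (N : ℝ) ^ (v + 1))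
        ≤ (N : ℝ) ^ v * (K / (N : ℝ) ^ (v + 1)) :=
          mul_le_mul_of_nonneg_right h4 (by positivity)
      _ = K / N := by
          rw [pow_succ]
          field_simp
  refine h1.trans ((sum_le_card_nsmul _ _ _ h3).trans ?_)
  rw [card_range, nsmul_eq_mul]
  have h4 : (2 * (g : ℝ) + 1) * K / ε ≤ N := hn₁.trans (by exact_mod_cast hn1)
  rw [div_le_iff₀ hε] at h4
  push_cast
  rw [mul_div_assoc', div_le_iff₀ hn0]
  linarith

end Pool.Agent.Lib.MP_d38209_co.CR
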