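import Pool.Agent.Lib.MP_d38209_co.CR.GenFun
import Pool.Agent.Lib.MP_d38209_co.CR.GDefs

set_option autoImplicit false

/-!
# The generating function of the valid colourings of the points in use
-/

namespace Pool.Agent.Lib.MP_d38209_co.CR

open Finset
open scoped Classical

/-- the weight of a row in which only the first `k` points are in use -/
noncomputable def gp2_w (d k : ℕ) (x t : ℝ) (ρ : Fin d → Option Bool) : ℝ :=
  if ∀ i, ρ i ≠ none → (i : ℕ) < k then p2_u d x t ρ else 0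

/-- the weight of a point -/
noncomputable def gp2_g (d k : ℕ) (a b : ℝ) (i : Fin d) (o : Option Bool) : ℝ :=
  if (i : ℕ) < k then p2_g a b o else if o = none then 1 else 0

theorem gp2_sum {d k : ℕ} (hk : k ≤ d) (a b : ℝ) :
    ∑ ρ : Fin d → Option Bool, ∏ i, gp2_g d k a b i (ρ i) = (1 + a + b) ^ k := by
  have h1 := (Finset.prod_univ_sum (fun _ : Fin d => (univ : Finset (Option Bool)))
    (fun i o => gp2_g d k a b i o)).symm
  rw [Fintype.piFinset_univ] at h1
  rw [h1]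
  have h2 : ∀ i : Fin d, ∑ o : Option Bool, gp2_g d k a b i o =
      if (i : ℕ) < k then 1 + a + b else 1 := by
    intro i
    rw [Fintype.sum_option]
    by_cases h : (i : ℕ) < k
    · simp only [Fintype.sum_bool, gp2_g, if_pos h, p2_g]
      ring
    · simp only [Fintype.sum_bool, gp2_g, if_neg h]
      simp
  simp only [h2]
  rw [Finset.prod_ite, Finset.prod_const, Finset.prod_const_one, mul_one,
    Fin.card_filter_val_lt, min_eq_right hk]

theorem gp2_prod {d k : ℕ} (a b : ℝ) (ρ : Fin d → Option Bool) :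
    ∏ i, gp2_g d k a b i (ρ i) =
      if ∀ i, ρ i ≠ none → (i : ℕ) < k then ∏ i, p2_g a b (ρ i) else 0 := by
  split_ifs with h
  · apply Finset.prod_congr rfl
    intro i _
    rw [gp2_g]
    split_ifs with h1 h2
    · rfl
    · rw [h2]
      rfl
    · exact absurd (h i h2) h1
  · push Not at h
    obtain ⟨i, hi, hk⟩ := h
    apply Finset.prod_eq_zero (Finset.mem_univ i)
    rw [gp2_g, if_neg (not_lt.mpr hk), if_neg hi]

theorem gp2_row (d k : ℕ) (x t : ℝ) (ρ : Fin d → Option Bool) :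
    gp2_w d k x t ρ = ∏ i, gp2_g d k 0 0 i (ρ i) + x * (∏ i, gp2_g d k t t i (ρ i) -
      ∏ i, gp2_g d k 0 t i (ρ i) - ∏ i, gp2_g d k t 0 i (ρ i) +
        ∏ i, gp2_g d k 0 0 i (ρ i)) := by
  rw [gp2_w, gp2_prod, gp2_prod, gp2_prod, gp2_prod]
  split_ifs with h
  · exact p2_row d x t ρ
  · ring

theorem gp2_rows {d k : ℕ} (hk : k ≤ d) (x t : ℝ) :
    ∑ ρ : Fin d → Option Bool, gp2_w d k x t ρ = ww k x t := by
  simp only [gp2_row]
  rw [Finset.sum_add_distrib, ← Finset.mul_sum, Finset.sum_add_distrib, Finset.sum_sub_distrib,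
    Finset.sum_sub_distrib]
  simp only [gp2_sum hk, ww]
  ring_nf

theorem gp2_total {n d : ℕ} {D : Fin n → ℕ} (hD : ∀ v, D v ≤ d) (x t : ℝ) :
    ∑ c : Pt n d → Option Bool, ∏ v : Fin n, gp2_w d (D v) x t (fun i => c (v, i)) =
      ∏ v, ww (D v) x t := by
  have h1 := (Finset.prod_univ_sum (fun _ : Fin n => (univ : Finset (Fin d → Option Bool)))
    (fun v ρ => gp2_w d (D v) x t ρ)).symm
  rw [Fintype.piFinset_univ] at h1
  have h2 : ∀ v, ∑ ρ : Fin d → Option Bool, gp2_w d (D v) x t ρ = ww (D v) x t :=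
    fun v => gp2_rows (hD v) x t
  simp only [h2] at h1
  rw [← h1]
  exact Fintype.sum_equiv (Equiv.curry (Fin n) (Fin d) (Option Bool)) _ _ fun c => rfl

theorem gp2_nonneg {d k : ℕ} {x t : ℝ} (hx : 0 ≤ x) (ht : 0 < t) (ρ : Fin d → Option Bool) :
    0 ≤ gp2_w d k x t ρ := by
  rw [gp2_w]
  split_ifs
  · exact p2_nonneg hx ht ρ
  · exact le_rfl

/-- **GP2.** -/
theorem genfunG {n d s : ℕ} {D : Fin n → ℕ} (hD : ∀ v, D v ≤ d) (x t : ℝ) (hx : 0 ≤ x)
    (ht : 0 < t) :
    ∑ c ∈ univ.filter (fun c : Pt n d → Option Bool => Valid c ∧ plus c = s ∧ minus c = s ∧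
      ∀ p, c p ≠ none → (p.2 : ℕ) < D p.1), x ^ tch c ≤
      (t ^ (2 * s))⁻¹ * ∏ v, ww (D v) x t := by
  have ht' : 0 < t ^ (2 * s) := pow_pos ht _
  rw [← gp2_total hD, le_inv_mul_iff₀ ht', Finset.mul_sum]
  have h2 : ∑ c ∈ univ.filter (fun c : Pt n d → Option Bool =>
      Valid c ∧ plus c = s ∧ minus c = s ∧ ∀ p, c p ≠ none → (p.2 : ℕ) < D p.1),
        t ^ (2 * s) * x ^ tch c =
      ∑ c ∈ univ.filter (fun c : Pt n d → Option Bool => Valid c ∧ plus c = s ∧ minus c = s ∧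
        ∀ p, c p ≠ none → (p.2 : ℕ) < D p.1),
        ∏ v : Fin n, gp2_w d (D v) x t (fun i => c (v, i)) := by
    apply Finset.sum_congr rfl
    intro c hc
    obtain ⟨hv, hp, hm, hl⟩ := (Finset.mem_filter.mp hc).2
    have h3 : ∏ v : Fin n, gp2_w d (D v) x t (fun i => c (v, i)) =
        ∏ v : Fin n, p2_u d x t (fun i => c (v, i)) := by
      apply Finset.prod_congr rfl
      intro v _
      rw [gp2_w, if_pos (fun i hi => hl (v, i) hi)]
    rw [h3, p2_valid x t c hv, hp, hm, mul_comm, two_mul]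
  rw [h2]
  exact Finset.sum_le_sum_of_subset_of_nonneg (Finset.subset_univ _)
    fun c _ _ => Finset.prod_nonneg fun v _ => gp2_nonneg hx ht _

end Pool.Agent.Lib.MP_d38209_co.CR
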