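import Pool.Agent.Lib.MP_d38209_co.CR.Defs

set_option autoImplicit false

/-!
# The generating function of the valid colourings
-/

namespace Pool.Agent.Lib.MP_d38209_co.CR

open Finset
open scoped Classical

/-- the weight of a row -/
noncomputable def p2_u (d : ℕ) (x t : ℝ) (ρ : Fin d → Option Bool) : ℝ :=
  if (∃ i, ρ i ≠ none) → (∃ i, ρ i = some true) ∧ ∃ i, ρ i = some false then
    (if ∃ i, ρ i ≠ none then x else 1) * ∏ i, (if ρ i = none then 1 else t) else 0

/-- the weight of a point -/
def p2_g (a b : ℝ) : Option Bool → ℝ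
  | none => 1
  | some true => a
  | some false => b

theorem p2_sum (d : ℕ) (a b : ℝ) :
    ∑ ρ : Fin d → Option Bool, ∏ i, p2_g a b (ρ i) = (1 + a + b) ^ d := by
  have h1 := (Finset.prod_univ_sum (fun _ : Fin d => (univ : Finset (Option Bool)))
    (fun _ o => p2_g a b o)).symm
  rw [Fintype.piFinset_univ] at h1
  rw [h1, Finset.prod_const, Finset.card_univ, Fintype.card_fin]
  congr 1
  rw [Fintype.sum_option]
  simp only [Fintype.sum_bool, p2_g]
  ring

theorem p2_row (d : ℕ) (x t : ℝ) (ρ : Fin d → Option Bool) :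
    p2_u d x t ρ = ∏ i, p2_g 0 0 (ρ i) + x * (∏ i, p2_g t t (ρ i) - ∏ i, p2_g 0 t (ρ i) -
      ∏ i, p2_g t 0 (ρ i) + ∏ i, p2_g 0 0 (ρ i)) := by
  have hA : ∏ i, (if ρ i = none then (1 : ℝ) else t) = ∏ i, p2_g t t (ρ i) := by
    apply Finset.prod_congr rfl
    intro i _
    rcases ρ i with _ | _ | _ <;> simp [p2_g]
  rw [p2_u, hA]
  by_cases h0 : ∃ i, ρ i ≠ none
  · have hN : ∏ i, p2_g 0 0 (ρ i) = 0 := by
      obtain ⟨i, hi⟩ := h0
      apply Finset.prod_eq_zero (Finset.mem_univ i)
      rcases h : ρ i with _ | _ | _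
      · exact absurd h hi
      · rfl
      · rfl
    by_cases h1 : ∃ i, ρ i = some true
    · have hT : ∏ i, p2_g 0 t (ρ i) = 0 := by
        obtain ⟨i, hi⟩ := h1
        apply Finset.prod_eq_zero (Finset.mem_univ i)
        rw [hi]
        rfl
      by_cases h2 : ∃ i, ρ i = some false
      · have hF : ∏ i, p2_g t 0 (ρ i) = 0 := by
          obtain ⟨i, hi⟩ := h2
          apply Finset.prod_eq_zero (Finset.mem_univ i)
          rw [hi]
          rfl
        rw [if_pos (fun _ => ⟨h1, h2⟩), if_pos h0, hN, hT, hF]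
        ring
      · have hF : ∏ i, p2_g t 0 (ρ i) = ∏ i, p2_g t t (ρ i) := by
          apply Finset.prod_congr rfl
          intro i _
          rcases h : ρ i with _ | _ | _
          · rfl
          · exact absurd ⟨i, h⟩ h2
          · rfl
        rw [if_neg (fun h => h2 (h h0).2), hN, hT, hF]
        ring
    · have hT : ∏ i, p2_g 0 t (ρ i) = ∏ i, p2_g t t (ρ i) := by
        apply Finset.prod_congr rfl
        intro i _
        rcases h : ρ i with _ | _ | _
        · rfl
        · rfl
        · exact absurd ⟨i, h⟩ h1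
      have hF : ∏ i, p2_g t 0 (ρ i) = 0 := by
        obtain ⟨i, hi⟩ := h0
        apply Finset.prod_eq_zero (Finset.mem_univ i)
        rcases h : ρ i with _ | _ | _
        · exact absurd h hi
        · rfl
        · exact absurd ⟨i, h⟩ h1
      rw [if_neg (fun h => h1 (h h0).1), hN, hT, hF]
      ring
  · push Not at h0
    have h1 : ∀ a b : ℝ, ∏ i, p2_g a b (ρ i) = 1 := by
      intro a b
      apply Finset.prod_eq_one
      intro i _
      rw [h0 i]
      rfl
    rw [if_pos (fun ⟨i, hi⟩ => absurd (h0 i) hi), if_neg (by push Not; exact h0)]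
    simp only [h1]
    ring

theorem p2_rows (d : ℕ) (x t : ℝ) : ∑ ρ : Fin d → Option Bool, p2_u d x t ρ = ww d x t := by
  simp only [p2_row]
  rw [Finset.sum_add_distrib, ← Finset.mul_sum, Finset.sum_add_distrib, Finset.sum_sub_distrib,
    Finset.sum_sub_distrib]
  simp only [p2_sum, ww]
  ring_nf

theorem p2_total (n d : ℕ) (x t : ℝ) :
    ∑ c : Pt n d → Option Bool, ∏ v : Fin n, p2_u d x t (fun i => c (v, i)) =
      ww d x t ^ n := by
  have h1 := (Finset.prod_univ_sum (fun _ : Fin n => (univ : Finset (Fin d → Option Bool)))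
    (fun _ ρ => p2_u d x t ρ)).symm
  rw [Fintype.piFinset_univ] at h1
  rw [Finset.prod_const, Finset.card_univ, Fintype.card_fin, p2_rows] at h1
  rw [← h1]
  exact Fintype.sum_equiv (Equiv.curry (Fin n) (Fin d) (Option Bool)) _ _ fun c => rfl

theorem p2_nonneg {d : ℕ} {x t : ℝ} (hx : 0 ≤ x) (ht : 0 < t) (ρ : Fin d → Option Bool) :
    0 ≤ p2_u d x t ρ := by
  rw [p2_u]
  split_ifs
  · exact mul_nonneg hx (Finset.prod_nonneg fun i _ => by split_ifs <;> linarith)
  · exact mul_nonneg zero_le_one (Finset.prod_nonneg fun i _ => by split_ifs <;> linarith)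
  · exact le_rfl

theorem p2_valid {n d : ℕ} (x t : ℝ) (c : Pt n d → Option Bool) (hc : Valid c) :
    ∏ v : Fin n, p2_u d x t (fun i => c (v, i)) = x ^ tch c * t ^ (plus c + minus c) := by
  have h1 : ∀ v : Fin n, p2_u d x t (fun i => c (v, i)) =
      (if ∃ i, c (v, i) ≠ none then x else 1) * ∏ i, (if c (v, i) = none then 1 else t) := by
    intro v
    rw [p2_u, if_pos (hc v)]
  simp only [h1]
  rw [Finset.prod_mul_distrib]
  congr 1
  · rw [Finset.prod_ite, Finset.prod_const, Finset.prod_const_one, mul_one, tch]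
  · have h2 : ∏ v : Fin n, ∏ i : Fin d, (if c (v, i) = none then (1 : ℝ) else t) =
        ∏ p : Pt n d, (if c p = none then (1 : ℝ) else t) :=
      (Fintype.prod_prod_type (fun p : Fin n × Fin d => if c p = none then (1 : ℝ) else t)).symm
    rw [h2, Finset.prod_ite, Finset.prod_const_one, one_mul, Finset.prod_const]
    congr 1
    rw [plus, minus, ← Finset.card_union_of_disjoint]
    · congr 1
      ext p
      simp only [Finset.mem_filter, Finset.mem_univ, true_and, Finset.mem_union]
      rcases c p with _ | _ | _ <;> simp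
    · rw [Finset.disjoint_left]
      intro p hp hp'
      rw [Finset.mem_filter] at hp hp'
      rw [hp.2] at hp'
      simp at hp'

/-- **P2.** -/
theorem genfun {n d s : ℕ} (x t : ℝ) (hx : 0 ≤ x) (ht : 0 < t) :
    ∑ c ∈ univ.filter (fun c : Pt n d → Option Bool => Valid c ∧ plus c = s ∧ minus c = s),
      x ^ tch c ≤ (t ^ (2 * s))⁻¹ * ww d x t ^ n := by
  have ht' : 0 < t ^ (2 * s) := pow_pos ht _
  rw [← p2_total, le_inv_mul_iff₀ ht', Finset.mul_sum]
  have h2 : ∑ c ∈ univ.filter (fun c : Pt n d → Option Bool =>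
      Valid c ∧ plus c = s ∧ minus c = s), t ^ (2 * s) * x ^ tch c =
      ∑ c ∈ univ.filter (fun c : Pt n d → Option Bool => Valid c ∧ plus c = s ∧ minus c = s),
        ∏ v : Fin n, p2_u d x t (fun i => c (v, i)) := by
    apply Finset.sum_congr rfl
    intro c hc
    obtain ⟨hv, hp, hm⟩ := (Finset.mem_filter.mp hc).2
    rw [p2_valid x t c hv, hp, hm, mul_comm, two_mul]
  rw [h2]
  exact Finset.sum_le_sum_of_subset_of_nonneg (Finset.subset_univ _)
    fun c _ _ => Finset.prod_nonneg fun v _ => p2_nonneg hx ht _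

end Pool.Agent.Lib.MP_d38209_co.CR
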