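import Pool.Agent.Lib.MP_d38209_co.CR.PairCount
import Pool.Agent.Lib.MP_d38209_co.CR.GenFun

/-!
# P3 : the mean of `Y`
-/

set_option autoImplicit false

namespace Pool.Agent.Lib.MP_d38209_co.CR

open Finset
open scoped Classical
open Pool.Agent.HC (Pairing av pr)

lemma p3_Y {n d : ℕ} (σ : Pt n d → Pt n d) (x : ℝ) (s : ℕ) : Y σ x s =
    ∑ c ∈ univ.filter (fun c : Pt n d → Option Bool => Valid c ∧ plus c = s),
      ((1 / 2) ^ s * x ^ tch c) * (if Comp σ c then (1 : ℝ) else 0) := by
  unfold Y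
  rw [Finset.sum_filter, Finset.sum_filter]
  refine Finset.sum_congr rfl fun c _ => ?_
  by_cases h1 : Comp σ c
  · by_cases h2 : Valid c ∧ plus c = s
    · rw [if_pos ⟨h1, h2⟩, if_pos h2, if_pos h1, mul_one]
    · rw [if_neg fun h => h2 h.2, if_neg h2]
  · rw [if_neg fun h => h1 h.1, if_neg h1, mul_zero, ite_self]

theorem mean_Y {n d s : ℕ} (hs : 2 * s ≤ n * d) (x t : ℝ) (hx : 0 ≤ x) (ht : 0 < t) :
    av (fun π : Pairing (Pt n d) => Y π.1 x s) ≤
      (1 / 2) ^ s * ((s.factorial : ℝ) / ∏ i ∈ range s, ((n * d : ℝ) - 2 * i - 1)) *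
        ((t ^ (2 * s))⁻¹ * ww d x t ^ n) := by
  have h1 : av (fun π : Pairing (Pt n d) => Y π.1 x s) =
      ∑ c ∈ univ.filter (fun c : Pt n d → Option Bool => Valid c ∧ plus c = s),
        ((1 / 2) ^ s * x ^ tch c) * pr (fun π : Pairing (Pt n d) => Comp π.1 c) := by
    rw [HC.av_congr fun π : Pairing (Pt n d) => p3_Y π.1 x s, HC.av_sum]
    refine Finset.sum_congr rfl fun c _ => ?_
    rw [HC.av_mul_left]
    rfl
  have hF : 0 ≤ (s.factorial : ℝ) / ∏ i ∈ range s, ((n * d : ℝ) - 2 * i - 1) := by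
    refine div_nonneg (by positivity) (Finset.prod_nonneg fun i hi => ?_)
    have hi' : 2 * i + 1 ≤ n * d := by have := Finset.mem_range.1 hi; omega
    have : (2 * (i : ℝ)) + 1 ≤ (n * d : ℝ) := by exact_mod_cast hi'
    linarith
  set F : ℝ := (s.factorial : ℝ) / ∏ i ∈ range s, ((n * d : ℝ) - 2 * i - 1) with hFdef
  have h2 : ∑ c ∈ univ.filter (fun c : Pt n d → Option Bool => Valid c ∧ plus c = s),
        ((1 / 2) ^ s * x ^ tch c) * pr (fun π : Pairing (Pt n d) => Comp π.1 c) ≤
      ∑ c ∈ univ.filter (fun c : Pt n d → Option Bool => Valid c ∧ plus c = s),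
        ((1 / 2) ^ s * x ^ tch c) * (if minus c = s then F else 0) := by
    refine Finset.sum_le_sum fun c hc => ?_
    refine mul_le_mul_of_nonneg_left ?_ (by positivity)
    exact pr_comp hs c (Finset.mem_filter.1 hc).2.2
  have h3 : ∑ c ∈ univ.filter (fun c : Pt n d → Option Bool => Valid c ∧ plus c = s),
        ((1 / 2) ^ s * x ^ tch c) * (if minus c = s then F else 0) =
      (1 / 2) ^ s * F * ∑ c ∈ univ.filter
        (fun c : Pt n d → Option Bool => Valid c ∧ plus c = s ∧ minus c = s), x ^ tch c := by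
    rw [Finset.mul_sum, Finset.sum_filter, Finset.sum_filter]
    refine Finset.sum_congr rfl fun c _ => ?_
    by_cases h4 : Valid c ∧ plus c = s
    · by_cases h5 : minus c = s
      · rw [if_pos h4, if_pos h5, if_pos ⟨h4.1, h4.2, h5⟩]
        ring
      · rw [if_pos h4, if_neg h5, if_neg fun h => h5 h.2.2, mul_zero]
    · rw [if_neg h4, if_neg fun h => h4 ⟨h.1, h.2.1⟩]
  rw [h1]
  refine h2.trans ?_
  rw [h3]
  exact mul_le_mul_of_nonneg_left (genfun x t hx ht) (mul_nonneg (by positivity) hF)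

theorem Y_zero {n d s : ℕ} (hs : n * d < 2 * s) (x : ℝ) (π : Pairing (Pt n d)) :
    Y π.1 x s = 0 := by
  unfold Y
  refine Finset.sum_eq_zero fun c hc => ?_
  exfalso
  obtain ⟨h1, _, h2⟩ := (Finset.mem_filter.1 hc).2
  have h3 := p1_bal c π h1
  have h4 : plus c + minus c ≤ n * d := by
    have hcard : Fintype.card (Pt n d) = n * d := by
      rw [Fintype.card_prod, Fintype.card_fin, Fintype.card_fin]
    rw [← hcard, ← Finset.card_univ, plus, minus, ← Finset.card_union_of_disjoint]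
    · exact Finset.card_le_card (Finset.subset_univ _)
    · rw [Finset.disjoint_left]
      intro p hp hq
      simp only [mem_filter, mem_univ, true_and] at hp hq
      rw [hp] at hq
      cases hq
  have h5 : plus c = minus c := h3
  omega

end Pool.Agent.Lib.MP_d38209_co.CR
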