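import Pool.Agent.Lib.MP_d38209_co.CR.GPairCount
import Pool.Agent.Lib.MP_d38209_co.CR.GGenFun
import Pool.Agent.Lib.MP_d38209_co.CR.Mean

/-!
# GP3 : the mean of `Y`
-/

set_option autoImplicit false

namespace Pool.Agent.Lib.MP_d38209_co.CR

open Finset
open scoped Classical
open Pool.Agent.HC (Pairing av pr)

/-! GP3 (CR/GMean.lean), uses GP1, GP2 -/
theorem mean_YG {n d s : ℕ} {D : Fin n → ℕ} (hD : ∀ v, D v ≤ d) (hs : 2 * s ≤ ∑ v, D v)
    (x t : ℝ) (hx : 0 ≤ x) (ht : 0 < t) :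
    av (fun π : Pairing (Live d D) => Y (ext π) x s) ≤
      (1 / 2) ^ s * ((s.factorial : ℝ) / ∏ i ∈ range s, ((∑ v, (D v : ℝ)) - 2 * i - 1)) *
        ((t ^ (2 * s))⁻¹ * ∏ v, ww (D v) x t) := by
  have h1 : av (fun π : Pairing (Live d D) => Y (ext π) x s) =
      ∑ c ∈ univ.filter (fun c : Pt n d → Option Bool => Valid c ∧ plus c = s),
        ((1 / 2) ^ s * x ^ tch c) * pr (fun π : Pairing (Live d D) => Comp (ext π) c) := by
    rw [HC.av_congr fun π : Pairing (Live d D) => p3_Y (ext π) x s, HC.av_sum]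
    refine Finset.sum_congr rfl fun c _ => ?_
    rw [HC.av_mul_left]
    rfl
  have hF : 0 ≤ (s.factorial : ℝ) / ∏ i ∈ range s, ((∑ v, (D v : ℝ)) - 2 * i - 1) := by
    refine div_nonneg (by positivity) (Finset.prod_nonneg fun i hi => ?_)
    have hi' : 2 * i + 1 ≤ ∑ v, D v := by have := Finset.mem_range.1 hi; omega
    have : (2 * (i : ℝ)) + 1 ≤ (∑ v, (D v : ℝ)) := by exact_mod_cast hi'
    linarith
  set F : ℝ := (s.factorial : ℝ) / ∏ i ∈ range s, ((∑ v, (D v : ℝ)) - 2 * i - 1) with hFdef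
  have h2 : ∑ c ∈ univ.filter (fun c : Pt n d → Option Bool => Valid c ∧ plus c = s),
        ((1 / 2) ^ s * x ^ tch c) * pr (fun π : Pairing (Live d D) => Comp (ext π) c) ≤
      ∑ c ∈ univ.filter (fun c : Pt n d → Option Bool => Valid c ∧ plus c = s),
        ((1 / 2) ^ s * x ^ tch c) *
          (if minus c = s ∧ ∀ p, c p ≠ none → (p.2 : ℕ) < D p.1 then F else 0) := by
    refine Finset.sum_le_sum fun c hc => ?_
    refine mul_le_mul_of_nonneg_left ?_ (by positivity)
    exact pr_compG hD hs c (Finset.mem_filter.1 hc).2.2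
  have h3 : ∑ c ∈ univ.filter (fun c : Pt n d → Option Bool => Valid c ∧ plus c = s),
        ((1 / 2) ^ s * x ^ tch c) *
          (if minus c = s ∧ ∀ p, c p ≠ none → (p.2 : ℕ) < D p.1 then F else 0) =
      (1 / 2) ^ s * F * ∑ c ∈ univ.filter
        (fun c : Pt n d → Option Bool => Valid c ∧ plus c = s ∧ minus c = s ∧
          ∀ p, c p ≠ none → (p.2 : ℕ) < D p.1), x ^ tch c := by
    rw [Finset.mul_sum, Finset.sum_filter, Finset.sum_filter]
    refine Finset.sum_congr rfl fun c _ => ?_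
    by_cases h4 : Valid c ∧ plus c = s
    · by_cases h5 : minus c = s ∧ ∀ p, c p ≠ none → (p.2 : ℕ) < D p.1
      · rw [if_pos h4, if_pos h5, if_pos ⟨h4.1, h4.2, h5.1, h5.2⟩]
        ring
      · rw [if_pos h4, if_neg h5, if_neg fun h => h5 h.2.2, mul_zero]
    · rw [if_neg h4, if_neg fun h => h4 ⟨h.1, h.2.1⟩]
  rw [h1]
  refine h2.trans ?_
  rw [h3]
  exact mul_le_mul_of_nonneg_left (genfunG hD x t hx ht) (mul_nonneg (by positivity) hF)

theorem Y_zeroG {n d s : ℕ} {D : Fin n → ℕ} (hD : ∀ v, D v ≤ d) (hs : ∑ v, D v < 2 * s) (x : ℝ)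
    (π : Pairing (Live d D)) : Y (ext π) x s = 0 := by
  unfold Y
  refine Finset.sum_eq_zero fun c hc => ?_
  exfalso
  obtain ⟨h1, _, h2⟩ := (Finset.mem_filter.1 hc).2
  have h3 := gp1_bal c π h1
  have h4 : plus c + minus c ≤ ∑ v, D v := by
    rw [← card_live (n := n) (d := d) hD, ← Finset.card_univ, plus, minus,
      ← gp1_card (D := D) c (gp1_live c π h1) true, ← gp1_card (D := D) c (gp1_live c π h1) false,
      ← Finset.card_union_of_disjoint]
    · exact Finset.card_le_card (Finset.subset_univ _)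
    · rw [Finset.disjoint_left]
      intro p hp hq
      simp only [mem_filter, mem_univ, true_and] at hp hq
      rw [hp] at hq
      cases hq
  omega

end Pool.Agent.Lib.MP_d38209_co.CR
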