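import Pool.Agent.Lib.MP_d38209_co.CR.Tail
import Pool.Agent.Lib.MP_d38209_co.CR.GMean
import Pool.Agent.Lib.MP_d38209_co.CR.GBound

/-!
# Chromatic roots of almost all graphs with given degrees: the mean of the sums of `Y`
-/

set_option autoImplicit false

namespace Pool.Agent.Lib.MP_d38209_co.CR

open Finset
open scoped Classical
open Pool.Agent.HC (Pairing av pr)

theorem ga2_tail {d : ℕ} (x : ℝ) (B : (n : ℕ) → (Fin n → ℕ) → ℕ → ℝ → ℝ)
    (hmean : ∀ (n : ℕ) (D : Fin n → ℕ) (s : ℕ), (∀ v, D v ≤ d) → 2 * s ≤ ∑ v, D v →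
      ∀ t : ℝ, 0 < t → av (fun π : Pairing (Live d D) => Y (ext π) x s) ≤ B n D s t)
    (hzero : ∀ (n : ℕ) (D : Fin n → ℕ) (s : ℕ), (∀ v, D v ≤ d) → ∑ v, D v < 2 * s →
      ∀ π : Pairing (Live d D), Y (ext π) x s = 0)
    (hbound : ∃ (K κ : ℝ) (k : ℕ), 0 < K ∧ 0 < κ ∧ ∀ (n : ℕ) (D : Fin n → ℕ) (r s : ℕ),
      (∀ v, D v ≤ d) → ∑ v, D v = 2 * r → 1 ≤ s → s ≤ r → ∃ t : ℝ, 0 < t ∧ B n D s t ≤
        (if s ^ 2 ≤ r then K * s else K * (r : ℝ) ^ k) * Real.exp (-(κ * s))) :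
    ∃ K₁ : ℝ, (∀ (n : ℕ) (D : Fin n → ℕ), (∀ v, D v ≤ d) → Even (∑ v, D v) →
        av (fun π : Pairing (Live d D) => ∑ s ∈ Icc 1 (n * d), Y (ext π) x s) ≤ K₁) ∧
      ∀ δ > 0, ∃ g₀ : ℕ, ∀ g ≥ g₀, ∃ N₀ : ℕ, ∀ (n : ℕ) (D : Fin n → ℕ), (∀ v, D v ≤ d) →
        N₀ ≤ ∑ v, D v → Even (∑ v, D v) →
        av (fun π : Pairing (Live d D) => ∑ s ∈ Ioc g (n * d), Y (ext π) x s) ≤ δ := by
  obtain ⟨K, κ, k, hK, hκ, hb⟩ := hbound
  have hsum : Summable (a2_u K κ k) := a2_summable hκ k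
  have hnn : ∀ s, 0 ≤ a2_u K κ k s := a2_u_nonneg hK k
  have hone : ∀ (n : ℕ) (D : Fin n → ℕ) (s : ℕ), (∀ v, D v ≤ d) → Even (∑ v, D v) → 1 ≤ s →
      av (fun π : Pairing (Live d D) => Y (ext π) x s) ≤ a2_u K κ k s := by
    intro n D s hD hev hs
    obtain ⟨r, hr⟩ := hev
    by_cases hsr : s ≤ r
    · obtain ⟨t, ht, hB⟩ := hb n D r s hD (by omega) hs hsr
      refine (hmean n D s hD (by omega) t ht).trans (hB.trans ?_)
      unfold a2_u
      have he : 0 < Real.exp (-(κ * s)) := Real.exp_pos _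
      rw [← mul_assoc]
      refine mul_le_mul_of_nonneg_right ?_ he.le
      split_ifs with h
      · have h0 : (0 : ℝ) ≤ (s : ℝ) ^ (2 * k) := by positivity
        nlinarith
      · have h1 : (r : ℝ) ^ k ≤ (s : ℝ) ^ (2 * k) := by
          rw [pow_mul]
          refine pow_le_pow_left₀ (by positivity) ?_ k
          have h2 : r ≤ s ^ 2 := by omega
          exact_mod_cast h2
        have h0 : (0 : ℝ) ≤ (s : ℝ) := by positivity
        nlinarith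
    · have h0 : (fun π : Pairing (Live d D) => Y (ext π) x s) = fun _ => 0 := by
        funext π
        exact hzero n D s hD (by omega) π
      rw [h0]
      have h1 : av (fun _ : Pairing (Live d D) => (0 : ℝ)) = 0 := by
        unfold av; simp
      rw [h1]
      exact hnn s
  have hset : ∀ (n : ℕ) (D : Fin n → ℕ) (S : Finset ℕ), (∀ v, D v ≤ d) → Even (∑ v, D v) →
      (∀ s ∈ S, 1 ≤ s) →
      av (fun π : Pairing (Live d D) => ∑ s ∈ S, Y (ext π) x s) ≤ ∑ s ∈ S, a2_u K κ k s := by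
    intro n D S hD hev hS
    rw [a2_av_sum]
    exact Finset.sum_le_sum fun s hs => hone n D s hD hev (hS s hs)
  refine ⟨∑' s, a2_u K κ k s, fun n D hD hev => ?_, fun δ hδ => ?_⟩
  · refine (hset n D _ hD hev fun s hs => (Finset.mem_Icc.1 hs).1).trans ?_
    exact hsum.sum_le_tsum _ fun s _ => hnn s
  · have hlim := hsum.hasSum.tendsto_sum_nat
    have hev := hlim.eventually (lt_mem_nhds (show (∑' s, a2_u K κ k s) - δ < ∑' s, a2_u K κ k s by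
      linarith))
    obtain ⟨g₀, hg₀⟩ := Filter.eventually_atTop.1 hev
    refine ⟨g₀, fun g hg => ⟨0, fun n D hD _ hev' => ?_⟩⟩
    refine (hset n D _ hD hev' fun s hs => by have := (Finset.mem_Ioc.1 hs).1; omega).trans ?_
    have h1 := hg₀ (g + 1) (by omega)
    have hdis : Disjoint (Finset.range (g + 1)) (Finset.Ioc g (n * d)) := by
      rw [Finset.disjoint_left]
      intro s h1 h2
      rw [Finset.mem_range] at h1
      rw [Finset.mem_Ioc] at h2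
      omega
    have h2 : ∑ s ∈ Finset.range (g + 1) ∪ Finset.Ioc g (n * d), a2_u K κ k s ≤
        ∑' s, a2_u K κ k s := hsum.sum_le_tsum _ fun s _ => hnn s
    rw [Finset.sum_union hdis] at h2
    linarith

theorem tailG {d : ℕ} (hd : 1 ≤ d) (x c : ℝ) (hx : 0 < x) (hx1 : x ≤ 1) (hc : 0 < c)
    (hC : ∀ k, 1 ≤ k → k ≤ d → Cond k x c) :
    ∃ K₁ : ℝ, (∀ (n : ℕ) (D : Fin n → ℕ), (∀ v, D v ≤ d) → Even (∑ v, D v) →
        av (fun π : Pairing (Live d D) => ∑ s ∈ Icc 1 (n * d), Y (ext π) x s) ≤ K₁) ∧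
      ∀ δ > 0, ∃ g₀ : ℕ, ∀ g ≥ g₀, ∃ N₀ : ℕ, ∀ (n : ℕ) (D : Fin n → ℕ), (∀ v, D v ≤ d) →
        N₀ ≤ ∑ v, D v → Even (∑ v, D v) →
        av (fun π : Pairing (Live d D) => ∑ s ∈ Ioc g (n * d), Y (ext π) x s) ≤ δ :=
  ga2_tail x (fun n D s t => (1 / 2) ^ s *
      ((s.factorial : ℝ) / ∏ i ∈ range s, ((∑ v, (D v : ℝ)) - 2 * i - 1)) *
        ((t ^ (2 * s))⁻¹ * ∏ v : Fin n, ww (D v) x t))
    (fun _ _ _ hD hs t ht => mean_YG hD hs x t hx.le ht)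
    (fun _ _ _ hD hs π => Y_zeroG hD hs x π)
    (boundG hd x c hx hx1 hc hC)

end Pool.Agent.Lib.MP_d38209_co.CR
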