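import Pool.Agent.Lib.MP_ec42c8_pr.P04b

/-!
# A random pairing is simple with probability bounded below

`w : P → V` gives the vertex of a point; each vertex has at most `d` points. The random pairing of `P`
has no loop and no double pair with probability at least `c(d) > 0`, if `|P|` is even and large.
(The proof is the one of `Lib/MP_ec42c8_pr/P04, P04a, P04b`, where the points are those of a graph.)
-/

set_option autoImplicit false

namespace Pool.Agent.Lib.MP_d38209_co.CR

open Finset
open scoped Classical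
open Pool.Agent.HC (Pairing av pr p04b_sw)

section gen
variable {P V : Type} (w : P → V)

/-- The pair of `p` is a loop or parallel to another pair. -/
def gBad (π : Pairing P) (p : P) : Prop :=
  w p = w (π.1 p) ∨ ∃ q : P, q ≠ p ∧ w q = w p ∧ w (π.1 q) = w (π.1 p)

/-- No loops and no parallel pairs. -/
def GSimp (π : Pairing P) : Prop := ∀ p, ¬ gBad w π p

variable [Fintype P]

/-- The number of bad points. -/
noncomputable def gNB (π : Pairing P) : ℕ := (univ.filter (fun p => gBad w π p)).card

/-- The points at the vertex `x`. -/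
noncomputable def gAt (x : V) : Finset P := univ.filter (fun q => w q = x)

lemma mem_gAt (x : V) (q : P) : q ∈ gAt w x ↔ w q = x := by simp [gAt]

/-- The pairs of points at the same vertex. -/
noncomputable def gPar : Finset (P × P) := univ.filter (fun x => w x.1 = w x.2)

lemma gPar_card {d : ℕ} (hw : ∀ x, (gAt w x).card ≤ d) : (gPar w).card ≤ Fintype.card P * d := by
  have h1 : gPar w ⊆ (univ : Finset P).biUnion
      (fun p => (gAt w (w p)).image (fun q => (p, q))) := by
    rintro ⟨p, q⟩ h
    have h' : w p = w q := (Finset.mem_filter.1 h).2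
    rw [Finset.mem_biUnion]
    exact ⟨p, Finset.mem_univ _, Finset.mem_image.2 ⟨q, (mem_gAt w _ q).2 h'.symm, rfl⟩⟩
  refine (Finset.card_le_card h1).trans ?_
  refine (Finset.card_biUnion_le_card_mul _ _ d fun p _ => Finset.card_image_le.trans
    (hw _)).trans ?_
  rw [Finset.card_univ]

variable [inst : Fintype (Pairing P)]

/-- The probability that a point is bad. -/
lemma g_bad {d : ℕ} (hw : ∀ x, (gAt w x).card ≤ d) (hN : 4 ≤ Fintype.card P) (p : P) :
    pr (fun π : Pairing P => gBad w π p) ≤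
      d / ((Fintype.card P : ℝ) - 1) +
        (d * (Fintype.card P * d)) / (((Fintype.card P : ℝ) - 1) *
          ((Fintype.card P : ℝ) - 3)) := by
  set N : ℝ := (Fintype.card P : ℝ) with hNdef
  have hN4 : (4 : ℝ) ≤ N := by rw [hNdef]; exact_mod_cast hN
  have hN1 : 0 < N - 1 := by linarith
  have hN3 : 0 < N - 3 := by linarith
  have h1 : ∀ π : Pairing P, gBad w π p →
      π.1 p ∈ gAt w (w p) ∨
      ∃ q ∈ (gAt w (w p)).erase p, π.1 p ≠ q ∧ (π.1 p, π.1 q) ∈ gPar w := by
    rintro π (h | ⟨q, hq, hqp, h⟩)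
    · exact Or.inl ((mem_gAt w _ _).2 h.symm)
    · by_cases hpq : π.1 p = q
      · left
        rw [mem_gAt, hpq, hqp]
      · right
        refine ⟨q, Finset.mem_erase.2 ⟨hq, (mem_gAt w _ _).2 hqp⟩, hpq, ?_⟩
        rw [gPar, Finset.mem_filter]
        exact ⟨Finset.mem_univ _, h.symm⟩
  refine (HC.pr_mono h1).trans ((HC.pr_or_le _ _).trans ?_)
  refine add_le_add ?_ ?_
  · have e1 := HC.p04a_one p (gAt w (w p)) (by omega)
    have e3 : ((gAt w (w p)).card : ℝ) ≤ d := by exact_mod_cast hw (w p)
    exact e1.trans (div_le_div_of_nonneg_right e3 hN1.le)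
  · refine (HC.pr_exists_le _ _).trans ?_
    have e1 : ∀ q ∈ (gAt w (w p)).erase p,
        pr (fun π : Pairing P => π.1 p ≠ q ∧ (π.1 p, π.1 q) ∈ gPar w) ≤
          (N * d) / ((N - 1) * (N - 3)) := by
      intro q hq
      refine (HC.p04a_two p q (Finset.ne_of_mem_erase hq) (gPar w) hN).trans ?_
      refine div_le_div_of_nonneg_right ?_ (mul_pos hN1 hN3).le
      have := gPar_card w hw
      rw [hNdef]
      exact_mod_cast this
    refine (Finset.sum_le_sum e1).trans ?_
    rw [Finset.sum_const, nsmul_eq_mul, mul_div_assoc (d : ℝ)]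
    refine mul_le_mul_of_nonneg_right ?_ (by positivity)
    have : ((gAt w (w p)).erase p).card ≤ d :=
      (Finset.card_le_card (Finset.erase_subset _ _)).trans (hw _)
    exact_mod_cast this

theorem g_mean {d : ℕ} (hw : ∀ x, (gAt w x).card ≤ d) (hN : 12 ≤ Fintype.card P) :
    av (fun π : Pairing P => (gNB w π : ℝ)) ≤ 2 * d + 4 * (d : ℝ) ^ 2 := by
  have h1 : av (fun π : Pairing P => (gNB w π : ℝ)) =
      ∑ p : P, pr (fun π : Pairing P => gBad w π p) := by
    simp only [pr]
    rw [← HC.av_sum]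
    refine HC.av_congr fun π => ?_
    rw [gNB, Finset.card_filter]
    push_cast
    rfl
  rw [h1]
  refine (Finset.sum_le_sum fun p _ => g_bad w hw (by omega) p).trans ?_
  rw [Finset.sum_const, Finset.card_univ, nsmul_eq_mul]
  have hN' : (12 : ℝ) ≤ (Fintype.card P : ℝ) := by exact_mod_cast hN
  set N : ℝ := (Fintype.card P : ℝ)
  have a1 : N / 2 ≤ N - 1 := by linarith
  have a3 : N / 2 ≤ N - 3 := by linarith
  have hN0 : 0 < N := by linarith
  have hd0 : (0 : ℝ) ≤ d := Nat.cast_nonneg d
  have b1 : (d : ℝ) / (N - 1) ≤ (2 * d) / N := by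
    rw [div_le_div_iff₀ (by linarith) hN0]
    nlinarith [mul_le_mul_of_nonneg_left a1 hd0]
  have b2 : ((d : ℝ) * (N * d)) / ((N - 1) * (N - 3)) ≤ (4 * (d : ℝ) ^ 2) / N := by
    have c1 : N / 2 * (N / 2) ≤ (N - 1) * (N - 3) :=
      mul_le_mul a1 a3 (by positivity) (by linarith)
    calc ((d : ℝ) * (N * d)) / ((N - 1) * (N - 3)) ≤ ((d : ℝ) * (N * d)) / (N / 2 * (N / 2)) :=
          div_le_div_of_nonneg_left (by positivity) (by positivity) c1
      _ = (4 * (d : ℝ) ^ 2) / N := by field_simp; ring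
  calc N * ((d : ℝ) / (N - 1) + (d * (N * d)) / ((N - 1) * (N - 3)))
      ≤ N * ((2 * d) / N + (4 * (d : ℝ) ^ 2) / N) :=
        mul_le_mul_of_nonneg_left (add_le_add b1 b2) hN0.le
    _ = 2 * d + 4 * (d : ℝ) ^ 2 := by field_simp

end gen

section sw
variable {P V : Type} [Fintype P] (w : P → V)

/-- The vertices joined to `x` by a pair of `π`. -/
noncomputable def gNP (π : Pairing P) (x : V) : Finset V :=
  (gAt w x).image (fun a => w (π.1 a))

/-- The excluded vertices. -/
noncomputable def gE (π : Pairing P) (p : P) : Finset V :=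
  {w p, w (π.1 p)} ∪ gNP w π (w p) ∪ gNP w π (w (π.1 p))

/-- Points at the vertices of a set. -/
noncomputable def gAts (S : Finset V) : Finset P := univ.filter (fun q => w q ∈ S)

lemma gAts_card {d : ℕ} (hw : ∀ x, (gAt w x).card ≤ d) (S : Finset V) :
    (gAts w S).card ≤ d * S.card := by
  have h : gAts w S ⊆ S.biUnion (fun x => gAt w x) := by
    intro q hq
    rw [gAts, Finset.mem_filter] at hq
    rw [Finset.mem_biUnion]
    exact ⟨w q, hq.2, (mem_gAt w _ _).2 rfl⟩
  rw [mul_comm]
  exact (Finset.card_le_card h).trans (Finset.card_biUnion_le_card_mul _ _ d fun x _ => hw x)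

lemma gNP_card {d : ℕ} (hw : ∀ x, (gAt w x).card ≤ d) (π : Pairing P) (x : V) :
    (gNP w π x).card ≤ d := Finset.card_image_le.trans (hw x)

lemma gE_card {d : ℕ} (hw : ∀ x, (gAt w x).card ≤ d) (π : Pairing P) (p : P) :
    (gE w π p).card ≤ 2 + 2 * d := by
  unfold gE
  refine (Finset.card_union_le _ _).trans ?_
  have h1 := Finset.card_union_le ({w p, w (π.1 p)} : Finset V) (gNP w π (w p))
  have h4 : ({w p, w (π.1 p)} : Finset V).card ≤ 2 := Finset.card_le_two
  have h7 := gNP_card w hw π (w p)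
  have h8 := gNP_card w hw π (w (π.1 p))
  omega

/-- `q` is good for `(π, p)`. -/
def gGood (π : Pairing P) (p q : P) : Prop :=
  w q ∉ gE w π p ∧ w (π.1 q) ∉ gE w π p ∧ ¬ gBad w π q

omit [Fintype P] in
lemma g_bad_symm (π : Pairing P) (r : P) (h : gBad w π r) : gBad w π (π.1 r) := by
  unfold gBad at h ⊢
  rw [π.inv]
  rcases h with h | ⟨s, hs, h1, h2⟩
  · exact Or.inl h.symm
  · refine Or.inr ⟨π.1 s, ?_, h2, ?_⟩
    · exact fun h => hs (π.1.injective h)
    · rw [π.inv]; exact h1

lemma g_good_symm (π : Pairing P) (p q : P) (h : gGood w π p q) :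
    gGood w π (π.1 p) (π.1 q) := by
  obtain ⟨h1, h2, h3⟩ := h
  have hE : gE w π (π.1 p) = gE w π p := by
    unfold gE
    rw [π.inv]
    ext x
    simp only [Finset.mem_union, Finset.mem_insert, Finset.mem_singleton]
    tauto
  refine ⟨?_, ?_, ?_⟩
  · rw [hE]; exact h2
  · rw [hE, π.inv]; exact h1
  · intro h
    have := g_bad_symm w π _ h
    rw [π.inv] at this
    exact h3 this

lemma g_good_unfold (π : Pairing P) (p q : P) (h : gGood w π p q) :
    (w q ≠ w p ∧ w q ≠ w (π.1 p) ∧ (∀ a : P, w a = w p → w (π.1 a) ≠ w q)) := by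
  obtain ⟨h1, h2, h3⟩ := h
  unfold gE gNP at h1
  simp only [Finset.mem_union, Finset.mem_insert, Finset.mem_singleton, Finset.mem_image,
    mem_gAt, not_or, not_exists, not_and] at h1
  exact ⟨h1.1.1.1, h1.1.1.2, fun a ha => h1.1.2 a ha⟩

/-- `p` is not bad after the switching. -/
lemma g_not_bad (π : Pairing P) (p q : P) (h : gGood w π p q) :
    ¬ gBad w (p04b_sw π p q) p := by
  obtain ⟨h1, h2, h4⟩ := g_good_unfold w π p q h
  obtain ⟨g1, g2, g4⟩ := g_good_unfold w π _ _ (g_good_symm w π p q h)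
  rw [π.inv] at g2
  have hqp : q ≠ p := fun h => h1 (by rw [h])
  unfold gBad
  rw [HC.p04b_sw_p π p q hqp]
  rintro (h5 | ⟨r, hr, h5, h6⟩)
  · exact h1 h5.symm
  · by_cases hr1 : r = q
    · rw [hr1] at h5
      exact h1 h5
    by_cases hr2 : r = π.1 p
    · rw [hr2, HC.p04b_sw_p' π p q hqp] at h6
      exact h.2.2 (Or.inl h6.symm)
    by_cases hr3 : r = π.1 q
    · rw [hr3] at h5
      exact g2 h5
    rw [HC.p04b_sw_else π p q r hr hr1 hr2 hr3] at h6
    exact h4 r h5 h6

/-- The bad points after the switching were bad before. -/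
lemma g_bad_of (π : Pairing P) (p q : P) (h : gGood w π p q)
    (hp : gBad w π p) (r : P) (hr : gBad w (p04b_sw π p q) r) : gBad w π r := by
  obtain ⟨h1, h2, h4⟩ := g_good_unfold w π p q h
  obtain ⟨g1, g2, g4⟩ := g_good_unfold w π _ _ (g_good_symm w π p q h)
  rw [π.inv] at g2
  have hqp : q ≠ p := fun h => h1 (by rw [h])
  have hqp' : q ≠ π.1 p := fun h => h2 (by rw [h])
  have hnb := g_not_bad w π p q h
  have hnb' := g_not_bad w π _ _ (g_good_symm w π p q h)
  rw [HC.p04b_sw_symm π p q hqp hqp'] at hnb'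
  by_cases hr1 : r = p
  · rw [hr1]; exact hp
  by_cases hr2 : r = q
  · exfalso
    rw [hr2] at hr
    have := g_bad_symm w _ _ hr
    rw [HC.p04b_sw_q π p q hqp] at this
    exact hnb this
  by_cases hr3 : r = π.1 p
  · rw [hr3]; exact g_bad_symm w π p hp
  by_cases hr4 : r = π.1 q
  · exfalso
    rw [hr4] at hr
    have := g_bad_symm w _ _ hr
    rw [HC.p04b_sw_q' π p q hqp] at this
    exact hnb' this
  unfold gBad at hr ⊢
  rw [HC.p04b_sw_else π p q r hr1 hr2 hr3 hr4] at hr
  rcases hr with h5 | ⟨s, hs, h5, h6⟩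
  · exact Or.inl h5
  · by_cases hs1 : s = p
    · exfalso
      rw [hs1, HC.p04b_sw_p π p q hqp] at h6
      rw [hs1] at h5
      exact h4 r h5.symm h6.symm
    by_cases hs2 : s = q
    · exfalso
      rw [hs2, HC.p04b_sw_q π p q hqp] at h6
      rw [hs2] at h5
      exact h4 (π.1 r) h6.symm (by rw [π.inv]; exact h5.symm)
    by_cases hs3 : s = π.1 p
    · exfalso
      rw [hs3, HC.p04b_sw_p' π p q hqp] at h6
      rw [hs3] at h5
      exact g4 r h5.symm h6.symm
    by_cases hs4 : s = π.1 q
    · exfalso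
      rw [hs4, HC.p04b_sw_q' π p q hqp] at h6
      rw [hs4] at h5
      exact g4 (π.1 r) h6.symm (by rw [π.inv]; exact h5.symm)
    rw [HC.p04b_sw_else π p q s hs1 hs2 hs3 hs4] at h6
    exact Or.inr ⟨s, hs, h5, h6⟩

lemma g_NB_lt (π : Pairing P) (p q : P) (h : gGood w π p q)
    (hp : gBad w π p) : gNB w (p04b_sw π p q) < gNB w π := by
  unfold gNB
  refine Finset.card_lt_card (Finset.ssubset_iff_of_subset ?_ |>.2 ⟨p, ?_, ?_⟩)
  · intro r hr
    rw [Finset.mem_filter] at hr ⊢
    exact ⟨Finset.mem_univ _, g_bad_of w π p q h hp r hr.2⟩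
  · rw [Finset.mem_filter]
    exact ⟨Finset.mem_univ _, hp⟩
  · rw [Finset.mem_filter]
    rintro ⟨_, h'⟩
    exact g_not_bad w π p q h h'

/-- The number of good points. -/
lemma g_card_good {d : ℕ} (hd : 1 ≤ d) (hw : ∀ x, (gAt w x).card ≤ d) (π : Pairing P) (p : P) :
    Fintype.card P ≤ (univ.filter (fun q => gGood w π p q)).card + gNB w π + 20 * d ^ 2 := by
  have hsub : (univ : Finset P) ⊆ (univ.filter (fun q => gGood w π p q)) ∪
      (gAts w (gE w π p) ∪ ((gAts w (gE w π p)).image (fun a => π.1 a)) ∪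
        univ.filter (fun r => gBad w π r)) := by
    intro q _
    rw [Finset.mem_union, Finset.mem_union, Finset.mem_union, Finset.mem_filter, Finset.mem_filter]
    by_cases h1 : w q ∈ gE w π p
    · right; left; left
      unfold gAts
      rw [Finset.mem_filter]
      exact ⟨Finset.mem_univ _, h1⟩
    by_cases h2 : w (π.1 q) ∈ gE w π p
    · right; left; right
      rw [Finset.mem_image]
      refine ⟨π.1 q, ?_, π.inv q⟩
      unfold gAts
      rw [Finset.mem_filter]
      exact ⟨Finset.mem_univ _, h2⟩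
    by_cases h3 : gBad w π q
    · right; right
      exact ⟨Finset.mem_univ _, h3⟩
    left
    exact ⟨Finset.mem_univ _, h1, h2, h3⟩
  have h1 := Finset.card_le_card hsub
  rw [Finset.card_univ] at h1
  have h2 := Finset.card_union_le (univ.filter (fun q => gGood w π p q))
    (gAts w (gE w π p) ∪ ((gAts w (gE w π p)).image (fun a => π.1 a)) ∪
        univ.filter (fun r => gBad w π r))
  have h3 := Finset.card_union_le
    (gAts w (gE w π p) ∪ ((gAts w (gE w π p)).image (fun a => π.1 a)))
    (univ.filter (fun r => gBad w π r))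
  have h4 := Finset.card_union_le (gAts w (gE w π p))
    ((gAts w (gE w π p)).image (fun a => π.1 a))
  have h5 : ((gAts w (gE w π p)).image (fun a => π.1 a)).card ≤
    (gAts w (gE w π p)).card := Finset.card_image_le
  have h6 := gAts_card w hw (gE w π p)
  have h7 : d * (gE w π p).card ≤ d * (2 + 2 * d) :=
    Nat.mul_le_mul_left _ (gE_card w hw π p)
  have h8 : gNB w π = (univ.filter (fun r => gBad w π r)).card := rfl
  nlinarith

/-- The possible partners of `p` before the switching. -/
noncomputable def gCand (π' : Pairing P) (p : P) : Finset P :=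
  gAts w ({w p} ∪ gNP w π' (w p))

lemma g_card_cand {d : ℕ} (hw : ∀ x, (gAt w x).card ≤ d) (π' : Pairing P) (p : P) :
    (gCand w π' p).card ≤ d + 2 * d ^ 2 := by
  unfold gCand
  refine (gAts_card w hw _).trans ?_
  have h1 := Finset.card_union_le ({w p} : Finset V) (gNP w π' (w p))
  have h4 := gNP_card w hw π' (w p)
  rw [Finset.card_singleton] at h1
  have h5 : ({w p} ∪ gNP w π' (w p)).card ≤ 1 + d := by omega
  calc _ ≤ d * (1 + d) := Nat.mul_le_mul_left _ h5
    _ ≤ d + 2 * d ^ 2 := by nlinarith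

lemma g_mem_cand (π : Pairing P) (p q : P) (h : gGood w π p q)
    (hp : gBad w π p) : π.1 p ∈ gCand w (p04b_sw π p q) p := by
  obtain ⟨h1, h2, h4⟩ := g_good_unfold w π p q h
  obtain ⟨g1, g2, g4⟩ := g_good_unfold w π _ _ (g_good_symm w π p q h)
  rw [π.inv] at g2
  have hqp : q ≠ p := fun h => h1 (by rw [h])
  unfold gCand gAts
  rw [Finset.mem_filter]
  refine ⟨Finset.mem_univ _, ?_⟩
  rw [Finset.mem_union, Finset.mem_singleton]
  rcases hp with h5 | ⟨a, ha, h5, h6⟩
  · exact Or.inl h5.symm
  · by_cases ha1 : a = q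
    · exfalso
      rw [ha1] at h5
      exact h1 h5
    by_cases ha2 : a = π.1 q
    · exfalso
      rw [ha2] at h5
      exact g2 h5
    by_cases ha3 : a = π.1 p
    · left
      rw [ha3] at h5
      exact h5
    right
    unfold gNP
    rw [Finset.mem_image]
    refine ⟨a, (mem_gAt w _ _).2 h5, ?_⟩
    rw [HC.p04b_sw_else π p q a ha ha1 ha3 ha2]
    exact h6

variable [inst : Fintype (Pairing P)]

theorem g_switch {d : ℕ} (hd : 1 ≤ d) (hw : ∀ x, (gAt w x).card ≤ d) (x : ℕ) (hx : 1 ≤ x) :
    ((Finset.univ.filter (fun π : Pairing P => gNB w π = x)).card : ℝ) *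
        ((Fintype.card P : ℝ) - x - 20 * (d : ℝ) ^ 2) ≤
      (Fintype.card P : ℝ) * (d + 2 * (d : ℝ) ^ 2) *
        ((Finset.univ.filter (fun π : Pairing P => gNB w π < x)).card : ℝ) := by
  set A := Finset.univ.filter (fun π : Pairing P => gNB w π = x) with hA
  set B := Finset.univ.filter (fun π : Pairing P => gNB w π < x) with hB
  -- choose a bad point
  have hex : ∀ π : Pairing P, ∃ p : Option P, gNB w π = x → ∃ p', p = some p' ∧
      gBad w π p' := by
    intro π
    by_cases h : gNB w π = x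
    · have h1 : (univ.filter (fun r => gBad w π r)).Nonempty := by
        rw [← Finset.card_pos]
        have : gNB w π = (univ.filter (fun r => gBad w π r)).card := rfl
        omega
      obtain ⟨p', hp'⟩ := h1
      exact ⟨some p', fun _ => ⟨p', rfl, (Finset.mem_filter.1 hp').2⟩⟩
    · exact ⟨none, fun h' => absurd h' h⟩
  choose pp hpp using hex
  -- the pairs (π, q)
  set T : Finset (Σ _ : Pairing P, P) :=
    A.sigma (fun π => univ.filter (fun q => ∀ p', pp π = some p' → gGood w π p' q)) with hT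
  have hTcard : A.card * Fintype.card P ≤ T.card + A.card * (x + 20 * d ^ 2) := by
    rw [hT, Finset.card_sigma]
    have h1 : ∀ π ∈ A, Fintype.card P ≤
        (univ.filter (fun q => ∀ p', pp π = some p' → gGood w π p' q)).card +
          (x + 20 * d ^ 2) := by
      intro π hπ
      have hπ' : gNB w π = x := by
        rw [hA, Finset.mem_filter] at hπ
        exact hπ.2
      obtain ⟨p', hp', hbad⟩ := hpp π hπ'
      have h2 := g_card_good w hd hw π p'
      have h3 : (univ.filter (fun q => gGood w π p' q)).card ≤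
          (univ.filter (fun q => ∀ p', pp π = some p' → gGood w π p' q)).card := by
        refine Finset.card_le_card ?_
        intro q hq
        rw [Finset.mem_filter] at hq ⊢
        refine ⟨Finset.mem_univ _, fun p'' h => ?_⟩
        rw [hp'] at h
        have : p' = p'' := Option.some.inj h
        rw [← this]
        exact hq.2
      omega
    calc A.card * Fintype.card P = ∑ π ∈ A, Fintype.card P := by
          rw [Finset.sum_const, smul_eq_mul]
      _ ≤ ∑ π ∈ A, ((univ.filter (fun q => ∀ p', pp π = some p' → gGood w π p' q)).card +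
          (x + 20 * d ^ 2)) := Finset.sum_le_sum h1
      _ = _ := by rw [Finset.sum_add_distrib, Finset.sum_const, smul_eq_mul]
  -- the target
  set S : Finset (Σ _ : P × Pairing P, P) :=
    ((univ : Finset P) ×ˢ B).sigma (fun y => gCand w y.2 y.1) with hS
  have hScard : S.card ≤ Fintype.card P * B.card * (d + 2 * d ^ 2) := by
    rw [hS, Finset.card_sigma]
    calc ∑ y ∈ (univ : Finset P) ×ˢ B, (gCand w y.2 y.1).card
        ≤ ∑ y ∈ (univ : Finset P) ×ˢ B, (d + 2 * d ^ 2) :=
          Finset.sum_le_sum fun y _ => g_card_cand w hw _ _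
      _ = _ := by
          rw [Finset.sum_const, smul_eq_mul, Finset.card_product, Finset.card_univ]
  have hTS : T.card ≤ S.card := by
    by_cases hne : Nonempty P
    · let p₀ : P := hne.some
      let f : (Σ _ : Pairing P, P) → (Σ _ : P × Pairing P, P) :=
        fun t => ⟨((pp t.1).getD p₀, p04b_sw t.1 ((pp t.1).getD p₀) t.2),
          t.1.1 ((pp t.1).getD p₀)⟩
      have key : ∀ t ∈ T, ∃ p', pp t.1 = some p' ∧ gBad w t.1 p' ∧ gGood w t.1 p' t.2 ∧
          gNB w t.1 = x ∧ t.2 ≠ p' := by
        intro t ht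
        rw [hT, Finset.mem_sigma, hA, Finset.mem_filter, Finset.mem_filter] at ht
        obtain ⟨p', hp', hbad⟩ := hpp t.1 ht.1.2
        have hg := ht.2.2 p' hp'
        refine ⟨p', hp', hbad, hg, ht.1.2, ?_⟩
        intro h
        exact (g_good_unfold w _ _ _ hg).1 (by rw [h])
      refine Finset.card_le_card_of_injOn f ?_ ?_
      · intro t ht
        obtain ⟨p', hp', hbad, hg, hx', hne'⟩ := key t ht
        refine Finset.mem_coe.2 ?_
        rw [hS, Finset.mem_sigma, Finset.mem_product]
        simp only [f, hp', Option.getD_some]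
        refine ⟨⟨Finset.mem_univ _, ?_⟩, g_mem_cand w t.1 p' t.2 hg hbad⟩
        rw [hB, Finset.mem_filter]
        refine ⟨Finset.mem_univ _, ?_⟩
        rw [← hx']
        exact g_NB_lt w t.1 p' t.2 hg hbad
      · intro t ht t' ht' hf
        obtain ⟨p₁, hp₁, hbad₁, hg₁, hx₁, hne₁⟩ := key t ht
        obtain ⟨p₂, hp₂, hbad₂, hg₂, hx₂, hne₂⟩ := key t' ht'
        simp only [f, hp₁, hp₂, Option.getD_some, Sigma.mk.injEq, Prod.mk.injEq] at hf
        obtain ⟨⟨h1, h2⟩, h3⟩ := hf
        subst h1
        have h4 := HC.p04b_sw_inj t.1 t'.1 p₁ t.2 t'.2 hne₁ hne₂ h2 (eq_of_heq h3)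
        obtain ⟨a, b⟩ := t
        obtain ⟨a', b'⟩ := t'
        simp only at h4
        rw [h4.1, h4.2]
    · have : IsEmpty P := not_nonempty_iff.1 hne
      have h1 : T = ∅ := by
        rw [Finset.eq_empty_iff_forall_notMem]
        intro t _
        exact this.false t.2
      rw [h1, Finset.card_empty]
      exact Nat.zero_le _
  have hfin : A.card * Fintype.card P ≤
      Fintype.card P * B.card * (d + 2 * d ^ 2) + A.card * (x + 20 * d ^ 2) := by
    omega
  have hfin' : (A.card : ℝ) * (Fintype.card P : ℝ) ≤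
      (Fintype.card P : ℝ) * (B.card : ℝ) * (d + 2 * (d : ℝ) ^ 2) +
        (A.card : ℝ) * (x + 20 * (d : ℝ) ^ 2) := by
    exact_mod_cast hfin
  nlinarith

/-- Number of pairings with `gNB ≤ x`. -/
noncomputable def g_b (x : ℕ) : ℝ :=
  ((Finset.univ.filter (fun π : Pairing P => gNB w π ≤ x)).card : ℝ)

/-- Number of pairings with `gNB = x`. -/
noncomputable def g_c (x : ℕ) : ℝ :=
  ((Finset.univ.filter (fun π : Pairing P => gNB w π = x)).card : ℝ)

lemma g_succ (x : ℕ) : g_b w (x + 1) = g_b w x + g_c w (x + 1) := by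
  unfold g_b g_c
  rw [← Nat.cast_add, ← Finset.card_union_of_disjoint]
  · congr 2
    ext π
    simp only [Finset.mem_filter, Finset.mem_univ, true_and, Finset.mem_union]
    omega
  · rw [Finset.disjoint_left]
    intro π h1 h2
    simp only [Finset.mem_filter, Finset.mem_univ, true_and] at h1 h2
    omega

end sw

theorem g_simple (d : ℕ) (hd : 1 ≤ d) : ∃ (c : ℝ) (N₀ : ℕ), 0 < c ∧ ∀ (P V : Type) [Fintype P]
    [Fintype (Pairing P)] (w : P → V), (∀ x, (gAt w x).card ≤ d) → N₀ ≤ Fintype.card P →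
      Even (Fintype.card P) → c ≤ pr (fun π : Pairing P => GSimp w π) := by
  set C : ℝ := 2 * d + 4 * (d : ℝ) ^ 2 with hCdef
  have hd' : (1 : ℝ) ≤ d := by exact_mod_cast hd
  have hC : 0 < C := by positivity
  set X : ℕ := ⌈2 * C⌉₊ with hX
  have hXC : 2 * C ≤ X := Nat.le_ceil _
  set A : ℝ := 2 * ((d : ℝ) + 2 * (d : ℝ) ^ 2) with hA
  have hA0 : 0 ≤ A := by positivity
  have hApos : 0 < 1 + A := by linarith
  refine ⟨(1 / 2) / (1 + A) ^ X, max 12 (2 * (X + 20 * d ^ 2 + 2)), by positivity, ?_⟩
  intro P V _ _ w hw hN hevP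
  have hn1 : 12 ≤ Fintype.card P := (le_max_left _ _).trans hN
  have hn2 : 2 * (X + 20 * d ^ 2 + 2) ≤ Fintype.card P := (le_max_right _ _).trans hN
  have hNpos : (0 : ℝ) < (Fintype.card P : ℝ) := by
    have : 0 < Fintype.card P := by omega
    exact_mod_cast this
  have hneP : Nonempty (Pairing P) := by
    obtain ⟨r, hr⟩ := hevP
    have h := HC.P01d (P := P) r (by rw [hr]; ring)
    have h2 : 0 < Fintype.card (Pairing P) := by
      have h3 : Fintype.card (Pairing P) = (2 * r - 1).doubleFactorial := by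
        convert h
      rw [h3]
      exact Nat.doubleFactorial_pos _
    exact Fintype.card_pos_iff.1 h2
  have hcP : (0 : ℝ) < Fintype.card (Pairing P) := by
    exact_mod_cast Fintype.card_pos
  -- recursion
  have hrec : ∀ x, x ≤ X → g_b w x ≤ (1 + A) ^ x * g_b w 0 := by
    intro x
    induction x with
    | zero => intro _; simp
    | succ x ih =>
      intro hx
      have ih' := ih (by omega)
      have hb := g_switch w hd hw (x + 1) (by omega)
      have hlt : (Finset.univ.filter (fun π : Pairing P => gNB w π < x + 1)) =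
          (Finset.univ.filter (fun π : Pairing P => gNB w π ≤ x)) := by
        ext π
        simp only [Finset.mem_filter, Finset.mem_univ, true_and]
        omega
      rw [hlt] at hb
      have hb' : g_c w (x + 1) *
          ((Fintype.card P : ℝ) - ((x + 1 : ℕ) : ℝ) - 20 * (d : ℝ) ^ 2) ≤
          (Fintype.card P : ℝ) * (d + 2 * (d : ℝ) ^ 2) * g_b w x := hb
      have hc0 : 0 ≤ g_c w (x + 1) := Nat.cast_nonneg _
      have hxX : ((x + 1 : ℕ) : ℝ) ≤ X := by exact_mod_cast hx
      have hbig : (2 : ℝ) * (X + 20 * d ^ 2 + 2) ≤ Fintype.card P := by exact_mod_cast hn2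
      have hhalf : (Fintype.card P : ℝ) / 2 ≤
          (Fintype.card P : ℝ) - ((x + 1 : ℕ) : ℝ) - 20 * (d : ℝ) ^ 2 := by
        have hX0 : (0 : ℝ) ≤ X := Nat.cast_nonneg _
        have hdd : (0 : ℝ) ≤ (d : ℝ) ^ 2 := by positivity
        nlinarith
      have h5 : g_c w (x + 1) * ((Fintype.card P : ℝ) / 2) ≤
          (Fintype.card P : ℝ) * (d + 2 * (d : ℝ) ^ 2) * g_b w x :=
        (mul_le_mul_of_nonneg_left hhalf hc0).trans hb'
      have h7 : g_c w (x + 1) ≤ A * g_b w x := by
        have : (Fintype.card P : ℝ) * (g_c w (x + 1)) ≤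
          (Fintype.card P : ℝ) * (A * g_b w x) := by
          rw [hA]
          linarith
        exact le_of_mul_le_mul_left this hNpos
      rw [g_succ, pow_succ]
      calc _ ≤ g_b w x + A * g_b w x := by linarith
        _ = (1 + A) * g_b w x := by ring
        _ ≤ (1 + A) * ((1 + A) ^ x * g_b w 0) :=
            mul_le_mul_of_nonneg_left ih' hApos.le
        _ = _ := by ring
  -- Markov
  have hmean := g_mean w hw hn1
  have hX0 : (0 : ℝ) < (X : ℝ) := by linarith
  have hmk := HC.markov (fun π : Pairing P => (gNB w π : ℝ)) (fun π => Nat.cast_nonneg _)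
    (a := (X : ℝ) + 1) (by linarith)
  have hhalf : pr (fun π : Pairing P => (X : ℝ) + 1 ≤ (gNB w π : ℝ)) ≤ 1 / 2 := by
    refine hmk.trans ?_
    rw [div_le_iff₀ (by linarith)]
    linarith
  have hbX : (Fintype.card (Pairing P) : ℝ) / 2 ≤ g_b w X := by
    rw [HC.pr_eq_card, div_le_iff₀ hcP] at hhalf
    have hsplit : (Finset.univ.filter (fun π : Pairing P => gNB w π ≤ X)).card +
        (Finset.univ.filter (fun π : Pairing P => (X : ℝ) + 1 ≤ (gNB w π : ℝ))).card =
        Fintype.card (Pairing P) := by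
      rw [← Finset.card_univ, ← Finset.card_filter_add_card_filter_not
        (s := (Finset.univ : Finset (Pairing P))) (fun π => gNB w π ≤ X)]
      congr 2
      ext π
      simp only [Finset.mem_filter, Finset.mem_univ, true_and, not_le]
      rw [← Nat.cast_one (R := ℝ), ← Nat.cast_add, Nat.cast_le]
      omega
    have hsplit' : g_b w X +
        ((Finset.univ.filter (fun π : Pairing P =>
          (X : ℝ) + 1 ≤ (gNB w π : ℝ))).card : ℝ) =
        (Fintype.card (Pairing P) : ℝ) := by
      unfold g_b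
      exact_mod_cast hsplit
    linarith
  have h0 := (hbX.trans (hrec X le_rfl))
  have hPS : pr (fun π : Pairing P => GSimp w π) =
      g_b w 0 / (Fintype.card (Pairing P) : ℝ) := by
    unfold g_b
    rw [HC.pr_eq_card]
    congr 3
    ext π
    simp only [Finset.mem_filter, Finset.mem_univ, true_and]
    rw [GSimp, Nat.le_zero, gNB, Finset.card_eq_zero, Finset.filter_eq_empty_iff]
    simp
  rw [hPS, div_le_div_iff₀ (by positivity) hcP]
  linarith

end Pool.Agent.Lib.MP_d38209_co.CR
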