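import Pool.Agent.Lib.MP_d38209_co.CR.Defs
import Pool.Agent.Lib.MP_ec42c8_pr.P04
import Pool.Agent.Lib.MP_ec42c8_pr.K15

/-!
# T : from pairings to labelled regular graphs
-/

set_option autoImplicit false

namespace Pool.Agent.Lib.MP_d38209_co.CR

open Finset
open scoped Classical
open Pool.Agent.HC (Pairing av pr avOn Gr Edge mkE deg Reg Simp grP PS trP ptE)

lemma t_inst {Ω : Type*} (i j : Fintype Ω) (f : Ω → ℝ) : @av Ω i f = @av Ω j f := by
  rw [Subsingleton.elim i j]

lemma t_pr_equiv {Ω Ω' : Type*} (i : Fintype Ω) (j : Fintype Ω') (e : Ω ≃ Ω') (P : Ω' → Prop) :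
    @pr Ω i (fun x => P (e x)) = @pr Ω' j P := by
  unfold pr
  exact HC.av_equiv e (fun y => if P y then (1 : ℝ) else 0)

/-- The simple graph of a set of edges. -/
def t_G {n : ℕ} (H : Gr n) : SimpleGraph (Fin n) :=
  SimpleGraph.fromEdgeSet {e | ∃ h : ¬ e.IsDiag, (⟨e, h⟩ : Edge n) ∈ H}

lemma t_adj {n : ℕ} (H : Gr n) (x y : Fin n) :
    (t_G H).Adj x y ↔ ∃ h : x ≠ y, mkE x y h ∈ H := by
  simp only [t_G, SimpleGraph.fromEdgeSet_adj, Set.mem_ofPred_eq, mkE]
  constructor
  · rintro ⟨⟨h, hH⟩, hne⟩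
    exact ⟨hne, hH⟩
  · rintro ⟨hne, hH⟩
    exact ⟨⟨by rw [Sym2.mk_isDiag_iff]; exact hne, hH⟩, hne⟩

/-- Graphs as sets of edges and as simple graphs. -/
noncomputable def t_eG (n : ℕ) : Gr n ≃ SimpleGraph (Fin n) where
  toFun := t_G
  invFun G := Finset.univ.filter (fun e : Edge n => e.1 ∈ G.edgeSet)
  left_inv H := by
    ext ⟨e, he⟩
    induction e using Sym2.inductionOn with
    | hf x y =>
      simp only [Finset.mem_filter, Finset.mem_univ, true_and, SimpleGraph.mem_edgeSet, t_adj]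
      constructor
      · rintro ⟨h, hH⟩
        exact hH
      · intro hH
        exact ⟨by simpa using he, hH⟩
  right_inv G := by
    ext x y
    rw [t_adj]
    simp only [Finset.mem_filter, Finset.mem_univ, true_and, mkE, SimpleGraph.mem_edgeSet]
    constructor
    · rintro ⟨_, h⟩
      exact h
    · intro h
      exact ⟨h.ne, h⟩

lemma t_nbr {n : ℕ} (H : Gr n) (v : Fin n) : Nat.card ((t_G H).neighborSet v) = deg H v := by
  have h0 : Nat.card ((t_G H).neighborSet v) =
      (Finset.univ.filter (fun x : Fin n => (t_G H).Adj v x)).card := by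
    rw [Nat.card_eq_fintype_card, Fintype.card_subtype]
    congr 1
  rw [h0, deg]
  refine Finset.card_bij' (fun x hx => mkE v x (by
      simp only [mem_filter, mem_univ, true_and, t_adj] at hx; exact hx.1))
    (fun e he => Sym2.Mem.other (a := v) (z := e.1) (by
      rw [Finset.mem_filter] at he; exact he.2)) ?_ ?_ ?_ ?_
  · intro x hx
    simp only [mem_filter, mem_univ, true_and, t_adj] at hx
    rw [Finset.mem_filter]
    exact ⟨hx.2, by simp [mkE]⟩
  · intro e he
    rw [Finset.mem_filter] at he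
    simp only [mem_filter, mem_univ, true_and, t_adj]
    have h1 := Sym2.other_spec he.2
    have hne : v ≠ Sym2.Mem.other he.2 := by
      intro h
      have h2 := e.2
      rw [← h1, Sym2.mk_isDiag_iff] at h2
      exact h2 h
    refine ⟨hne, ?_⟩
    have : mkE v (Sym2.Mem.other he.2) hne = e := Subtype.ext h1
    rw [this]
    exact he.1
  · intro x hx
    have h1 : v ∈ (s(v, x) : Sym2 (Fin n)) := by simp
    have h2 := Sym2.other_spec h1
    exact (Sym2.congr_right.1 h2)
  · intro e he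
    rw [Finset.mem_filter] at he
    exact Subtype.ext (Sym2.other_spec he.2)

lemma t_card {n d : ℕ} (Q : SimpleGraph (Fin n) → Prop) :
    Nat.card {G : SimpleGraph (Fin n) // (∀ v, Nat.card (G.neighborSet v) = d) ∧ Q G} =
      ((Reg n d ∅).filter (fun H => Q (t_G H))).card := by
  have h1 : Nat.card {G : SimpleGraph (Fin n) // (∀ v, Nat.card (G.neighborSet v) = d) ∧ Q G} =
      Nat.card {H : Gr n // (∀ v, deg H v = d) ∧ Q (t_G H)} := by
    refine (Nat.card_congr ((t_eG n).subtypeEquiv fun H => ?_)).symm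
    have e1 : (t_eG n) H = t_G H := rfl
    rw [e1]
    simp only [t_nbr]
  rw [h1, Nat.card_eq_fintype_card, Fintype.card_subtype]
  congr 1
  ext H
  simp [Reg]

lemma t_apply {n d : ℕ} (π : Pairing (HC.Pt d (∅ : Gr n))) (p : HC.Pt d (∅ : Gr n)) :
    (trP (ptE n d) π).1 p.1 = (π.1 p).1 := rfl

lemma t_good {n d : ℕ} (π : Pairing (HC.Pt d (∅ : Gr n))) :
    Simp (∅ : Gr n) π ↔ Good (trP (ptE n d) π).1 := by
  constructor
  · intro h
    refine ⟨fun p => (trP (ptE n d) π).inv p, fun p => ?_, fun p q hpq h2 => ?_⟩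
    · have h3 := (h ((ptE n d).symm p)).1
      exact h3.symm
    · by_contra hne
      have h3 := (h ((ptE n d).symm p)).2.2 ((ptE n d).symm q)
        (fun h4 => hne ((ptE n d).symm.injective h4).symm) hpq.symm
      exact h3 h2.symm
  · intro h p
    refine ⟨fun h1 => h.ne p.1 h1.symm, fun e he => absurd he (Finset.notMem_empty e),
      fun q hqp hq h2 => hqp ?_⟩
    exact Subtype.ext (h.simple q.1 p.1 hq h2)

lemma t_gr {n d : ℕ} (π : Pairing (HC.Pt d (∅ : Gr n))) :
    t_G (grP (∅ : Gr n) π) = gr (trP (ptE n d) π).1 := by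
  ext u v
  rw [t_adj]
  unfold gr
  rw [SimpleGraph.fromRel_adj]
  simp only [grP, Finset.empty_union, mem_filter, mem_univ, true_and, mkE]
  constructor
  · rintro ⟨hne, p, hp⟩
    refine ⟨hne, ?_⟩
    rcases Sym2.eq_iff.1 hp with ⟨h1, h2⟩ | ⟨h1, h2⟩
    · left
      exact ⟨p.1, h1.symm, h2.symm⟩
    · right
      exact ⟨p.1, h2.symm, h1.symm⟩
  · rintro ⟨hne, h⟩
    refine ⟨hne, ?_⟩
    rcases h with ⟨p, h1, h2⟩ | ⟨p, h1, h2⟩
    · refine ⟨(ptE n d).symm p, ?_⟩
      rw [← h1, ← h2]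
      rfl
    · refine ⟨(ptE n d).symm p, ?_⟩
      rw [← h1, ← h2, Sym2.eq_swap]
      rfl

/-! T (CR/Transfer.lean): from pairings to labelled regular graphs -/
theorem transfer (d : ℕ) (hd : 1 ≤ d) : ∃ (a : ℝ) (n₀ : ℕ), 0 < a ∧ ∀ n ≥ n₀, Even (n * d) →
    ∀ Q : SimpleGraph (Fin n) → Prop,
      a * (Nat.card {G : SimpleGraph (Fin n) //
        (∀ v, Nat.card (G.neighborSet v) = d) ∧ Q G} : ℝ) ≤
      (Nat.card {G : SimpleGraph (Fin n) // ∀ v, Nat.card (G.neighborSet v) = d} : ℝ) *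
        pr (fun π : Pairing (Pt n d) => Good π.1 ∧ Q (gr π.1)) := by
  obtain ⟨c, n₀, hc, hP⟩ := HC.P04 d hd
  refine ⟨c, n₀, hc, fun n hn hev Q => ?_⟩
  have hdeg : ∀ v, deg (∅ : Gr n) v ≤ d := by
    intro v
    simp [deg]
  have hPS := hP n hn (by rwa [mul_comm]) (∅ : Gr n) hdeg (by simp)
  have e1 := t_card (n := n) (d := d) Q
  have e2 : Nat.card {G : SimpleGraph (Fin n) // ∀ v, Nat.card (G.neighborSet v) = d} =
      (Reg n d ∅).card := by
    have h1 := t_card (n := n) (d := d) (fun _ => True)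
    simp only [and_true, Finset.filter_true] at h1
    exact h1
  rw [e1, e2]
  have h3 := HC.P03d (d := d) (∅ : Gr n) hdeg (fun H => if Q (t_G H) then (1 : ℝ) else 0)
  have h4 : av (fun π : Pairing (HC.Pt d (∅ : Gr n)) =>
      if Simp ∅ π then (fun H => if Q (t_G H) then (1 : ℝ) else 0) (grP ∅ π) else 0) =
      pr (fun π : Pairing (Pt n d) => Good π.1 ∧ Q (gr π.1)) := by
    rw [← t_pr_equiv _ _ (trP (ptE n d)) (fun π : Pairing (Pt n d) => Good π.1 ∧ Q (gr π.1))]
    unfold pr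
    refine HC.av_congr fun π => ?_
    have h5 := t_gr (n := n) (d := d) π
    have h6 := t_good (n := n) (d := d) π
    by_cases h1 : Simp (∅ : Gr n) π
    · by_cases h2 : Q (t_G (grP (∅ : Gr n) π))
      · have h7 : Good (trP (ptE n d) π).1 ∧ Q (gr (trP (ptE n d) π).1) := ⟨h6.1 h1, h5 ▸ h2⟩
        rw [if_pos h1, if_pos h7]
        simp only [h2, if_true]
      · have h7 : ¬ (Good (trP (ptE n d) π).1 ∧ Q (gr (trP (ptE n d) π).1)) :=
          fun h => h2 (h5 ▸ h.2)
        rw [if_pos h1, if_neg h7]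
        simp only [h2, if_false]
    · have h7 : ¬ (Good (trP (ptE n d) π).1 ∧ Q (gr (trP (ptE n d) π).1)) :=
        fun h => h1 (h6.2 h.1)
      rw [if_neg h1, if_neg h7]
  rw [h4] at h3
  rw [h3]
  have h5 : avOn (Reg n d ∅) (fun H => if Q (t_G H) then (1 : ℝ) else 0) =
      (((Reg n d ∅).filter (fun H => Q (t_G H))).card : ℝ) / ((Reg n d ∅).card : ℝ) := by
    unfold avOn
    rw [Finset.sum_ite]
    simp
  rw [h5]
  rcases Nat.eq_zero_or_pos (Reg n d ∅).card with h0 | h0
  · have h6 : ((Reg n d ∅).filter (fun H => Q (t_G H))).card = 0 := by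
      have := Finset.card_filter_le (Reg n d ∅) (fun H => Q (t_G H))
      omega
    rw [h6, h0]
    simp
  · have h0' : (0 : ℝ) < ((Reg n d ∅).card : ℝ) := by exact_mod_cast h0
    have h7 : ((Reg n d ∅).card : ℝ) * (PS d (∅ : Gr n) *
        ((((Reg n d ∅).filter (fun H => Q (t_G H))).card : ℝ) / ((Reg n d ∅).card : ℝ))) =
        PS d (∅ : Gr n) * (((Reg n d ∅).filter (fun H => Q (t_G H))).card : ℝ) := by
      field_simp
    rw [h7]
    exact mul_le_mul_of_nonneg_right hPS (Nat.cast_nonneg _)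

end Pool.Agent.Lib.MP_d38209_co.CR
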