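import Pool.Agent.Lib.MP_d38209_co.CR.GDefs
import Pool.Agent.Lib.MP_d38209_co.CR.GSimple
import Pool.Agent.Lib.MP_d38209_co.CR.Transfer

/-!
# GT : from pairings to labelled graphs with a given degree sequence

(The counting of the pairings of a graph is the one of `Lib/MP_ec42c8_pr/P03`.)
-/

set_option autoImplicit false

namespace Pool.Agent.Lib.MP_d38209_co.CR

open Finset
open scoped Classical
open Pool.Agent.HC (Pairing av pr avOn Gr Edge mkE deg)

section
variable {n d : ℕ} {D : Fin n → ℕ}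

/-- The graph of a pairing, as a set of edges. -/
noncomputable def gtG (π : Pairing (Live d D)) : Gr n :=
  univ.filter (fun e => ∃ p : Live d D, e.1 = s(p.1.1, (π.1 p).1.1))

/-- The graphs with degrees `D`. -/
noncomputable def gtR (D : Fin n → ℕ) : Finset (Gr n) := univ.filter (fun H => ∀ v, deg H v = D v)

/-- The points at a vertex. -/
abbrev gtP (d : ℕ) (D : Fin n → ℕ) (v : Fin n) : Type := {p : Live d D // p.1.1 = v}

/-- The neighbours of a vertex. -/
abbrev gtN (H : Gr n) (v : Fin n) : Type := {w : Fin n // ∃ hw : v ≠ w, mkE v w hw ∈ H}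

lemma gt_card_pts (hD : ∀ v, D v ≤ d) (v : Fin n) : Fintype.card (gtP d D v) = D v := by
  have e : gtP d D v ≃ {i : Fin d // (i : ℕ) < D v} :=
    { toFun := fun p => ⟨p.1.1.2, by have := p.1.2; rwa [p.2] at this⟩
      invFun := fun i => ⟨⟨(v, i.1), i.2⟩, rfl⟩
      left_inv := fun p => by
        obtain ⟨⟨⟨w, i⟩, h⟩, hw⟩ := p
        simp only at hw
        subst hw
        rfl
      right_inv := fun i => rfl }
  rw [Fintype.card_congr e, Fintype.card_subtype, Fin.card_filter_val_lt]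
  exact min_eq_right (hD v)

lemma gt_mem (π : Pairing (Live d D)) (v w : Fin n) (hvw : v ≠ w) :
    mkE v w hvw ∈ gtG π ↔ ∃ p : Live d D, p.1.1 = v ∧ (π.1 p).1.1 = w := by
  unfold gtG
  rw [Finset.mem_filter]
  constructor
  · rintro ⟨_, p, hp⟩
    have hp' : s(v, w) = s(p.1.1, (π.1 p).1.1) := hp
    rw [Sym2.eq_iff] at hp'
    rcases hp' with ⟨a, b⟩ | ⟨a, b⟩
    · exact ⟨p, a.symm, b.symm⟩
    · exact ⟨π.1 p, a.symm, by rw [π.inv, b]⟩
  · rintro ⟨p, hp1, hp2⟩
    exact ⟨Finset.mem_univ _, p, by rw [hp1, hp2]; rfl⟩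

/-- The map from the points at `v` to the neighbours. -/
noncomputable def gt_map (π : Pairing (Live d D)) (h : LGood π) (v : Fin n) :
    gtP d D v → gtN (gtG π) v :=
  fun p => ⟨(π.1 p.1).1.1, by
    have h1 : v ≠ (π.1 p.1).1.1 := by
      have := (h.1 p.1).symm
      rwa [p.2] at this
    exact ⟨h1, (gt_mem π v _ h1).2 ⟨p.1, p.2, rfl⟩⟩⟩

lemma gt_map_bij (π : Pairing (Live d D)) (h : LGood π) (v : Fin n) :
    Function.Bijective (gt_map π h v) := by
  constructor
  · intro p q hpq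
    exact Subtype.ext (h.2 p.1 q.1 (by rw [p.2, q.2]) (congrArg Subtype.val hpq))
  · rintro ⟨w, hw, hm⟩
    obtain ⟨p, hp1, hp2⟩ := (gt_mem π v w hw).1 hm
    exact ⟨⟨p, hp1⟩, Subtype.ext hp2⟩

lemma gt_reg (hD : ∀ v, D v ≤ d) (π : Pairing (Live d D)) (h : LGood π) : gtG π ∈ gtR D := by
  rw [gtR, Finset.mem_filter]
  refine ⟨Finset.mem_univ _, fun v => ?_⟩
  rw [← HC.p03_card_nbs, ← Fintype.card_congr (Equiv.ofBijective _ (gt_map_bij π h v)),
    gt_card_pts hD]

section
variable (H : Gr n) (β : ∀ v, gtP d D v ≃ gtN H v)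

/-- The other end of the pair of a point, given by the family of bijections. -/
def gt_oth (p : Live d D) : Fin n := (β p.1.1 ⟨p, rfl⟩).1

lemma gt_oth_eq (v : Fin n) (p : gtP d D v) : gt_oth H β p.1 = (β v p).1 := by
  obtain ⟨p, rfl⟩ := p
  rfl

lemma gt_oth_mem (p : Live d D) : ∃ hw : p.1.1 ≠ gt_oth H β p,
    mkE p.1.1 (gt_oth H β p) hw ∈ H := (β p.1.1 ⟨p, rfl⟩).2

lemma gt_oth_inj (p q : Live d D) (h1 : p.1.1 = q.1.1) (h2 : gt_oth H β p = gt_oth H β q) :
    p = q := by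
  have e1 := gt_oth_eq H β q.1.1 ⟨p, h1⟩
  have e2 := gt_oth_eq H β q.1.1 ⟨q, rfl⟩
  simp only at e1 e2
  rw [e1, e2] at h2
  have := (β q.1.1).injective (Subtype.ext h2)
  exact congrArg Subtype.val this

lemma gt_ex (p : Live d D) : ∃ q : Live d D, gt_oth H β p = q.1.1 ∧ gt_oth H β q = p.1.1 := by
  obtain ⟨hw, hm⟩ := gt_oth_mem H β p
  have hm' : mkE (gt_oth H β p) p.1.1 hw.symm ∈ H := by
    rw [← HC.p03_mkE_comm hw]; exact hm
  refine ⟨((β (gt_oth H β p)).symm ⟨p.1.1, hw.symm, hm'⟩).1, ?_, ?_⟩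
  · exact ((β (gt_oth H β p)).symm ⟨p.1.1, hw.symm, hm'⟩).2.symm
  · rw [gt_oth_eq, Equiv.apply_symm_apply]

/-- The partner of a point. -/
noncomputable def gt_f (p : Live d D) : Live d D := (gt_ex H β p).choose

lemma gt_f1 (p : Live d D) : (gt_f H β p).1.1 = gt_oth H β p :=
  (gt_ex H β p).choose_spec.1.symm

lemma gt_f2 (p : Live d D) : gt_oth H β (gt_f H β p) = p.1.1 :=
  (gt_ex H β p).choose_spec.2

lemma gt_ff (p : Live d D) : gt_f H β (gt_f H β p) = p := by
  refine gt_oth_inj H β _ _ ?_ ?_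
  · rw [gt_f1, gt_f2]
  · rw [gt_f2, gt_f1]

/-- The pairing given by the family of bijections. -/
noncomputable def gt_pi : Pairing (Live d D) :=
  ⟨⟨gt_f H β, gt_f H β, gt_ff H β, gt_ff H β⟩, fun p => ⟨fun h => by
    have h' : gt_f H β p = p := h
    have h1 := gt_f1 H β p
    rw [h'] at h1
    exact (gt_oth_mem H β p).1 h1, gt_ff H β p⟩⟩

lemma gt_pi_apply (p : Live d D) : ((gt_pi H β).1 p).1.1 = gt_oth H β p := gt_f1 H β p

lemma gt_pi_good : LGood (gt_pi H β) := by
  refine ⟨fun p => ?_, fun p q hpq h => ?_⟩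
  · obtain ⟨hw, _⟩ := gt_oth_mem H β p
    rw [gt_pi_apply]
    exact hw.symm
  · rw [gt_pi_apply, gt_pi_apply] at h
    exact gt_oth_inj H β p q hpq h

lemma gt_pi_gr : gtG (gt_pi H β) = H := by
  ext ⟨e, hdiag⟩
  induction e using Sym2.inductionOn with
  | hf v w =>
    have hvw : v ≠ w := fun h => hdiag (by rw [Sym2.mk_isDiag_iff]; exact h)
    have e1 : (⟨s(v, w), hdiag⟩ : Edge n) = mkE v w hvw := rfl
    rw [e1, gt_mem]
    constructor
    · rintro ⟨p, rfl, hp⟩
      rw [gt_pi_apply] at hp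
      subst hp
      exact (gt_oth_mem H β p).2
    · intro hm
      refine ⟨((β v).symm ⟨w, hvw, hm⟩).1, ((β v).symm ⟨w, hvw, hm⟩).2, ?_⟩
      rw [gt_pi_apply, gt_oth_eq, Equiv.apply_symm_apply]

end

/-- The bijections given by a pairing. -/
noncomputable def gt_mapH (H : Gr n)
    (r : {π : Pairing (Live d D) // LGood π ∧ gtG π = H}) (v : Fin n) :
    gtP d D v ≃ gtN H v :=
  Equiv.ofBijective (fun p => ⟨(r.1.1 p.1).1.1, by
    obtain ⟨hw, hm⟩ := (gt_map r.1 r.2.1 v p).2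
    refine ⟨hw, ?_⟩
    have h2 := r.2.2
    have hm' : mkE v (r.1.1 p.1).1.1 hw ∈ gtG r.1 := hm
    rw [h2] at hm'
    exact hm'⟩) (by
    obtain ⟨π, h, rfl⟩ := r
    exact gt_map_bij π h v)

lemma gt_mapH_apply (H : Gr n) (r : {π : Pairing (Live d D) // LGood π ∧ gtG π = H}) (v : Fin n)
    (p : gtP d D v) : (gt_mapH H r v p).1 = (r.1.1 p.1).1.1 := rfl

theorem gt_count (hD : ∀ v, D v ≤ d) (H : Gr n) (hH : H ∈ gtR D) :
    (Finset.univ.filter (fun π : Pairing (Live d D) => LGood π ∧ gtG π = H)).card =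
      ∏ v, (D v).factorial := by
  have hreg := (Finset.mem_filter.1 hH).2
  have hnb : ∀ v, Fintype.card (gtN H v) = D v := by
    intro v
    rw [HC.p03_card_nbs, hreg v]
  rw [← Fintype.card_subtype]
  have e : {π : Pairing (Live d D) // LGood π ∧ gtG π = H} ≃ (∀ v, gtP d D v ≃ gtN H v) := by
    refine Equiv.ofBijective (fun r v => gt_mapH H r v) ⟨?_, ?_⟩
    · intro r r' h
      have h1 : ∀ p : Live d D, (r.1.1 p).1.1 = (r'.1.1 p).1.1 := by
        intro p
        have h2 := congrFun h p.1.1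
        have h3 := congrArg (fun f => (f ⟨p, rfl⟩).1) h2
        exact h3
      apply Subtype.ext
      apply Subtype.ext
      apply Equiv.ext
      intro p
      refine r.2.1.2 _ _ (h1 p) ?_
      rw [r.1.inv, h1, r'.1.inv]
    · intro β
      refine ⟨⟨gt_pi H β, gt_pi_good H β, gt_pi_gr H β⟩, ?_⟩
      funext v
      apply Equiv.ext
      intro p
      apply Subtype.ext
      rw [gt_mapH_apply]
      simp only
      rw [gt_pi_apply, gt_oth_eq]
  rw [Fintype.card_congr e, Fintype.card_pi]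
  refine Finset.prod_congr rfl fun v _ => ?_
  have h1 : Fintype.card (gtP d D v) = D v := gt_card_pts hD v
  have h2 : Fintype.card (gtP d D v) = Fintype.card (gtN H v) := by rw [h1, hnb]
  rw [Fintype.card_equiv (Fintype.equivOfCardEq h2), h1]

theorem gt_sum (hD : ∀ v, D v ≤ d) (R : Gr n → Prop) :
    (Finset.univ.filter (fun π : Pairing (Live d D) => LGood π ∧ R (gtG π))).card =
      ((gtR D).filter R).card * ∏ v, (D v).factorial := by
  rw [Finset.card_eq_sum_card_fiberwise (f := gtG) (t := (gtR D).filter R)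
    (fun π hπ => by
      have h := (Finset.mem_filter.1 (Finset.mem_coe.1 hπ)).2
      exact Finset.mem_coe.2 (Finset.mem_filter.2 ⟨gt_reg hD π h.1, h.2⟩))]
  have : ∀ H ∈ (gtR D).filter R,
      ((Finset.univ.filter (fun π : Pairing (Live d D) => LGood π ∧ R (gtG π))).filter
        (fun π => gtG π = H)).card = ∏ v, (D v).factorial := by
    intro H hH
    obtain ⟨hH1, hH2⟩ := Finset.mem_filter.1 hH
    rw [Finset.filter_filter, ← gt_count hD H hH1]
    congr 1
    ext π
    simp only [Finset.mem_filter, Finset.mem_univ, true_and]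
    constructor
    · rintro ⟨⟨h1, _⟩, h2⟩
      exact ⟨h1, h2⟩
    · rintro ⟨h1, h2⟩
      exact ⟨⟨h1, by rw [h2]; exact hH2⟩, h2⟩
  rw [Finset.sum_congr rfl this, Finset.sum_const, smul_eq_mul]

lemma gt_gr (π : Pairing (Live d D)) : t_G (gtG π) = gr (ext π) := by
  ext u v
  rw [t_adj]
  unfold gr
  rw [SimpleGraph.fromRel_adj]
  constructor
  · rintro ⟨hne, hm⟩
    obtain ⟨p, h1, h2⟩ := (gt_mem π u v hne).1 hm
    exact ⟨hne, Or.inl ⟨p.1, h1, by rw [ext_live]; exact h2⟩⟩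
  · rintro ⟨hne, h⟩
    refine ⟨hne, (gt_mem π u v hne).2 ?_⟩
    have key : ∀ x y : Fin n, x ≠ y → (∃ p : Pt n d, p.1 = x ∧ (ext π p).1 = y) →
        ∃ p : Live d D, p.1.1 = x ∧ (π.1 p).1.1 = y := by
      rintro x y hxy ⟨p, h1, h2⟩
      by_cases hp : (p.2 : ℕ) < D p.1
      · have h3 := ext_live π ⟨p, hp⟩
        refine ⟨⟨p, hp⟩, h1, ?_⟩
        rw [← h3]
        exact h2
      · rw [ext_dead π hp] at h2
        exact absurd (h1.symm.trans h2) hxy
    rcases h with h | h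
    · exact key u v hne h
    · obtain ⟨p, h1, h2⟩ := key v u hne.symm h
      exact ⟨π.1 p, h2, by rw [π.inv]; exact h1⟩

lemma gt_card (Q : SimpleGraph (Fin n) → Prop) :
    Nat.card {G : SimpleGraph (Fin n) // (∀ v, Nat.card (G.neighborSet v) = D v) ∧ Q G} =
      ((gtR D).filter (fun H => Q (t_G H))).card := by
  have h1 : Nat.card {G : SimpleGraph (Fin n) // (∀ v, Nat.card (G.neighborSet v) = D v) ∧ Q G} =
      Nat.card {H : Gr n // (∀ v, deg H v = D v) ∧ Q (t_G H)} := by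
    refine (Nat.card_congr ((t_eG n).subtypeEquiv fun H => ?_)).symm
    have e1 : (t_eG n) H = t_G H := rfl
    rw [e1]
    simp only [t_nbr]
  rw [h1, Nat.card_eq_fintype_card, Fintype.card_subtype]
  congr 1
  ext H
  simp [gtR]

lemma gt_simp (π : Pairing (Live d D)) : GSimp (fun p : Live d D => p.1.1) π ↔ LGood π := by
  constructor
  · intro h
    refine ⟨fun p h1 => h p (Or.inl h1.symm), fun p q hpq h2 => ?_⟩
    by_contra hne
    exact h q (Or.inr ⟨p, hne, hpq, h2⟩)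
  · rintro ⟨h1, h2⟩ p (h3 | ⟨q, hq, h3, h4⟩)
    · exact h1 p h3.symm
    · exact hq (h2 q p h3 h4)

end

/-! GT (CR/GTransfer.lean) -/
theorem transferG (d : ℕ) (hd : 1 ≤ d) : ∃ (a : ℝ) (N₀ : ℕ), 0 < a ∧
    ∀ (n : ℕ) (D : Fin n → ℕ), (∀ v, D v ≤ d) → N₀ ≤ ∑ v, D v → Even (∑ v, D v) →
    ∀ Q : SimpleGraph (Fin n) → Prop,
      a * (Nat.card {G : SimpleGraph (Fin n) //
        (∀ v, Nat.card (G.neighborSet v) = D v) ∧ Q G} : ℝ) ≤
      (Nat.card {G : SimpleGraph (Fin n) // ∀ v, Nat.card (G.neighborSet v) = D v} : ℝ) *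
        pr (fun π : Pairing (Live d D) => LGood π ∧ Q (gr (ext π))) := by
  obtain ⟨c, N₀, hc, hP⟩ := g_simple d hd
  refine ⟨c, N₀, hc, fun n D hD hN hev Q => ?_⟩
  have hcard := card_live (n := n) (d := d) hD
  have hat : ∀ x, (gAt (fun p : Live d D => p.1.1) x).card ≤ d := by
    intro x
    rw [gAt, ← Fintype.card_subtype]
    exact (gt_card_pts hD x).le.trans (hD x)
  have hPS := hP (Live d D) (Fin n) (fun p => p.1.1) hat (by rw [hcard]; exact hN)
    (by rw [hcard]; exact hev)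
  rw [HC.pr_congr fun π : Pairing (Live d D) => gt_simp π] at hPS
  have e1 := gt_card (n := n) (D := D) Q
  have e2 : Nat.card {G : SimpleGraph (Fin n) // ∀ v, Nat.card (G.neighborSet v) = D v} =
      (gtR D).card := by
    have h1 := gt_card (n := n) (D := D) (fun _ => True)
    simp only [and_true, Finset.filter_true] at h1
    exact h1
  rw [e1, e2]
  have h3 := gt_sum hD (fun H => Q (t_G H))
  have h4 := gt_sum hD (fun _ : Gr n => True)
  simp only [and_true, Finset.filter_true] at h4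
  have h5 : pr (fun π : Pairing (Live d D) => LGood π ∧ Q (gr (ext π))) =
      (((gtR D).filter (fun H => Q (t_G H))).card : ℝ) * ((∏ v, (D v).factorial : ℕ) : ℝ) /
        (Fintype.card (Pairing (Live d D)) : ℝ) := by
    rw [HC.pr_congr fun π : Pairing (Live d D) =>
      (by rw [← gt_gr] : LGood π ∧ Q (gr (ext π)) ↔ LGood π ∧ Q (t_G (gtG π))), HC.pr_eq_card]
    congr 1
    rw [← Nat.cast_mul]
    congr 1
    convert h3
  have h6 : pr (fun π : Pairing (Live d D) => LGood π) =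
      ((gtR D).card : ℝ) * ((∏ v, (D v).factorial : ℕ) : ℝ) /
        (Fintype.card (Pairing (Live d D)) : ℝ) := by
    rw [HC.pr_eq_card, h4]
    push_cast
    rfl
  rw [h5]
  have h7 : ((gtR D).card : ℝ) * ((((gtR D).filter (fun H => Q (t_G H))).card : ℝ) *
      ((∏ v, (D v).factorial : ℕ) : ℝ) / (Fintype.card (Pairing (Live d D)) : ℝ)) =
      pr (fun π : Pairing (Live d D) => LGood π) *
        (((gtR D).filter (fun H => Q (t_G H))).card : ℝ) := by
    rw [h6]
    ring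
  rw [h7]
  exact mul_le_mul_of_nonneg_right hPS (Nat.cast_nonneg _)

end Pool.Agent.Lib.MP_d38209_co.CR
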