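import Pool.Agent.Lib.MP_d38209_co.Count
import Pool.Agent.Lib.MP_d38209_co.CR.GMain

set_option autoImplicit false

/-!
# The two final forms: given degree sequences, and all graphs of bounded degree
-/

namespace Pool.Agent.Lib.MP_d38209_co.CR

open Finset
open scoped Classical

/-- every finite graph has a chromatic polynomial -/
theorem gf_exists {V : Type} [Finite V] (G : SimpleGraph V) :
    ∃ P : Polynomial ℂ, IsChromaticPolynomial G P := by
  haveI : Fintype V := Fintype.ofFinite V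
  have hcard : ∀ k : ℕ, 0 < k → uh G univ k =
      (Nat.card {σ : V → Fin k // ∀ x y, G.Adj x y → σ x ≠ σ y} : ℂ) := by
    intro k _
    rw [uh, card_univ, Nat.sub_self, pow_zero, div_one, Nat.card_eq_fintype_card,
      Fintype.card_subtype, col]
    congr 2
    ext σ
    simp [Prop']
  obtain ⟨P, hP⟩ := (isPoly_all G _ univ rfl).1
  exact ⟨P, fun k hk => by rw [hP k hk, hcard k hk]⟩

/-- the degrees -/
noncomputable def dgs {n : ℕ} (G : SimpleGraph (Fin n)) : Fin n → ℕ :=
  fun v => Nat.card (G.neighborSet v)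

/-- counting in two parts -/
theorem gf_split {n : ℕ} (A : SimpleGraph (Fin n) → Prop) (ρ : ℝ) :
    Nat.card {G : SimpleGraph (Fin n) // A G} =
      Nat.card {G : SimpleGraph (Fin n) // A G ∧
        ((∃ P : Polynomial ℂ, IsChromaticPolynomial G P) ∧
          ∀ P : Polynomial ℂ, IsChromaticPolynomial G P → ∀ q : ℂ, P.eval q = 0 →
            ‖q - 1‖ < ρ)} +
      Nat.card {G : SimpleGraph (Fin n) // A G ∧
        ∃ P : Polynomial ℂ, IsChromaticPolynomial G P ∧ ∃ q : ℂ, P.eval q = 0 ∧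
          ρ ≤ ‖q - 1‖} := by
  simp only [Nat.card_eq_fintype_card, Fintype.card_subtype]
  rw [← Finset.card_filter_add_card_filter_not (s := univ.filter A)
    (fun G => ∃ P : Polynomial ℂ, IsChromaticPolynomial G P ∧ ∃ q : ℂ, P.eval q = 0 ∧
          ρ ≤ ‖q - 1‖), add_comm, Finset.filter_filter, Finset.filter_filter]
  congr 2
  ext G
  simp only [mem_filter, mem_univ, true_and, and_congr_right_iff]
  intro _
  constructor
  · intro h
    refine ⟨gf_exists G, fun P hP q hq => ?_⟩
    by_contra h1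
    exact h ⟨P, hP, q, hq, not_lt.1 h1⟩
  · rintro ⟨_, h⟩ ⟨P, hP, q, hq, h1⟩
    exact absurd (h P hP q hq) (not_lt.2 h1)

/-- monotonicity of the count -/
theorem gf_mono {n : ℕ} {A B : SimpleGraph (Fin n) → Prop} (h : ∀ G, A G → B G) :
    Nat.card {G : SimpleGraph (Fin n) // A G} ≤ Nat.card {G : SimpleGraph (Fin n) // B G} := by
  simp only [Nat.card_eq_fintype_card, Fintype.card_subtype]
  exact Finset.card_le_card fun G hG => by
    rw [mem_filter] at hG ⊢
    exact ⟨hG.1, h G hG.2⟩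

/-- the number of graphs with few edges -/
theorem gf_few (n m : ℕ) :
    Nat.card {G : SimpleGraph (Fin n) // ∑ v, dgs G v < m} ≤ m * (n ^ 2 + 1) ^ m := by
  rw [Nat.card_eq_fintype_card, Fintype.card_subtype]
  have h1 : (univ.filter fun G : SimpleGraph (Fin n) => ∑ v, dgs G v < m).card ≤
      ((range m).biUnion fun k => powersetCard k (univ : Finset (Sym2 (Fin n)))).card := by
    refine Finset.card_le_card_of_injOn (fun G => G.edgeFinset) ?_ ?_
    · intro G hG
      have hG' : ∑ v, dgs G v < m := by simpa using hG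
      have e1 := G.sum_degrees_eq_twice_card_edges
      have e2 : ∀ v, G.degree v = dgs G v := by
        intro v
        rw [dgs, Nat.card_eq_fintype_card, SimpleGraph.card_neighborSet_eq_degree]
      rw [Finset.sum_congr rfl fun v _ => e2 v] at e1
      have e3 : G.edgeFinset.card < m := by
        have : ∑ v, dgs G v = 2 * G.edgeFinset.card := by
          rw [e1]
        omega
      simp only [coe_biUnion, Set.mem_iUnion, coe_range, Set.mem_Iio, mem_coe,
        mem_powersetCard_univ]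
      exact ⟨G.edgeFinset.card, e3, rfl⟩
    · intro G _ H _ h
      have h' : G.edgeFinset = H.edgeFinset := h
      rwa [SimpleGraph.edgeFinset_inj] at h'
  refine h1.trans (Finset.card_biUnion_le.trans ?_)
  have h2 : ∀ k ∈ range m, (powersetCard k (univ : Finset (Sym2 (Fin n)))).card ≤
      (n ^ 2 + 1) ^ m := by
    intro k hk
    rw [card_powersetCard]
    refine (Nat.choose_le_pow _ _).trans ?_
    have h3 : (univ : Finset (Sym2 (Fin n))).card ≤ n ^ 2 + 1 := by
      rw [card_univ, Sym2.card, Fintype.card_fin]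
      rw [Nat.choose_two_right]
      have : (n + 1) * (n + 1 - 1) ≤ 2 * n ^ 2 + 1 := by
        rcases Nat.eq_zero_or_pos n with h | h
        · subst h; simp
        · rw [Nat.add_sub_cancel]; nlinarith
      omega
    refine (Nat.pow_le_pow_left h3 k).trans ?_
    exact Nat.pow_le_pow_right (Nat.succ_pos _) (mem_range.1 hk).le
  calc _ ≤ ∑ _k ∈ range m, (n ^ 2 + 1) ^ m := Finset.sum_le_sum h2
    _ = m * (n ^ 2 + 1) ^ m := by rw [sum_const, card_range, smul_eq_mul]

/-- the matching on the pairs `{2 i, 2 i + 1}`, `i ∈ S` -/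
def mtc (n : ℕ) (S : Finset ℕ) : SimpleGraph (Fin n) where
  Adj x y := x ≠ y ∧ x.1 / 2 = y.1 / 2 ∧ x.1 / 2 ∈ S
  symm := ⟨fun x y h => ⟨h.1.symm, h.2.1.symm, h.2.1 ▸ h.2.2⟩⟩
  loopless := ⟨fun x h => h.1 rfl⟩

/-- the number of graphs of bounded degree -/
theorem gf_many (n d : ℕ) (hd : 1 ≤ d) :
    2 ^ (n / 2) ≤ Nat.card {G : SimpleGraph (Fin n) // ∀ v, dgs G v ≤ d} := by
  rw [Nat.card_eq_fintype_card, Fintype.card_subtype]
  have h1 : (range (n / 2)).powerset.card ≤
      (univ.filter fun G : SimpleGraph (Fin n) => ∀ v, dgs G v ≤ d).card := by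
    refine Finset.card_le_card_of_injOn (mtc n) ?_ ?_
    · intro S _
      simp only [mem_coe, mem_filter, mem_univ, true_and]
      intro v
      refine le_trans ?_ hd
      rw [dgs, Nat.card_eq_fintype_card, Fintype.card_le_one_iff_subsingleton]
      constructor
      rintro ⟨y, hy⟩ ⟨z, hz⟩
      have hy' : (mtc n S).Adj v y := hy
      have hz' : (mtc n S).Adj v z := hz
      obtain ⟨a1, a2, _⟩ := hy'
      obtain ⟨b1, b2, _⟩ := hz'
      have a1' : v.1 ≠ y.1 := fun h => a1 (Fin.ext h)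
      have b1' : v.1 ≠ z.1 := fun h => b1 (Fin.ext h)
      apply Subtype.ext
      apply Fin.ext
      show y.1 = z.1
      omega
    · intro S hS T hT h
      have hS' : S ⊆ range (n / 2) := mem_powerset.1 (mem_coe.1 hS)
      have hT' : T ⊆ range (n / 2) := mem_powerset.1 (mem_coe.1 hT)
      have key : ∀ i, i ∈ range (n / 2) → ∀ U : Finset ℕ, (i ∈ U ↔
          ∃ x y : Fin n, x.1 = 2 * i ∧ y.1 = 2 * i + 1 ∧ (mtc n U).Adj x y) := by
        intro i hi U
        rw [mem_range] at hi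
        constructor
        · intro h
          refine ⟨⟨2 * i, by omega⟩, ⟨2 * i + 1, by omega⟩, rfl, rfl, ?_, ?_, ?_⟩
          · intro h
            have := congrArg Fin.val h
            simp at this
          · show 2 * i / 2 = (2 * i + 1) / 2
            omega
          · show 2 * i / 2 ∈ U
            rwa [Nat.mul_div_cancel_left _ (by norm_num)]
        · rintro ⟨x, y, hx, _, _, _, h3⟩
          rw [hx, Nat.mul_div_cancel_left _ (by norm_num)] at h3
          exact h3
      ext i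
      constructor
      · intro hi
        have h1 := (key i (hS' hi) S).1 hi
        rw [h] at h1
        exact (key i (hS' hi) T).2 h1
      · intro hi
        have h1 := (key i (hT' hi) T).1 hi
        rw [← h] at h1
        exact (key i (hT' hi) S).2 h1
  rwa [card_powerset, card_range] at h1

/-- almost all graphs of bounded degree have many edges -/
theorem gf_sparse (d : ℕ) (hd : 1 ≤ d) (m : ℕ) (ε : ℝ) (hε : 0 < ε) :
    ∃ n₀ : ℕ, ∀ n ≥ n₀, (Nat.card {G : SimpleGraph (Fin n) // ∑ v, dgs G v < m} : ℝ) ≤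
      ε * Nat.card {G : SimpleGraph (Fin n) // ∀ v, dgs G v ≤ d} := by
  have h1 : Filter.Tendsto (fun k : ℕ => ((k : ℝ) ^ (2 * m)) / 2 ^ k) Filter.atTop (nhds 0) :=
    tendsto_pow_const_div_const_pow_of_one_lt (2 * m) (by norm_num)
  set δ : ℝ := ε / ((m + 1) * 4 ^ m * 2) with hδ
  have hδ0 : 0 < δ := by positivity
  obtain ⟨k₀, hk₀⟩ := (h1.eventually (gt_mem_nhds hδ0)).exists_forall_of_atTop
  refine ⟨2 * k₀ + 2, fun n hn => ?_⟩
  set k := n / 2 with hk
  have hkk : k₀ ≤ k + 1 := by omega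
  have h2 := hk₀ (k + 1) hkk
  have h3 : ((k + 1 : ℕ) : ℝ) ^ (2 * m) ≤ δ * 2 ^ (k + 1) := by
    rw [div_lt_iff₀ (by positivity)] at h2
    exact h2.le
  have h4 : ((n : ℝ) ^ 2 + 1) ≤ 4 * ((k + 1 : ℕ) : ℝ) ^ 2 := by
    have : n ≤ 2 * k + 1 := by omega
    have h5 : (n : ℝ) ≤ 2 * k + 1 := by exact_mod_cast this
    have h6 : (0 : ℝ) ≤ n := Nat.cast_nonneg _
    have h7 : (0 : ℝ) ≤ k := Nat.cast_nonneg _
    push_cast
    nlinarith
  have h8 : (m : ℝ) * ((n : ℝ) ^ 2 + 1) ^ m ≤ ε * 2 ^ k := by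
    calc (m : ℝ) * ((n : ℝ) ^ 2 + 1) ^ m
        ≤ (m + 1) * (4 * ((k + 1 : ℕ) : ℝ) ^ 2) ^ m := by
          apply mul_le_mul (by linarith) (pow_le_pow_left₀ (by positivity) h4 m)
            (by positivity) (by positivity)
      _ = (m + 1) * 4 ^ m * ((k + 1 : ℕ) : ℝ) ^ (2 * m) := by
          rw [mul_pow, ← pow_mul]; ring
      _ ≤ (m + 1) * 4 ^ m * (δ * 2 ^ (k + 1)) :=
          mul_le_mul_of_nonneg_left h3 (by positivity)
      _ = ε * 2 ^ k := by
          rw [hδ, pow_succ]
          field_simp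
  have h9 : (Nat.card {G : SimpleGraph (Fin n) // ∑ v, dgs G v < m} : ℝ) ≤
      (m : ℝ) * ((n : ℝ) ^ 2 + 1) ^ m := by
    exact_mod_cast gf_few n m
  have h10 : (2 : ℝ) ^ k ≤ Nat.card {G : SimpleGraph (Fin n) // ∀ v, dgs G v ≤ d} := by
    exact_mod_cast gf_many n d hd
  exact h9.trans (h8.trans (mul_le_mul_of_nonneg_left h10 hε.le))

/-- From degree sequences to all graphs of bounded degree. -/
theorem gf_all {d : ℕ} (hd : 1 ≤ d) (B : ∀ n : ℕ, SimpleGraph (Fin n) → Prop)
    (h : ∀ ε : ℝ, 0 < ε → ∃ N₀ : ℕ, ∀ (n : ℕ) (D : Fin n → ℕ), (∀ v, D v ≤ d) →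
      N₀ ≤ ∑ v, D v →
      (Nat.card {G : SimpleGraph (Fin n) // (∀ v, Nat.card (G.neighborSet v) = D v) ∧ B n G} : ℝ) ≤
      ε * Nat.card {G : SimpleGraph (Fin n) // ∀ v, Nat.card (G.neighborSet v) = D v})
    (ε : ℝ) (hε : 0 < ε) :
    ∃ n₀ : ℕ, ∀ n ≥ n₀,
      (Nat.card {G : SimpleGraph (Fin n) // (∀ v, Nat.card (G.neighborSet v) ≤ d) ∧ B n G} : ℝ) ≤
      ε * Nat.card {G : SimpleGraph (Fin n) // ∀ v, Nat.card (G.neighborSet v) ≤ d} := by
  obtain ⟨N₀, hN⟩ := h (ε / 2) (by positivity)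
  obtain ⟨n₀, hn₀⟩ := gf_sparse d hd N₀ (ε / 2) (by positivity)
  refine ⟨n₀, fun n hn => ?_⟩
  have h1 := hn₀ n hn
  have e0 : ∀ G : SimpleGraph (Fin n), (∀ v, Nat.card (G.neighborSet v) ≤ d) ↔
      ∀ v, dgs G v ≤ d := fun G => Iff.rfl
  have e0' : ∀ (G : SimpleGraph (Fin n)) (D : Fin n → ℕ),
      (∀ v, Nat.card (G.neighborSet v) = D v) ↔ dgs G = D :=
    fun G D => ⟨fun h => funext h, fun h v => congrFun h v⟩
  -- the two parts
  have h2 : Nat.card {G : SimpleGraph (Fin n) // (∀ v, dgs G v ≤ d) ∧ B n G} ≤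
      Nat.card {G : SimpleGraph (Fin n) // ((∀ v, dgs G v ≤ d) ∧ N₀ ≤ ∑ v, dgs G v) ∧ B n G} +
      Nat.card {G : SimpleGraph (Fin n) // ∑ v, dgs G v < N₀} := by
    simp only [Nat.card_eq_fintype_card, Fintype.card_subtype]
    rw [← Finset.card_filter_add_card_filter_not (s := univ.filter
      fun G : SimpleGraph (Fin n) => (∀ v, dgs G v ≤ d) ∧ B n G) (fun G => N₀ ≤ ∑ v, dgs G v)]
    apply Nat.add_le_add
    · refine Finset.card_le_card fun G hG => ?_
      simp only [mem_filter, mem_univ, true_and] at hG ⊢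
      exact ⟨⟨hG.1.1, hG.2⟩, hG.1.2⟩
    · refine Finset.card_le_card fun G hG => ?_
      simp only [mem_filter, mem_univ, true_and] at hG ⊢
      exact not_le.1 hG.2
  -- the fibres
  have h3 : (Nat.card {G : SimpleGraph (Fin n) // ((∀ v, dgs G v ≤ d) ∧
      N₀ ≤ ∑ v, dgs G v) ∧ B n G} : ℝ) ≤
      ε / 2 * Nat.card {G : SimpleGraph (Fin n) // ∀ v, dgs G v ≤ d} := by
    set T : Finset (Fin n → ℕ) := (univ.filter fun G : SimpleGraph (Fin n) =>
      (∀ v, dgs G v ≤ d) ∧ N₀ ≤ ∑ v, dgs G v).image dgs with hT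
    have f1 : Nat.card {G : SimpleGraph (Fin n) // ((∀ v, dgs G v ≤ d) ∧
        N₀ ≤ ∑ v, dgs G v) ∧ B n G} =
        ∑ D ∈ T, ((univ.filter fun G : SimpleGraph (Fin n) => ((∀ v, dgs G v ≤ d) ∧
          N₀ ≤ ∑ v, dgs G v) ∧ B n G).filter fun G => dgs G = D).card := by
      rw [Nat.card_eq_fintype_card, Fintype.card_subtype]
      refine Finset.card_eq_sum_card_fiberwise fun G hG => ?_
      rw [mem_coe, mem_filter] at hG
      have hG := hG.2
      rw [hT]
      simp only [mem_coe, mem_image, mem_filter, mem_univ, true_and]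
      exact ⟨G, hG.1, rfl⟩
    have f2 : ∀ D ∈ T, (((univ.filter fun G : SimpleGraph (Fin n) => ((∀ v, dgs G v ≤ d) ∧
          N₀ ≤ ∑ v, dgs G v) ∧ B n G).filter fun G => dgs G = D).card : ℝ) ≤
        ε / 2 * ((univ.filter fun G : SimpleGraph (Fin n) => ∀ v, dgs G v ≤ d).filter
          fun G => dgs G = D).card := by
      intro D hD
      rw [hT, mem_image] at hD
      obtain ⟨G₀, hG₀, rfl⟩ := hD
      simp only [mem_filter, mem_univ, true_and] at hG₀
      have g1 := hN n (dgs G₀) hG₀.1 hG₀.2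
      simp only [e0'] at g1
      rw [Nat.card_eq_fintype_card, Nat.card_eq_fintype_card, Fintype.card_subtype,
        Fintype.card_subtype] at g1
      refine le_trans ?_ (g1.trans ?_)
      · exact_mod_cast Finset.card_le_card fun G hG => by
          simp only [mem_filter, mem_univ, true_and] at hG ⊢
          exact ⟨hG.2, hG.1.2⟩
      · apply mul_le_mul_of_nonneg_left _ (by positivity)
        exact_mod_cast Finset.card_le_card fun G hG => by
          simp only [mem_filter, mem_univ, true_and] at hG ⊢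
          exact ⟨fun v => by rw [hG]; exact hG₀.1 v, hG⟩
    have f3 : ∑ D ∈ T, ((univ.filter fun G : SimpleGraph (Fin n) => ∀ v, dgs G v ≤ d).filter
        fun G => dgs G = D).card ≤
        Nat.card {G : SimpleGraph (Fin n) // ∀ v, dgs G v ≤ d} := by
      rw [Nat.card_eq_fintype_card, Fintype.card_subtype, Finset.card_eq_sum_card_image dgs]
      refine Finset.sum_le_sum_of_subset ?_
      rw [hT]
      refine Finset.image_subset_image fun G hG => ?_
      simp only [mem_filter, mem_univ, true_and] at hG ⊢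
      exact hG.1
    rw [f1]
    push_cast
    refine (Finset.sum_le_sum f2).trans ?_
    rw [← Finset.mul_sum]
    apply mul_le_mul_of_nonneg_left _ (by positivity)
    exact_mod_cast f3
  simp only [e0]
  have h4 : (Nat.card {G : SimpleGraph (Fin n) // (∀ v, dgs G v ≤ d) ∧ B n G} : ℝ) ≤
      Nat.card {G : SimpleGraph (Fin n) // ((∀ v, dgs G v ≤ d) ∧ N₀ ≤ ∑ v, dgs G v) ∧ B n G} +
      Nat.card {G : SimpleGraph (Fin n) // ∑ v, dgs G v < N₀} := by exact_mod_cast h2
  linarith

end Pool.Agent.Lib.MP_d38209_co.CR
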