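import Pool.Agent.Lib.MP_d38209_co.CR.Defs

/-!
# The numerical conditions for all degrees `1, …, Δ`
-/

set_option autoImplicit false

namespace Pool.Agent.Lib.MP_d38209_co.CR

theorem gn_f_nonneg (k : ℕ) (t : ℝ) (ht : 0 ≤ t) :
    0 ≤ (1 + 2 * t) ^ k - 2 * (1 + t) ^ k + 1 := by
  induction k with
  | zero => norm_num
  | succ n ih =>
    have h : (1 + t) ^ n ≤ (1 + 2 * t) ^ n :=
      pow_le_pow_left₀ (by linarith) (by linarith) n
    have h2 : 0 ≤ 2 * t * ((1 + 2 * t) ^ n - (1 + t) ^ n) :=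
      mul_nonneg (by linarith) (by linarith)
    have e : (1 + 2 * t) ^ (n + 1) - 2 * (1 + t) ^ (n + 1) + 1 =
        ((1 + 2 * t) ^ n - 2 * (1 + t) ^ n + 1) + 2 * t * ((1 + 2 * t) ^ n - (1 + t) ^ n) := by
      ring
    rw [e]
    linarith

theorem gn_mono {k : ℕ} {x x' c c' : ℝ} (hx0 : 0 ≤ x') (hx : x' ≤ x) (hc : c' ≤ c)
    (h : Cond k x c) : Cond k x' c' := by
  intro r hr
  have h1 := h r hr
  have hf := gn_f_nonneg k (r / 2) (by linarith)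
  have hw0 : 0 ≤ ww k x' (r / 2) := by
    unfold ww
    have := mul_nonneg hx0 hf
    linarith
  have hw : ww k x' (r / 2) ≤ ww k x (r / 2) := by
    unfold ww
    have := mul_le_mul_of_nonneg_right hx hf
    linarith
  have h2 : ww k x' (r / 2) ^ 2 ≤ ww k x (r / 2) ^ 2 := pow_le_pow_left₀ hw0 hw 2
  have h3 : c' * r ^ 2 * (1 + r ^ 2) ^ (k - 1) ≤ c * r ^ 2 * (1 + r ^ 2) ^ (k - 1) := by
    have h4 : 0 ≤ r ^ 2 * (1 + r ^ 2) ^ (k - 1) := by positivity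
    have := mul_le_mul_of_nonneg_right hc h4
    linarith
  linarith

theorem gn_cond1 {x c : ℝ} (hc : c ≤ 1) : Cond 1 x c := by
  intro r hr
  have e : ww 1 x (r / 2) = 1 := by
    unfold ww
    ring
  rw [e]
  have := mul_le_mul_of_nonneg_right hc (sq_nonneg r)
  norm_num
  linarith

theorem gn_cond2 {x c : ℝ} (h0 : 0 ≤ x) (h1 : x ≤ 1) (hc : c ≤ 1 / 2) : Cond 2 x c := by
  intro r hr
  have e : ww 2 x (r / 2) = 1 + x * r ^ 2 / 2 := by
    unfold ww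
    ring
  rw [e]
  have h2 : 0 ≤ r ^ 2 := sq_nonneg r
  have h3 : 0 ≤ r ^ 4 := by positivity
  have h4 : x ^ 2 ≤ 1 := by nlinarith
  have h5 : (1 + r ^ 2) ^ 2 - ((1 + x * r ^ 2 / 2) ^ 2 + c * r ^ 2 * (1 + r ^ 2) ^ (2 - 1)) =
      r ^ 2 * (2 - x - c) + r ^ 4 * (1 - x ^ 2 / 4 - c) := by
    norm_num
    ring
  have h6 : 0 ≤ r ^ 2 * (2 - x - c) := mul_nonneg h2 (by linarith)
  have h7 : 0 ≤ r ^ 4 * (1 - x ^ 2 / 4 - c) := mul_nonneg h3 (by linarith)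
  linarith

theorem gn_num3_pos (r : ℝ) (hr : 0 ≤ r) : 0 ≤ (278507/493000 : ℝ) * r ^ 0 + (-600/493 : ℝ) * r ^ 1 + (184330451/121524500 : ℝ) * r ^ 2 + (-360000/243049 : ℝ) * r ^ 3 + (152805951/243049000 : ℝ) * r ^ 4 := by
  rcases le_total r (15/16 : ℝ) with h0 | h0
  · have e : (278507/493000 : ℝ) * r ^ 0 + (-600/493 : ℝ) * r ^ 1 + (184330451/121524500 : ℝ) * r ^ 2 + (-360000/243049 : ℝ) * r ^ 3 + (152805951/243049000 : ℝ) * r ^ 4 = (2281529344/3119765625 : ℝ) * ((r - (0 : ℝ)) ^ 0 * ((15/16 : ℝ) - r) ^ 4) + (4518117376/3119765625 : ℝ) * ((r - (0 : ℝ)) ^ 1 * ((15/16 : ℝ) - r) ^ 3) + (862630097984/512681484375 : ℝ) * ((r - (0 : ℝ)) ^ 2 * ((15/16 : ℝ) - r) ^ 2) + (562660855168/1538044453125 : ℝ) * ((r - (0 : ℝ)) ^ 3 * ((15/16 : ℝ) - r) ^ 1) + (355068957311/12304355625000 : ℝ) * ((r - (0 : ℝ)) ^ 4 * ((15/16 : ℝ) - r) ^ 0) := by ring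
    have u : 0 ≤ r - (0 : ℝ) := by linarith
    have v : 0 ≤ (15/16 : ℝ) - r := by linarith
    rw [e]
    positivity
  rcases le_total r (5/4 : ℝ) with h1 | h1
  · have e : (278507/493000 : ℝ) * r ^ 0 + (-600/493 : ℝ) * r ^ 1 + (184330451/121524500 : ℝ) * r ^ 2 + (-360000/243049 : ℝ) * r ^ 3 + (152805951/243049000 : ℝ) * r ^ 4 = (355068957311/151905625000 : ℝ) * ((r - (15/16 : ℝ)) ^ 0 * ((5/4 : ℝ) - r) ^ 4) + (49159019818/18988203125 : ℝ) * ((r - (15/16 : ℝ)) ^ 1 * ((5/4 : ℝ) - r) ^ 3) + (10754168852/18988203125 : ℝ) * ((r - (15/16 : ℝ)) ^ 2 * ((5/4 : ℝ) - r) ^ 2) + (104821335968/18988203125 : ℝ) * ((r - (15/16 : ℝ)) ^ 3 * ((5/4 : ℝ) - r) ^ 1) + (110780532192/18988203125 : ℝ) * ((r - (15/16 : ℝ)) ^ 4 * ((5/4 : ℝ) - r) ^ 0) := by ring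
    have u : 0 ≤ r - (15/16 : ℝ) := by linarith
    have v : 0 ≤ (5/4 : ℝ) - r := by linarith
    rw [e]
    positivity
  have e : (278507/493000 : ℝ) * r ^ 0 + (-600/493 : ℝ) * r ^ 1 + (184330451/121524500 : ℝ) * r ^ 2 + (-360000/243049 : ℝ) * r ^ 3 + (152805951/243049000 : ℝ) * r ^ 4 = (3461891631/62220544000 : ℝ) * (r - (5/4 : ℝ)) ^ 0 + (422875991/777756800 : ℝ) * (r - (5/4 : ℝ)) ^ 1 + (3609733541/1944392000 : ℝ) * (r - (5/4 : ℝ)) ^ 2 + (80805951/48609800 : ℝ) * (r - (5/4 : ℝ)) ^ 3 + (152805951/243049000 : ℝ) * (r - (5/4 : ℝ)) ^ 4 := by ring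
  have u : 0 ≤ r - (5/4 : ℝ) := by linarith
  rw [e]
  positivity

theorem gn_num3 : Cond 3 (2 / (2465 / 1000)) (1 / 1000) := by
  intro r hr
  have h := gn_num3_pos r hr
  have e : (1 + r ^ 2) ^ 3 - (ww 3 (2 / (2465 / 1000)) (r / 2) ^ 2 + (1 / 1000) * r ^ 2 * (1 + r ^ 2) ^ (3 - 1)) =
      r ^ 2 * ((278507/493000 : ℝ) * r ^ 0 + (-600/493 : ℝ) * r ^ 1 + (184330451/121524500 : ℝ) * r ^ 2 + (-360000/243049 : ℝ) * r ^ 3 + (152805951/243049000 : ℝ) * r ^ 4) := by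
    unfold ww
    norm_num
    ring
  have h2 := mul_nonneg (sq_nonneg r) h
  rw [← e] at h2
  linarith

theorem gn_num4_pos (r : ℝ) (hr : 0 ≤ r) : 0 ≤ (15878853/11470000 : ℝ) * r ^ 0 + (-3000/1147 : ℝ) * r ^ 1 + (46396343173/13156090000 : ℝ) * r ^ 2 + (-4500000/1315609 : ℝ) * r ^ 3 + (16995413173/13156090000 : ℝ) * r ^ 4 + (-1312500/1315609 : ℝ) * r ^ 5 + (11240711891/13156090000 : ℝ) * r ^ 6 := by
  rcases le_total r (15/16 : ℝ) with h0 | h0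
  · have e : (15878853/11470000 : ℝ) * r ^ 0 + (-3000/1147 : ℝ) * r ^ 1 + (46396343173/13156090000 : ℝ) * r ^ 2 + (-4500000/1315609 : ℝ) * r ^ 3 + (16995413173/13156090000 : ℝ) * r ^ 4 + (-1312500/1315609 : ℝ) * r ^ 5 + (11240711891/13156090000 : ℝ) * r ^ 6 = (1850020462592/907294921875 : ℝ) * ((r - (0 : ℝ)) ^ 0 * ((15/16 : ℝ) - r) ^ 6) + (211441156096/24521484375 : ℝ) * ((r - (0 : ℝ)) ^ 1 * ((15/16 : ℝ) - r) ^ 5) + (1185875973320704/69377818359375 : ℝ) * ((r - (0 : ℝ)) ^ 2 * ((15/16 : ℝ) - r) ^ 4) + (434189235011584/23125939453125 : ℝ) * ((r - (0 : ℝ)) ^ 3 * ((15/16 : ℝ) - r) ^ 3) + (2264041297991312/208133455078125 : ℝ) * ((r - (0 : ℝ)) ^ 4 * ((15/16 : ℝ) - r) ^ 2) + (71669906791072/38543232421875 : ℝ) * ((r - (0 : ℝ)) ^ 5 * ((15/16 : ℝ) - r) ^ 1) + (1692681540298459/16650676406250000 : ℝ) * ((r - (0 : ℝ)) ^ 6 * ((15/16 : ℝ) - r) ^ 0) := by ring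
    have u : 0 ≤ r - (0 : ℝ) := by linarith
    have v : 0 ≤ (15/16 : ℝ) - r := by linarith
    rw [e]
    positivity
  rcases le_total r (35/32 : ℝ) with h1 | h1
  · have e : (15878853/11470000 : ℝ) * r ^ 0 + (-3000/1147 : ℝ) * r ^ 1 + (46396343173/13156090000 : ℝ) * r ^ 2 + (-4500000/1315609 : ℝ) * r ^ 3 + (16995413173/13156090000 : ℝ) * r ^ 4 + (-1312500/1315609 : ℝ) * r ^ 5 + (11240711891/13156090000 : ℝ) * r ^ 6 = (60936535450744524/12847744140625 : ℝ) * ((r - (15/16 : ℝ)) ^ 0 * ((35/32 : ℝ) - r) ^ 6) + (240787349752753044/12847744140625 : ℝ) * ((r - (15/16 : ℝ)) ^ 1 * ((35/32 : ℝ) - r) ^ 5) + (68319049055532737/2569548828125 : ℝ) * ((r - (15/16 : ℝ)) ^ 2 * ((35/32 : ℝ) - r) ^ 4) + (39984858506850206/2569548828125 : ℝ) * ((r - (15/16 : ℝ)) ^ 3 * ((35/32 : ℝ) - r) ^ 3) + (38538775913058473/10278195312500 : ℝ) * ((r - (15/16 : ℝ)) ^ 4 * ((35/32 : ℝ) - r) ^ 2) + (99802629034670901/51390976562500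 : ℝ) * ((r - (15/16 : ℝ)) ^ 5 * ((35/32 : ℝ) - r) ^ 1) + (239488418938344859/205563906250000 : ℝ) * ((r - (15/16 : ℝ)) ^ 6 * ((35/32 : ℝ) - r) ^ 0) := by ring
    have u : 0 ≤ r - (15/16 : ℝ) := by linarith
    have v : 0 ≤ (35/32 : ℝ) - r := by linarith
    rw [e]
    positivity
  rcases le_total r (5/4 : ℝ) with h2 | h2
  · have e : (15878853/11470000 : ℝ) * r ^ 0 + (-3000/1147 : ℝ) * r ^ 1 + (46396343173/13156090000 : ℝ) * r ^ 2 + (-4500000/1315609 : ℝ) * r ^ 3 + (16995413173/13156090000 : ℝ) * r ^ 4 + (-1312500/1315609 : ℝ) * r ^ 5 + (11240711891/13156090000 : ℝ) * r ^ 6 = (239488418938344859/205563906250000 : ℝ) * ((r - (35/32 : ℝ)) ^ 0 * ((5/4 : ℝ) - r) ^ 6) + (154665656945090919/12847744140625 : ℝ) * ((r - (35/32 : ℝ)) ^ 1 * ((5/4 : ℝ) - r) ^ 5) + (139349693664687812/2569548828125 : ℝ) * ((r - (35/32 : ℝ)) ^ 2 * ((5/4 : ℝ) - r) ^ 4) + (316464273126614656/2569548828125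 : ℝ) * ((r - (35/32 : ℝ)) ^ 3 * ((5/4 : ℝ) - r) ^ 3) + (10240467409976576/69447265625 : ℝ) * ((r - (35/32 : ℝ)) ^ 4 * ((5/4 : ℝ) - r) ^ 2) + (1145861604035948544/12847744140625 : ℝ) * ((r - (35/32 : ℝ)) ^ 5 * ((5/4 : ℝ) - r) ^ 1) + (276656638519066624/12847744140625 : ℝ) * ((r - (35/32 : ℝ)) ^ 6 * ((5/4 : ℝ) - r) ^ 0) := by ring
    have u : 0 ≤ r - (35/32 : ℝ) := by linarith
    have v : 0 ≤ (5/4 : ℝ) - r := by linarith
    rw [e]
    positivity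
  have e : (15878853/11470000 : ℝ) * r ^ 0 + (-3000/1147 : ℝ) * r ^ 1 + (46396343173/13156090000 : ℝ) * r ^ 2 + (-4500000/1315609 : ℝ) * r ^ 3 + (16995413173/13156090000 : ℝ) * r ^ 4 + (-1312500/1315609 : ℝ) * r ^ 5 + (11240711891/13156090000 : ℝ) * r ^ 6 = (16885781159611/53887344640000 : ℝ) * (r - (5/4 : ℝ)) ^ 0 + (5020295186313/1347183616000 : ℝ) * (r - (5/4 : ℝ)) ^ 1 + (49223129445613/3367959040000 : ℝ) * (r - (5/4 : ℝ)) ^ 2 + (876765597143/42099488000 : ℝ) * (r - (5/4 : ℝ)) ^ 3 + (3174693569893/210497440000 : ℝ) * (r - (5/4 : ℝ)) ^ 4 + (28472135673/5262436000 : ℝ) * (r - (5/4 : ℝ)) ^ 5 + (11240711891/13156090000 : ℝ) * (r - (5/4 : ℝ)) ^ 6 := by ring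
  have u : 0 ≤ r - (5/4 : ℝ) := by linarith
  rw [e]
  positivity

theorem gn_num4 : Cond 4 (2 / (4588 / 1000)) (1 / 10000) := by
  intro r hr
  have h := gn_num4_pos r hr
  have e : (1 + r ^ 2) ^ 4 - (ww 4 (2 / (4588 / 1000)) (r / 2) ^ 2 + (1 / 10000) * r ^ 2 * (1 + r ^ 2) ^ (4 - 1)) =
      r ^ 2 * ((15878853/11470000 : ℝ) * r ^ 0 + (-3000/1147 : ℝ) * r ^ 1 + (46396343173/13156090000 : ℝ) * r ^ 2 + (-4500000/1315609 : ℝ) * r ^ 3 + (16995413173/13156090000 : ℝ) * r ^ 4 + (-1312500/1315609 : ℝ) * r ^ 5 + (11240711891/13156090000 : ℝ) * r ^ 6) := by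
    unfold ww
    norm_num
    ring
  have h2 := mul_nonneg (sq_nonneg r) h
  rw [← e] at h2
  linarith

theorem gn_num5_pos (r : ℝ) (hr : 0 ≤ r) : 0 ≤ (91446171/38290000 : ℝ) * r ^ 0 + (-15000/3829 : ℝ) * r ^ 1 + (220256988759/36653102500 : ℝ) * r ^ 2 + (-82179375/14661241 : ℝ) * r ^ 3 + (233018066277/73306205000 : ℝ) * r ^ 4 + (-75000000/14661241 : ℝ) * r ^ 5 + (100243038759/36653102500 : ℝ) * r ^ 6 + (-1171875/2094463 : ℝ) * r ^ 7 + (137808686259/146612410000 : ℝ) * r ^ 8 := by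
  rcases le_total r (65/64 : ℝ) with h0 | h0
  · have e : (91446171/38290000 : ℝ) * r ^ 0 + (-15000/3829 : ℝ) * r ^ 1 + (220256988759/36653102500 : ℝ) * r ^ 2 + (-82179375/14661241 : ℝ) * r ^ 3 + (233018066277/73306205000 : ℝ) * r ^ 4 + (-75000000/14661241 : ℝ) * r ^ 5 + (100243038759/36653102500 : ℝ) * r ^ 6 + (-1171875/2094463 : ℝ) * r ^ 7 + (137808686259/146612410000 : ℝ) * r ^ 8 = (1608738053281479131136/762556867848876953125 : ℝ) * ((r - (0 : ℝ)) ^ 0 * ((65/64 : ℝ) - r) ^ 8) + (10189844833547833049088/762556867848876953125 : ℝ) * ((r - (0 : ℝ)) ^ 1 * ((65/64 : ℝ) - r) ^ 7) + (116629728827225952781074432/2919830246993349853515625 : ℝ) * ((r - (0 : ℝ)) ^ 2 * ((65/64 : ℝ) - r) ^ 6) + (210229716819992690257035264/2919830246993349853515625 : ℝ) * ((r - (0 : ℝ)) ^ 3 * ((65/64 : ℝ) - r) ^ 5) + (48965557676290723824009216/583966049398669970703125 : ℝ) * ((r - (0 : ℝ)) ^ 4 * ((65/64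 : ℝ) - r) ^ 4) + (24958700519903094953213952/417118606713335693359375 : ℝ) * ((r - (0 : ℝ)) ^ 5 * ((65/64 : ℝ) - r) ^ 3) + (8948298499974756812030976/417118606713335693359375 : ℝ) * ((r - (0 : ℝ)) ^ 6 * ((65/64 : ℝ) - r) ^ 2) + (3636319918812714637647552/2919830246993349853515625 : ℝ) * ((r - (0 : ℝ)) ^ 7 * ((65/64 : ℝ) - r) ^ 1) + (1326287547927005646323379/46717283951893597656250000 : ℝ) * ((r - (0 : ℝ)) ^ 8 * ((65/64 : ℝ) - r) ^ 0) := by ring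
    have u : 0 ≤ r - (0 : ℝ) := by linarith
    have v : 0 ≤ (65/64 : ℝ) - r := by linarith
    rw [e]
    positivity
  rcases le_total r (35/32 : ℝ) with h1 | h1
  · have e : (91446171/38290000 : ℝ) * r ^ 0 + (-15000/3829 : ℝ) * r ^ 1 + (220256988759/36653102500 : ℝ) * r ^ 2 + (-82179375/14661241 : ℝ) * r ^ 3 + (233018066277/73306205000 : ℝ) * r ^ 4 + (-75000000/14661241 : ℝ) * r ^ 5 + (100243038759/36653102500 : ℝ) * r ^ 6 + (-1171875/2094463 : ℝ) * r ^ 7 + (137808686259/146612410000 : ℝ) * r ^ 8 = (1326287547927005646323379/57270472656250000 : ℝ) * ((r - (65/64 : ℝ)) ^ 0 * ((35/32 : ℝ) - r) ^ 8) + (434437916667409606662777/3579404541015625 : ℝ) * ((r - (65/64 : ℝ)) ^ 1 * ((35/32 : ℝ) - r) ^ 7) + (136259819437988334643851/511343505859375 : ℝ) * ((r - (65/64 : ℝ)) ^ 2 * ((35/32 : ℝ) - r) ^ 6) + (185802811548453353243652/511343505859375 : ℝ) * ((r - (65/64 : ℝ)) ^ 3 * ((35/32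 : ℝ) - r) ^ 5) + (321053400374133661017066/715880908203125 : ℝ) * ((r - (65/64 : ℝ)) ^ 4 * ((35/32 : ℝ) - r) ^ 4) + (1928334917781855643617264/3579404541015625 : ℝ) * ((r - (65/64 : ℝ)) ^ 5 * ((35/32 : ℝ) - r) ^ 3) + (1654526742464275997038032/3579404541015625 : ℝ) * ((r - (65/64 : ℝ)) ^ 6 * ((35/32 : ℝ) - r) ^ 2) + (112429918975291197299136/511343505859375 : ℝ) * ((r - (65/64 : ℝ)) ^ 7 * ((35/32 : ℝ) - r) ^ 1) + (21985214190520926560592/511343505859375 : ℝ) * ((r - (65/64 : ℝ)) ^ 8 * ((35/32 : ℝ) - r) ^ 0) := by ring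
    have u : 0 ≤ r - (65/64 : ℝ) := by linarith
    have v : 0 ≤ (35/32 : ℝ) - r := by linarith
    rw [e]
    positivity
  rcases le_total r (5/4 : ℝ) with h2 | h2
  · have e : (91446171/38290000 : ℝ) * r ^ 0 + (-15000/3829 : ℝ) * r ^ 1 + (220256988759/36653102500 : ℝ) * r ^ 2 + (-82179375/14661241 : ℝ) * r ^ 3 + (233018066277/73306205000 : ℝ) * r ^ 4 + (-75000000/14661241 : ℝ) * r ^ 5 + (100243038759/36653102500 : ℝ) * r ^ 6 + (-1171875/2094463 : ℝ) * r ^ 7 + (137808686259/146612410000 : ℝ) * r ^ 8 = (1374075886907557910037/8181496093750000 : ℝ) * ((r - (35/32 : ℝ)) ^ 0 * ((5/4 : ℝ) - r) ^ 8) + (1182755088366874386156/511343505859375 : ℝ) * ((r - (35/32 : ℝ)) ^ 1 * ((5/4 : ℝ) - r) ^ 7) + (48225111809376587637072/3579404541015625 : ℝ) * ((r - (35/32 : ℝ)) ^ 2 * ((5/4 : ℝ) - r) ^ 6) + (151957763668070333209344/3579404541015625 : ℝ) * ((r - (35/32 : ℝ)) ^ 3 * ((5/4 : ℝ) - r)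 ^ 5) + (56932692191789132007936/715880908203125 : ℝ) * ((r - (35/32 : ℝ)) ^ 4 * ((5/4 : ℝ) - r) ^ 4) + (327531782403002395705344/3579404541015625 : ℝ) * ((r - (35/32 : ℝ)) ^ 5 * ((5/4 : ℝ) - r) ^ 3) + (227852498343772414083072/3579404541015625 : ℝ) * ((r - (35/32 : ℝ)) ^ 6 * ((5/4 : ℝ) - r) ^ 2) + (88179787697358180974592/3579404541015625 : ℝ) * ((r - (35/32 : ℝ)) ^ 7 * ((5/4 : ℝ) - r) ^ 1) + (14606393438852191617024/3579404541015625 : ℝ) * ((r - (35/32 : ℝ)) ^ 8 * ((5/4 : ℝ) - r) ^ 0) := by ring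
    have u : 0 ≤ r - (35/32 : ℝ) := by linarith
    have v : 0 ≤ (5/4 : ℝ) - r := by linarith
    rw [e]
    positivity
  have e : (91446171/38290000 : ℝ) * r ^ 0 + (-15000/3829 : ℝ) * r ^ 1 + (220256988759/36653102500 : ℝ) * r ^ 2 + (-82179375/14661241 : ℝ) * r ^ 3 + (233018066277/73306205000 : ℝ) * r ^ 4 + (-75000000/14661241 : ℝ) * r ^ 5 + (100243038759/36653102500 : ℝ) * r ^ 6 + (-1171875/2094463 : ℝ) * r ^ 7 + (137808686259/146612410000 : ℝ) * r ^ 8 = (13929742277958099/9608390901760000 : ℝ) * (r - (5/4 : ℝ)) ^ 0 + (1093725578821539/60052443136000 : ℝ) * (r - (5/4 : ℝ)) ^ 1 + (11946411590653389/150131107840000 : ℝ) * (r - (5/4 : ℝ)) ^ 2 + (80436643287291/536182528000 : ℝ) * (r - (5/4 : ℝ)) ^ 3 + (2959360664490537/18766388480000 : ℝ) * (r - (5/4 : ℝ)) ^ 4 + (3345935047251/33511408000 : ℝ) * (r - (5/4 : ℝ)) ^ 5 + (22849314965469/586449640000 : ℝ) * (r - (5/4 : ℝ)) ^ 6 + (129605561259/14661241000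 : ℝ) * (r - (5/4 : ℝ)) ^ 7 + (137808686259/146612410000 : ℝ) * (r - (5/4 : ℝ)) ^ 8 := by ring
  have u : 0 ≤ r - (5/4 : ℝ) := by linarith
  rw [e]
  positivity

theorem gn_num5 : Cond 5 (2 / (7658 / 1000)) (1 / 10000) := by
  intro r hr
  have h := gn_num5_pos r hr
  have e : (1 + r ^ 2) ^ 5 - (ww 5 (2 / (7658 / 1000)) (r / 2) ^ 2 + (1 / 10000) * r ^ 2 * (1 + r ^ 2) ^ (5 - 1)) =
      r ^ 2 * ((91446171/38290000 : ℝ) * r ^ 0 + (-15000/3829 : ℝ) * r ^ 1 + (220256988759/36653102500 : ℝ) * r ^ 2 + (-82179375/14661241 : ℝ) * r ^ 3 + (233018066277/73306205000 : ℝ) * r ^ 4 + (-75000000/14661241 : ℝ) * r ^ 5 + (100243038759/36653102500 : ℝ) * r ^ 6 + (-1171875/2094463 : ℝ) * r ^ 7 + (137808686259/146612410000 : ℝ) * r ^ 8) := by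
    unfold ww
    norm_num
    ring
  have h2 := mul_nonneg (sq_nonneg r) h
  rw [← e] at h2
  linarith

theorem gn_num6_pos (r : ℝ) (hr : 0 ≤ r) : 0 ≤ (5659839/1610000 : ℝ) * r ^ 0 + (-800/161 : ℝ) * r ^ 1 + (472204079/51842000 : ℝ) * r ^ 2 + (-208300/25921 : ℝ) * r ^ 3 + (630227237/77763000 : ℝ) * r ^ 4 + (-340000/25921 : ℝ) * r ^ 5 + (407867237/77763000 : ℝ) * r ^ 6 + (-377000/77763 : ℝ) * r ^ 7 + (689578237/155526000 : ℝ) * r ^ 8 + (-7750/25921 : ℝ) * r ^ 9 + (2272594211/2332890000 : ℝ) * r ^ 10 := by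
  rcases le_total r (65/64 : ℝ) with h0 | h0
  · have e : (5659839/1610000 : ℝ) * r ^ 0 + (-800/161 : ℝ) * r ^ 1 + (472204079/51842000 : ℝ) * r ^ 2 + (-208300/25921 : ℝ) * r ^ 3 + (630227237/77763000 : ℝ) * r ^ 4 + (-340000/25921 : ℝ) * r ^ 5 + (407867237/77763000 : ℝ) * r ^ 6 + (-377000/77763 : ℝ) * r ^ 7 + (689578237/155526000 : ℝ) * r ^ 8 + (-7750/25921 : ℝ) * r ^ 9 + (2272594211/2332890000 : ℝ) * r ^ 10 = (407834380982032011362304/135468854905328369140625 : ℝ) * ((r - (0 : ℝ)) ^ 0 * ((65/64 : ℝ) - r) ^ 10) + (99796453093204446674944/3870538711580810546875 : ℝ) * ((r - (0 : ℝ)) ^ 1 * ((65/64 : ℝ) - r) ^ 9) + (456380911668166284485328896/4362097127951573486328125 : ℝ) * ((r - (0 : ℝ)) ^ 2 * ((65/64 : ℝ) - r) ^ 8) + (1146529201954384123690745856/4362097127951573486328125 : ℝ) * ((r - (0 : ℝ)) ^ 3 * ((65/64 : ℝ) - r) ^ 7) + (256826809038384469353955328/568969190602379150390625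 : ℝ) * ((r - (0 : ℝ)) ^ 4 * ((65/64 : ℝ) - r) ^ 6) + (11896688313639328201087909888/21810485639757867431640625 : ℝ) * ((r - (0 : ℝ)) ^ 5 * ((65/64 : ℝ) - r) ^ 5) + (5935460392892597476412882944/13086291383854720458984375 : ℝ) * ((r - (0 : ℝ)) ^ 6 * ((65/64 : ℝ) - r) ^ 4) + (3112935233767118810191495168/13086291383854720458984375 : ℝ) * ((r - (0 : ℝ)) ^ 7 * ((65/64 : ℝ) - r) ^ 3) + (826487296348301913054969088/13086291383854720458984375 : ℝ) * ((r - (0 : ℝ)) ^ 8 * ((65/64 : ℝ) - r) ^ 2) + (1784911114586231322163584/623156732564510498046875 : ℝ) * ((r - (0 : ℝ)) ^ 9 * ((65/64 : ℝ) - r) ^ 1) + (3306119392770005618341139/64096121063778222656250000 : ℝ) * ((r - (0 : ℝ)) ^ 10 * ((65/64 : ℝ) - r) ^ 0) := by ring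
    have u : 0 ≤ r - (0 : ℝ) := by linarith
    have v : 0 ≤ (65/64 : ℝ) - r := by linarith
    rw [e]
    positivity
  rcases le_total r (35/32 : ℝ) with h1 | h1
  · have e : (5659839/1610000 : ℝ) * r ^ 0 + (-800/161 : ℝ) * r ^ 1 + (472204079/51842000 : ℝ) * r ^ 2 + (-208300/25921 : ℝ) * r ^ 3 + (630227237/77763000 : ℝ) * r ^ 4 + (-340000/25921 : ℝ) * r ^ 5 + (407867237/77763000 : ℝ) * r ^ 6 + (-377000/77763 : ℝ) * r ^ 7 + (689578237/155526000 : ℝ) * r ^ 8 + (-7750/25921 : ℝ) * r ^ 9 + (2272594211/2332890000 : ℝ) * r ^ 10 = (3306119392770005618341139/464941406250000 : ℝ) * ((r - (65/64 : ℝ)) ^ 0 * ((35/32 : ℝ) - r) ^ 10) + (7518696163125072900063599/162729492187500 : ℝ) * ((r - (65/64 : ℝ)) ^ 1 * ((35/32 : ℝ) - r) ^ 9) + (48688922690738969274270577/379702148437500 : ℝ) * ((r - (65/64 : ℝ)) ^ 2 * ((35/32 : ℝ) - r) ^ 8) + (21500431124012389972185668/94925537109375 : ℝ) * ((r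 - (65/64 : ℝ)) ^ 3 * ((35/32 : ℝ) - r) ^ 7) + (36496647119573749354454794/94925537109375 : ℝ) * ((r - (65/64 : ℝ)) ^ 4 * ((35/32 : ℝ) - r) ^ 6) + (333022199520874934295298664/474627685546875 : ℝ) * ((r - (65/64 : ℝ)) ^ 5 * ((35/32 : ℝ) - r) ^ 5) + (96906473439173649880016744/94925537109375 : ℝ) * ((r - (65/64 : ℝ)) ^ 6 * ((35/32 : ℝ) - r) ^ 4) + (93228106941701915891963968/94925537109375 : ℝ) * ((r - (65/64 : ℝ)) ^ 7 * ((35/32 : ℝ) - r) ^ 3) + (55044415441551186697836688/94925537109375 : ℝ) * ((r - (65/64 : ℝ)) ^ 8 * ((35/32 : ℝ) - r) ^ 2) + (7774180045774378149688256/40682373046875 : ℝ) * ((r - (65/64 : ℝ)) ^ 9 * ((35/32 : ℝ) - r) ^ 1) + (5494010263438004203012928/203411865234375 : ℝ) * ((r - (65/64 : ℝ)) ^ 10 * ((35/32 : ℝ) - r) ^ 0) := by ring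
    have u : 0 ≤ r - (65/64 : ℝ) := by linarith
    have v : 0 ≤ (35/32 : ℝ) - r := by linarith
    rw [e]
    positivity
  rcases le_total r (5/4 : ℝ) with h2 | h2
  · have e : (5659839/1610000 : ℝ) * r ^ 0 + (-800/161 : ℝ) * r ^ 1 + (472204079/51842000 : ℝ) * r ^ 2 + (-208300/25921 : ℝ) * r ^ 3 + (630227237/77763000 : ℝ) * r ^ 4 + (-340000/25921 : ℝ) * r ^ 5 + (407867237/77763000 : ℝ) * r ^ 6 + (-377000/77763 : ℝ) * r ^ 7 + (689578237/155526000 : ℝ) * r ^ 8 + (-7750/25921 : ℝ) * r ^ 9 + (2272594211/2332890000 : ℝ) * r ^ 10 = (85843910366218815672077/3254589843750000 : ℝ) * ((r - (35/32 : ℝ)) ^ 0 * ((5/4 : ℝ) - r) ^ 10) + (17007520985428973553419/40682373046875 : ℝ) * ((r - (35/32 : ℝ)) ^ 1 * ((5/4 : ℝ) - r) ^ 9) + (272459878699624896777412/94925537109375 : ℝ) * ((r - (35/32 : ℝ)) ^ 2 * ((5/4 : ℝ) - r) ^ 8) + (1065256167932325379378432/94925537109375 : ℝ) * ((r - (35/32 : ℝ))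 ^ 3 * ((5/4 : ℝ) - r) ^ 7) + (2639144766210265377798656/94925537109375 : ℝ) * ((r - (35/32 : ℝ)) ^ 4 * ((5/4 : ℝ) - r) ^ 6) + (21767746309910976079732736/474627685546875 : ℝ) * ((r - (35/32 : ℝ)) ^ 5 * ((5/4 : ℝ) - r) ^ 5) + (695260910364102804471808/13560791015625 : ℝ) * ((r - (35/32 : ℝ)) ^ 6 * ((5/4 : ℝ) - r) ^ 4) + (3655479427770433569554432/94925537109375 : ℝ) * ((r - (35/32 : ℝ)) ^ 7 * ((5/4 : ℝ) - r) ^ 3) + (1771265937793728262438912/94925537109375 : ℝ) * ((r - (35/32 : ℝ)) ^ 8 * ((5/4 : ℝ) - r) ^ 2) + (214837327148535768940544/40682373046875 : ℝ) * ((r - (35/32 : ℝ)) ^ 9 * ((5/4 : ℝ) - r) ^ 1) + (19302683913874829213696/29058837890625 : ℝ) * ((r - (35/32 : ℝ)) ^ 10 * ((5/4 : ℝ) - r) ^ 0) := by ring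
    have u : 0 ≤ r - (35/32 : ℝ) := by linarith
    have v : 0 ≤ (5/4 : ℝ) - r := by linarith
    rw [e]
    positivity
  have e : (5659839/1610000 : ℝ) * r ^ 0 + (-800/161 : ℝ) * r ^ 1 + (472204079/51842000 : ℝ) * r ^ 2 + (-208300/25921 : ℝ) * r ^ 3 + (630227237/77763000 : ℝ) * r ^ 4 + (-340000/25921 : ℝ) * r ^ 5 + (407867237/77763000 : ℝ) * r ^ 6 + (-377000/77763 : ℝ) * r ^ 7 + (689578237/155526000 : ℝ) * r ^ 8 + (-7750/25921 : ℝ) * r ^ 9 + (2272594211/2332890000 : ℝ) * r ^ 10 = (287632404474539/49922703360000 : ℝ) * (r - (5/4 : ℝ)) ^ 0 + (5742803619811/75969331200 : ℝ) * (r - (5/4 : ℝ)) ^ 1 + (3706993218005257/10192551936000 : ℝ) * (r - (5/4 : ℝ)) ^ 2 + (53351880403627/63703449600 : ℝ) * (r - (5/4 : ℝ)) ^ 3 + (51909041470411/45502464000 : ℝ) * (r - (5/4 : ℝ)) ^ 4 + (8036896969091/7962931200 : ℝ) * (r - (5/4 : ℝ)) ^ 5 + (12087671812997/19907328000 : ℝ) * (r - (5/4 : ℝ)) ^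 6 + (62456707067/248841600 : ℝ) * (r - (5/4 : ℝ)) ^ 7 + (24729688231/355488000 : ℝ) * (r - (5/4 : ℝ)) ^ 8 + (96382357/8114400 : ℝ) * (r - (5/4 : ℝ)) ^ 9 + (2272594211/2332890000 : ℝ) * (r - (5/4 : ℝ)) ^ 10 := by ring
  have u : 0 ≤ r - (5/4 : ℝ) := by linarith
  rw [e]
  positivity

theorem gn_num6 : Cond 6 (2 / (12075 / 1000)) (1 / 10000) := by
  intro r hr
  have h := gn_num6_pos r hr
  have e : (1 + r ^ 2) ^ 6 - (ww 6 (2 / (12075 / 1000)) (r / 2) ^ 2 + (1 / 10000) * r ^ 2 * (1 + r ^ 2) ^ (6 - 1)) =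
      r ^ 2 * ((5659839/1610000 : ℝ) * r ^ 0 + (-800/161 : ℝ) * r ^ 1 + (472204079/51842000 : ℝ) * r ^ 2 + (-208300/25921 : ℝ) * r ^ 3 + (630227237/77763000 : ℝ) * r ^ 4 + (-340000/25921 : ℝ) * r ^ 5 + (407867237/77763000 : ℝ) * r ^ 6 + (-377000/77763 : ℝ) * r ^ 7 + (689578237/155526000 : ℝ) * r ^ 8 + (-7750/25921 : ℝ) * r ^ 9 + (2272594211/2332890000 : ℝ) * r ^ 10) := by
    unfold ww
    norm_num
    ring
  have h2 := mul_nonneg (sq_nonneg r) h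
  rw [← e] at h2
  linarith

theorem gn_num7_pos (r : ℝ) (hr : 0 ≤ r) : 0 ≤ (57888773/12270000 : ℝ) * r ^ 0 + (-7000/1227 : ℝ) * r ^ 1 + (32724509471/2509215000 : ℝ) * r ^ 2 + (-16241750/1505529 : ℝ) * r ^ 3 + (160734590239/9033174000 : ℝ) * r ^ 4 + (-217532525/9033174 : ℝ) * r ^ 5 + (67996017739/6774880500 : ℝ) * r ^ 6 + (-84402500/4516587 : ℝ) * r ^ 7 + (295568062717/27099522000 : ℝ) * r ^ 8 + (-5818750/1505529 : ℝ) * r ^ 9 + (406404891967/67748805000 : ℝ) * r ^ 10 + (-949375/6022116 : ℝ) * r ^ 11 + (826751047/836405000 : ℝ) * r ^ 12 := by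
  rcases le_total r (65/64 : ℝ) with h0 | h0
  · have e : (57888773/12270000 : ℝ) * r ^ 0 + (-7000/1227 : ℝ) * r ^ 1 + (32724509471/2509215000 : ℝ) * r ^ 2 + (-16241750/1505529 : ℝ) * r ^ 3 + (160734590239/9033174000 : ℝ) * r ^ 4 + (-217532525/9033174 : ℝ) * r ^ 5 + (67996017739/6774880500 : ℝ) * r ^ 6 + (-84402500/4516587 : ℝ) * r ^ 7 + (295568062717/27099522000 : ℝ) * r ^ 8 + (-5818750/1505529 : ℝ) * r ^ 9 + (406404891967/67748805000 : ℝ) * r ^ 10 + (-949375/6022116 : ℝ) * r ^ 11 + (826751047/836405000 : ℝ) * r ^ 12 = (17085750084353080022886514688/4361991950269193572998046875 : ℝ) * ((r - (0 : ℝ)) ^ 0 * ((65/64 : ℝ) - r) ^ 12) + (184045829628392345311438176256/4361991950269193572998046875 : ℝ) * ((r - (0 : ℝ)) ^ 1 * ((65/64 : ℝ) - r) ^ 11) + (128911655769290509020274333057024/594684902553366723785400390625 : ℝ) * ((r - (0 : ℝ)) ^ 2 * ((65/64 : ℝ) - r) ^ 10) + (748724810198902079269718085074944/1070432824596060102813720703125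 : ℝ) * ((r - (0 : ℝ)) ^ 3 * ((65/64 : ℝ) - r) ^ 9) + (5070740352940455938675172255465472/3211298473788180308441162109375 : ℝ) * ((r - (0 : ℝ)) ^ 4 * ((65/64 : ℝ) - r) ^ 8) + (42090069134739135155763713908146176/16056492368940901542205810546875 : ℝ) * ((r - (0 : ℝ)) ^ 5 * ((65/64 : ℝ) - r) ^ 7) + (156652274924586962704446366590959616/48169477106822704626617431640625 : ℝ) * ((r - (0 : ℝ)) ^ 6 * ((65/64 : ℝ) - r) ^ 6) + (47786330396938134539735986157387776/16056492368940901542205810546875 : ℝ) * ((r - (0 : ℝ)) ^ 7 * ((65/64 : ℝ) - r) ^ 5) + (18493860639708247708745626855407616/9633895421364540925323486328125 : ℝ) * ((r - (0 : ℝ)) ^ 8 * ((65/64 : ℝ) - r) ^ 4) + (2541426565898800440226940158738432/3211298473788180308441162109375 : ℝ) * ((r - (0 : ℝ)) ^ 9 * ((65/64 : ℝ) - r) ^ 3) + (7979162029971586428558571414060544/48169477106822704626617431640625 : ℝ) * ((r - (0 : ℝ)) ^ 10 * ((65/64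 : ℝ) - r) ^ 2) + (90792582148299060072251278636336/16056492368940901542205810546875 : ℝ) * ((r - (0 : ℝ)) ^ 11 * ((65/64 : ℝ) - r) ^ 1) + (2893669518834618245712002883583/42817312983842404112548828125000 : ℝ) * ((r - (0 : ℝ)) ^ 12 * ((65/64 : ℝ) - r) ^ 0) := by ring
    have u : 0 ≤ r - (0 : ℝ) := by linarith
    have v : 0 ≤ (65/64 : ℝ) - r := by linarith
    rw [e]
    positivity
  rcases le_total r (35/32 : ℝ) with h1 | h1
  · have e : (57888773/12270000 : ℝ) * r ^ 0 + (-7000/1227 : ℝ) * r ^ 1 + (32724509471/2509215000 : ℝ) * r ^ 2 + (-16241750/1505529 : ℝ) * r ^ 3 + (160734590239/9033174000 : ℝ) * r ^ 4 + (-217532525/9033174 : ℝ) * r ^ 5 + (67996017739/6774880500 : ℝ) * r ^ 6 + (-84402500/4516587 : ℝ) * r ^ 7 + (295568062717/27099522000 : ℝ) * r ^ 8 + (-5818750/1505529 : ℝ) * r ^ 9 + (406404891967/67748805000 : ℝ) * r ^ 10 + (-949375/6022116 : ℝ) * r ^ 11 + (826751047/836405000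 : ℝ) * r ^ 12 = (2893669518834618245712002883583/1837803955078125000 : ℝ) * ((r - (65/64 : ℝ)) ^ 0 * ((35/32 : ℝ) - r) ^ 12) + (7039122887560145339046531002261/689176483154296875 : ℝ) * ((r - (65/64 : ℝ)) ^ 1 * ((35/32 : ℝ) - r) ^ 11) + (48192672100932662751628749401519/2067529449462890625 : ℝ) * ((r - (65/64 : ℝ)) ^ 2 * ((35/32 : ℝ) - r) ^ 10) + (9825752940636424765684040313596/413505889892578125 : ℝ) * ((r - (65/64 : ℝ)) ^ 3 * ((35/32 : ℝ) - r) ^ 9) + (29744373822904284908362508093866/413505889892578125 : ℝ) * ((r - (65/64 : ℝ)) ^ 4 * ((35/32 : ℝ) - r) ^ 8) + (814041715143172598541774361039328/2067529449462890625 : ℝ) * ((r - (65/64 : ℝ)) ^ 5 * ((35/32 : ℝ) - r) ^ 7) + (2288708863659382740587389832432416/2067529449462890625 : ℝ) * ((r - (65/64 : ℝ)) ^ 6 * ((35/32 : ℝ) - r) ^ 6) + (3742167115412171762495704568697728/2067529449462890625 : ℝ) * ((r - (65/64 : ℝ)) ^ 7 * ((35/32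 : ℝ) - r) ^ 5) + (777642902486355162791774373037216/413505889892578125 : ℝ) * ((r - (65/64 : ℝ)) ^ 8 * ((35/32 : ℝ) - r) ^ 4) + (526090120801105541335660592842496/413505889892578125 : ℝ) * ((r - (65/64 : ℝ)) ^ 9 * ((35/32 : ℝ) - r) ^ 3) + (1130332218927700111231009778994944/2067529449462890625 : ℝ) * ((r - (65/64 : ℝ)) ^ 10 * ((35/32 : ℝ) - r) ^ 2) + (31290283252345099868566647667712/229725494384765625 : ℝ) * ((r - (65/64 : ℝ)) ^ 11 * ((35/32 : ℝ) - r) ^ 1) + (383859293269640388233527832064/25525054931640625 : ℝ) * ((r - (65/64 : ℝ)) ^ 12 * ((35/32 : ℝ) - r) ^ 0) := by ring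
    have u : 0 ≤ r - (65/64 : ℝ) := by linarith
    have v : 0 ≤ (35/32 : ℝ) - r := by linarith
    rw [e]
    positivity
  rcases le_total r (5/4 : ℝ) with h2 | h2
  · have e : (57888773/12270000 : ℝ) * r ^ 0 + (-7000/1227 : ℝ) * r ^ 1 + (32724509471/2509215000 : ℝ) * r ^ 2 + (-16241750/1505529 : ℝ) * r ^ 3 + (160734590239/9033174000 : ℝ) * r ^ 4 + (-217532525/9033174 : ℝ) * r ^ 5 + (67996017739/6774880500 : ℝ) * r ^ 6 + (-84402500/4516587 : ℝ) * r ^ 7 + (295568062717/27099522000 : ℝ) * r ^ 8 + (-5818750/1505529 : ℝ) * r ^ 9 + (406404891967/67748805000 : ℝ) * r ^ 10 + (-949375/6022116 : ℝ) * r ^ 11 + (826751047/836405000 : ℝ) * r ^ 12 = (749725182167266383268609047/204200439453125000 : ℝ) * ((r - (35/32 : ℝ)) ^ 0 * ((5/4 : ℝ) - r) ^ 12) + (15085411258465157727180107972/229725494384765625 : ℝ) * ((r - (35/32 : ℝ)) ^ 1 * ((5/4 : ℝ) - r) ^ 11) + (1075172524461252139273293094064/2067529449462890625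 : ℝ) * ((r - (35/32 : ℝ)) ^ 2 * ((5/4 : ℝ) - r) ^ 10) + (1000483301984361731447534187776/413505889892578125 : ℝ) * ((r - (35/32 : ℝ)) ^ 3 * ((5/4 : ℝ) - r) ^ 9) + (3059687004217763221620705450496/413505889892578125 : ℝ) * ((r - (35/32 : ℝ)) ^ 4 * ((5/4 : ℝ) - r) ^ 8) + (32532638807034044538459783200768/2067529449462890625 : ℝ) * ((r - (35/32 : ℝ)) ^ 5 * ((5/4 : ℝ) - r) ^ 7) + (49500568583106440679939675652096/2067529449462890625 : ℝ) * ((r - (35/32 : ℝ)) ^ 6 * ((5/4 : ℝ) - r) ^ 6) + (54456304337959502892114554912768/2067529449462890625 : ℝ) * ((r - (35/32 : ℝ)) ^ 7 * ((5/4 : ℝ) - r) ^ 5) + (8617859140714344270509161578496/413505889892578125 : ℝ) * ((r - (35/32 : ℝ)) ^ 8 * ((5/4 : ℝ) - r) ^ 4) + (4792281488007361270341252939776/413505889892578125 : ℝ) * ((r - (35/32 : ℝ)) ^ 9 * ((5/4 : ℝ) - r) ^ 3) + (8902702572248933120605436248064/2067529449462890625 : ℝ) * ((r - (35/32 : ℝ))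 ^ 10 * ((5/4 : ℝ) - r) ^ 2) + (220764057502086324617815785472/229725494384765625 : ℝ) * ((r - (35/32 : ℝ)) ^ 11 * ((5/4 : ℝ) - r) ^ 1) + (2489468417932870044912451584/25525054931640625 : ℝ) * ((r - (35/32 : ℝ)) ^ 12 * ((5/4 : ℝ) - r) ^ 0) := by ring
    have u : 0 ≤ r - (35/32 : ℝ) := by linarith
    have v : 0 ≤ (5/4 : ℝ) - r := by linarith
    rw [e]
    positivity
  have e : (57888773/12270000 : ℝ) * r ^ 0 + (-7000/1227 : ℝ) * r ^ 1 + (32724509471/2509215000 : ℝ) * r ^ 2 + (-16241750/1505529 : ℝ) * r ^ 3 + (160734590239/9033174000 : ℝ) * r ^ 4 + (-217532525/9033174 : ℝ) * r ^ 5 + (67996017739/6774880500 : ℝ) * r ^ 6 + (-84402500/4516587 : ℝ) * r ^ 7 + (295568062717/27099522000 : ℝ) * r ^ 8 + (-5818750/1505529 : ℝ) * r ^ 9 + (406404891967/67748805000 : ℝ) * r ^ 10 + (-949375/6022116 : ℝ) * r ^ 11 + (826751047/836405000 : ℝ) * r ^ 12 = (289812267051645327/14032547348480000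 : ℝ) * (r - (5/4 : ℝ)) ^ 0 + (447952483172189819/1578661576704000 : ℝ) * (r - (5/4 : ℝ)) ^ 1 + (53012228282021022371/35519885475840000 : ℝ) * (r - (5/4 : ℝ)) ^ 2 + (714001781861965031/177599427379200 : ℝ) * (r - (5/4 : ℝ)) ^ 3 + (5928851449994965781/887997136896000 : ℝ) * (r - (5/4 : ℝ)) ^ 4 + (41682648891044591/5549982105600 : ℝ) * (r - (5/4 : ℝ)) ^ 5 + (83623503430465897/13874955264000 : ℝ) * (r - (5/4 : ℝ)) ^ 6 + (1228283117531051/346873881600 : ℝ) * (r - (5/4 : ℝ)) ^ 7 + (5317413492417101/3468738816000 : ℝ) * (r - (5/4 : ℝ)) ^ 8 + (20912112926411/43359235200 : ℝ) * (r - (5/4 : ℝ)) ^ 9 + (57324026289011/541990440000 : ℝ) * (r - (5/4 : ℝ)) ^ 10 + (22084934519/1505529000 : ℝ) * (r - (5/4 : ℝ)) ^ 11 + (826751047/836405000 : ℝ) * (r - (5/4 : ℝ)) ^ 12 := by ring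
  have u : 0 ≤ r - (5/4 : ℝ) := by linarith
  rw [e]
  positivity

theorem gn_num7 : Cond 7 (2 / (18405 / 1000)) (1 / 10000) := by
  intro r hr
  have h := gn_num7_pos r hr
  have e : (1 + r ^ 2) ^ 7 - (ww 7 (2 / (18405 / 1000)) (r / 2) ^ 2 + (1 / 10000) * r ^ 2 * (1 + r ^ 2) ^ (7 - 1)) =
      r ^ 2 * ((57888773/12270000 : ℝ) * r ^ 0 + (-7000/1227 : ℝ) * r ^ 1 + (32724509471/2509215000 : ℝ) * r ^ 2 + (-16241750/1505529 : ℝ) * r ^ 3 + (160734590239/9033174000 : ℝ) * r ^ 4 + (-217532525/9033174 : ℝ) * r ^ 5 + (67996017739/6774880500 : ℝ) * r ^ 6 + (-84402500/4516587 : ℝ) * r ^ 7 + (295568062717/27099522000 : ℝ) * r ^ 8 + (-5818750/1505529 : ℝ) * r ^ 9 + (406404891967/67748805000 : ℝ) * r ^ 10 + (-949375/6022116 : ℝ) * r ^ 11 + (826751047/836405000 : ℝ) * r ^ 12) := by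
    unfold ww
    norm_num
    ring
  have h2 := mul_nonneg (sq_nonneg r) h
  rw [← e] at h2
  linarith

theorem condG3 : ∃ c > 0, ∀ k, 1 ≤ k → k ≤ 3 → Cond k (2 / (2465 / 1000)) c := by
  refine ⟨1 / 10000, by norm_num, fun k hk1 hk2 => ?_⟩
  interval_cases k
  · exact gn_cond1 (by norm_num)
  · exact gn_cond2 (by norm_num) (by norm_num) (by norm_num)
  · exact gn_mono (by norm_num) (by norm_num) (by norm_num) gn_num3

theorem condG4 : ∃ c > 0, ∀ k, 1 ≤ k → k ≤ 4 → Cond k (2 / (4588 / 1000)) c := by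
  refine ⟨1 / 10000, by norm_num, fun k hk1 hk2 => ?_⟩
  interval_cases k
  · exact gn_cond1 (by norm_num)
  · exact gn_cond2 (by norm_num) (by norm_num) (by norm_num)
  · exact gn_mono (by norm_num) (by norm_num) (by norm_num) gn_num3
  · exact gn_mono (by norm_num) (by norm_num) (by norm_num) gn_num4

theorem condG5 : ∃ c > 0, ∀ k, 1 ≤ k → k ≤ 5 → Cond k (2 / (7658 / 1000)) c := by
  refine ⟨1 / 10000, by norm_num, fun k hk1 hk2 => ?_⟩
  interval_cases k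
  · exact gn_cond1 (by norm_num)
  · exact gn_cond2 (by norm_num) (by norm_num) (by norm_num)
  · exact gn_mono (by norm_num) (by norm_num) (by norm_num) gn_num3
  · exact gn_mono (by norm_num) (by norm_num) (by norm_num) gn_num4
  · exact gn_mono (by norm_num) (by norm_num) (by norm_num) gn_num5

theorem condG6 : ∃ c > 0, ∀ k, 1 ≤ k → k ≤ 6 → Cond k (2 / (12075 / 1000)) c := by
  refine ⟨1 / 10000, by norm_num, fun k hk1 hk2 => ?_⟩
  interval_cases k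
  · exact gn_cond1 (by norm_num)
  · exact gn_cond2 (by norm_num) (by norm_num) (by norm_num)
  · exact gn_mono (by norm_num) (by norm_num) (by norm_num) gn_num3
  · exact gn_mono (by norm_num) (by norm_num) (by norm_num) gn_num4
  · exact gn_mono (by norm_num) (by norm_num) (by norm_num) gn_num5
  · exact gn_mono (by norm_num) (by norm_num) (by norm_num) gn_num6

theorem condG7 : ∃ c > 0, ∀ k, 1 ≤ k → k ≤ 7 → Cond k (2 / (18405 / 1000)) c := by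
  refine ⟨1 / 10000, by norm_num, fun k hk1 hk2 => ?_⟩
  interval_cases k
  · exact gn_cond1 (by norm_num)
  · exact gn_cond2 (by norm_num) (by norm_num) (by norm_num)
  · exact gn_mono (by norm_num) (by norm_num) (by norm_num) gn_num3
  · exact gn_mono (by norm_num) (by norm_num) (by norm_num) gn_num4
  · exact gn_mono (by norm_num) (by norm_num) (by norm_num) gn_num5
  · exact gn_mono (by norm_num) (by norm_num) (by norm_num) gn_num6
  · exact gn_mono (by norm_num) (by norm_num) (by norm_num) gn_num7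

end Pool.Agent.Lib.MP_d38209_co.CR
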