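import Pool.Agent.Lib.MP_d38209_co.CR.Defs
import Pool.Agent.Lib.MP_ec42c8_pr.P06

/-!
# P1 : the probability that a colouring is compatible with a random pairing
-/

set_option autoImplicit false

namespace Pool.Agent.Lib.MP_d38209_co.CR

open Finset
open scoped Classical
open Pool.Agent.HC (Pairing av pr)

lemma p1_none {P : Type} (y : P → Option Bool) (π : Pairing P)
    (h : ∀ p, y (π.1 p) = (y p).map not) (p : P) : y (π.1 p) = none ↔ y p = none := by
  rw [h p]
  cases y p <;> simp

/-- The restriction to the tails. -/
noncomputable def p1_emb {P : Type} (y : P → Option Bool) (π : Pairing P)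
    (h : ∀ p, y (π.1 p) = (y p).map not) :
    {p : P // y p = some true} ↪ {p : P // y p = some false} :=
  ⟨fun p => ⟨π.1 p.1, by rw [h p.1, p.2]; rfl⟩, fun p q hpq => by
    apply Subtype.ext
    exact π.1.injective (congrArg Subtype.val hpq)⟩

theorem p1_count {P : Type} [Fintype P] (r s : ℕ) (hP : Fintype.card P = 2 * r) (y : P → Option Bool)
    (hp : Fintype.card {p : P // y p = some true} = s)
    (hm : Fintype.card {p : P // y p = some false} = s) :
    (Finset.univ.filter (fun π : Pairing P => ∀ p, y (π.1 p) = (y p).map not)).card ≤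
      s.factorial * (2 * (r - s) - 1).doubleFactorial ∧ s ≤ r := by
  have hc : Fintype.card {p : P // y p = some true} + Fintype.card {p : P // y p = some false} +
      Fintype.card {p : P // y p = none} = Fintype.card P := by
    simp only [Fintype.card_subtype]
    rw [← Finset.card_univ (α := P), ← Finset.card_union_of_disjoint, ← Finset.card_union_of_disjoint]
    · congr 1
      ext p
      simp only [mem_union, mem_filter, mem_univ, true_and, iff_true]
      rcases hy : y p with _ | b
      · right; rfl
      · left; cases b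
        · right; rfl
        · left; rfl
    · rw [Finset.disjoint_left]
      intro p
      simp only [mem_union, mem_filter, mem_univ, true_and]
      rintro (h | h) <;> simp [h]
    · rw [Finset.disjoint_left]
      intro p
      simp only [mem_filter, mem_univ, true_and]
      intro h
      simp [h]
  have hn : Fintype.card {p : P // y p = none} = 2 * (r - s) := by omega
  refine ⟨?_, by omega⟩
  have h2 : Fintype.card {π : Pairing P // ∀ p, y (π.1 p) = (y p).map not} ≤
      Fintype.card (({p : P // y p = some true} ↪ {p : P // y p = some false}) ×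
        Pairing {p : P // y p = none}) := by
    refine Fintype.card_le_of_injective (fun π =>
      (p1_emb y π.1 π.2, HC.p06_res (fun p => y p = none) π.1 (fun p => p1_none y π.1 π.2 p))) ?_
    intro π π' h
    apply Subtype.ext
    apply Subtype.ext
    have ha := congrArg Prod.fst h
    have hb := congrArg Prod.snd h
    have h1 : ∀ p, y p = some true → π.1.1 p = π'.1.1 p := by
      intro p hp
      have h3 := congrArg (fun τ : ({p : P // y p = some true} ↪ {p : P // y p = some false}) =>
        ((τ ⟨p, hp⟩ : {p : P // y p = some false}) : P)) ha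
      exact h3
    ext p
    rcases hy : y p with _ | b
    · have h3 := congrArg (fun τ : Pairing {p : P // y p = none} =>
        ((τ.1 ⟨p, hy⟩ : {p : P // y p = none}) : P)) hb
      exact h3
    · cases b
      · have h4 : y (π.1.1 p) = some true := by rw [π.2 p, hy]; rfl
        have h5 := h1 _ h4
        rw [π.1.inv p] at h5
        have h6 := congrArg π'.1.1 h5
        rw [π'.1.inv] at h6
        exact h6.symm
      · exact h1 p hy
  rw [Fintype.card_prod, Fintype.card_embedding_eq, hp, hm, Nat.descFactorial_self] at h2
  rw [← Fintype.card_subtype]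
  refine (le_of_eq (HC.p01_inst _ _ _)).trans (h2.trans (le_of_eq ?_))
  congr 1
  exact (HC.p01_inst _ _ _).trans (HC.P01d (r - s) hn)

lemma p1_df (r s : ℕ) (hs : s ≤ r) : ((2 * r - 1).doubleFactorial : ℝ) =
    (∏ i ∈ range s, ((2 * r : ℝ) - 2 * i - 1)) * ((2 * (r - s) - 1).doubleFactorial : ℝ) := by
  induction s with
  | zero => simp
  | succ s ih =>
    rw [ih (by omega), Finset.prod_range_succ]
    have h1 := HC.p06_df (r - (s + 1))
    have e1 : r - (s + 1) + 1 = r - s := by omega
    rw [e1] at h1
    rw [h1]
    push_cast [Nat.cast_sub hs]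
    ring

section inst

lemma p1_inst {Ω : Type*} (i j : Fintype Ω) (A : Ω → Prop) : @pr Ω i A = @pr Ω j A := by
  rw [Subsingleton.elim i j]

variable {P : Type} [Fintype P] [inst : Fintype (Pairing P)]

lemma p1_gen (r s : ℕ) (hP : Fintype.card P = 2 * r) (y : P → Option Bool)
    (hp : Fintype.card {p : P // y p = some true} = s)
    (hm : Fintype.card {p : P // y p = some false} = s) :
    pr (fun π : Pairing P => ∀ p, y (π.1 p) = (y p).map not) ≤
      (s.factorial : ℝ) / ∏ i ∈ range s, ((2 * r : ℝ) - 2 * i - 1) := by
  obtain ⟨h1, hsr⟩ := p1_count r s hP y hp hm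
  have h3 := HC.P01d r hP
  rw [HC.pr_eq_card]
  have h3' : Fintype.card (Pairing P) = (2 * r - 1).doubleFactorial := (HC.p01_inst _ _ _).trans h3
  rw [h3', p1_df r s hsr]
  have hA : (0 : ℝ) < ∏ i ∈ range s, ((2 * r : ℝ) - 2 * i - 1) := by
    refine Finset.prod_pos fun i hi => ?_
    have hi' : i + 1 ≤ r := by have := Finset.mem_range.1 hi; omega
    have : (i : ℝ) + 1 ≤ r := by exact_mod_cast hi'
    linarith
  have hB : (0 : ℝ) < ((2 * (r - s) - 1).doubleFactorial : ℝ) := by
    exact_mod_cast Nat.doubleFactorial_pos _
  generalize hc : (Finset.card _) = c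
  have h1' : c ≤ s.factorial * (2 * (r - s) - 1).doubleFactorial := by
    rw [← hc]
    refine le_trans (le_of_eq ?_) h1
    congr
    exact Subsingleton.elim _ _
  have h1'' : (c : ℝ) ≤ s.factorial * ((2 * (r - s) - 1).doubleFactorial : ℝ) := by exact_mod_cast h1'
  rw [div_le_div_iff₀ (mul_pos hA hB) hA]
  calc (c : ℝ) * ∏ i ∈ range s, ((2 * r : ℝ) - 2 * i - 1) ≤
      (s.factorial * ((2 * (r - s) - 1).doubleFactorial : ℝ)) *
        ∏ i ∈ range s, ((2 * r : ℝ) - 2 * i - 1) := mul_le_mul_of_nonneg_right h1'' hA.le
    _ = _ := by ring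

end inst

lemma p1_bal {P : Type} [Fintype P] (y : P → Option Bool) (π : Pairing P)
    (h : ∀ p, y (π.1 p) = (y p).map not) :
    (univ.filter fun p => y p = some true).card = (univ.filter fun p => y p = some false).card := by
  refine Finset.card_bij (fun p _ => π.1 p) ?_ ?_ ?_
  · intro p hp
    simp only [mem_filter, mem_univ, true_and] at hp ⊢
    rw [h p, hp]
    rfl
  · intro p _ q _ hpq
    exact π.1.injective hpq
  · intro p hp
    simp only [mem_filter, mem_univ, true_and] at hp
    refine ⟨π.1 p, ?_, π.inv p⟩
    simp only [mem_filter, mem_univ, true_and]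
    rw [h p, hp]
    rfl

/-! P1 (CR/PairCount.lean): a colouring is compatible with a random pairing with probability
`s! / ((N-1)(N-3)...(N-2s+1))` -/
theorem pr_comp {n d s : ℕ} (hs : 2 * s ≤ n * d) (c : Pt n d → Option Bool) (hc : plus c = s) :
    pr (fun π : Pairing (Pt n d) => Comp π.1 c) ≤
      if minus c = s then (s.factorial : ℝ) / ∏ i ∈ range s, ((n * d : ℝ) - 2 * i - 1) else 0 := by
  have hcard : Fintype.card (Pt n d) = n * d := by
    rw [Fintype.card_prod, Fintype.card_fin, Fintype.card_fin]
  split_ifs with hm
  · by_cases hev : Even (n * d)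
    · obtain ⟨r, hr⟩ := hev
      have hr2 : n * d = 2 * r := by omega
      have e1 : (n * d : ℝ) = 2 * r := by exact_mod_cast hr2
      rw [e1]
      have h5 := p1_gen (P := Pt n d) r s (hcard.trans hr2) c ?_ ?_
      · exact h5
      · rw [Fintype.card_subtype]
        rw [← hc]
        rfl
      · rw [Fintype.card_subtype]
        rw [← hm]
        rfl
    · have hE : IsEmpty (Pairing (Pt n d)) := HC.P01e (by rw [hcard]; exact hev)
      have h0 : pr (fun π : Pairing (Pt n d) => Comp π.1 c) = 0 := by
        rw [HC.pr_eq_card]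
        simp
      rw [h0]
      refine div_nonneg (by positivity) (Finset.prod_nonneg fun i hi => ?_)
      have hi' : 2 * i + 1 ≤ n * d := by have := Finset.mem_range.1 hi; omega
      have : (2 * (i : ℝ)) + 1 ≤ (n * d : ℝ) := by exact_mod_cast hi'
      linarith
  · have h1 : ∀ π : Pairing (Pt n d), Comp π.1 c ↔ False := by
      intro π
      refine ⟨fun h => hm ?_, fun h => h.elim⟩
      rw [← hc]
      exact (p1_bal c π h).symm
    rw [HC.pr_congr h1, HC.pr_false]

end Pool.Agent.Lib.MP_d38209_co.CR
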