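import Pool.Agent.Lib.MP_d38209_co.CR.GDefs
import Pool.Agent.Lib.MP_d38209_co.CR.PairCount

/-!
# GP1 : the probability that a colouring is compatible with a random pairing of the points in use
-/

set_option autoImplicit false

namespace Pool.Agent.Lib.MP_d38209_co.CR

open Finset
open scoped Classical
open Pool.Agent.HC (Pairing av pr)

/-- A compatible colouring lives on the points in use. -/
lemma gp1_live {n d : ℕ} {D : Fin n → ℕ} (c : Pt n d → Option Bool) (π : Pairing (Live d D))
    (h : Comp (ext π) c) (p : Pt n d) (hp : c p ≠ none) : (p.2 : ℕ) < D p.1 := by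
  by_contra hd
  have h1 := h p
  rw [ext_dead π hd] at h1
  apply hp
  rcases hc : c p with _ | b
  · rfl
  · rw [hc] at h1
    cases b <;> simp at h1

lemma gp1_comp {n d : ℕ} {D : Fin n → ℕ} (c : Pt n d → Option Bool) (π : Pairing (Live d D))
    (h : Comp (ext π) c) (p : Live d D) : c (π.1 p).1 = (c p.1).map not := by
  rw [← ext_live π p]
  exact h p.1

lemma gp1_card {n d : ℕ} {D : Fin n → ℕ} (c : Pt n d → Option Bool)
    (hc : ∀ p, c p ≠ none → (p.2 : ℕ) < D p.1) (b : Bool) :
    (univ.filter fun p : Live d D => c p.1 = some b).card =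
      (univ.filter fun p : Pt n d => c p = some b).card := by
  refine Finset.card_bij (fun p _ => p.1) ?_ ?_ ?_
  · intro p hp
    simp only [mem_filter, mem_univ, true_and] at hp ⊢
    exact hp
  · intro p _ q _ h
    exact Subtype.ext h
  · intro p hp
    simp only [mem_filter, mem_univ, true_and] at hp
    refine ⟨⟨p, hc p (by rw [hp]; exact Option.some_ne_none b)⟩, ?_, rfl⟩
    simp only [mem_filter, mem_univ, true_and]
    exact hp

lemma gp1_bal {n d : ℕ} {D : Fin n → ℕ} (c : Pt n d → Option Bool) (π : Pairing (Live d D))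
    (h : Comp (ext π) c) : plus c = minus c := by
  have h1 := p1_bal (fun p : Live d D => c p.1) π (gp1_comp c π h)
  have e1 := gp1_card (D := D) c (gp1_live c π h) true
  have e2 := gp1_card (D := D) c (gp1_live c π h) false
  unfold plus minus
  rw [← e1, ← e2]
  exact h1

/-! GP1 (CR/GPairCount.lean) -/
theorem pr_compG {n d s : ℕ} {D : Fin n → ℕ} (hD : ∀ v, D v ≤ d) (hs : 2 * s ≤ ∑ v, D v)
    (c : Pt n d → Option Bool) (hc : plus c = s) :
    pr (fun π : Pairing (Live d D) => Comp (ext π) c) ≤
      if minus c = s ∧ ∀ p, c p ≠ none → (p.2 : ℕ) < D p.1 then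
        (s.factorial : ℝ) / ∏ i ∈ range s, ((∑ v, (D v : ℝ)) - 2 * i - 1) else 0 := by
  have hcard := card_live (n := n) (d := d) hD
  split_ifs with hm
  · by_cases hev : Even (∑ v, D v)
    · obtain ⟨r, hr⟩ := hev
      have hr2 : ∑ v, D v = 2 * r := by omega
      have e1 : (∑ v, (D v : ℝ)) = 2 * r := by exact_mod_cast hr2
      rw [e1]
      have h5 := p1_gen (P := Live d D) r s (hcard.trans hr2) (fun p => c p.1) ?_ ?_
      · exact (HC.pr_mono fun π h p => gp1_comp c π h p).trans h5
      · rw [Fintype.card_subtype]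
        rw [← hc]
        exact gp1_card c hm.2 true
      · rw [Fintype.card_subtype]
        rw [← hm.1]
        exact gp1_card c hm.2 false
    · have hE : IsEmpty (Pairing (Live d D)) := HC.P01e (by rw [hcard]; exact hev)
      have h0 : pr (fun π : Pairing (Live d D) => Comp (ext π) c) = 0 := by
        rw [HC.pr_eq_card]
        simp
      rw [h0]
      refine div_nonneg (by positivity) (Finset.prod_nonneg fun i hi => ?_)
      have hi' : 2 * i + 1 ≤ ∑ v, D v := by have := Finset.mem_range.1 hi; omega
      have : (2 * (i : ℝ)) + 1 ≤ (∑ v, (D v : ℝ)) := by exact_mod_cast hi'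
      linarith
  · have h1 : ∀ π : Pairing (Live d D), Comp (ext π) c ↔ False := by
      intro π
      refine ⟨fun h => hm ⟨?_, gp1_live c π h⟩, fun h => h.elim⟩
      rw [← hc]
      exact (gp1_bal c π h).symm
    rw [HC.pr_congr h1, HC.pr_false]

end Pool.Agent.Lib.MP_d38209_co.CR
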