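import Pool.Agent.Lib.MP_d38209_co.CR.GDefs

set_option autoImplicit false

/-!
# Chromatic roots of almost all graphs of bounded degree, version M: definitions

`r = 2 k`.  The orientations are replaced by labellings with the labels `(b, a)`, `b` a sign and
`a < k`; the label `(b, a)` stands for the element `± a` of `ZMod (2 k - 1)`.  A labelling of the two
ends of each edge of a set by opposite labels is admissible if at every vertex the sum of the values
is `0`, and there is a label `(b, a)` with `a ≠ 0` or there are both signs.  (The values form a flow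
modulo `2 k - 1`, and the edges of value `0` are oriented.)  For `k = 1` this is an orientation
without source and sink.  `tt (2 k)` is the value `T(0, 2 k)` of the Tutte polynomial.
-/

namespace Pool.Agent.Lib.MP_d38209_co.CR

open Finset
open scoped Classical

section Flow

variable {V : Type}

/-- The value at `(0, r)` of the Tutte polynomial of the list of edges `L` after the identifications
`f`. -/
noncomputable def tt (r : ℕ) : (V → V) → List (V × V) → ℕ
  | _, [] => 1
  | f, e :: L => if f e.1 = f e.2 then r * tt r f L
      else if ∀ S : Set V, Sep f L S → (e.1 ∈ S ↔ e.2 ∈ S) then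
        tt r (merge f e.1 e.2) L + tt r f L
      else 0

end Flow

/-- The labels: a sign and a number less than `k`. -/
abbrev Lab (k : ℕ) : Type := Bool × Fin k

section Labels

variable {k : ℕ}

/-- The opposite label. -/
def linv (l : Lab k) : Lab k := (!l.1, l.2)

/-- The value of a label. -/
def lval (l : Lab k) : ZMod (2 * k - 1) :=
  if l.1 = true then ((l.2 : ℕ) : ZMod (2 * k - 1)) else -((l.2 : ℕ) : ZMod (2 * k - 1))

/-- The labels at one vertex are admissible. -/
def okm (M : Multiset (Lab k)) : Prop :=
  (M.map lval).sum = 0 ∧
    ((∃ l ∈ M, (l.2 : ℕ) ≠ 0) ∨ ((∃ l ∈ M, l.1 = true) ∧ ∃ l ∈ M, l.1 = false))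

/-- The weighted number of the admissible families of `j` labels. -/
noncomputable def VV (u : Lab k → ℝ) (j : ℕ) : ℝ :=
  ∑ ρ : Fin j → Lab k, if okm (univ.val.map ρ) then ∏ i, u (ρ i) else 0

/-- The labels at the class of `v`. -/
noncomputable def mu {V : Type} (f : V → V) (L : List (V × V)) (c : Fin L.length → Lab k) (v : V) :
    Multiset (Lab k) :=
  ∑ i, ((if f (L.get i).1 = v then {c i} else 0) + (if f (L.get i).2 = v then {linv (c i)} else 0))

/-- The number of the admissible labellings of the list `L` after the identifications `f`. -/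
noncomputable def zz (k : ℕ) {V : Type} (f : V → V) (L : List (V × V)) : ℕ :=
  (univ.filter fun c : Fin L.length → Lab k => ∀ v, mu f L c v ≠ 0 → okm (mu f L c v)).card

/-- The weight of a label or of no label. -/
def uo (u : Lab k → ℝ) : Option (Lab k) → ℝ
  | none => 1
  | some l => u l

end Labels

section Points

variable {n d k : ℕ}

/-- The labelling `c` of the points (`none`: not in the set) is a labelling of a set of edges. -/
def CompM (σ : Pt n d → Pt n d) (c : Pt n d → Option (Lab k)) : Prop :=
  ∀ p, c (σ p) = (c p).map linv

/-- The labels at the vertex `v`. -/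
noncomputable def row (c : Pt n d → Option (Lab k)) (v : Fin n) : Multiset (Lab k) :=
  (univ : Finset (Fin d)).val.filterMap fun i => c (v, i)

/-- The labels at every vertex are admissible. -/
def ValidM (c : Pt n d → Option (Lab k)) : Prop := ∀ v, row c v ≠ 0 → okm (row c v)

/-- The number of the points with the sign `b` and the number `a`. -/
noncomputable def cntM (c : Pt n d → Option (Lab k)) (b : Bool) (a : Fin k) : ℕ :=
  (univ.filter fun p => c p = some (b, a)).card

/-- The number of the points with the sign `b`. -/
noncomputable def sgnM (c : Pt n d → Option (Lab k)) (b : Bool) : ℕ :=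
  (univ.filter fun p => ∃ a, c p = some (b, a)).card

/-- The number of vertices of the labelled set of edges. -/
noncomputable def tchM (c : Pt n d → Option (Lab k)) : ℕ :=
  (univ.filter fun v : Fin n => ∃ i, c (v, i) ≠ none).card

/-- The set of edges that is labelled by `c`. -/
noncomputable def suppM (σ : Pt n d → Pt n d) (c : Pt n d → Option (Lab k)) : Finset (Pt n d) :=
  (ES σ).filter fun p => c p ≠ none

/-- The number of admissible labellings of `A`. -/
noncomputable def NSM (k : ℕ) (σ : Pt n d → Pt n d) (A : Finset (Pt n d)) : ℕ :=
  (univ.filter fun c : Pt n d → Option (Lab k) => CompM σ c ∧ ValidM c ∧ suppM σ c = A).card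

/-- The weighted number of the admissible labellings of sets of `s` edges. -/
noncomputable def YM (k : ℕ) (σ : Pt n d → Pt n d) (x : ℝ) (s : ℕ) : ℝ :=
  ∑ c ∈ univ.filter (fun c : Pt n d → Option (Lab k) => CompM σ c ∧ ValidM c ∧ sgnM c true = s),
    (1 / (2 * k)) ^ s * x ^ tchM c

/-- The function of one vertex of degree `D`. -/
noncomputable def wwM (k D : ℕ) (x t : ℝ) : ℝ :=
  1 + x * (((1 + 2 * t) ^ D - 2 * k * (1 + t / k) ^ D) / (2 * k - 1) + 1)

/-- The condition on the degree `D` and `x`. -/
def CondM (k D : ℕ) (x c : ℝ) : Prop :=
  ∀ r : ℝ, 0 ≤ r → wwM k D x (r / 2) ^ 2 + c * r ^ 2 * (1 + r ^ 2) ^ (D - 1) ≤ (1 + r ^ 2) ^ D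

end Points

end Pool.Agent.Lib.MP_d38209_co.CR
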