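import Mathlib
import Pool.Agent.Lib.MP_d38209_co.CR.MDefs
import Pool.Agent.Lib.MP_d38209_co.CR.Fibres

set_option autoImplicit false

/-!
# The weighted number of labellings as a sum over the sets of edges
-/

namespace Pool.Agent.Lib.MP_d38209_co.CR

open Finset
open scoped Classical

section Points
variable {n d k : ℕ}

theorem mf_linv_ne (l : Lab k) : linv l ≠ l := by
  intro h
  have h1 : (!l.1) = l.1 := congrArg Prod.fst h
  cases hb : l.1
  · rw [hb] at h1
    exact absurd h1 (by decide)
  · rw [hb] at h1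
    exact absurd h1 (by decide)

theorem mf_live {σ : Pt n d → Pt n d} {c : Pt n d → Option (Lab k)} (hc : CompM σ c)
    {p : Pt n d} (h : c p ≠ none) : σ p ≠ p := by
  intro hp
  have h1 := hc p
  rw [hp] at h1
  cases h2 : c p with
  | none => exact h h2
  | some l =>
    rw [h2, Option.map_some] at h1
    exact mf_linv_ne l (Option.some.inj h1).symm

theorem mf_mem_supp {σ : Pt n d → Pt n d} {c : Pt n d → Option (Lab k)} {p : Pt n d} :
    p ∈ suppM σ c ↔ p ∈ ES σ ∧ c p ≠ none := by
  rw [suppM, Finset.mem_filter]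

theorem mf_ne_none {σ : Pt n d → Pt n d} {c : Pt n d → Option (Lab k)} (hc : CompM σ c)
    {p : Pt n d} (h : c p ≠ none) : c (σ p) ≠ none := by
  rw [hc p]
  cases hp : c p with
  | none => exact absurd hp h
  | some b => simp

theorem mf_rep_supp {σ : Pt n d → Pt n d} (hσ : WGood σ) {c : Pt n d → Option (Lab k)}
    (hc : CompM σ c) {p : Pt n d} (h : c p ≠ none) : c4_rep σ p ∈ suppM σ c := by
  rw [mf_mem_supp]
  refine ⟨c4_rep_mem hσ (mf_live hc h), ?_⟩
  rw [c4_rep]
  split_ifs with h'
  · exact h
  · exact mf_ne_none hc h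

theorem mf_vt_supp {σ : Pt n d → Pt n d} (hσ : WGood σ) {c : Pt n d → Option (Lab k)}
    (hc : CompM σ c) {v : Fin n} : v ∈ vt σ (suppM σ c) ↔ ∃ i, c (v, i) ≠ none := by
  rw [c4_mem_vt]
  constructor
  · rintro ⟨p, hp, hv⟩
    obtain ⟨-, hp0⟩ := mf_mem_supp.mp hp
    rcases hv with hv | hv
    · exact ⟨p.2, by rw [← hv]; exact hp0⟩
    · refine ⟨(σ p).2, ?_⟩
      rw [← hv]
      exact mf_ne_none hc hp0
  · rintro ⟨i, hi⟩
    exact ⟨c4_rep σ (v, i), mf_rep_supp hσ hc hi, c4_rep_inc hσ (v, i)⟩

/-- the point has a label with the sign `b` -/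
def mf_has (c : Pt n d → Option (Lab k)) (b : Bool) (p : Pt n d) : Prop := ∃ a, c p = some (b, a)

theorem mf_has_swap {σ : Pt n d → Pt n d} {c : Pt n d → Option (Lab k)} (hc : CompM σ c)
    {b : Bool} {p : Pt n d} (h : mf_has c b p) : mf_has c (!b) (σ p) := by
  obtain ⟨a, ha⟩ := h
  refine ⟨a, ?_⟩
  rw [hc p, ha]
  rfl

theorem mf_plus {σ : Pt n d → Pt n d} (hσ : WGood σ) {c : Pt n d → Option (Lab k)}
    (hc : CompM σ c) : sgnM c true = (suppM σ c).card := by
  have h1 : (suppM σ c).card = ((ES σ).filter fun p => mf_has c true p).card +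
      ((ES σ).filter fun p => mf_has c false p).card := by
    rw [suppM, ← Finset.card_union_of_disjoint]
    · congr 1
      ext p
      rw [Finset.mem_union, Finset.mem_filter, Finset.mem_filter, Finset.mem_filter]
      constructor
      · rintro ⟨h2, h3⟩
        cases hp : c p with
        | none => exact absurd hp h3
        | some l =>
          obtain ⟨b, a⟩ := l
          cases b
          · exact Or.inr ⟨h2, a, hp⟩
          · exact Or.inl ⟨h2, a, hp⟩
      · rintro (⟨h2, a, h3⟩ | ⟨h2, a, h3⟩)
        · exact ⟨h2, by rw [h3]; exact Option.some_ne_none _⟩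
        · exact ⟨h2, by rw [h3]; exact Option.some_ne_none _⟩
    · rw [Finset.disjoint_left]
      intro p hp hp'
      rw [Finset.mem_filter] at hp hp'
      obtain ⟨a, ha⟩ := hp.2
      obtain ⟨a', ha'⟩ := hp'.2
      rw [ha] at ha'
      have h2 := Option.some.inj ha'
      have h3 : true = false := congrArg Prod.fst h2
      exact absurd h3 (by decide)
  have h2 : sgnM c true = ((ES σ).filter fun p => mf_has c true p).card +
      ((univ.filter fun p => mf_has c true p).filter fun p => p ∉ ES σ).card := by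
    rw [sgnM, ← Finset.card_union_of_disjoint]
    · congr 1
      ext p
      simp only [Finset.mem_union, Finset.mem_filter, Finset.mem_univ, true_and]
      constructor
      · intro h
        by_cases hp : p ∈ ES σ
        · exact Or.inl ⟨hp, h⟩
        · exact Or.inr ⟨h, hp⟩
      · rintro (h | h)
        · exact h.2
        · exact h.1
    · rw [Finset.disjoint_left]
      intro p hp hp'
      rw [Finset.mem_filter] at hp hp'
      exact hp'.2 hp.1
  have h3 : ((ES σ).filter fun p => mf_has c false p).card =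
      ((univ.filter fun p => mf_has c true p).filter fun p => p ∉ ES σ).card := by
    apply Finset.card_nbij' (fun p => σ p) (fun p => σ p)
    · intro p hp
      simp only [Finset.coe_filter, Set.mem_ofPred_eq, Finset.mem_filter, Finset.mem_univ,
        true_and] at hp ⊢
      exact ⟨mf_has_swap hc hp.2, c4_not_ES hσ hp.1⟩
    · intro p hp
      simp only [Finset.coe_filter, Set.mem_ofPred_eq, Finset.mem_filter, Finset.mem_univ,
        true_and] at hp ⊢
      refine ⟨c4_ES_or hσ (mf_live hc ?_) hp.2, mf_has_swap hc hp.1⟩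
      obtain ⟨a, ha⟩ := hp.1
      rw [ha]
      exact Option.some_ne_none _
    · intro p _
      exact hσ.inv p
    · intro p _
      exact hσ.inv p
  omega

theorem mf_tch {σ : Pt n d → Pt n d} (hσ : WGood σ) {c : Pt n d → Option (Lab k)}
    (hc : CompM σ c) : tchM c = (vt σ (suppM σ c)).card := by
  rw [tchM]
  congr 1
  ext v
  rw [mf_vt_supp hσ hc, Finset.mem_filter]
  simp

/-- `YM` is the sum over the sets of edges -/
theorem YM_eq {n d k : ℕ} {σ : Pt n d → Pt n d} (hσ : WGood σ) (x : ℝ) (s : ℕ) :
    YM k σ x s = ∑ A ∈ (ES σ).powerset.filter (fun A => A.card = s),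
      (NSM k σ A : ℝ) * ((1 / (2 * k)) ^ A.card * x ^ (vt σ A).card) := by
  rw [YM, ← Finset.sum_fiberwise_of_maps_to (s := univ.filter
      (fun c : Pt n d → Option (Lab k) => CompM σ c ∧ ValidM c ∧ sgnM c true = s))
    (g := fun c => suppM σ c) (t := (ES σ).powerset.filter (fun A => A.card = s))]
  · apply Finset.sum_congr rfl
    intro A hA
    rw [Finset.mem_filter, Finset.mem_powerset] at hA
    have h1 : ((univ.filter (fun c : Pt n d → Option (Lab k) =>
        CompM σ c ∧ ValidM c ∧ sgnM c true = s)).filter fun c => suppM σ c = A) =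
        univ.filter (fun c : Pt n d → Option (Lab k) =>
          CompM σ c ∧ ValidM c ∧ suppM σ c = A) := by
      ext c
      simp only [Finset.mem_filter, Finset.mem_univ, true_and]
      constructor
      · rintro ⟨⟨h1, h2, -⟩, h4⟩
        exact ⟨h1, h2, h4⟩
      · rintro ⟨h1, h2, h4⟩
        exact ⟨⟨h1, h2, by rw [mf_plus hσ h1, h4, hA.2]⟩, h4⟩
    rw [h1, NSM, ← nsmul_eq_mul, ← Finset.sum_const]
    apply Finset.sum_congr rfl
    intro c hc
    simp only [Finset.mem_filter, Finset.mem_univ, true_and] at hc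
    rw [mf_tch hσ hc.1, hc.2.2, hA.2]
  · intro c hc
    simp only [Finset.mem_filter, Finset.mem_univ, true_and] at hc
    rw [Finset.mem_filter, Finset.mem_powerset]
    exact ⟨Finset.filter_subset _ _, by rw [← mf_plus hσ hc.1, hc.2.2]⟩

end Points

end Pool.Agent.Lib.MP_d38209_co.CR
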