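import Pool.Agent.Lib.MP_d38209_co.CR.MOk

set_option autoImplicit false

/-!
# `T(0, 2k)` is at most the number of admissible labellings of the list of edges
-/

namespace Pool.Agent.Lib.MP_d38209_co.CR

open Finset
open scoped Classical

variable {V : Type} {k : ℕ}

/-- `c` is an admissible labelling of the list. -/
def Adm (f : V → V) (L : List (V × V)) (c : Fin L.length → Lab k) : Prop :=
  ∀ v, mu f L c v ≠ 0 → okm (mu f L c v)

theorem mu_cons (f : V → V) (e : V × V) (L : List (V × V)) (x : Lab k)
    (c : Fin L.length → Lab k) (v : V) :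
    mu f (e :: L) (Fin.cons x c) v =
      ((if f e.1 = v then {x} else 0) + (if f e.2 = v then {linv x} else 0)) + mu f L c v := by
  unfold mu
  rw [show (∑ i : Fin (e :: L).length, _ : Multiset (Lab k)) = _ from Fin.sum_univ_succ _]
  simp

theorem zz_eq (f : V → V) (L : List (V × V)) :
    zz k f L = (univ.filter fun c : Fin L.length → Lab k => Adm f L c).card := rfl

theorem zz_cons (f : V → V) (e : V × V) (L : List (V × V)) :
    zz k f (e :: L) = ∑ c : Fin L.length → Lab k,
      (univ.filter fun x : Lab k => Adm f (e :: L) (Fin.cons x c)).card := by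
  have h : ∀ c : Fin L.length → Lab k,
      (univ.filter fun x : Lab k => Adm f (e :: L) (Fin.cons x c)).card =
        ∑ x : Lab k, if Adm f (e :: L) (Fin.cons x c) then 1 else 0 := by
    intro c
    rw [Finset.card_filter]
  rw [Finset.sum_congr rfl fun c _ => h c, Finset.sum_comm, zz_eq, Finset.card_filter]
  rw [← Finset.sum_product' univ univ
    (fun (x : Lab k) (c : Fin L.length → Lab k) =>
      if Adm f (e :: L) (Fin.cons x c) then 1 else 0)]
  exact (Fintype.sum_equiv (Fin.consEquiv fun _ => Lab k)
    (fun p : Lab k × (Fin L.length → Lab k) =>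
      if Adm f (e :: L) (Fin.cons p.1 p.2) then 1 else 0)
    (fun c : Fin (e :: L).length → Lab k => if Adm f (e :: L) c then 1 else 0)
    fun p => rfl).symm

theorem mu_eq_zero {f : V → V} {L : List (V × V)} {c : Fin L.length → Lab k} {v : V}
    (h : mu f L c v = 0) (e : V × V) (he : e ∈ L) : f e.1 ≠ v ∧ f e.2 ≠ v := by
  obtain ⟨i, rfl⟩ := List.get_of_mem he
  have h1 := (Finset.sum_eq_zero_iff.1 h) i (Finset.mem_univ i)
  rw [add_eq_zero] at h1
  constructor
  · intro hv
    have := h1.1
    rw [if_pos hv] at this
    exact Multiset.singleton_ne_zero _ this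
  · intro hv
    have := h1.2
    rw [if_pos hv] at this
    exact Multiset.singleton_ne_zero _ this

theorem mu_ne_zero {f : V → V} {e : V × V} {L : List (V × V)} (hl : f e.1 ≠ f e.2)
    (hb : ∀ S : Set V, Sep f L S → (e.1 ∈ S ↔ e.2 ∈ S)) (c : Fin L.length → Lab k) :
    mu f L c (f e.1) ≠ 0 ∧ mu f L c (f e.2) ≠ 0 := by
  constructor
  · intro h
    have := (hb {x | f x = f e.1} ⟨fun x y hxy => by simp [hxy], fun e' he' => by
      have := mu_eq_zero h e' he'
      simp [this.1, this.2]⟩).1 rfl
    exact hl this.symm
  · intro h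
    have := (hb {x | f x = f e.2} ⟨fun x y hxy => by simp [hxy], fun e' he' => by
      have := mu_eq_zero h e' he'
      simp [this.1, this.2]⟩).2 rfl
    exact hl this

theorem mu_merge_other {f : V → V} {a b v : V} {L : List (V × V)} (c : Fin L.length → Lab k)
    (ha : v ≠ f a) (hb : v ≠ f b) : mu (merge f a b) L c v = mu f L c v := by
  have key : ∀ y, (merge f a b y = v) = (f y = v) := by
    intro y
    unfold merge
    by_cases h : f y = f b
    · rw [if_pos h, h]
      exact propext ⟨fun h' => absurd h'.symm ha, fun h' => absurd h'.symm hb⟩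
    · rw [if_neg h]
  unfold mu
  refine Finset.sum_congr rfl fun i _ => ?_
  rw [if_congr (Iff.of_eq (key _)) rfl rfl, if_congr (Iff.of_eq (key _)) rfl rfl]

theorem mu_merge_right {f : V → V} {a b : V} {L : List (V × V)} (c : Fin L.length → Lab k)
    (hl : f a ≠ f b) : mu (merge f a b) L c (f b) = 0 := by
  have key : ∀ y, ¬ (merge f a b y = f b) := by
    intro y
    unfold merge
    by_cases h : f y = f b
    · rw [if_pos h]; exact hl
    · rw [if_neg h]; exact h
  unfold mu
  refine Finset.sum_eq_zero fun i _ => ?_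
  rw [if_neg (key _), if_neg (key _), add_zero]

theorem mu_merge_left {f : V → V} {a b : V} {L : List (V × V)} (c : Fin L.length → Lab k)
    (hl : f a ≠ f b) : mu (merge f a b) L c (f a) = mu f L c (f a) + mu f L c (f b) := by
  have key : ∀ y (z : Multiset (Lab k)), (if merge f a b y = f a then z else 0) =
      (if f y = f a then z else 0) + (if f y = f b then z else 0) := by
    intro y z
    unfold merge
    by_cases h : f y = f b
    · have h' : f y ≠ f a := fun h' => hl (h' ▸ h)
      rw [if_pos h, if_pos rfl, if_neg h', zero_add, if_pos h]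
    · rw [if_neg h, if_neg h, add_zero]
  unfold mu
  rw [← Finset.sum_add_distrib]
  refine Finset.sum_congr rfl fun i _ => ?_
  rw [key, key]
  abel

theorem adm_cons_loop {f : V → V} {e : V × V} {L : List (V × V)} (hl : f e.1 = f e.2)
    {c : Fin L.length → Lab k} (h : Adm f L c) (x : Lab k) :
    Adm f (e :: L) (Fin.cons x c) := by
  intro v hv
  rw [mu_cons] at hv ⊢
  by_cases h1 : f e.1 = v
  · have h2 : f e.2 = v := hl ▸ h1
    rw [if_pos h1, if_pos h2]
    have := ok_loop (mu f L c v) (h v) x
    rw [add_assoc, Multiset.singleton_add, Multiset.singleton_add]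
    exact this
  · have h2 : ¬ f e.2 = v := hl ▸ h1
    rw [if_neg h1, if_neg h2, add_zero, zero_add] at hv ⊢
    exact h v hv

theorem card_cons {f : V → V} {e : V × V} {L : List (V × V)} (hl : f e.1 ≠ f e.2)
    (hb : ∀ S : Set V, Sep f L S → (e.1 ∈ S ↔ e.2 ∈ S)) (c : Fin L.length → Lab k) :
    (univ.filter fun x : Lab k => Adm f (e :: L) (Fin.cons x c)).card =
      (if Adm (merge f e.1 e.2) L c then 1 else 0) + (if Adm f L c then 1 else 0) := by
  obtain ⟨hI, hJ⟩ := mu_ne_zero hl hb c
  set I := mu f L c (f e.1) with hIdef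
  set J := mu f L c (f e.2) with hJdef
  let R : Prop := ∀ v, v ≠ f e.1 → v ≠ f e.2 → mu f L c v ≠ 0 → okm (mu f L c v)
  have h1 : ∀ x, Adm f (e :: L) (Fin.cons x c) ↔
      R ∧ (okm (x ::ₘ I) ∧ okm (linv x ::ₘ J)) := by
    intro x
    constructor
    · intro h
      refine ⟨fun v hv1 hv2 hv3 => ?_, ?_, ?_⟩
      · have := h v
        rw [mu_cons, if_neg (Ne.symm hv1), if_neg (Ne.symm hv2), add_zero, zero_add] at this
        exact this hv3
      · have := h (f e.1)
        rw [mu_cons, if_pos rfl, if_neg (Ne.symm hl), add_zero, Multiset.singleton_add] at this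
        exact this (Multiset.cons_ne_zero)
      · have := h (f e.2)
        rw [mu_cons, if_neg hl, if_pos rfl, zero_add, Multiset.singleton_add] at this
        exact this (Multiset.cons_ne_zero)
    · rintro ⟨hR, ha, hb'⟩ v hv
      rw [mu_cons] at hv ⊢
      by_cases hv1 : f e.1 = v
      · subst hv1
        rw [if_pos rfl, if_neg (Ne.symm hl), add_zero, Multiset.singleton_add]
        exact ha
      · by_cases hv2 : f e.2 = v
        · subst hv2
          rw [if_neg hl, if_pos rfl, zero_add, Multiset.singleton_add]
          exact hb'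
        · rw [if_neg hv1, if_neg hv2, add_zero, zero_add] at hv ⊢
          exact hR v (Ne.symm hv1) (Ne.symm hv2) hv
  have h2 : Adm f L c ↔ R ∧ (okm I ∧ okm J) := by
    constructor
    · intro h
      exact ⟨fun v _ _ hv => h v hv, h _ hI, h _ hJ⟩
    · rintro ⟨hR, ha, hb'⟩ v hv
      by_cases hv1 : v = f e.1
      · subst hv1; exact ha
      · by_cases hv2 : v = f e.2
        · subst hv2; exact hb'
        · exact hR v hv1 hv2 hv
  have h3 : Adm (merge f e.1 e.2) L c ↔ R ∧ okm (I + J) := by
    constructor
    · intro h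
      refine ⟨fun v hv1 hv2 hv => ?_, ?_⟩
      · have := h v
        rw [mu_merge_other c hv1 hv2] at this
        exact this hv
      · have := h (f e.1)
        rw [mu_merge_left c hl] at this
        refine this fun h0 => hI ?_
        rw [add_eq_zero] at h0
        exact h0.1
    · rintro ⟨hR, ha⟩ v hv
      by_cases hv1 : v = f e.1
      · subst hv1
        rw [mu_merge_left c hl]
        exact ha
      · by_cases hv2 : v = f e.2
        · subst hv2
          rw [mu_merge_right c hl] at hv
          exact absurd rfl hv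
        · rw [mu_merge_other c hv1 hv2] at hv ⊢
          exact hR v hv1 hv2 hv
  by_cases hR : R
  · have h4 : (univ.filter fun x : Lab k => Adm f (e :: L) (Fin.cons x c)) =
        univ.filter fun x : Lab k => okm (x ::ₘ I) ∧ okm (linv x ::ₘ J) := by
      refine Finset.filter_congr fun x _ => ?_
      rw [h1]
      exact ⟨fun h => h.2, fun h => ⟨hR, h⟩⟩
    rw [h4, ok_card I J hI hJ]
    have h5 : (if Adm (merge f e.1 e.2) L c then 1 else 0 : ℕ) = if okm (I + J) then 1 else 0 :=
      if_congr (h3.trans ⟨fun h => h.2, fun h => ⟨hR, h⟩⟩) rfl rfl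
    have h6 : (if Adm f L c then 1 else 0 : ℕ) = if okm I ∧ okm J then 1 else 0 :=
      if_congr (h2.trans ⟨fun h => h.2, fun h => ⟨hR, h⟩⟩) rfl rfl
    rw [h5, h6]
  · have h4 : (univ.filter fun x : Lab k => Adm f (e :: L) (Fin.cons x c)) = ∅ := by
      refine Finset.filter_eq_empty_iff.2 fun x _ h => hR ((h1 x).1 h).1
    rw [h4, Finset.card_empty, if_neg (fun h => hR (h3.1 h).1), if_neg (fun h => hR (h2.1 h).1)]

theorem tt_le_zz {V : Type} {k : ℕ} (L : List (V × V)) (f : V → V) :
    tt (2 * k) f L ≤ zz k f L := by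
  induction L generalizing f with
  | nil =>
    have h : (univ.filter fun c : Fin ([] : List (V × V)).length → Lab k => Adm f [] c) =
        univ := by
      refine Finset.filter_true_of_mem fun c _ v hv => ?_
      exact absurd (Finset.sum_eq_zero fun i _ => i.elim0) hv
    rw [zz_eq, h]
    have : Fintype.card (Fin ([] : List (V × V)).length → Lab k) = 1 := by
      rw [Fintype.card_fun]
      simp
    rw [Finset.card_univ, this]
    simp [tt]
  | cons e L ih =>
    rw [zz_cons]
    by_cases hl : f e.1 = f e.2
    · have h1 : tt (2 * k) f (e :: L) = 2 * k * tt (2 * k) f L := by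
        rw [tt, if_pos hl]
      rw [h1]
      calc 2 * k * tt (2 * k) f L ≤ 2 * k * zz k f L := Nat.mul_le_mul_left _ (ih f)
        _ = ∑ c ∈ univ.filter (fun c : Fin L.length → Lab k => Adm f L c), 2 * k := by
          rw [Finset.sum_const, zz_eq, smul_eq_mul, mul_comm]
        _ ≤ ∑ c ∈ univ.filter (fun c : Fin L.length → Lab k => Adm f L c),
            (univ.filter fun x : Lab k => Adm f (e :: L) (Fin.cons x c)).card := by
          refine Finset.sum_le_sum fun c hc => ?_
          have h2 : (univ.filter fun x : Lab k => Adm f (e :: L) (Fin.cons x c)) = univ :=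
            Finset.filter_true_of_mem fun x _ =>
              adm_cons_loop hl (Finset.mem_filter.1 hc).2 x
          rw [h2, Finset.card_univ, Fintype.card_prod, Fintype.card_bool, Fintype.card_fin]
        _ ≤ _ := Finset.sum_le_sum_of_subset (Finset.filter_subset _ _)
    · by_cases hb : ∀ S : Set V, Sep f L S → (e.1 ∈ S ↔ e.2 ∈ S)
      · have h1 : tt (2 * k) f (e :: L) =
            tt (2 * k) (merge f e.1 e.2) L + tt (2 * k) f L := by
          rw [tt, if_neg hl, if_pos hb]
        rw [h1, Finset.sum_congr rfl fun c _ => card_cons hl hb c, Finset.sum_add_distrib]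
        refine Nat.add_le_add ((ih _).trans (le_of_eq ?_)) ((ih _).trans (le_of_eq ?_))
        · rw [zz_eq, Finset.card_filter]
        · rw [zz_eq, Finset.card_filter]
      · have h1 : tt (2 * k) f (e :: L) = 0 := by
          rw [tt, if_neg hl, if_neg hb]
        rw [h1]
        exact Nat.zero_le _

end Pool.Agent.Lib.MP_d38209_co.CR
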