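import Pool.Agent.Lib.MP_d38209_co.CR.MDefs
import Pool.Agent.Lib.MP_d38209_co.CR.Orient

set_option autoImplicit false

/-!
# Version M: the labellings of a list of edges as labellings of the points
-/

namespace Pool.Agent.Lib.MP_d38209_co.CR

open Finset
open scoped Classical

variable {n d k : ℕ}

/-- the multiset of an optional label -/
def mz_o (x : Option (Lab k)) : Multiset (Lab k) :=
  match x with
  | none => 0
  | some l => {l}

theorem mz_filterMap {α : Type} (f : α → Option (Lab k)) (s : Multiset α) :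
    s.filterMap f = (s.map fun a => mz_o (f a)).sum := by
  induction s using Multiset.induction_on with
  | empty => simp
  | cons a s ih =>
    rw [Multiset.map_cons, Multiset.sum_cons, ← ih]
    rcases h : f a with _ | l
    · rw [Multiset.filterMap_cons_none a s h]
      simp [mz_o]
    · rw [Multiset.filterMap_cons_some f a s h]
      simp [mz_o]

theorem mz_row (c : Pt n d → Option (Lab k)) (v : Fin n) :
    row c v = ∑ p : Pt n d, if p.1 = v then mz_o (c p) else 0 := by
  have h1 : row c v = ∑ j : Fin d, mz_o (c (v, j)) := by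
    unfold row
    rw [mz_filterMap]
    rfl
  rw [h1, Fintype.sum_prod_type, Finset.sum_eq_single v]
  · apply Finset.sum_congr rfl
    intro j _
    rw [if_pos rfl]
  · intro w _ hw
    apply Finset.sum_eq_zero
    intro j _
    rw [if_neg hw]
  · intro h
    exact absurd (Finset.mem_univ v) h

theorem mz_ite (P : Prop) (i1 i2 : Decidable P) (x : Multiset (Lab k)) :
    @ite (Multiset (Lab k)) P i1 x 0 = @ite (Multiset (Lab k)) P i2 x 0 := by
  by_cases h : P
  · rw [if_pos h, if_pos h]
  · rw [if_neg h, if_neg h]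

theorem zz_le_NSM {n d k : ℕ} {σ : Pt n d → Pt n d} (hσ : WGood σ) {A : Finset (Pt n d)}
    (hA : A ⊆ ES σ) : zz k id (lst σ A) ≤ NSM k σ A := by
  obtain ⟨g, hg, hget, hmem⟩ := f6_index hA
  -- the other end of an edge of `A` is not in `A`
  have hES : ∀ p, p ∈ A → σ p ∉ ES σ := by
    intro p hp h1
    have h2 := (Finset.mem_filter.1 (hA hp)).2
    have h3 := (Finset.mem_filter.1 h1).2
    rw [hσ.inv] at h3
    exact absurd h2 (not_lt.2 h3.le)
  let ψ : (Fin (lst σ A).length → Lab k) → Pt n d → Option (Lab k) := fun o p =>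
    if h : ∃ i, g i = p then some (o h.choose)
    else if h : ∃ i, g i = σ p then some (linv (o h.choose)) else none
  have hψ1 : ∀ o i, ψ o (g i) = some (o i) := by
    intro o i
    have h : ∃ j, g j = g i := ⟨i, rfl⟩
    have h1 : h.choose = i := hg h.choose_spec
    simp only [ψ, dif_pos h, h1]
  have hψ2 : ∀ o i, ψ o (σ (g i)) = some (linv (o i)) := by
    intro o i
    have h0 : ¬ ∃ j, g j = σ (g i) := fun h =>
      hES (g i) ((hmem _).2 ⟨i, rfl⟩) (hA ((hmem _).2 h))
    have h : ∃ j, g j = σ (σ (g i)) := ⟨i, (hσ.inv _).symm⟩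
    have h1 : h.choose = i := hg (h.choose_spec.trans (hσ.inv _))
    simp only [ψ, dif_neg h0, dif_pos h, h1]
  have hψ0 : ∀ o p, p ∉ A → σ p ∉ A → ψ o p = none := by
    intro o p h1 h2
    rw [hmem] at h1 h2
    simp only [ψ, dif_neg h1, dif_neg h2]
  have hcases : ∀ p, (∃ i, p = g i) ∨ (∃ i, p = σ (g i)) ∨ (p ∉ A ∧ σ p ∉ A) := by
    intro p
    by_cases h1 : p ∈ A
    · obtain ⟨i, hi⟩ := (hmem p).1 h1
      exact Or.inl ⟨i, hi.symm⟩
    · by_cases h2 : σ p ∈ A
      · obtain ⟨i, hi⟩ := (hmem (σ p)).1 h2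
        exact Or.inr (Or.inl ⟨i, by rw [hi, hσ.inv]⟩)
      · exact Or.inr (Or.inr ⟨h1, h2⟩)
  have hlinv : ∀ l : Lab k, linv (linv l) = l := by
    intro l
    simp [linv]
  have hcomp : ∀ o, CompM σ (ψ o) := by
    intro o p
    rcases hcases p with ⟨i, rfl⟩ | ⟨i, rfl⟩ | ⟨h1, h2⟩
    · rw [hψ2, hψ1]
      rfl
    · rw [hσ.inv, hψ1, hψ2, Option.map_some, hlinv]
    · rw [hψ0 o p h1 h2, hψ0 o (σ p) h2 (by rw [hσ.inv]; exact h1)]
      rfl
  have hsupp : ∀ o, suppM σ (ψ o) = A := by
    intro o
    ext p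
    rw [suppM, Finset.mem_filter]
    constructor
    · rintro ⟨h1, h2⟩
      rcases hcases p with ⟨i, rfl⟩ | ⟨i, rfl⟩ | ⟨h3, h4⟩
      · exact (hmem _).2 ⟨i, rfl⟩
      · exact absurd h1 (hES (g i) ((hmem _).2 ⟨i, rfl⟩))
      · exact absurd (hψ0 o p h3 h4) h2
    · intro h1
      refine ⟨hA h1, ?_⟩
      obtain ⟨i, rfl⟩ := (hmem p).1 h1
      rw [hψ1]
      exact Option.some_ne_none _
  -- the labels at a vertex
  have hrow : ∀ o v, row (ψ o) v = mu id (lst σ A) o v := by
    intro o v
    rw [mz_row]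
    have hAg : A = univ.image g := by
      ext p
      rw [hmem p, Finset.mem_image]
      constructor
      · rintro ⟨i, hi⟩
        exact ⟨i, Finset.mem_univ i, hi⟩
      · rintro ⟨i, _, hi⟩
        exact ⟨i, hi⟩
    have hBg : A.image σ = univ.image fun i => σ (g i) := by
      have h4 : A.image σ = (univ.image g).image σ := by rw [← hAg]
      rw [h4, Finset.image_image]
      rfl
    have hdisj : Disjoint A (A.image σ) := by
      rw [Finset.disjoint_left]
      intro p hp hp'
      obtain ⟨x, hx, hxp⟩ := Finset.mem_image.mp hp'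
      exact hES x hx (hA (hxp ▸ hp))
    have h1 : ∑ p : Pt n d, (if p.1 = v then mz_o (ψ o p) else 0) =
        ∑ p ∈ A ∪ A.image σ, (if p.1 = v then mz_o (ψ o p) else 0) := by
      symm
      apply Finset.sum_subset (Finset.subset_univ _)
      intro p _ hp
      rw [Finset.mem_union, not_or] at hp
      have h2 : σ p ∉ A := by
        intro h3
        apply hp.2
        exact Finset.mem_image.mpr ⟨σ p, h3, hσ.inv p⟩
      rw [hψ0 o p hp.1 h2]
      simp [mz_o]
    rw [h1, Finset.sum_union hdisj]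
    have h2 : ∑ p ∈ A, (if p.1 = v then mz_o (ψ o p) else 0) =
        ∑ i, (if (g i).1 = v then ({o i} : Multiset (Lab k)) else 0) := by
      have h4 : ∑ p ∈ A, (if p.1 = v then mz_o (ψ o p) else 0) =
          ∑ p ∈ univ.image g, (if p.1 = v then mz_o (ψ o p) else 0) := by rw [← hAg]
      rw [h4, Finset.sum_image (fun i _ j _ h => hg h)]
      apply Finset.sum_congr rfl
      intro i _
      rw [hψ1]
      rfl
    have h3 : ∑ p ∈ A.image σ, (if p.1 = v then mz_o (ψ o p) else 0) =
        ∑ i, (if (σ (g i)).1 = v then ({linv (o i)} : Multiset (Lab k)) else 0) := by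
      rw [hBg, Finset.sum_image (fun i _ j _ h => by
        apply hg
        have h4 := congrArg σ h
        rw [hσ.inv, hσ.inv] at h4
        exact h4)]
      apply Finset.sum_congr rfl
      intro i _
      rw [hψ2]
      rfl
    rw [h2, h3, ← Finset.sum_add_distrib]
    unfold mu
    apply Finset.sum_congr rfl
    intro i _
    rw [hget]
    exact congrArg₂ (· + ·) (mz_ite _ _ _ _) (mz_ite _ _ _ _)
  unfold zz NSM
  refine Finset.card_le_card_of_injOn ψ ?_ ?_
  · intro o ho
    have ho' : ∀ v, mu id (lst σ A) o v ≠ 0 → okm (mu id (lst σ A) o v) := by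
      simpa using ho
    simp only [Finset.coe_filter, Finset.mem_univ, true_and]
    refine ⟨hcomp o, ?_, hsupp o⟩
    intro v hv
    rw [hrow] at hv ⊢
    exact ho' v hv
  · intro o _ o' _ hoo
    funext i
    have h1 := congrFun hoo (g i)
    rw [hψ1, hψ1] at h1
    exact Option.some_injective _ h1

end Pool.Agent.Lib.MP_d38209_co.CR
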