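import Pool.Agent.Lib.MP_d38209_co.CR.Det
import Pool.Agent.Lib.MP_d38209_co.CR.MFlow
import Pool.Agent.Lib.MP_d38209_co.CR.MFibres
import Pool.Agent.Lib.MP_d38209_co.CR.MList
import Pool.Agent.Lib.MP_d38209_co.CR.MPoints

set_option autoImplicit false

/-!
# The deterministic part, version M
-/

namespace Pool.Agent.Lib.MP_d38209_co.CR

open Finset
open scoped Classical

variable {n d k : ℕ}

/-- the bound for the weight of a set of edges -/
noncomputable def dm_b (k : ℕ) (ρ : ℝ) (σ : Pt n d → Pt n d) (A : Finset (Pt n d)) : ℝ :=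
  (ρ⁻¹) ^ A.card * (ρ / (2 * k)) ^ nul id (lst σ A) * tt (2 * k) id (lst σ A)

theorem dm_wt (hk : 1 ≤ k) {σ : Pt n d → Pt n d} (ρ : ℝ) (h2 : 2 * k < ρ) (q : ℂ)
    (hq : ρ ≤ ‖q - 1‖) {A : Finset (Pt n d)} (hA : A ⊆ ES σ) : ‖wt q σ A‖ ≤ dm_b k ρ σ A := by
  have hk1 : (1 : ℝ) ≤ k := by exact_mod_cast hk
  have hR : 0 < ‖q - 1‖ := by linarith
  have hρ : 0 < ρ := by linarith
  have hr : (0 : ℝ) < 2 * k := by linarith
  have h1 : ‖wt q σ A‖ = (‖q - 1‖⁻¹) ^ A.card * ‖fl q σ A‖ := by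
    unfold wt
    rw [norm_mul, norm_pow, norm_div, norm_neg, norm_one, one_div]
  have h3 : ‖fl q σ A‖ ≤ (‖q - 1‖ / (2 * k)) ^ nul id (lst σ A) * tt (2 * k) id (lst σ A) := by
    have h4 := flow_boundM (2 * k) (by omega) q (by push_cast; linarith) (lst σ A) id
    push_cast at h4
    exact h4
  rw [h1]
  have h4 : nul id (lst σ A) ≤ A.card := nul_le_card hA
  obtain ⟨j, hj⟩ : ∃ j, A.card = nul id (lst σ A) + j := ⟨A.card - nul id (lst σ A), by omega⟩
  unfold dm_b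
  have e1 : ∀ R : ℝ, 0 < R → (R⁻¹) ^ A.card * (R / (2 * k)) ^ nul id (lst σ A) =
      (1 / (2 * k)) ^ nul id (lst σ A) * (R⁻¹) ^ j := by
    intro R hR
    rw [hj, pow_add]
    have : (R⁻¹) ^ nul id (lst σ A) * (R / (2 * k)) ^ nul id (lst σ A) =
        (1 / (2 * k)) ^ nul id (lst σ A) := by
      rw [← mul_pow]
      congr 1
      field_simp
    calc (R⁻¹) ^ nul id (lst σ A) * (R⁻¹) ^ j * (R / (2 * k)) ^ nul id (lst σ A)
        = ((R⁻¹) ^ nul id (lst σ A) * (R / (2 * k)) ^ nul id (lst σ A)) * (R⁻¹) ^ j := by ring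
      _ = _ := by rw [this]
  calc (‖q - 1‖⁻¹) ^ A.card * ‖fl q σ A‖
      ≤ (‖q - 1‖⁻¹) ^ A.card *
          ((‖q - 1‖ / (2 * k)) ^ nul id (lst σ A) * tt (2 * k) id (lst σ A)) := by
        apply mul_le_mul_of_nonneg_left h3
        positivity
    _ = (‖q - 1‖⁻¹) ^ A.card * (‖q - 1‖ / (2 * k)) ^ nul id (lst σ A) *
          tt (2 * k) id (lst σ A) := by ring
    _ = (1 / (2 * k)) ^ nul id (lst σ A) * (‖q - 1‖⁻¹) ^ j * tt (2 * k) id (lst σ A) := by
        rw [e1 _ hR]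
    _ ≤ (1 / (2 * k)) ^ nul id (lst σ A) * (ρ⁻¹) ^ j * tt (2 * k) id (lst σ A) := by
        apply mul_le_mul_of_nonneg_right _ (Nat.cast_nonneg _)
        apply mul_le_mul_of_nonneg_left _ (by positivity)
        apply pow_le_pow_left₀ (by positivity)
        exact inv_anti₀ hρ hq
    _ = (ρ⁻¹) ^ A.card * (ρ / (2 * k)) ^ nul id (lst σ A) * tt (2 * k) id (lst σ A) := by
        rw [e1 _ hρ]

/-- the term of `Y` -/
noncomputable def dm_y (k : ℕ) (x : ℝ) (σ : Pt n d → Pt n d) (A : Finset (Pt n d)) : ℝ :=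
  (NSM k σ A : ℝ) * ((1 / (2 * k)) ^ A.card * x ^ (vt σ A).card)

theorem dm_y_nonneg (x : ℝ) (hx : 0 ≤ x) (σ : Pt n d → Pt n d) (A : Finset (Pt n d)) :
    0 ≤ dm_y k x σ A := by
  unfold dm_y
  positivity

theorem dm_tt_le {σ : Pt n d → Pt n d} (hσ : WGood σ) {A : Finset (Pt n d)} (hA : A ⊆ ES σ) :
    (tt (2 * k) id (lst σ A) : ℝ) ≤ NSM k σ A := by
  exact_mod_cast (tt_le_zz (lst σ A) id).trans (zz_le_NSM hσ hA)

theorem dm_NS (hk : 1 ≤ k) {σ : Pt n d → Pt n d} (hσ : WGood σ) {A : Finset (Pt n d)}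
    (hA : A ⊆ ES σ) (h : tt (2 * k) id (lst σ A) ≠ 0) : 0 < NS σ A := by
  apply Nat.pos_of_ne_zero
  intro h0
  have h1 := tcount_le_NS hσ hA
  rw [h0] at h1
  have h2 : tcount id (lst σ A) = 0 := Nat.le_zero.1 h1
  have h3 := tt_le (2 * k) (by omega) (lst σ A) id
  rw [h2, Nat.cast_zero, mul_zero] at h3
  have h4 : (0 : ℝ) < tt (2 * k) id (lst σ A) := by
    exact_mod_cast Nat.pos_of_ne_zero h
  linarith

/-- sets without a short cycle as a component -/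
theorem dm_big (hk : 1 ≤ k) {σ : Pt n d → Pt n d} (hσ : WGood σ) (g : ℕ) (ρ ρ' : ℝ)
    (h2 : 2 * k < ρ') (h3 : ρ' ≤ ρ) (hg : ρ / (2 * k) ≤ (ρ / ρ') ^ (g + 1)) (hD : ¬ Dense σ g)
    {A : Finset (Pt n d)} (hA : A ⊆ ES σ) (hno : ∀ C ∈ SC σ g, ¬ IsComp σ C A) :
    dm_b k ρ σ A ≤ dm_y k (2 * k / ρ') σ A := by
  have hk1 : (1 : ℝ) ≤ k := by exact_mod_cast hk
  have hr : (0 : ℝ) < 2 * k := by linarith
  have hρ' : 0 < ρ' := by linarith
  have hρ : 0 < ρ := by linarith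
  by_cases htt : tt (2 * k) id (lst σ A) = 0
  · have h0 := dm_y_nonneg (k := k) (2 * k / ρ') (by positivity) σ A
    unfold dm_b
    rw [htt, Nat.cast_zero, mul_zero]
    exact h0
  have hNS' : 0 < NS σ A := dm_NS hk hσ hA htt
  obtain ⟨part, hpart, hnul⟩ := nul_points hσ hA
  obtain ⟨hκ, -⟩ := big_comp hσ hD hA hNS' hno part hpart
  set κ := ((vt σ A).image part).card with hκd
  set v := (vt σ A).card with hv
  set N := nul id (lst σ A) with hN
  have h12 : (1 : ℝ) ≤ ρ / (2 * k) := by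
    rw [one_le_div hr]
    linarith
  have hone : (1 : ℝ) ≤ ρ / ρ' := by rwa [one_le_div hρ']
  have e1 : (ρ / (2 * k)) ^ (N + v) ≤ (ρ / (2 * k)) ^ (A.card + κ) := pow_le_pow_right₀ h12 hnul
  have e2 : (ρ / (2 * k)) ^ κ ≤ (ρ / ρ') ^ v := by
    calc (ρ / (2 * k)) ^ κ ≤ ((ρ / ρ') ^ (g + 1)) ^ κ := pow_le_pow_left₀ (by positivity) hg _
      _ = (ρ / ρ') ^ (κ * (g + 1)) := by rw [← pow_mul, mul_comm]
      _ ≤ (ρ / ρ') ^ v := pow_le_pow_right₀ hone hκ
  have e3 : (ρ / (2 * k)) ^ N * (ρ / (2 * k)) ^ v ≤ (ρ / (2 * k)) ^ A.card * (ρ / ρ') ^ v := by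
    rw [← pow_add]
    refine e1.trans ?_
    rw [pow_add]
    exact mul_le_mul_of_nonneg_left e2 (by positivity)
  have e4 : (ρ⁻¹) ^ A.card * (ρ / (2 * k)) ^ N ≤ (1 / (2 * k)) ^ A.card * (2 * k / ρ') ^ v := by
    have h5 : (2 * k / ρ) ^ v * (ρ / (2 * k)) ^ v = 1 := by
      rw [← mul_pow]
      have : 2 * k / ρ * (ρ / (2 * k)) = 1 := by field_simp
      rw [this, one_pow]
    calc (ρ⁻¹) ^ A.card * (ρ / (2 * k)) ^ N
        = (ρ⁻¹) ^ A.card * (2 * k / ρ) ^ v * ((ρ / (2 * k)) ^ N * (ρ / (2 * k)) ^ v) := by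
          have : (ρ⁻¹) ^ A.card * (2 * k / ρ) ^ v * ((ρ / (2 * k)) ^ N * (ρ / (2 * k)) ^ v) =
            (ρ⁻¹) ^ A.card * (ρ / (2 * k)) ^ N * ((2 * k / ρ) ^ v * (ρ / (2 * k)) ^ v) := by ring
          rw [this, h5, mul_one]
      _ ≤ (ρ⁻¹) ^ A.card * (2 * k / ρ) ^ v * ((ρ / (2 * k)) ^ A.card * (ρ / ρ') ^ v) :=
          mul_le_mul_of_nonneg_left e3 (by positivity)
      _ = ((ρ⁻¹) * (ρ / (2 * k))) ^ A.card * ((2 * k / ρ) * (ρ / ρ')) ^ v := by
          rw [mul_pow, mul_pow]; ring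
      _ = (1 / (2 * k)) ^ A.card * (2 * k / ρ') ^ v := by
          congr 2
          · field_simp
          · field_simp
  unfold dm_b dm_y
  rw [mul_comm (NSM k σ A : ℝ)]
  exact mul_le_mul e4 (dm_tt_le hσ hA) (Nat.cast_nonneg _) (by positivity)

/-- short cycles -/
theorem dm_short (hk : 1 ≤ k) {σ : Pt n d → Pt n d} (hσ : WGood σ) (g : ℕ) (ρ ρ' : ℝ)
    (h2 : 2 * k < ρ') (h3 : ρ' ≤ ρ) {C : Finset (Pt n d)} (hC : C ∈ SC σ g) :
    dm_b k ρ σ C ≤ 1 / 2 ∧ dm_b k ρ σ C ≤ ρ / (2 * k) * dm_y k (2 * k / ρ') σ C := by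
  have hk1 : (1 : ℝ) ≤ k := by exact_mod_cast hk
  have hr : (0 : ℝ) < 2 * k := by linarith
  have hρ' : 0 < ρ' := by linarith
  have hρ : 0 < ρ := by linarith
  have h12 : (1 : ℝ) ≤ ρ / (2 * k) := by
    rw [one_le_div hr]
    linarith
  have hnul := sc_nul hσ hC
  have hNS := sc_NS hσ hC
  have hCE : C ⊆ ES σ := by
    have hC2 := hC
    rw [SC, Finset.mem_filter] at hC2
    exact hC2.2.2.1.1
  obtain ⟨hcard, hcard2⟩ := sc_card hσ hC
  have e1 : (ρ / (2 * k)) ^ nul id (lst σ C) ≤ ρ / (2 * k) := by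
    calc (ρ / (2 * k)) ^ nul id (lst σ C) ≤ (ρ / (2 * k)) ^ 1 := pow_le_pow_right₀ h12 hnul
      _ = ρ / (2 * k) := pow_one _
  constructor
  · unfold dm_b
    have e2 : (ρ⁻¹) ^ C.card ≤ (ρ⁻¹) ^ 2 := by
      apply pow_le_pow_of_le_one (by positivity) _ hcard2
      rw [inv_le_one₀ hρ]
      linarith
    have e3 : (tcount id (lst σ C) : ℝ) ≤ 2 := by
      exact_mod_cast (tcount_le_NS hσ hCE).trans hNS
    have e4 : (tt (2 * k) id (lst σ C) : ℝ) ≤ (2 * k / 2) ^ nul id (lst σ C) * 2 := by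
      have h4 := tt_le (2 * k) (by omega) (lst σ C) id
      push_cast at h4
      exact h4.trans (mul_le_mul_of_nonneg_left e3 (by positivity))
    have e5 : (ρ / 2) ^ nul id (lst σ C) ≤ ρ / 2 := by
      calc (ρ / 2) ^ nul id (lst σ C) ≤ (ρ / 2) ^ 1 := pow_le_pow_right₀ (by linarith) hnul
        _ = ρ / 2 := pow_one _
    calc (ρ⁻¹) ^ C.card * (ρ / (2 * k)) ^ nul id (lst σ C) * tt (2 * k) id (lst σ C)
        ≤ (ρ⁻¹) ^ C.card * (ρ / (2 * k)) ^ nul id (lst σ C) *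
            ((2 * k / 2) ^ nul id (lst σ C) * 2) :=
          mul_le_mul_of_nonneg_left e4 (by positivity)
      _ = (ρ⁻¹) ^ C.card * (ρ / (2 * k) * (2 * k / 2)) ^ nul id (lst σ C) * 2 := by
          rw [mul_pow]
          ring
      _ = (ρ⁻¹) ^ C.card * (ρ / 2) ^ nul id (lst σ C) * 2 := by
          have : ρ / (2 * k) * (2 * k / 2) = ρ / 2 := by field_simp
          rw [this]
      _ ≤ (ρ⁻¹) ^ 2 * (ρ / 2) * 2 := by
          apply mul_le_mul_of_nonneg_right _ (by norm_num)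
          exact mul_le_mul e2 e5 (by positivity) (by positivity)
      _ = ρ⁻¹ := by field_simp
      _ ≤ 1 / 2 := by
          rw [one_div]
          exact inv_anti₀ (by norm_num) (by linarith)
  · unfold dm_b dm_y
    rw [← hcard]
    have e4 : (ρ⁻¹) ^ C.card ≤ (1 / (2 * k)) ^ C.card * (2 * k / ρ') ^ C.card := by
      rw [← mul_pow]
      apply pow_le_pow_left₀ (by positivity)
      have : 1 / (2 * k) * (2 * k / ρ') = ρ'⁻¹ := by field_simp
      rw [this]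
      exact inv_anti₀ hρ' h3
    calc (ρ⁻¹) ^ C.card * (ρ / (2 * k)) ^ nul id (lst σ C) * tt (2 * k) id (lst σ C)
        ≤ ((1 / (2 * k)) ^ C.card * (2 * k / ρ') ^ C.card) * (ρ / (2 * k)) * NSM k σ C := by
          apply mul_le_mul _ (dm_tt_le hσ hCE) (Nat.cast_nonneg _) (by positivity)
          exact mul_le_mul e4 e1 (by positivity) (by positivity)
      _ = _ := by ring

/-- The deterministic part: no chromatic root with `|q - 1| ≥ ρ`. -/
theorem detM {n d k : ℕ} (hk : 1 ≤ k) {σ : Pt n d → Pt n d} (hσ : WGood σ) (g : ℕ) (ρ ρ' : ℝ)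
    (h2 : 2 * k < ρ') (h3 : ρ' ≤ ρ) (hg : ρ / (2 * k) ≤ (ρ / ρ') ^ (g + 1)) (hD : ¬ Dense σ g)
    (X Z : ℝ) (hX : ρ / (2 * k) * ∑ s ∈ Icc 1 (n * d), YM k σ (2 * k / ρ') s ≤ X)
    (hZ : ∑ s ∈ Ioc g (n * d), YM k σ (2 * k / ρ') s ≤ Z) (hXZ : Z * Real.exp (3 * X) < 1)
    (P : Polynomial ℂ) (hP : IsChromaticPolynomial (gr σ) P) (q : ℂ) (hq : ρ ≤ ‖q - 1‖) :
    P.eval q ≠ 0 := by
  intro hPq
  have hk1 : (1 : ℝ) ≤ k := by exact_mod_cast hk
  have hr : (0 : ℝ) < 2 * k := by linarith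
  have hρ' : 0 < ρ' := by linarith
  have hρ : 2 * k < ρ := by linarith
  have hρ0 : 0 < ρ := by linarith
  have hx : 0 ≤ 2 * k / ρ' := by positivity
  have hq0 : q ≠ 0 := by
    rintro rfl
    rw [zero_sub, norm_neg, norm_one] at hq
    linarith
  have hq1 : q ≠ 1 := by
    rintro rfl
    rw [sub_self, norm_zero] at hq
    linarith
  have hzero := chrom_zero hσ q hq0 hq1 P hP hPq
  have hYeq : ∀ (I : Finset ℕ), ∑ s ∈ I, YM k σ (2 * k / ρ') s =
      ∑ A ∈ (ES σ).powerset.filter (fun A => A.card ∈ I), dm_y k (2 * k / ρ') σ A := by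
    intro I
    have e1 : ∀ s, YM k σ (2 * k / ρ') s =
        ∑ A ∈ (ES σ).powerset.filter (fun A => A.card = s), dm_y k (2 * k / ρ') σ A := by
      intro s
      rw [YM_eq hσ]
      rfl
    rw [Finset.sum_congr rfl fun s _ => e1 s, ← Finset.sum_biUnion]
    · apply Finset.sum_congr _ fun _ _ => rfl
      ext A
      simp only [Finset.mem_biUnion, Finset.mem_filter]
      constructor
      · rintro ⟨s, hs, hA, rfl⟩
        exact ⟨hA, hs⟩
      · rintro ⟨hA, hs⟩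
        exact ⟨_, hs, hA, rfl⟩
    · intro s _ s' _ hne
      rw [Function.onFun, Finset.disjoint_left]
      intro A hA hA'
      rw [Finset.mem_filter] at hA hA'
      exact hne (hA.2.symm.trans hA'.2)
  refine nonzero (ES σ) (fun p => ({p.1, (σ p).1} : Finset (Fin n))) (fun p => ⟨p.1, by simp⟩)
    (SC σ g) ?_ ?_ ?_ (wt q σ) ?_ ?_ (dm_b k ρ σ) ?_ ?_ X Z ?_ ?_ hXZ hzero
  · intro C hC
    rw [SC, Finset.mem_filter] at hC
    exact hC.2.2.1.1
  · intro C hC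
    rw [SC, Finset.mem_filter] at hC
    exact hC.2.1
  · intro C hC C' hC' hne
    exact sc_disjoint hσ hD hC hC' hne
  · unfold wt fl lst
    simp [flow]
  · intro A hA B hB hAB
    have hAB' : Disjoint (vt σ A) (vt σ B) := hAB
    have hdis : Disjoint A B := by
      rw [Finset.disjoint_left]
      intro p hpA hpB
      rw [Finset.disjoint_left] at hAB'
      refine hAB' (a := p.1) ?_ ?_
      · exact Finset.mem_biUnion.2 ⟨p, hpA, by simp⟩
      · exact Finset.mem_biUnion.2 ⟨p, hpB, by simp⟩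
    unfold wt
    rw [fl_union q hσ hA hB hAB', Finset.card_union_of_disjoint hdis, pow_add]
    ring
  · intro A hA
    exact dm_wt hk ρ hρ q hq hA
  · intro C hC
    exact (dm_short hk hσ g ρ ρ' h2 h3 hC).1
  · refine le_trans ?_ hX
    rw [hYeq, Finset.mul_sum]
    calc ∑ C ∈ SC σ g, dm_b k ρ σ C
        ≤ ∑ C ∈ SC σ g, ρ / (2 * k) * dm_y k (2 * k / ρ') σ C :=
          Finset.sum_le_sum fun C hC => (dm_short hk hσ g ρ ρ' h2 h3 hC).2
      _ ≤ _ := by
          apply Finset.sum_le_sum_of_subset_of_nonneg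
          · intro C hC
            have hC1 := (sc_card hσ hC).2
            have hC2 := hC
            rw [SC, Finset.mem_filter] at hC2
            rw [Finset.mem_filter, Finset.mem_powerset, Finset.mem_Icc]
            exact ⟨hC2.2.2.1.1, by omega, d3_card_le C⟩
          · intro A _ _
            exact mul_nonneg (by positivity) (dm_y_nonneg _ hx _ _)
  · refine le_trans ?_ hZ
    rw [hYeq]
    rw [← Finset.sum_filter_ne_zero]
    refine (Finset.sum_le_sum (g := fun A => dm_y k (2 * k / ρ') σ A) ?_).trans ?_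
    · intro A hA
      have hA' := d3_mem _ _ _ _ (Finset.mem_filter.1 hA).1
      exact dm_big hk hσ g ρ ρ' h2 h3 hg hD (Finset.mem_powerset.1 hA'.1) hA'.2.2
    · apply Finset.sum_le_sum_of_subset_of_nonneg
      · intro A hA
        rw [Finset.mem_filter] at hA
        have hA' := d3_mem _ _ _ _ hA.1
        have hA1 : A ⊆ ES σ := Finset.mem_powerset.1 hA'.1
        have hNS : 0 < NS σ A := by
          apply dm_NS hk hσ hA1
          intro h0
          apply hA.2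
          unfold dm_b
          rw [h0]
          simp
        obtain ⟨part, hpart, -⟩ := nul_points hσ hA1
        have hbig := (big_comp hσ hD hA1 hNS hA'.2.2 part hpart).2 hA'.2.1
        rw [Finset.mem_filter]
        exact ⟨hA'.1, Finset.mem_Ioc.2 ⟨hbig, d3_card_le A⟩⟩
      · intro A _ _
        exact dm_y_nonneg _ hx _ _

end Pool.Agent.Lib.MP_d38209_co.CR
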