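import Mathlib

set_option autoImplicit false

/-!
# Factorials of the parts of a number
-/

namespace Pool.Agent.Lib.MP_d38209_co.CR

open Finset

/-- `e m ^ (m + 1) ≤ (m + 1) ^ (m + 1)` -/
theorem mp2_step (m : ℕ) (hm : 1 ≤ m) :
    Real.exp 1 * (m : ℝ) ^ (m + 1) ≤ ((m : ℝ) + 1) ^ (m + 1) := by
  have hm0 : (0 : ℝ) < m := by exact_mod_cast hm
  have h1 : Real.exp (1 / ((m : ℝ) + 1)) * m ≤ (m : ℝ) + 1 := by
    have h2 := Real.add_one_le_exp (-(1 / ((m : ℝ) + 1)))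
    have h3 : -(1 / ((m : ℝ) + 1)) + 1 = m / ((m : ℝ) + 1) := by
      field_simp
      ring
    rw [h3, Real.exp_neg, div_le_iff₀ (by positivity)] at h2
    have h4 := Real.exp_pos (1 / ((m : ℝ) + 1))
    calc Real.exp (1 / ((m : ℝ) + 1)) * m
        ≤ Real.exp (1 / ((m : ℝ) + 1)) * ((Real.exp (1 / ((m : ℝ) + 1)))⁻¹ * ((m : ℝ) + 1)) :=
          mul_le_mul_of_nonneg_left h2 h4.le
      _ = (m : ℝ) + 1 := by field_simp
  calc Real.exp 1 * (m : ℝ) ^ (m + 1) = (Real.exp (1 / ((m : ℝ) + 1)) * m) ^ (m + 1) := by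
        rw [mul_pow, ← Real.exp_nat_mul]
        congr 2
        push_cast
        field_simp
    _ ≤ _ := pow_le_pow_left₀ (by positivity) h1 _

/-- `m! e ^ m ≤ e m m ^ m` -/
theorem mp2_upper (m : ℕ) (hm : 1 ≤ m) :
    (m.factorial : ℝ) * Real.exp 1 ^ m ≤ Real.exp 1 * m * (m : ℝ) ^ m := by
  induction m, hm using Nat.le_induction with
  | base => simp
  | succ m hm ih =>
    have hm0 : (0 : ℝ) < m := by exact_mod_cast hm
    have he := Real.exp_pos 1
    have h1 := mp2_step m hm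
    rw [Nat.factorial_succ]
    push_cast
    calc ((m : ℝ) + 1) * m.factorial * Real.exp 1 ^ (m + 1)
        = ((m : ℝ) + 1) * Real.exp 1 * (m.factorial * Real.exp 1 ^ m) := by ring
      _ ≤ ((m : ℝ) + 1) * Real.exp 1 * (Real.exp 1 * m * (m : ℝ) ^ m) :=
          mul_le_mul_of_nonneg_left ih (by positivity)
      _ = ((m : ℝ) + 1) * Real.exp 1 * (Real.exp 1 * (m : ℝ) ^ (m + 1)) := by ring
      _ ≤ ((m : ℝ) + 1) * Real.exp 1 * ((m : ℝ) + 1) ^ (m + 1) :=
          mul_le_mul_of_nonneg_left h1 (by positivity)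
      _ = Real.exp 1 * ((m : ℝ) + 1) * ((m : ℝ) + 1) ^ (m + 1) := by ring

/-- `m! e ^ m ≤ 3 s m ^ m` for `m ≤ s`, `1 ≤ s` -/
theorem mp2_one (m s : ℕ) (hs : 1 ≤ s) (hm : m ≤ s) :
    (m.factorial : ℝ) * Real.exp 1 ^ m ≤ 3 * s * (m : ℝ) ^ m := by
  have hs1 : (1 : ℝ) ≤ s := by exact_mod_cast hs
  rcases Nat.eq_zero_or_pos m with rfl | h
  · simp
    linarith
  · have h1 := mp2_upper m h
    have h2 : (m : ℝ) ≤ s := by exact_mod_cast hm
    have h3 := Real.exp_one_lt_d9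
    refine h1.trans (mul_le_mul_of_nonneg_right ?_ (by positivity))
    exact mul_le_mul (by linarith) h2 (by positivity) (by norm_num)

theorem fac_bound {k s : ℕ} (hs : 1 ≤ s) (m : Fin k → ℕ) (hm : ∑ a, m a = s) :
    ∏ a, ((m a).factorial : ℝ) ≤
      (3 * (s : ℝ)) ^ k * s.factorial * ∏ a, ((m a : ℝ) / s) ^ (m a) := by
  have hs0 : (0 : ℝ) < s := by exact_mod_cast hs
  have he := Real.exp_pos 1
  have h1 : (∏ a, ((m a).factorial : ℝ)) * Real.exp 1 ^ s ≤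
      (3 * (s : ℝ)) ^ k * ∏ a, (m a : ℝ) ^ (m a) := by
    have h2 : Real.exp 1 ^ s = ∏ a, Real.exp 1 ^ (m a) := by
      rw [Finset.prod_pow_eq_pow_sum, hm]
    have h3 : (3 * (s : ℝ)) ^ k = ∏ _a : Fin k, (3 * (s : ℝ)) := by
      rw [Finset.prod_const, Finset.card_univ, Fintype.card_fin]
    calc (∏ a, ((m a).factorial : ℝ)) * Real.exp 1 ^ s
        = ∏ a, (((m a).factorial : ℝ) * Real.exp 1 ^ (m a)) := by
          rw [h2, Finset.prod_mul_distrib]
      _ ≤ ∏ a, (3 * (s : ℝ) * (m a : ℝ) ^ (m a)) := by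
          apply Finset.prod_le_prod
          · intro a _
            positivity
          · intro a _
            refine mp2_one (m a) s hs ?_
            rw [← hm]
            exact Finset.single_le_sum (f := m) (fun _ _ => Nat.zero_le _) (Finset.mem_univ a)
      _ = _ := by rw [Finset.prod_mul_distrib, ← h3]
  have h4 : (s : ℝ) ^ s ≤ s.factorial * Real.exp 1 ^ s := by
    have h5 := Real.pow_div_factorial_le_exp (s : ℝ) hs0.le s
    rw [div_le_iff₀ (by positivity)] at h5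
    rw [← Real.exp_nat_mul, mul_one, mul_comm]
    exact h5
  have h6 : (∏ a, ((m a : ℝ) / s) ^ (m a)) * (s : ℝ) ^ s = ∏ a, (m a : ℝ) ^ (m a) := by
    have h7 : (s : ℝ) ^ s = ∏ a, (s : ℝ) ^ (m a) := by
      rw [Finset.prod_pow_eq_pow_sum, hm]
    rw [h7, ← Finset.prod_mul_distrib]
    refine Finset.prod_congr rfl fun a _ => ?_
    rw [← mul_pow, div_mul_cancel₀ _ hs0.ne']
  have h8 : (0 : ℝ) < Real.exp 1 ^ s := by positivity
  refine le_of_mul_le_mul_right (h1.trans ?_) h8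
  calc (3 * (s : ℝ)) ^ k * ∏ a, (m a : ℝ) ^ (m a)
      = (3 * (s : ℝ)) ^ k * (∏ a, ((m a : ℝ) / s) ^ (m a)) * (s : ℝ) ^ s := by
        rw [← h6]
        ring
    _ ≤ (3 * (s : ℝ)) ^ k * (∏ a, ((m a : ℝ) / s) ^ (m a)) * (s.factorial * Real.exp 1 ^ s) :=
        mul_le_mul_of_nonneg_left h4 (by positivity)
    _ = _ := by ring

end Pool.Agent.Lib.MP_d38209_co.CR
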