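import Pool.Agent.Lib.MP_d38209_co.CR.GFinal

set_option autoImplicit false

/-!
# From one degree sequence to sets of degree sequences
-/

namespace Pool.Agent.Lib.MP_d38209_co.CR

open Finset
open scoped Classical

/-- From degree sequences to sets of degree sequences. -/
theorem gf_fam {d : ℕ} (B : ∀ n : ℕ, SimpleGraph (Fin n) → Prop) (N₀ : ℕ) (ε : ℝ) (hε : 0 ≤ ε)
    (hN : ∀ (n : ℕ) (D : Fin n → ℕ), (∀ v, D v ≤ d) → N₀ ≤ ∑ v, D v →
      (Nat.card {G : SimpleGraph (Fin n) // (∀ v, Nat.card (G.neighborSet v) = D v) ∧ B n G} : ℝ) ≤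
      ε * Nat.card {G : SimpleGraph (Fin n) // ∀ v, Nat.card (G.neighborSet v) = D v})
    (n : ℕ) (S : Set (Fin n → ℕ)) (hS : ∀ D ∈ S, (∀ v, D v ≤ d) ∧ N₀ ≤ ∑ v, D v) :
    (Nat.card {G : SimpleGraph (Fin n) // (fun v => Nat.card (G.neighborSet v)) ∈ S ∧ B n G} : ℝ) ≤
      ε * Nat.card {G : SimpleGraph (Fin n) // (fun v => Nat.card (G.neighborSet v)) ∈ S} := by
  have e0 : ∀ (G : SimpleGraph (Fin n)), (fun v => Nat.card (G.neighborSet v)) = dgs G :=
    fun G => rfl
  have e0' : ∀ (G : SimpleGraph (Fin n)) (D : Fin n → ℕ),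
      (∀ v, Nat.card (G.neighborSet v) = D v) ↔ dgs G = D :=
    fun G D => ⟨fun h => funext h, fun h v => congrFun h v⟩
  simp only [e0]
  set T : Finset (Fin n → ℕ) := (univ.filter fun G : SimpleGraph (Fin n) =>
    dgs G ∈ S).image dgs with hT
  have f1 : Nat.card {G : SimpleGraph (Fin n) // dgs G ∈ S ∧ B n G} =
      ∑ D ∈ T, ((univ.filter fun G : SimpleGraph (Fin n) => dgs G ∈ S ∧ B n G).filter
        fun G => dgs G = D).card := by
    rw [Nat.card_eq_fintype_card, Fintype.card_subtype]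
    refine Finset.card_eq_sum_card_fiberwise fun G hG => ?_
    rw [mem_coe, mem_filter] at hG
    have hG := hG.2
    rw [hT]
    simp only [mem_coe, mem_image, mem_filter, mem_univ, true_and]
    exact ⟨G, hG.1, rfl⟩
  have f2 : ∀ D ∈ T, (((univ.filter fun G : SimpleGraph (Fin n) => dgs G ∈ S ∧ B n G).filter
      fun G => dgs G = D).card : ℝ) ≤
      ε * ((univ.filter fun G : SimpleGraph (Fin n) => dgs G ∈ S).filter
        fun G => dgs G = D).card := by
    intro D hD
    rw [hT, mem_image] at hD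
    obtain ⟨G₀, hG₀, rfl⟩ := hD
    simp only [mem_filter, mem_univ, true_and] at hG₀
    have g1 := hN n (dgs G₀) (hS _ hG₀).1 (hS _ hG₀).2
    simp only [e0'] at g1
    rw [Nat.card_eq_fintype_card, Nat.card_eq_fintype_card, Fintype.card_subtype,
      Fintype.card_subtype] at g1
    refine le_trans ?_ (g1.trans ?_)
    · exact_mod_cast Finset.card_le_card fun G hG => by
        simp only [mem_filter, mem_univ, true_and] at hG ⊢
        exact ⟨hG.2, hG.1.2⟩
    · apply mul_le_mul_of_nonneg_left _ hε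
      exact_mod_cast Finset.card_le_card fun G hG => by
        simp only [mem_filter, mem_univ, true_and] at hG ⊢
        exact ⟨by rw [hG]; exact hG₀, hG⟩
  have f3 : ∑ D ∈ T, ((univ.filter fun G : SimpleGraph (Fin n) => dgs G ∈ S).filter
      fun G => dgs G = D).card ≤ Nat.card {G : SimpleGraph (Fin n) // dgs G ∈ S} := by
    rw [Nat.card_eq_fintype_card, Fintype.card_subtype, Finset.card_eq_sum_card_image dgs]
  rw [f1]
  push_cast
  refine (Finset.sum_le_sum f2).trans ?_
  rw [← Finset.mul_sum]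
  apply mul_le_mul_of_nonneg_left _ hε
  exact_mod_cast f3

end Pool.Agent.Lib.MP_d38209_co.CR
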