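import Pool.Agent.Lib.MP_d38209_co.CR.MSup

set_option autoImplicit false

/-!
# The generating function of the admissible labellings of the points in use
-/

namespace Pool.Agent.Lib.MP_d38209_co.CR

open Finset
open scoped Classical

section Rows

variable {d k : ℕ}

/-- the points of a row that carry a label -/
noncomputable def m3_supp (ρ : Fin d → Option (Lab k)) : Finset (Fin d) :=
  univ.filter fun i => ρ i ≠ none

/-- the weight of a labelled row -/
noncomputable def m3_v (u : Lab k → ℝ) (a : ℝ) (ρ : Fin d → Option (Lab k)) : ℝ :=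
  if okm ((univ : Finset (Fin d)).val.filterMap ρ) then ∏ i, uo (fun l => a * u l) (ρ i) else 0

/-- the weight of a row in which only the first `D` points are in use -/
noncomputable def m3_w (D : ℕ) (u : Lab k → ℝ) (x a : ℝ) (ρ : Fin d → Option (Lab k)) : ℝ :=
  if ∀ i, ρ i ≠ none → (i : ℕ) < D then (if ∀ i, ρ i = none then 1 else x * m3_v u a ρ) else 0

theorem m3_mem (ρ : Fin d → Option (Lab k)) (i : Fin d) : i ∈ m3_supp ρ ↔ ρ i ≠ none := by
  simp [m3_supp]

theorem m3_fm (ρ : Fin d → Option (Lab k)) {S : Finset (Fin d)} (hS : m3_supp ρ = S) {j : ℕ}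
    (h : S.card = j) (r : Fin j → Lab k) (hr : ∀ i, ρ (S.orderEmbOfFin h i) = some (r i)) :
    (univ : Finset (Fin d)).val.filterMap ρ = univ.val.map r := by
  have h1 : S.val.filterMap ρ = (univ : Finset (Fin d)).val.filterMap ρ := by
    rw [← hS, m3_supp, Finset.filter_val, Multiset.filterMap_filter]
    congr 1
    funext i
    by_cases hi : ρ i = none
    · rw [if_neg (not_not.mpr hi), hi]
    · rw [if_pos hi]
  have h2 : S.val = (univ : Finset (Fin j)).val.map (S.orderEmbOfFin h) := by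
    have h3 := congrArg Finset.val (Finset.map_orderEmbOfFin_univ S h)
    rw [Finset.map_val] at h3
    exact h3.symm
  rw [← h1, h2, Multiset.filterMap_map, ← Multiset.filterMap_eq_map]
  congr 1
  funext i
  exact hr i

theorem m3_pr (ρ : Fin d → Option (Lab k)) {S : Finset (Fin d)} (hS : m3_supp ρ = S) {j : ℕ}
    (h : S.card = j) (r : Fin j → Lab k) (hr : ∀ i, ρ (S.orderEmbOfFin h i) = some (r i))
    (w : Lab k → ℝ) : ∏ i, uo w (ρ i) = ∏ i, w (r i) := by
  have h1 : ∏ i, uo w (ρ i) = ∏ i ∈ S, uo w (ρ i) := by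
    symm
    apply Finset.prod_subset (Finset.subset_univ S)
    intro i _ hi
    rw [← hS, m3_mem, not_not] at hi
    rw [hi]
    rfl
  have h2 : ∏ i ∈ S, uo w (ρ i) = ∏ i ∈ Finset.map (S.orderEmbOfFin h).toEmbedding univ,
      uo w (ρ i) := by
    rw [Finset.map_orderEmbOfFin_univ]
  rw [h1, h2, Finset.prod_map]
  apply Finset.prod_congr rfl
  intro i _
  have h3 := hr i
  show uo w (ρ (S.orderEmbOfFin h i)) = w (r i)
  rw [h3]
  rfl

/-- the row with the support `S` and the labels `r` -/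
noncomputable def m3_row (S : Finset (Fin d)) (r : Fin S.card → Lab k) :
    Fin d → Option (Lab k) := fun i =>
  if h : i ∈ S then some (r ((S.orderIsoOfFin rfl).symm ⟨i, h⟩)) else none

theorem m3_row_supp (S : Finset (Fin d)) (r : Fin S.card → Lab k) : m3_supp (m3_row S r) = S := by
  ext i
  rw [m3_mem, m3_row]
  by_cases h : i ∈ S
  · rw [dif_pos h]
    simp [h]
  · rw [dif_neg h]
    simp [h]

theorem m3_row_emb (S : Finset (Fin d)) (r : Fin S.card → Lab k) (i : Fin S.card) :
    m3_row S r (S.orderEmbOfFin rfl i) = some (r i) := by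
  rw [m3_row, dif_pos (Finset.orderEmbOfFin_mem S rfl i)]
  congr 2
  have h1 : (⟨S.orderEmbOfFin rfl i, Finset.orderEmbOfFin_mem S rfl i⟩ : S) =
      S.orderIsoOfFin rfl i := by
    apply Subtype.ext
    rfl
  rw [h1]
  exact OrderIso.symm_apply_apply _ _

theorem m3_fib (u : Lab k → ℝ) (a : ℝ) (S : Finset (Fin d)) :
    ∑ ρ ∈ univ.filter (fun ρ : Fin d → Option (Lab k) => m3_supp ρ = S), m3_v u a ρ =
      a ^ S.card * VV u S.card := by
  rw [VV, Finset.mul_sum]
  symm
  apply Finset.sum_bij (fun r _ => m3_row S r)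
  · intro r _
    rw [Finset.mem_filter]
    exact ⟨Finset.mem_univ _, m3_row_supp S r⟩
  · intro r _ r' _ hrr
    funext i
    have h1 := m3_row_emb S r i
    have h2 : m3_row S r = m3_row S r' := hrr
    rw [h2, m3_row_emb S r' i] at h1
    exact (Option.some.inj h1).symm
  · intro ρ hρ
    have hS := (Finset.mem_filter.mp hρ).2
    have h1 : ∀ i : Fin S.card, ∃ l, ρ (S.orderEmbOfFin rfl i) = some l := by
      intro i
      have h2 := (Finset.ext_iff.mp hS _).mpr (Finset.orderEmbOfFin_mem S rfl i)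
      exact Option.ne_none_iff_exists'.mp ((m3_mem ρ _).mp h2)
    choose r hr using h1
    refine ⟨r, Finset.mem_univ _, ?_⟩
    funext i
    by_cases hi : i ∈ S
    · have h3 : i ∈ Set.range (S.orderEmbOfFin rfl) := by
        rw [Finset.range_orderEmbOfFin]
        exact hi
      obtain ⟨m, rfl⟩ := h3
      rw [m3_row_emb, hr]
    · rw [m3_row, dif_neg hi]
      rw [← hS, m3_mem, not_not] at hi
      exact hi.symm
  · intro r _
    rw [m3_v, m3_fm (m3_row S r) (m3_row_supp S r) rfl r (m3_row_emb S r),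
      m3_pr (m3_row S r) (m3_row_supp S r) rfl r (m3_row_emb S r)]
    split_ifs
    · rw [Finset.prod_mul_distrib, Finset.prod_const, Finset.card_univ, Fintype.card_fin]
    · exact mul_zero _

theorem m3_fibw (D : ℕ) (u : Lab k → ℝ) (x a : ℝ) (S : Finset (Fin d)) :
    ∑ ρ ∈ univ.filter (fun ρ : Fin d → Option (Lab k) => m3_supp ρ = S), m3_w D u x a ρ =
      if S ⊆ univ.filter (fun i : Fin d => (i : ℕ) < D) then
        (if S.card = 0 then 1 else x * (a ^ S.card * VV u S.card)) else 0 := by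
  by_cases h : S ⊆ univ.filter (fun i : Fin d => (i : ℕ) < D)
  · rw [if_pos h]
    by_cases h0 : S = ∅
    · subst h0
      rw [Finset.card_empty, if_pos rfl]
      have h1 : univ.filter (fun ρ : Fin d → Option (Lab k) => m3_supp ρ = ∅) =
          {fun _ => none} := by
        ext ρ
        rw [Finset.mem_filter, Finset.mem_singleton]
        constructor
        · rintro ⟨_, h2⟩
          funext i
          by_contra h3
          have h4 := (m3_mem ρ i).mpr h3
          rw [h2] at h4
          exact absurd h4 (Finset.notMem_empty i)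
        · intro h2
          refine ⟨Finset.mem_univ _, ?_⟩
          rw [Finset.eq_empty_iff_forall_notMem]
          intro i
          rw [m3_mem, h2]
          simp
      rw [h1, Finset.sum_singleton, m3_w, if_pos (fun i hi => absurd rfl hi), if_pos (fun _ => rfl)]
    · have h1 : S.card ≠ 0 := fun h2 => h0 (Finset.card_eq_zero.mp h2)
      rw [if_neg h1, ← m3_fib, Finset.mul_sum]
      apply Finset.sum_congr rfl
      intro ρ hρ
      have hS := (Finset.mem_filter.mp hρ).2
      have h2 : ∀ i, ρ i ≠ none → (i : ℕ) < D := by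
        intro i hi
        rw [← m3_mem, hS] at hi
        exact (Finset.mem_filter.mp (h hi)).2
      have h3 : ¬ ∀ i, ρ i = none := by
        intro h4
        apply h0
        rw [← hS, Finset.eq_empty_iff_forall_notMem]
        intro i hi
        exact (m3_mem ρ i).mp hi (h4 i)
      rw [m3_w, if_pos h2, if_neg h3]
  · rw [if_neg h]
    apply Finset.sum_eq_zero
    intro ρ hρ
    have hS := (Finset.mem_filter.mp hρ).2
    have h2 : ¬ ∀ i, ρ i ≠ none → (i : ℕ) < D := by
      intro h3
      apply h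
      intro i hi
      rw [Finset.mem_filter]
      refine ⟨Finset.mem_univ _, h3 i ?_⟩
      rw [← m3_mem, hS]
      exact hi
    rw [m3_w, if_neg h2]

theorem m3_rows {D : ℕ} (hD : D ≤ d) (u : Lab k → ℝ) (x a : ℝ) :
    ∑ ρ : Fin d → Option (Lab k), m3_w D u x a ρ =
      ∑ j ∈ range (D + 1), (D.choose j : ℝ) *
        (if j = 0 then 1 else x * (a ^ j * VV u j)) := by
  rw [← Finset.sum_fiberwise univ (fun ρ : Fin d → Option (Lab k) => m3_supp ρ)
    (fun ρ => m3_w D u x a ρ)]
  simp only [m3_fibw]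
  rw [← Finset.sum_filter]
  have h1 : univ.filter (fun S : Finset (Fin d) => S ⊆ univ.filter (fun i : Fin d => (i : ℕ) < D)) =
      (univ.filter (fun i : Fin d => (i : ℕ) < D)).powerset := by
    ext S
    simp
  rw [h1, Finset.sum_powerset_apply_card (fun j => if j = 0 then 1 else x * (a ^ j * VV u j)),
    Fin.card_filter_val_lt, min_eq_right hD]
  simp only [nsmul_eq_mul]

theorem m3_binom (D : ℕ) (y : ℝ) : (1 + y) ^ D = ∑ j ∈ range (D + 1), (D.choose j : ℝ) * y ^ j := by
  rw [add_comm, add_pow]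
  apply Finset.sum_congr rfl
  intro j _
  rw [one_pow, mul_one, mul_comm]

theorem m3_bound (hk : 1 ≤ k) {D : ℕ} (hD : D ≤ d) (u : Lab k → ℝ)
    (h0 : ∀ l, 0 ≤ u l) (hs : ∀ l, u (linv l) = u l) (h2 : ∑ l, u l ^ 2 = 2 * k) (x t : ℝ)
    (hx : 0 ≤ x) (ht : 0 < t) :
    ∑ ρ : Fin d → Option (Lab k), m3_w D u x (t / k) ρ ≤ wwM k D x t := by
  have hk0 : (0 : ℝ) < k := by exact_mod_cast hk
  have hk1 : (1 : ℝ) ≤ k := by exact_mod_cast hk
  have hr : (0 : ℝ) < 2 * k - 1 := by linarith
  rw [m3_rows hD]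
  have h3 : ∀ j ∈ range (D + 1), (D.choose j : ℝ) *
      (if j = 0 then 1 else x * ((t / k) ^ j * VV u j)) ≤
      (D.choose j : ℝ) * ((if j = 0 then 1 + x else 0) +
        x * (((2 * t) ^ j - 2 * k * (t / k) ^ j) / (2 * k - 1))) := by
    intro j _
    apply mul_le_mul_of_nonneg_left _ (Nat.cast_nonneg _)
    rcases Nat.lt_or_ge j 2 with hj | hj
    · interval_cases j
      · rw [if_pos rfl, if_pos rfl, pow_zero, pow_zero]
        have h4 : ((1 : ℝ) - 2 * k * 1) / (2 * k - 1) = -1 := by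
          rw [div_eq_iff hr.ne']
          ring
        rw [h4]
        linarith
      · rw [if_neg one_ne_zero, if_neg one_ne_zero, VV_one, mul_zero, mul_zero, pow_one, pow_one]
        have h4 : (2 * t - 2 * k * (t / k)) = 0 := by
          field_simp
          ring
        rw [h4, zero_div, mul_zero, add_zero]
    · rw [if_neg (by omega), if_neg (by omega), zero_add]
      apply mul_le_mul_of_nonneg_left _ hx
      have h4 := sup_VV hk u h0 hs h2 j hj
      have h5 : (2 * t) ^ j = (t / k) ^ j * (2 * k) ^ j := by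
        rw [← mul_pow]
        congr 1
        field_simp
      rw [h5]
      have h6 : ((t / k) ^ j * (2 * (k : ℝ)) ^ j - 2 * k * (t / k) ^ j) / (2 * k - 1) =
          (t / k) ^ j * (((2 * (k : ℝ)) ^ j - 2 * k) / (2 * k - 1)) := by
        ring
      rw [h6]
      exact mul_le_mul_of_nonneg_left h4 (pow_nonneg (div_nonneg ht.le hk0.le) _)
  refine (Finset.sum_le_sum h3).trans (le_of_eq ?_)
  rw [wwM, m3_binom D (2 * t), m3_binom D (t / k)]
  have h7 : ∑ j ∈ range (D + 1), (D.choose j : ℝ) * (if j = 0 then 1 + x else 0) = 1 + x := by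
    rw [Finset.sum_eq_single 0]
    · simp
    · intro j _ hj
      rw [if_neg hj, mul_zero]
    · intro h
      exact absurd (Finset.mem_range.mpr (Nat.succ_pos D)) h
  simp only [mul_add]
  rw [Finset.sum_add_distrib, h7]
  have h8 : ∑ j ∈ range (D + 1), (D.choose j : ℝ) *
      (x * (((2 * t) ^ j - 2 * k * (t / k) ^ j) / (2 * k - 1))) =
      x * ((∑ j ∈ range (D + 1), (D.choose j : ℝ) * (2 * t) ^ j -
        2 * k * ∑ j ∈ range (D + 1), (D.choose j : ℝ) * (t / k) ^ j) / (2 * k - 1)) := by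
    rw [Finset.mul_sum, ← Finset.sum_sub_distrib, Finset.sum_div, Finset.mul_sum]
    apply Finset.sum_congr rfl
    intro j _
    ring
  rw [h8]
  ring

theorem m3_nonneg {D : ℕ} (u : Lab k → ℝ) (h0 : ∀ l, 0 ≤ u l) {x a : ℝ} (hx : 0 ≤ x) (ha : 0 ≤ a)
    (ρ : Fin d → Option (Lab k)) : 0 ≤ m3_w D u x a ρ := by
  rw [m3_w, m3_v]
  split_ifs
  · exact zero_le_one
  · apply mul_nonneg hx
    apply Finset.prod_nonneg
    intro i _
    rcases ρ i with _ | l
    · exact zero_le_one
    · exact mul_nonneg ha (h0 l)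
  · rw [mul_zero]
  · exact le_rfl

end Rows

variable {n d k : ℕ}

theorem m3_total (D : Fin n → ℕ) (u : Lab k → ℝ) (x a : ℝ) :
    ∑ c : Pt n d → Option (Lab k), ∏ v : Fin n, m3_w (D v) u x a (fun i => c (v, i)) =
      ∏ v, ∑ ρ : Fin d → Option (Lab k), m3_w (D v) u x a ρ := by
  have h1 := (Finset.prod_univ_sum
    (fun _ : Fin n => (univ : Finset (Fin d → Option (Lab k))))
    (fun v ρ => m3_w (D v) u x a ρ)).symm
  rw [Fintype.piFinset_univ] at h1
  rw [← h1]
  exact Fintype.sum_equiv (Equiv.curry (Fin n) (Fin d) (Option (Lab k))) _ _ fun c => rfl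

theorem m3_uo (u : Lab k → ℝ) (a : ℝ) (o : Option (Lab k)) :
    uo (fun l => a * u l) o = (if o = none then 1 else a) * uo u o := by
  rcases o with _ | l
  · rw [if_pos rfl, one_mul]
    rfl
  · rw [if_neg (by simp)]
    rfl

theorem m3_valid {D : Fin n → ℕ} (u : Lab k → ℝ) (x a : ℝ) (c : Pt n d → Option (Lab k))
    (hc : ValidM c) (hl : ∀ p, c p ≠ none → (p.2 : ℕ) < D p.1) :
    ∏ v : Fin n, m3_w (D v) u x a (fun i => c (v, i)) =
      a ^ (sgnM c true + sgnM c false) * (x ^ tchM c * ∏ p, uo u (c p)) := by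
  have h1 : ∀ v : Fin n, m3_w (D v) u x a (fun i => c (v, i)) =
      (if ∃ i, c (v, i) ≠ none then x else 1) * ∏ i, uo (fun l => a * u l) (c (v, i)) := by
    intro v
    rw [m3_w, if_pos (fun i hi => hl (v, i) hi)]
    by_cases h : ∀ i, c (v, i) = none
    · have h2 : ¬ ∃ i, c (v, i) ≠ none := by
        push Not
        exact h
      rw [if_pos h, if_neg h2, one_mul]
      symm
      apply Finset.prod_eq_one
      intro i _
      rw [h i]
      rfl
    · have h2 : ∃ i, c (v, i) ≠ none := by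
        push Not at h
        exact h
      rw [if_neg h, if_pos h2, m3_v, if_pos]
      apply hc v
      obtain ⟨i, hi⟩ := h2
      obtain ⟨l, hl⟩ := Option.ne_none_iff_exists'.mp hi
      intro h3
      have h4 : l ∈ row c v := by
        rw [row, Multiset.mem_filterMap]
        exact ⟨i, Finset.mem_univ i, hl⟩
      rw [h3] at h4
      exact absurd h4 (Multiset.notMem_zero l)
  simp only [h1]
  rw [Finset.prod_mul_distrib, mul_left_comm]
  congr 1
  · rw [Finset.prod_ite, Finset.prod_const, Finset.prod_const_one, mul_one, tchM]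
  · have h2 : ∏ v : Fin n, ∏ i : Fin d, uo (fun l => a * u l) (c (v, i)) =
        ∏ p : Pt n d, uo (fun l => a * u l) (c p) :=
      (Fintype.prod_prod_type (fun p : Fin n × Fin d => uo (fun l => a * u l) (c p))).symm
    rw [h2]
    simp only [m3_uo]
    rw [Finset.prod_mul_distrib]
    congr 1
    rw [Finset.prod_ite, Finset.prod_const_one, one_mul, Finset.prod_const]
    congr 1
    rw [sgnM, sgnM, ← Finset.card_union_of_disjoint]
    · congr 1
      ext p
      simp only [Finset.mem_filter, Finset.mem_univ, true_and, Finset.mem_union]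
      rcases c p with _ | ⟨_ | _, m⟩ <;> simp
    · rw [Finset.disjoint_left]
      intro p hp hp'
      rw [Finset.mem_filter] at hp hp'
      obtain ⟨m, hm⟩ := hp.2
      obtain ⟨m', hm'⟩ := hp'.2
      rw [hm] at hm'
      simp at hm'

/-- **MP3.** -/
theorem genfunM {s : ℕ} (hk : 1 ≤ k) {D : Fin n → ℕ} (hD : ∀ v, D v ≤ d) (u : Lab k → ℝ)
    (h0 : ∀ l, 0 ≤ u l) (hs : ∀ l, u (linv l) = u l) (h2 : ∑ l, u l ^ 2 = 2 * k) (x t : ℝ)
    (hx : 0 ≤ x) (ht : 0 < t) :
    ∑ c ∈ univ.filter (fun c : Pt n d → Option (Lab k) => ValidM c ∧ sgnM c true = s ∧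
      sgnM c false = s ∧ ∀ p, c p ≠ none → (p.2 : ℕ) < D p.1),
        x ^ tchM c * ∏ p, uo u (c p) ≤
      ((k : ℝ) ^ 2) ^ s * (t ^ (2 * s))⁻¹ * ∏ v, wwM k (D v) x t := by
  have hk0 : (0 : ℝ) < k := by exact_mod_cast hk
  have ha : 0 < t / k := div_pos ht hk0
  have ha' : 0 < (t / k) ^ (2 * s) := pow_pos ha _
  have h3 : ((k : ℝ) ^ 2) ^ s * (t ^ (2 * s))⁻¹ = ((t / k) ^ (2 * s))⁻¹ := by
    rw [div_pow, inv_div, ← pow_mul]
    rfl
  have h4 : ∏ v : Fin n, ∑ ρ : Fin d → Option (Lab k), m3_w (D v) u x (t / k) ρ ≤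
      ∏ v, wwM k (D v) x t := by
    apply Finset.prod_le_prod
    · intro v _
      exact Finset.sum_nonneg fun ρ _ => m3_nonneg u h0 hx ha.le ρ
    · intro v _
      exact m3_bound hk (hD v) u h0 hs h2 x t hx ht
  rw [h3, le_inv_mul_iff₀ ha']
  refine le_trans ?_ h4
  rw [← m3_total, Finset.mul_sum]
  have h5 : ∑ c ∈ univ.filter (fun c : Pt n d → Option (Lab k) => ValidM c ∧ sgnM c true = s ∧
      sgnM c false = s ∧ ∀ p, c p ≠ none → (p.2 : ℕ) < D p.1),
        (t / k) ^ (2 * s) * (x ^ tchM c * ∏ p, uo u (c p)) =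
      ∑ c ∈ univ.filter (fun c : Pt n d → Option (Lab k) => ValidM c ∧ sgnM c true = s ∧
      sgnM c false = s ∧ ∀ p, c p ≠ none → (p.2 : ℕ) < D p.1),
        ∏ v : Fin n, m3_w (D v) u x (t / k) (fun i => c (v, i)) := by
    apply Finset.sum_congr rfl
    intro c hc
    obtain ⟨hv, hp, hm, hl⟩ := (Finset.mem_filter.mp hc).2
    rw [m3_valid u x (t / k) c hv hl, hp, hm, two_mul]
  rw [h5]
  exact Finset.sum_le_sum_of_subset_of_nonneg (Finset.subset_univ _)
    fun c _ _ => Finset.prod_nonneg fun v _ => m3_nonneg u h0 hx ha.le _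

end Pool.Agent.Lib.MP_d38209_co.CR
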