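import Pool.Agent.Lib.MP_d38209_co.CR.MPairCount
import Pool.Agent.Lib.MP_d38209_co.CR.MFac
import Pool.Agent.Lib.MP_d38209_co.CR.MGenFun

/-!
# MP4 : the mean of `YM`
-/

set_option autoImplicit false

namespace Pool.Agent.Lib.MP_d38209_co.CR

open Finset
open scoped Classical
open Pool.Agent.HC (Pairing av pr)

private lemma mp4_Y {n d k : ℕ} (σ : Pt n d → Pt n d) (x : ℝ) (s : ℕ) : YM k σ x s =
    ∑ c ∈ univ.filter (fun c : Pt n d → Option (Lab k) => ValidM c ∧ sgnM c true = s),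
      ((1 / (2 * k)) ^ s * x ^ tchM c) * (if CompM σ c then (1 : ℝ) else 0) := by
  unfold YM
  rw [Finset.sum_filter, Finset.sum_filter]
  refine Finset.sum_congr rfl fun c _ => ?_
  by_cases h1 : CompM σ c
  · by_cases h2 : ValidM c ∧ sgnM c true = s
    · rw [if_pos ⟨h1, h2⟩, if_pos h2, if_pos h1, mul_one]
    · rw [if_neg fun h => h2 h.2, if_neg h2]
  · rw [if_neg fun h => h1 h.1, if_neg h1, mul_zero, ite_self]

private lemma mp4_sgn {n d k : ℕ} (c : Pt n d → Option (Lab k)) (b : Bool) :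
    ∑ a, cntM c b a = sgnM c b := by
  unfold cntM sgnM
  rw [← Finset.card_biUnion]
  · refine congrArg Finset.card ?_
    ext p
    simp only [mem_biUnion, mem_filter, mem_univ, true_and]
  · intro a _ a' _ haa
    show Disjoint _ _
    rw [Finset.disjoint_left]
    intro p hp hp'
    simp only [mem_filter, mem_univ, true_and] at hp hp'
    rw [hp] at hp'
    exact haa (congrArg Prod.snd (Option.some.inj hp'))

/-- the weights belonging to the numbers `m` -/
private noncomputable def mp4_u {k : ℕ} (s : ℕ) (m : Fin k → ℕ) : Lab k → ℝ :=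
  fun l => Real.sqrt (k * (m l.2 : ℝ) / s)

private lemma mp4_u_nonneg {k : ℕ} (s : ℕ) (m : Fin k → ℕ) (l : Lab k) : 0 ≤ mp4_u s m l :=
  Real.sqrt_nonneg _

private lemma mp4_u_inv {k : ℕ} (s : ℕ) (m : Fin k → ℕ) (l : Lab k) :
    mp4_u s m (linv l) = mp4_u s m l := rfl

private lemma mp4_u_sq {k s : ℕ} (hs : 1 ≤ s) (m : Fin k → ℕ) (hm : ∑ a, m a = s) :
    ∑ l, mp4_u s m l ^ 2 = 2 * k := by
  have hs0 : (0 : ℝ) < s := by exact_mod_cast hs
  have h1 : ∀ l : Lab k, mp4_u s m l ^ 2 = k * (m l.2 : ℝ) / s := fun l =>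
    Real.sq_sqrt (by positivity)
  simp only [h1]
  rw [Fintype.sum_prod_type, Fintype.sum_bool]
  have h2 : ∑ a : Fin k, (k : ℝ) * (m a : ℝ) / s = k := by
    rw [← Finset.sum_div, ← Finset.mul_sum]
    have h3 : (∑ a, (m a : ℝ)) = s := by exact_mod_cast hm
    rw [h3, mul_div_assoc, div_self hs0.ne', mul_one]
  rw [h2]
  ring

/-- the product of the weights of the labels -/
private lemma mp4_prod {n d k : ℕ} (u : Lab k → ℝ) (c : Pt n d → Option (Lab k)) :
    ∏ p, uo u (c p) = ∏ a, (u (true, a) ^ cntM c true a * u (false, a) ^ cntM c false a) := by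
  have h1 : ∏ p, uo u (c p) = ∏ o : Option (Lab k),
      uo u o ^ (univ.filter fun p => c p = o).card := by
    have h2 := Finset.prod_fiberwise' (s := (univ : Finset (Pt n d))) (g := c)
      (f := fun o => uo u o)
    rw [← h2]
    refine Finset.prod_congr rfl fun o _ => ?_
    rw [Finset.prod_const]
  rw [h1, Fintype.prod_option]
  have h3 : uo u (none : Option (Lab k)) = 1 := rfl
  rw [h3, one_pow, one_mul, Fintype.prod_prod_type, Fintype.prod_bool, ← Finset.prod_mul_distrib]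
  rfl

private lemma mp4_key {n d k s : ℕ} (hs : 1 ≤ s) (c : Pt n d → Option (Lab k))
    (hb : ∀ a, cntM c false a = cntM c true a) (hc : sgnM c true = s) :
    (k : ℝ) ^ s * ∏ a, ((cntM c true a : ℝ) / s) ^ (cntM c true a) =
      ∏ p, uo (mp4_u s (cntM c true)) (c p) := by
  have hs0 : (0 : ℝ) < s := by exact_mod_cast hs
  have h1 : (k : ℝ) ^ s = ∏ a, (k : ℝ) ^ (cntM c true a) := by
    rw [Finset.prod_pow_eq_pow_sum, mp4_sgn, hc]
  rw [mp4_prod, h1, ← Finset.prod_mul_distrib]
  refine Finset.prod_congr rfl fun a _ => ?_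
  have h2 : mp4_u s (cntM c true) (false, a) = mp4_u s (cntM c true) (true, a) := rfl
  rw [hb a, h2, ← mul_pow, ← mul_pow]
  congr 1
  unfold mp4_u
  rw [Real.mul_self_sqrt (by positivity)]
  ring

/-! MP4 (CR/MMean.lean), uses MP1, MP2, MP3 -/
theorem mean_YM {n d k s : ℕ} (hk : 1 ≤ k) {D : Fin n → ℕ} (hD : ∀ v, D v ≤ d) (hs1 : 1 ≤ s)
    (hs : 2 * s ≤ ∑ v, D v) (x t : ℝ) (hx : 0 ≤ x) (ht : 0 < t) :
    av (fun π : Pairing (Live d D) => YM k (ext π) x s) ≤
      (6 * (s : ℝ) ^ 2) ^ k *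
        ((1 / 2) ^ s * ((s.factorial : ℝ) / ∏ i ∈ range s, ((∑ v, (D v : ℝ)) - 2 * i - 1)) *
          ((t ^ (2 * s))⁻¹ * ∏ v, wwM k (D v) x t)) := by
  have hk0 : (0 : ℝ) < k := by exact_mod_cast hk
  have hs0 : (1 : ℝ) ≤ s := by exact_mod_cast hs1
  have h1 : av (fun π : Pairing (Live d D) => YM k (ext π) x s) =
      ∑ c ∈ univ.filter (fun c : Pt n d → Option (Lab k) => ValidM c ∧ sgnM c true = s),
        ((1 / (2 * k)) ^ s * x ^ tchM c) * pr (fun π : Pairing (Live d D) => CompM (ext π) c) := by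
    rw [HC.av_congr fun π : Pairing (Live d D) => mp4_Y (ext π) x s, HC.av_sum]
    refine Finset.sum_congr rfl fun c _ => ?_
    rw [HC.av_mul_left]
    rfl
  have hP : 0 ≤ ∏ i ∈ range s, ((∑ v, (D v : ℝ)) - 2 * i - 1) := by
    refine Finset.prod_nonneg fun i hi => ?_
    have hi' : 2 * i + 1 ≤ ∑ v, D v := by have := Finset.mem_range.1 hi; omega
    have : (2 * (i : ℝ)) + 1 ≤ (∑ v, (D v : ℝ)) := by exact_mod_cast hi'
    linarith
  set P : ℝ := ∏ i ∈ range s, ((∑ v, (D v : ℝ)) - 2 * i - 1) with hPdef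
  -- the labellings which matter
  set G : Finset (Pt n d → Option (Lab k)) := univ.filter
    (fun c : Pt n d → Option (Lab k) => ValidM c ∧ sgnM c true = s ∧
      sgnM c false = s ∧ ∀ p, c p ≠ none → (p.2 : ℕ) < D p.1) with hG
  set M : Finset (Fin k → ℕ) := (Fintype.piFinset fun _ : Fin k => range (s + 1)).filter
    (fun m => ∑ a, m a = s) with hM
  set A : ℝ := (1 / (2 * k)) ^ s * ((3 * (s : ℝ)) ^ k * s.factorial / P) * ((k : ℝ) ^ s)⁻¹ with hA
  have hA0 : 0 ≤ A := by
    refine mul_nonneg (mul_nonneg (by positivity) (div_nonneg (by positivity) hP)) (by positivity)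
  set B : ℝ := ((k : ℝ) ^ 2) ^ s * (t ^ (2 * s))⁻¹ * ∏ v, wwM k (D v) x t with hB
  have hB0 : 0 ≤ B := by
    refine le_trans ?_ (genfunM (n := n) (d := d) (s := s) hk hD (fun _ => 1)
      (fun _ => zero_le_one) (fun _ => rfl) ?_ x t hx ht)
    · refine Finset.sum_nonneg fun c _ => mul_nonneg (by positivity)
        (Finset.prod_nonneg fun p _ => ?_)
      cases c p
      · exact zero_le_one
      · exact zero_le_one
    · simp only [one_pow]
      rw [Finset.sum_const, Finset.card_univ, Fintype.card_prod, Fintype.card_bool,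
        Fintype.card_fin, nsmul_eq_mul, mul_one]
      push_cast
      rfl
  have h2 : ∑ c ∈ univ.filter (fun c : Pt n d → Option (Lab k) => ValidM c ∧ sgnM c true = s),
        ((1 / (2 * k)) ^ s * x ^ tchM c) * pr (fun π : Pairing (Live d D) => CompM (ext π) c) ≤
      ∑ c ∈ univ.filter (fun c : Pt n d → Option (Lab k) => ValidM c ∧ sgnM c true = s),
        (if c ∈ G then A * ∑ m ∈ M, x ^ tchM c * ∏ p, uo (mp4_u s m) (c p) else 0) := by
    refine Finset.sum_le_sum fun c hc => ?_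
    obtain ⟨-, hV, hcs⟩ := Finset.mem_filter.1 hc
    have h3 := pr_compM hD hs c hcs
    by_cases h4 : (∀ a, cntM c false a = cntM c true a) ∧ ∀ p, c p ≠ none → (p.2 : ℕ) < D p.1
    · have hcG : c ∈ G := by
        refine Finset.mem_filter.2 ⟨mem_univ _, hV, hcs, ?_, h4.2⟩
        rw [← mp4_sgn, ← hcs, ← mp4_sgn]
        exact Finset.sum_congr rfl fun a _ => h4.1 a
      rw [if_pos h4, ← hPdef] at h3
      rw [if_pos hcG]
      have hcM : cntM c true ∈ M := by
        refine Finset.mem_filter.2 ⟨Fintype.mem_piFinset.2 fun a => ?_, ?_⟩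
        · rw [Finset.mem_range, Nat.lt_succ_iff, ← hcs, ← mp4_sgn]
          exact Finset.single_le_sum (f := fun a => cntM c true a) (fun _ _ => Nat.zero_le _)
            (mem_univ a)
        · rw [mp4_sgn, hcs]
      have h5 : x ^ tchM c * ∏ p, uo (mp4_u s (cntM c true)) (c p) ≤
          ∑ m ∈ M, x ^ tchM c * ∏ p, uo (mp4_u s m) (c p) := by
        refine Finset.single_le_sum (f := fun m => x ^ tchM c * ∏ p, uo (mp4_u s m) (c p))
          (fun m _ => mul_nonneg (by positivity) (Finset.prod_nonneg fun p _ => ?_)) hcM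
        cases c p
        · exact zero_le_one
        · exact mp4_u_nonneg _ _ _
      refine le_trans ?_ (mul_le_mul_of_nonneg_left h5 hA0)
      have h6 := fac_bound hs1 (cntM c true) (by rw [mp4_sgn, hcs])
      have h7 := mp4_key hs1 c h4.1 hcs
      rw [← h7]
      calc (1 / (2 * (k : ℝ))) ^ s * x ^ tchM c * pr (fun π : Pairing (Live d D) => CompM (ext π) c)
          ≤ (1 / (2 * (k : ℝ))) ^ s * x ^ tchM c *
            (((3 * (s : ℝ)) ^ k * s.factorial *
              ∏ a, ((cntM c true a : ℝ) / s) ^ (cntM c true a)) / P) := by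
            refine mul_le_mul_of_nonneg_left (h3.trans ?_) (by positivity)
            exact div_le_div_of_nonneg_right h6 hP
        _ = A * (x ^ tchM c * ((k : ℝ) ^ s *
              ∏ a, ((cntM c true a : ℝ) / s) ^ (cntM c true a))) := by
            rw [hA]
            have h8 : ((k : ℝ) ^ s)⁻¹ * (k : ℝ) ^ s = 1 :=
              inv_mul_cancel₀ (pow_pos hk0 s).ne'
            calc (1 / (2 * (k : ℝ))) ^ s * x ^ tchM c *
                (((3 * (s : ℝ)) ^ k * s.factorial *
                  ∏ a, ((cntM c true a : ℝ) / s) ^ (cntM c true a)) / P)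
                = (1 / (2 * (k : ℝ))) ^ s * ((3 * (s : ℝ)) ^ k * s.factorial / P) *
                  (x ^ tchM c * ∏ a, ((cntM c true a : ℝ) / s) ^ (cntM c true a)) := by ring
              _ = (1 / (2 * (k : ℝ))) ^ s * ((3 * (s : ℝ)) ^ k * s.factorial / P) *
                  (x ^ tchM c * ∏ a, ((cntM c true a : ℝ) / s) ^ (cntM c true a)) *
                  (((k : ℝ) ^ s)⁻¹ * (k : ℝ) ^ s) := by rw [h8, mul_one]
              _ = _ := by ring
    · rw [if_neg h4] at h3
      have h5 : (1 / (2 * (k : ℝ))) ^ s * x ^ tchM c *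
          pr (fun π : Pairing (Live d D) => CompM (ext π) c) ≤ 0 :=
        mul_nonpos_of_nonneg_of_nonpos (by positivity) h3
      refine h5.trans ?_
      split_ifs
      · refine mul_nonneg hA0 (Finset.sum_nonneg fun m _ => mul_nonneg (by positivity)
          (Finset.prod_nonneg fun p _ => ?_))
        cases c p
        · exact zero_le_one
        · exact mp4_u_nonneg _ _ _
      · exact le_rfl
  have h3 : ∑ c ∈ univ.filter (fun c : Pt n d → Option (Lab k) => ValidM c ∧ sgnM c true = s),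
        (if c ∈ G then A * ∑ m ∈ M, x ^ tchM c * ∏ p, uo (mp4_u s m) (c p) else 0) =
      A * ∑ m ∈ M, ∑ c ∈ G, x ^ tchM c * ∏ p, uo (mp4_u s m) (c p) := by
    rw [Finset.sum_comm, Finset.mul_sum, ← Finset.sum_filter]
    refine Finset.sum_congr ?_ fun c _ => rfl
    ext c
    simp only [hG, Finset.mem_filter, Finset.mem_univ, true_and]
    constructor
    · exact fun h => h.2
    · exact fun h => ⟨⟨h.1, h.2.1⟩, h⟩
  have h4 : ∑ m ∈ M, ∑ c ∈ G, x ^ tchM c * ∏ p, uo (mp4_u s m) (c p) ≤ (2 * (s : ℝ)) ^ k * B := by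
    have h5 : ∀ m ∈ M, ∑ c ∈ G, x ^ tchM c * ∏ p, uo (mp4_u s m) (c p) ≤ B := by
      intro m hm
      exact genfunM hk hD (mp4_u s m) (mp4_u_nonneg s m) (mp4_u_inv s m)
        (mp4_u_sq hs1 m (Finset.mem_filter.1 hm).2) x t hx ht
    have h6 : (M.card : ℝ) ≤ (2 * (s : ℝ)) ^ k := by
      have h7 : M.card ≤ (s + 1) ^ k := by
        refine (Finset.card_filter_le _ _).trans (le_of_eq ?_)
        rw [Fintype.card_piFinset, Finset.prod_const, Finset.card_range, Finset.card_univ,
          Fintype.card_fin]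
      calc (M.card : ℝ) ≤ ((s + 1 : ℕ) : ℝ) ^ k := by exact_mod_cast h7
        _ ≤ (2 * (s : ℝ)) ^ k := by
          refine pow_le_pow_left₀ (by positivity) ?_ _
          push_cast
          linarith
    calc ∑ m ∈ M, ∑ c ∈ G, x ^ tchM c * ∏ p, uo (mp4_u s m) (c p) ≤ ∑ _m ∈ M, B :=
          Finset.sum_le_sum h5
      _ = (M.card : ℝ) * B := by rw [Finset.sum_const, nsmul_eq_mul]
      _ ≤ (2 * (s : ℝ)) ^ k * B := mul_le_mul_of_nonneg_right h6 hB0
  rw [h1]
  refine h2.trans ?_
  rw [h3]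
  refine (mul_le_mul_of_nonneg_left h4 hA0).trans (le_of_eq ?_)
  rw [hA, hB]
  have h8 : (1 / (2 * (k : ℝ))) ^ s * ((k : ℝ) ^ s)⁻¹ * ((k : ℝ) ^ 2) ^ s = (1 / 2) ^ s := by
    rw [← inv_pow, ← mul_pow, ← mul_pow]
    congr 1
    field_simp
  calc (1 / (2 * (k : ℝ))) ^ s * ((3 * (s : ℝ)) ^ k * s.factorial / P) * ((k : ℝ) ^ s)⁻¹ *
        ((2 * (s : ℝ)) ^ k * (((k : ℝ) ^ 2) ^ s * (t ^ (2 * s))⁻¹ * ∏ v, wwM k (D v) x t))
      = ((3 * (s : ℝ)) ^ k * (2 * (s : ℝ)) ^ k) *
        (((1 / (2 * (k : ℝ))) ^ s * ((k : ℝ) ^ s)⁻¹ * ((k : ℝ) ^ 2) ^ s) *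
          ((s.factorial : ℝ) / P) * ((t ^ (2 * s))⁻¹ * ∏ v, wwM k (D v) x t)) := by ring
    _ = _ := by
        rw [h8, ← mul_pow]
        congr 2
        ring

theorem YM_zero {n d k s : ℕ} {D : Fin n → ℕ} (hD : ∀ v, D v ≤ d) (hs : ∑ v, D v < 2 * s) (x : ℝ)
    (π : Pairing (Live d D)) : YM k (ext π) x s = 0 := by
  unfold YM
  refine Finset.sum_eq_zero fun c hc => ?_
  exfalso
  obtain ⟨h1, _, h2⟩ := (Finset.mem_filter.1 hc).2
  -- a compatible labelling lives on the points in use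
  have hlive : ∀ p, c p ≠ none → (p.2 : ℕ) < D p.1 := by
    intro p hp
    by_contra hd
    have h3 := h1 p
    rw [ext_dead π hd] at h3
    apply hp
    rcases hc' : c p with _ | ⟨b, a⟩
    · rfl
    · rw [hc'] at h3
      have h4 : (b, a) = linv (b, a) := Option.some.inj h3
      have h5 : b = !b := congrArg Prod.fst h4
      cases b <;> simp at h5
  have hbal : sgnM c true ≤ sgnM c false := by
    unfold sgnM
    refine Finset.card_le_card_of_injOn (fun p => ext π p) ?_ ?_
    · intro p hp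
      have hp' := (Finset.mem_filter.1 hp).2
      obtain ⟨a, ha⟩ := hp'
      refine Finset.mem_coe.2 (Finset.mem_filter.2 ⟨mem_univ _, a, ?_⟩)
      rw [h1 p, ha]
      rfl
    · intro p _ q _ hpq
      have h3 := congrArg (ext π) hpq
      simp only [ext_inv] at h3
      exact h3
  have hcard : sgnM c true + sgnM c false ≤ ∑ v, D v := by
    rw [← card_live (n := n) (d := d) hD, Fintype.card_subtype]
    unfold sgnM
    rw [← Finset.card_union_of_disjoint]
    · refine Finset.card_le_card fun p hp => ?_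
      refine Finset.mem_filter.2 ⟨mem_univ _, hlive p ?_⟩
      rcases Finset.mem_union.1 hp with h3 | h3
      · obtain ⟨a, ha⟩ := (Finset.mem_filter.1 h3).2
        rw [ha]
        exact Option.some_ne_none _
      · obtain ⟨a, ha⟩ := (Finset.mem_filter.1 h3).2
        rw [ha]
        exact Option.some_ne_none _
    · rw [Finset.disjoint_left]
      intro p hp hq
      obtain ⟨a, ha⟩ := (Finset.mem_filter.1 hp).2
      obtain ⟨a', ha'⟩ := (Finset.mem_filter.1 hq).2
      rw [ha] at ha'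
      exact Bool.noConfusion (congrArg Prod.fst (Option.some.inj ha'))
  omega

end Pool.Agent.Lib.MP_d38209_co.CR
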