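import Pool.Agent.Lib.MP_d38209_co.CR.MDet
import Pool.Agent.Lib.MP_d38209_co.CR.MTail
import Pool.Agent.Lib.MP_d38209_co.CR.GMain

set_option autoImplicit false

/-!
# Almost all graphs with a given bounded degree sequence have no chromatic root with `|q - 1| ≥ ρ`:
version M
-/

namespace Pool.Agent.Lib.MP_d38209_co.CR

open Finset
open scoped Classical
open Pool.Agent.HC (Pairing av pr av_mono av_add av_div av_nonneg)

/-- the probability that a random pairing gives a graph with a large chromatic root -/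
theorem mm_pr {n d k : ℕ} (hk : 1 ≤ k) {D : Fin n → ℕ} (g : ℕ) (ρ ρ' : ℝ) (h2 : 2 * k < ρ')
    (h3 : ρ' ≤ ρ) (hg : ρ / (2 * k) ≤ (ρ / ρ') ^ (g + 1)) (η X Z K : ℝ) (hX : 0 < X) (hZ : 0 < Z)
    (hXZ : Z * Real.exp (3 * X) < 1)
    (hd : pr (fun π : Pairing (Live d D) => Dense (ext π) g) ≤ η)
    (hY1 : av (fun π : Pairing (Live d D) => ∑ s ∈ Icc 1 (n * d), YM k (ext π) (2 * k / ρ') s) ≤ K)
    (hK : ρ / (2 * k) * K / X ≤ η)
    (hY2 : av (fun π : Pairing (Live d D) => ∑ s ∈ Ioc g (n * d), YM k (ext π) (2 * k / ρ') s) ≤ η * Z) :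
    pr (fun π : Pairing (Live d D) => LGood π ∧ ∃ P : Polynomial ℂ,
      IsChromaticPolynomial (gr (ext π)) P ∧ ∃ q : ℂ, P.eval q = 0 ∧ ρ ≤ ‖q - 1‖) ≤ 3 * η := by
  have hk1 : (1 : ℝ) ≤ k := by exact_mod_cast hk
  have hρ' : 0 < ρ' := by linarith
  have hρ : 0 < ρ := by linarith
  have hYnn : ∀ (σ : Pt n d → Pt n d) (s : ℕ), 0 ≤ YM k σ (2 * k / ρ') s := by
    intro σ s
    unfold YM
    apply Finset.sum_nonneg
    intro c _
    positivity
  have key : ∀ π : Pairing (Live d D),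
      (if (LGood π ∧ ∃ P : Polynomial ℂ,
      IsChromaticPolynomial (gr (ext π)) P ∧ ∃ q : ℂ, P.eval q = 0 ∧ ρ ≤ ‖q - 1‖) then (1 : ℝ) else 0) ≤
      (if Dense (ext π) g then (1 : ℝ) else 0) +
        ((ρ / (2 * k) * ∑ s ∈ Icc 1 (n * d), YM k (ext π) (2 * k / ρ') s) / X +
          (∑ s ∈ Ioc g (n * d), YM k (ext π) (2 * k / ρ') s) / Z) := by
    intro π
    have n1 : 0 ≤ (ρ / (2 * k) * ∑ s ∈ Icc 1 (n * d), YM k (ext π) (2 * k / ρ') s) / X := by
      apply div_nonneg _ hX.le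
      apply mul_nonneg (by positivity)
      exact Finset.sum_nonneg fun s _ => hYnn _ _
    have n2 : 0 ≤ (∑ s ∈ Ioc g (n * d), YM k (ext π) (2 * k / ρ') s) / Z := by
      apply div_nonneg _ hZ.le
      exact Finset.sum_nonneg fun s _ => hYnn _ _
    by_cases hbad : LGood π ∧ ∃ P : Polynomial ℂ,
      IsChromaticPolynomial (gr (ext π)) P ∧ ∃ q : ℂ, P.eval q = 0 ∧ ρ ≤ ‖q - 1‖
    · rw [if_pos hbad]
      obtain ⟨hgood, P, hP, q, hPq, hq⟩ := hbad
      by_cases hD : Dense (ext π) g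
      · rw [if_pos hD]
        linarith
      · rw [if_neg hD]
        by_cases hc1 : ρ / (2 * k) * ∑ s ∈ Icc 1 (n * d), YM k (ext π) (2 * k / ρ') s ≤ X
        · by_cases hc2 : ∑ s ∈ Ioc g (n * d), YM k (ext π) (2 * k / ρ') s ≤ Z
          · exact absurd hPq (detM hk hgood.wgood g ρ ρ' h2 h3 hg hD X Z hc1 hc2 hXZ P hP q hq)
          · have : 1 ≤ (∑ s ∈ Ioc g (n * d), YM k (ext π) (2 * k / ρ') s) / Z := by
              rw [one_le_div hZ]
              exact (not_le.1 hc2).le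
            linarith
        · have : 1 ≤ (ρ / (2 * k) * ∑ s ∈ Icc 1 (n * d), YM k (ext π) (2 * k / ρ') s) / X := by
            rw [one_le_div hX]
            exact (not_le.1 hc1).le
          linarith
    · rw [if_neg hbad]
      by_cases hD : Dense (ext π) g
      · rw [if_pos hD]
        linarith
      · rw [if_neg hD]
        linarith
  have h4 : pr (fun π : Pairing (Live d D) => LGood π ∧ ∃ P : Polynomial ℂ,
      IsChromaticPolynomial (gr (ext π)) P ∧ ∃ q : ℂ, P.eval q = 0 ∧ ρ ≤ ‖q - 1‖) ≤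
      av (fun π : Pairing (Live d D) => (if Dense (ext π) g then (1 : ℝ) else 0) +
        ((ρ / (2 * k) * ∑ s ∈ Icc 1 (n * d), YM k (ext π) (2 * k / ρ') s) / X +
          (∑ s ∈ Ioc g (n * d), YM k (ext π) (2 * k / ρ') s) / Z)) := by
    unfold pr
    refine av_mono fun π => le_trans (le_of_eq ?_) (key π)
    congr
  refine h4.trans ?_
  rw [av_add, av_add, av_div, av_div, Pool.Agent.HC.av_mul_left]
  have e1 : av (fun π : Pairing (Live d D) => (if Dense (ext π) g then (1 : ℝ) else 0)) ≤ η := hd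
  have e2 : ρ / (2 * k) * av (fun π : Pairing (Live d D) =>
      ∑ s ∈ Icc 1 (n * d), YM k (ext π) (2 * k / ρ') s) / X ≤ η := by
    refine le_trans ?_ hK
    apply div_le_div_of_nonneg_right _ hX.le
    exact mul_le_mul_of_nonneg_left hY1 (by positivity)
  have e3 : av (fun π : Pairing (Live d D) =>
      ∑ s ∈ Ioc g (n * d), YM k (ext π) (2 * k / ρ') s) / Z ≤ η := by
    rw [div_le_iff₀ hZ]
    exact hY2
  linarith

/-- Almost all graphs with a given bounded degree sequence have no chromatic root with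
`|q - 1| ≥ ρ`. -/
theorem mainM {d k : ℕ} (hd : 1 ≤ d) (hk : 1 ≤ k) (ρ ρ' c : ℝ) (h2 : 2 * k < ρ') (h3 : ρ' < ρ)
    (hc : 0 < c) (hC : ∀ j, 1 ≤ j → j ≤ d → CondM k j (2 * k / ρ') c) (ε : ℝ) (hε : 0 < ε) :
    ∃ N₀ : ℕ, ∀ (n : ℕ) (D : Fin n → ℕ), (∀ v, D v ≤ d) → N₀ ≤ ∑ v, D v →
      (Nat.card {G : SimpleGraph (Fin n) // (∀ v, Nat.card (G.neighborSet v) = D v) ∧
        ∃ P : Polynomial ℂ, IsChromaticPolynomial G P ∧ ∃ q : ℂ, P.eval q = 0 ∧ ρ ≤ ‖q - 1‖} : ℝ) ≤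
      ε * Nat.card {G : SimpleGraph (Fin n) // ∀ v, Nat.card (G.neighborSet v) = D v} := by
  have hk1 : (1 : ℝ) ≤ k := by exact_mod_cast hk
  have hρ' : 0 < ρ' := by linarith
  have hρ : 0 < ρ := by linarith
  obtain ⟨a, n1, ha, hT⟩ := transferG d hd
  obtain ⟨K₁, hY1, hY2⟩ := tailM hd hk (2 * k / ρ') c (by positivity) hc hC
  set η : ℝ := a * ε / 3 with hη
  have hη0 : 0 < η := by positivity
  set K : ℝ := max K₁ 0 + 1 with hK
  have hK0 : 0 < K := by
    have := le_max_right K₁ 0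
    linarith
  have hK1 : K₁ ≤ K := by
    have := le_max_left K₁ 0
    linarith
  set X : ℝ := ρ / (2 * k) * K / η with hX
  have hX0 : 0 < X := by positivity
  set Z : ℝ := Real.exp (-(3 * X)) / 2 with hZ
  have hZ0 : 0 < Z := by positivity
  have hXZ : Z * Real.exp (3 * X) < 1 := by
    rw [hZ, div_mul_eq_mul_div, ← Real.exp_add, neg_add_cancel, Real.exp_zero]
    norm_num
  have hKX : ρ / (2 * k) * K₁ / X ≤ η := by
    rw [div_le_iff₀ hX0, hX]
    have : η * (ρ / (2 * k) * K / η) = ρ / (2 * k) * K := by field_simp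
    rw [this]
    exact mul_le_mul_of_nonneg_left hK1 (by positivity)
  obtain ⟨g0, hg0⟩ := hY2 (η * Z) (by positivity)
  have hone : 1 < ρ / ρ' := by rwa [one_lt_div hρ']
  obtain ⟨g1, hg1⟩ := ((tendsto_pow_atTop_atTop_of_one_lt hone).eventually_ge_atTop
    (ρ / (2 * k))).exists_forall_of_atTop
  set g := max g0 g1 with hg
  obtain ⟨n3, hn3⟩ := hg0 g (le_max_left _ _)
  obtain ⟨n4, hn4⟩ := dense_probG d hd g η hη0
  have hgg : ρ / (2 * k) ≤ (ρ / ρ') ^ (g + 1) :=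
    hg1 (g + 1) (le_trans (le_max_right g0 g1) (Nat.le_succ _))
  refine ⟨max n1 (max n3 n4), ?_⟩
  intro n D hD hn
  have hn1 : n1 ≤ ∑ v, D v := le_trans (le_max_left _ _) hn
  have hn3' : n3 ≤ ∑ v, D v := le_trans (le_trans (le_max_left _ _) (le_max_right _ _)) hn
  have hn4' : n4 ≤ ∑ v, D v := le_trans (le_trans (le_max_right _ _) (le_max_right _ _)) hn
  by_cases hev : Even (∑ v, D v)
  · have hpr := mm_pr (n := n) (d := d) hk (D := D) g ρ ρ' h2 h3.le hgg η X Z K₁ hX0 hZ0 hXZ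
      (hn4 n D hD hn4' hev) (hY1 n D hD hev) hKX (hn3 n D hD hn3' hev)
    have h5 := hT n D hD hn1 hev (fun G => ∃ P : Polynomial ℂ, IsChromaticPolynomial G P ∧
      ∃ q : ℂ, P.eval q = 0 ∧ ρ ≤ ‖q - 1‖)
    have h6 : a * (Nat.card {G : SimpleGraph (Fin n) //
        (∀ v, Nat.card (G.neighborSet v) = D v) ∧
        ∃ P : Polynomial ℂ, IsChromaticPolynomial G P ∧ ∃ q : ℂ, P.eval q = 0 ∧
          ρ ≤ ‖q - 1‖} : ℝ) ≤
      (Nat.card {G : SimpleGraph (Fin n) // ∀ v, Nat.card (G.neighborSet v) = D v} : ℝ) *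
        (3 * η) :=
      h5.trans (mul_le_mul_of_nonneg_left hpr (Nat.cast_nonneg _))
    have h7 : 3 * η = a * ε := by rw [hη]; ring
    rw [h7] at h6
    have h8 : a * (Nat.card {G : SimpleGraph (Fin n) //
        (∀ v, Nat.card (G.neighborSet v) = D v) ∧
        ∃ P : Polynomial ℂ, IsChromaticPolynomial G P ∧ ∃ q : ℂ, P.eval q = 0 ∧
          ρ ≤ ‖q - 1‖} : ℝ) ≤ a * (ε *
      (Nat.card {G : SimpleGraph (Fin n) // ∀ v, Nat.card (G.neighborSet v) = D v} : ℝ)) := by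
      refine h6.trans (le_of_eq ?_)
      ring
    exact le_of_mul_le_mul_left h8 ha
  · have h5 : IsEmpty {G : SimpleGraph (Fin n) // (∀ v, Nat.card (G.neighborSet v) = D v) ∧
        ∃ P : Polynomial ℂ, IsChromaticPolynomial G P ∧ ∃ q : ℂ, P.eval q = 0 ∧
          ρ ≤ ‖q - 1‖} :=
      ⟨fun G => gm_odd hev G.1 G.2.1⟩
    rw [Nat.card_of_isEmpty, Nat.cast_zero]
    positivity

end Pool.Agent.Lib.MP_d38209_co.CR
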