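import Pool.Agent.Lib.MP_d38209_co.CR.MDefs

/-!
# The numerical conditions of Theorem M (Bernstein coefficients on a few intervals)
-/

set_option autoImplicit false

namespace Pool.Agent.Lib.MP_d38209_co.CR

theorem mn_3_1_pos (r : ℝ) (hr : 0 ≤ r) : 0 ≤ (9999/10000 : ℝ) * r ^ 0 := by
  rcases le_total r (2 : ℝ) with h0 | h0
  · have e : (9999/10000 : ℝ) * r ^ 0 = (9999/10000 : ℝ) * ((r - (0 : ℝ)) ^ 0 * ((2 : ℝ) - r) ^ 0) := by ring
    have u : 0 ≤ r - (0 : ℝ) := by linarith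
    have v : 0 ≤ (2 : ℝ) - r := by linarith
    rw [e]
    positivity
  have e : (9999/10000 : ℝ) * r ^ 0 = (9999/10000 : ℝ) * (r - (2 : ℝ)) ^ 0 := by ring
  have u : 0 ≤ r - (2 : ℝ) := by linarith
  rw [e]
  positivity

theorem mn_3_1 : CondM 1 1 (2 / (2465 / 1000)) (1 / 10000) := by
  intro r hr
  have h := mn_3_1_pos r hr
  have e : (1 + r ^ 2) ^ 1 - (wwM 1 1 (2 / (2465 / 1000)) (r / 2) ^ 2 + (1 / 10000) * r ^ 2 * (1 + r ^ 2) ^ (1 - 1)) =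
      r ^ 2 * ((9999/10000 : ℝ) * r ^ 0) := by
    unfold wwM
    norm_num
    ring
  have h2 := mul_nonneg (sq_nonneg r) h
  rw [← e] at h2
  linarith

theorem mn_3_2_pos (r : ℝ) (hr : 0 ≤ r) : 0 ≤ (5859507/4930000 : ℝ) * r ^ 0 + (0 : ℝ) * r ^ 1 + (2030246951/2430490000 : ℝ) * r ^ 2 := by
  rcases le_total r (2 : ℝ) with h0 | h0
  · have e : (5859507/4930000 : ℝ) * r ^ 0 + (0 : ℝ) * r ^ 1 + (2030246951/2430490000 : ℝ) * r ^ 2 = (5859507/19720000 : ℝ) * ((r - (0 : ℝ)) ^ 0 * ((2 : ℝ) - r) ^ 2) + (5859507/9860000 : ℝ) * ((r - (0 : ℝ)) ^ 1 * ((2 : ℝ) - r) ^ 1) + (2201944951/1944392000 : ℝ) * ((r - (0 : ℝ)) ^ 2 * ((2 : ℝ) - r) ^ 0) := by ring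
    have u : 0 ≤ r - (0 : ℝ) := by linarith
    have v : 0 ≤ (2 : ℝ) - r := by linarith
    rw [e]
    positivity
  have e : (5859507/4930000 : ℝ) * r ^ 0 + (0 : ℝ) * r ^ 1 + (2030246951/2430490000 : ℝ) * r ^ 2 = (2201944951/486098000 : ℝ) * (r - (2 : ℝ)) ^ 0 + (2030246951/607622500 : ℝ) * (r - (2 : ℝ)) ^ 1 + (2030246951/2430490000 : ℝ) * (r - (2 : ℝ)) ^ 2 := by ring
  have u : 0 ≤ r - (2 : ℝ) := by linarith
  rw [e]
  positivity

theorem mn_3_2 : CondM 1 2 (2 / (2465 / 1000)) (1 / 10000) := by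
  intro r hr
  have h := mn_3_2_pos r hr
  have e : (1 + r ^ 2) ^ 2 - (wwM 1 2 (2 / (2465 / 1000)) (r / 2) ^ 2 + (1 / 10000) * r ^ 2 * (1 + r ^ 2) ^ (2 - 1)) =
      r ^ 2 * ((5859507/4930000 : ℝ) * r ^ 0 + (0 : ℝ) * r ^ 1 + (2030246951/2430490000 : ℝ) * r ^ 2) := by
    unfold wwM
    norm_num
    ring
  have h2 := mul_nonneg (sq_nonneg r) h
  rw [← e] at h2
  linarith

theorem mn_3_3_pos (r : ℝ) (hr : 0 ≤ r) : 0 ≤ (2789507/4930000 : ℝ) * r ^ 0 + (-600/493 : ℝ) * r ^ 1 + (1845491951/1215245000 : ℝ) * r ^ 2 + (-360000/243049 : ℝ) * r ^ 3 + (1530246951/2430490000 : ℝ) * r ^ 4 := by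
  rcases le_total r (15/16 : ℝ) with h0 | h0
  · have e : (2789507/4930000 : ℝ) * r ^ 0 + (-600/493 : ℝ) * r ^ 1 + (1845491951/1215245000 : ℝ) * r ^ 2 + (-360000/243049 : ℝ) * r ^ 3 + (1530246951/2430490000 : ℝ) * r ^ 4 = (11425820672/15598828125 : ℝ) * ((r - (0 : ℝ)) ^ 0 * ((15/16 : ℝ) - r) ^ 4) + (22663282688/15598828125 : ℝ) * ((r - (0 : ℝ)) ^ 1 * ((15/16 : ℝ) - r) ^ 3) + (4336319864992/2563407421875 : ℝ) * ((r - (0 : ℝ)) ^ 2 * ((15/16 : ℝ) - r) ^ 2) + (2880642459584/7690222265625 : ℝ) * ((r - (0 : ℝ)) ^ 3 * ((15/16 : ℝ) - r) ^ 1) + (4056778110311/123043556250000 : ℝ) * ((r - (0 : ℝ)) ^ 4 * ((15/16 : ℝ) - r) ^ 0) := by ring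
    have u : 0 ≤ r - (0 : ℝ) := by linarith
    have v : 0 ≤ (15/16 : ℝ) - r := by linarith
    rw [e]
    positivity
  rcases le_total r (5/4 : ℝ) with h1 | h1
  · have e : (2789507/4930000 : ℝ) * r ^ 0 + (-600/493 : ℝ) * r ^ 1 + (1845491951/1215245000 : ℝ) * r ^ 2 + (-360000/243049 : ℝ) * r ^ 3 + (1530246951/2430490000 : ℝ) * r ^ 4 = (4056778110311/1519056250000 : ℝ) * ((r - (15/16 : ℝ)) ^ 0 * ((5/4 : ℝ) - r) ^ 4) + (392045216909/94941015625 : ℝ) * ((r - (15/16 : ℝ)) ^ 1 * ((5/4 : ℝ) - r) ^ 3) + (309102082426/94941015625 : ℝ) * ((r - (15/16 : ℝ)) ^ 2 * ((5/4 : ℝ) - r) ^ 2) + (723566299984/94941015625 : ℝ) * ((r - (15/16 : ℝ)) ^ 3 * ((5/4 : ℝ) - r) ^ 1) + (612736074096/94941015625 : ℝ) * ((r - (15/16 : ℝ)) ^ 4 * ((5/4 : ℝ) - r) ^ 0) := by ring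
    have u : 0 ≤ r - (15/16 : ℝ) := by linarith
    have v : 0 ≤ (5/4 : ℝ) - r := by linarith
    rw [e]
    positivity
  have e : (2789507/4930000 : ℝ) * r ^ 0 + (-600/493 : ℝ) * r ^ 1 + (1845491951/1215245000 : ℝ) * r ^ 2 + (-360000/243049 : ℝ) * r ^ 3 + (1530246951/2430490000 : ℝ) * r ^ 4 = (38296004631/622205440000 : ℝ) * (r - (5/4 : ℝ)) ^ 0 + (4318444991/7777568000 : ℝ) * (r - (5/4 : ℝ)) ^ 1 + (36296392541/19443920000 : ℝ) * (r - (5/4 : ℝ)) ^ 2 + (810246951/486098000 : ℝ) * (r - (5/4 : ℝ)) ^ 3 + (1530246951/2430490000 : ℝ) * (r - (5/4 : ℝ)) ^ 4 := by ring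
  have u : 0 ≤ r - (5/4 : ℝ) := by linarith
  rw [e]
  positivity

theorem mn_3_3 : CondM 1 3 (2 / (2465 / 1000)) (1 / 10000) := by
  intro r hr
  have h := mn_3_3_pos r hr
  have e : (1 + r ^ 2) ^ 3 - (wwM 1 3 (2 / (2465 / 1000)) (r / 2) ^ 2 + (1 / 10000) * r ^ 2 * (1 + r ^ 2) ^ (3 - 1)) =
      r ^ 2 * ((2789507/4930000 : ℝ) * r ^ 0 + (-600/493 : ℝ) * r ^ 1 + (1845491951/1215245000 : ℝ) * r ^ 2 + (-360000/243049 : ℝ) * r ^ 3 + (1530246951/2430490000 : ℝ) * r ^ 4) := by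
    unfold wwM
    norm_num
    ring
  have h2 := mul_nonneg (sq_nonneg r) h
  rw [← e] at h2
  linarith

theorem condM3 : ∃ c > 0, ∀ j, 1 ≤ j → j ≤ 3 → CondM 1 j (2 / (2465 / 1000)) c := by
  refine ⟨1 / 10000, by norm_num, fun j hj1 hj2 => ?_⟩
  interval_cases j
  · exact mn_3_1
  · exact mn_3_2
  · exact mn_3_3

theorem mn_4_1_pos (r : ℝ) (hr : 0 ≤ r) : 0 ≤ (9999/10000 : ℝ) * r ^ 0 := by
  rcases le_total r (2 : ℝ) with h0 | h0
  · have e : (9999/10000 : ℝ) * r ^ 0 = (9999/10000 : ℝ) * ((r - (0 : ℝ)) ^ 0 * ((2 : ℝ) - r) ^ 0) := by ring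
    have u : 0 ≤ r - (0 : ℝ) := by linarith
    have v : 0 ≤ (2 : ℝ) - r := by linarith
    rw [e]
    positivity
  have e : (9999/10000 : ℝ) * r ^ 0 = (9999/10000 : ℝ) * (r - (2 : ℝ)) ^ 0 := by ring
  have u : 0 ≤ r - (2 : ℝ) := by linarith
  rw [e]
  positivity

theorem mn_4_1 : CondM 2 1 (4 / (4117 / 1000)) (1 / 10000) := by
  intro r hr
  have h := mn_4_1_pos r hr
  have e : (1 + r ^ 2) ^ 1 - (wwM 2 1 (4 / (4117 / 1000)) (r / 2) ^ 2 + (1 / 10000) * r ^ 2 * (1 + r ^ 2) ^ (1 - 1)) =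
      r ^ 2 * ((9999/10000 : ℝ) * r ^ 0) := by
    unfold wwM
    norm_num
    ring
  have h2 := mul_nonneg (sq_nonneg r) h
  rw [← e] at h2
  linarith

theorem mn_4_2_pos (r : ℝ) (hr : 0 ≤ r) : 0 ≤ (62335883/41170000 : ℝ) * r ^ 0 + (0 : ℝ) * r ^ 1 + (159479940311/169496890000 : ℝ) * r ^ 2 := by
  rcases le_total r (2 : ℝ) with h0 | h0
  · have e : (62335883/41170000 : ℝ) * r ^ 0 + (0 : ℝ) * r ^ 1 + (159479940311/169496890000 : ℝ) * r ^ 2 = (62335883/164680000 : ℝ) * ((r - (0 : ℝ)) ^ 0 * ((2 : ℝ) - r) ^ 2) + (62335883/82340000 : ℝ) * ((r - (0 : ℝ)) ^ 1 * ((2 : ℝ) - r) ^ 1) + (178911318311/135597512000 : ℝ) * ((r - (0 : ℝ)) ^ 2 * ((2 : ℝ) - r) ^ 0) := by ring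
    have u : 0 ≤ r - (0 : ℝ) := by linarith
    have v : 0 ≤ (2 : ℝ) - r := by linarith
    rw [e]
    positivity
  have e : (62335883/41170000 : ℝ) * r ^ 0 + (0 : ℝ) * r ^ 1 + (159479940311/169496890000 : ℝ) * r ^ 2 = (178911318311/33899378000 : ℝ) * (r - (2 : ℝ)) ^ 0 + (159479940311/42374222500 : ℝ) * (r - (2 : ℝ)) ^ 1 + (159479940311/169496890000 : ℝ) * (r - (2 : ℝ)) ^ 2 := by ring
  have u : 0 ≤ r - (2 : ℝ) := by linarith
  rw [e]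
  positivity

theorem mn_4_2 : CondM 2 2 (4 / (4117 / 1000)) (1 / 10000) := by
  intro r hr
  have h := mn_4_2_pos r hr
  have e : (1 + r ^ 2) ^ 2 - (wwM 2 2 (4 / (4117 / 1000)) (r / 2) ^ 2 + (1 / 10000) * r ^ 2 * (1 + r ^ 2) ^ (2 - 1)) =
      r ^ 2 * ((62335883/41170000 : ℝ) * r ^ 0 + (0 : ℝ) * r ^ 1 + (159479940311/169496890000 : ℝ) * r ^ 2) := by
    unfold wwM
    norm_num
    ring
  have h2 := mul_nonneg (sq_nonneg r) h
  rw [← e] at h2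
  linarith

theorem mn_4_3_pos (r : ℝ) (hr : 0 ≤ r) : 0 ≤ (63505883/41170000 : ℝ) * r ^ 0 + (-2500/4117 : ℝ) * r ^ 1 + (209228385311/84748445000 : ℝ) * r ^ 2 + (-7500000/16949689 : ℝ) * r ^ 3 + (153854940311/169496890000 : ℝ) * r ^ 4 := by
  rcases le_total r (2 : ℝ) with h0 | h0
  · have e : (63505883/41170000 : ℝ) * r ^ 0 + (-2500/4117 : ℝ) * r ^ 1 + (209228385311/84748445000 : ℝ) * r ^ 2 + (-7500000/16949689 : ℝ) * r ^ 3 + (153854940311/169496890000 : ℝ) * r ^ 4 = (63505883/658720000 : ℝ) * ((r - (0 : ℝ)) ^ 0 * ((2 : ℝ) - r) ^ 4) + (51005883/164680000 : ℝ) * ((r - (0 : ℝ)) ^ 1 * ((2 : ℝ) - r) ^ 3) + (1312499702177/1355975120000 : ℝ) * ((r - (0 : ℝ)) ^ 2 * ((2 : ℝ) - r) ^ 2) + (158795952311/135597512000 : ℝ) * ((r - (0 : ℝ)) ^ 3 * ((2 : ℝ) - r) ^ 1) + (143644393911/108478009600 : ℝ) * ((r - (0 : ℝ)) ^ 4 * ((2 : ℝ) - r) ^ 0) := by ring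
    have u : 0 ≤ r - (0 : ℝ) := by linarith
    have v : 0 ≤ (2 : ℝ) - r := by linarith
    rw [e]
    positivity
  have e : (63505883/41170000 : ℝ) * r ^ 0 + (-2500/4117 : ℝ) * r ^ 1 + (209228385311/84748445000 : ℝ) * r ^ 2 + (-7500000/16949689 : ℝ) * r ^ 3 + (153854940311/169496890000 : ℝ) * r ^ 4 = (143644393911/6779875600 : ℝ) * (r - (2 : ℝ)) ^ 0 + (139856504311/4237422250 : ℝ) * (r - (2 : ℝ)) ^ 1 + (1830487669043/84748445000 : ℝ) * (r - (2 : ℝ)) ^ 2 + (144479940311/21187111250 : ℝ) * (r - (2 : ℝ)) ^ 3 + (153854940311/169496890000 : ℝ) * (r - (2 : ℝ)) ^ 4 := by ring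
  have u : 0 ≤ r - (2 : ℝ) := by linarith
  rw [e]
  positivity

theorem mn_4_3 : CondM 2 3 (4 / (4117 / 1000)) (1 / 10000) := by
  intro r hr
  have h := mn_4_3_pos r hr
  have e : (1 + r ^ 2) ^ 3 - (wwM 2 3 (4 / (4117 / 1000)) (r / 2) ^ 2 + (1 / 10000) * r ^ 2 * (1 + r ^ 2) ^ (3 - 1)) =
      r ^ 2 * ((63505883/41170000 : ℝ) * r ^ 0 + (-2500/4117 : ℝ) * r ^ 1 + (209228385311/84748445000 : ℝ) * r ^ 2 + (-7500000/16949689 : ℝ) * r ^ 3 + (153854940311/169496890000 : ℝ) * r ^ 4) := by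
    unfold wwM
    norm_num
    ring
  have h2 := mul_nonneg (sq_nonneg r) h
  rw [← e] at h2
  linarith

theorem mn_4_4_pos (r : ℝ) (hr : 0 ≤ r) : 0 ≤ (44675883/41170000 : ℝ) * r ^ 0 + (-10000/4117 : ℝ) * r ^ 1 + (548859240933/169496890000 : ℝ) * r ^ 2 + (-60000000/16949689 : ℝ) * r ^ 3 + (270436710933/169496890000 : ℝ) * r ^ 4 + (-13125000/16949689 : ℝ) * r ^ 5 + (152253377811/169496890000 : ℝ) * r ^ 6 := by
  rcases le_total r (25/32 : ℝ) with h0 | h0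
  · have e : (44675883/41170000 : ℝ) * r ^ 0 + (-10000/4117 : ℝ) * r ^ 1 + (548859240933/169496890000 : ℝ) * r ^ 2 + (-60000000/16949689 : ℝ) * r ^ 3 + (270436710933/169496890000 : ℝ) * r ^ 4 + (-13125000/16949689 : ℝ) * r ^ 5 + (152253377811/169496890000 : ℝ) * r ^ 6 = (2998147756326912/628204345703125 : ℝ) * ((r - (0 : ℝ)) ^ 0 * ((25/32 : ℝ) - r) ^ 6) + (12746006537961472/628204345703125 : ℝ) * ((r - (0 : ℝ)) ^ 1 * ((25/32 : ℝ) - r) ^ 5) + (19941440880116826112/517263458251953125 : ℝ) * ((r - (0 : ℝ)) ^ 2 * ((25/32 : ℝ) - r) ^ 4) + (20348642938084130816/517263458251953125 : ℝ) * ((r - (0 : ℝ)) ^ 3 * ((25/32 : ℝ) - r) ^ 3) + (10669961983397506112/517263458251953125 : ℝ) * ((r - (0 : ℝ)) ^ 4 * ((25/32 : ℝ) - r) ^ 2) + (9419018095400100224/2586317291259765625 : ℝ) * ((r - (0 : ℝ)) ^ 5 * ((25/32 : ℝ) - r) ^ 1) + (8965683972955899139/41381076660156250000 : ℝ) * ((r -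 (0 : ℝ)) ^ 6 * ((25/32 : ℝ) - r) ^ 0) := by ring
    have u : 0 ≤ r - (0 : ℝ) := by linarith
    have v : 0 ≤ (25/32 : ℝ) - r := by linarith
    rw [e]
    positivity
  rcases le_total r (15/16 : ℝ) with h1 | h1
  · have e : (44675883/41170000 : ℝ) * r ^ 0 + (-10000/4117 : ℝ) * r ^ 1 + (548859240933/169496890000 : ℝ) * r ^ 2 + (-60000000/16949689 : ℝ) * r ^ 3 + (270436710933/169496890000 : ℝ) * r ^ 4 + (-13125000/16949689 : ℝ) * r ^ 5 + (152253377811/169496890000 : ℝ) * r ^ 6 = (8965683972955899139/2648388906250000 : ℝ) * ((r - (25/32 : ℝ)) ^ 0 * ((15/16 : ℝ) - r) ^ 6) + (8603016675000538271/662097226562500 : ℝ) * ((r - (25/32 : ℝ)) ^ 1 * ((15/16 : ℝ) - r) ^ 5) + (2347875236551875833/132419445312500 : ℝ) * ((r - (25/32 : ℝ)) ^ 2 * ((15/16 : ℝ) - r) ^ 4) + (333664610674138826/33104861328125 : ℝ) * ((r - (25/32 : ℝ)) ^ 3 * ((15/16 : ℝ) - r) ^ 3) + (108836871398246377/33104861328125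 : ℝ) * ((r - (25/32 : ℝ)) ^ 4 * ((15/16 : ℝ) - r) ^ 2) + (434776618415606524/165524306640625 : ℝ) * ((r - (25/32 : ℝ)) ^ 5 * ((15/16 : ℝ) - r) ^ 1) + (214618874484883404/165524306640625 : ℝ) * ((r - (25/32 : ℝ)) ^ 6 * ((15/16 : ℝ) - r) ^ 0) := by ring
    have u : 0 ≤ r - (25/32 : ℝ) := by linarith
    have v : 0 ≤ (15/16 : ℝ) - r := by linarith
    rw [e]
    positivity
  rcases le_total r (5/4 : ℝ) with h2 | h2
  · have e : (44675883/41170000 : ℝ) * r ^ 0 + (-10000/4117 : ℝ) * r ^ 1 + (548859240933/169496890000 : ℝ) * r ^ 2 + (-60000000/16949689 : ℝ) * r ^ 3 + (270436710933/169496890000 : ℝ) * r ^ 4 + (-13125000/16949689 : ℝ) * r ^ 5 + (152253377811/169496890000 : ℝ) * r ^ 6 = (53654718621220851/2648388906250000 : ℝ) * ((r - (15/16 : ℝ)) ^ 0 * ((5/4 : ℝ) - r) ^ 6) + (93549578246771507/331048613281250 : ℝ) * ((r - (15/16 : ℝ)) ^ 1 * ((5/4 : ℝ) - r) ^ 5) + (56584334159237473/33104861328125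 : ℝ) * ((r - (15/16 : ℝ)) ^ 2 * ((5/4 : ℝ) - r) ^ 4) + (157527080048879504/33104861328125 : ℝ) * ((r - (15/16 : ℝ)) ^ 3 * ((5/4 : ℝ) - r) ^ 3) + (219889451728623248/33104861328125 : ℝ) * ((r - (15/16 : ℝ)) ^ 4 * ((5/4 : ℝ) - r) ^ 2) + (756187746260652416/165524306640625 : ℝ) * ((r - (15/16 : ℝ)) ^ 5 * ((5/4 : ℝ) - r) ^ 1) + (205024271214574336/165524306640625 : ℝ) * ((r - (15/16 : ℝ)) ^ 6 * ((5/4 : ℝ) - r) ^ 0) := by ring
    have u : 0 ≤ r - (15/16 : ℝ) := by linarith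
    have v : 0 ≤ (5/4 : ℝ) - r := by linarith
    rw [e]
    positivity
  have e : (44675883/41170000 : ℝ) * r ^ 0 + (-10000/4117 : ℝ) * r ^ 1 + (548859240933/169496890000 : ℝ) * r ^ 2 + (-60000000/16949689 : ℝ) * r ^ 3 + (270436710933/169496890000 : ℝ) * r ^ 4 + (-13125000/16949689 : ℝ) * r ^ 5 + (152253377811/169496890000 : ℝ) * r ^ 6 = (800876059431931/694259261440000 : ℝ) * (r - (5/4 : ℝ)) ^ 0 + (148111837820873/17356481536000 : ℝ) * (r - (5/4 : ℝ)) ^ 1 + (984681488896173/43391203840000 : ℝ) * (r - (5/4 : ℝ)) ^ 2 + (14876159601303/542390048000 : ℝ) * (r - (5/4 : ℝ)) ^ 3 + (48297004054053/2711950240000 : ℝ) * (r - (5/4 : ℝ)) ^ 4 + (404260133433/67798756000 : ℝ) * (r - (5/4 : ℝ)) ^ 5 + (152253377811/169496890000 : ℝ) * (r - (5/4 : ℝ)) ^ 6 := by ring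
  have u : 0 ≤ r - (5/4 : ℝ) := by linarith
  rw [e]
  positivity

theorem mn_4_4 : CondM 2 4 (4 / (4117 / 1000)) (1 / 10000) := by
  intro r hr
  have h := mn_4_4_pos r hr
  have e : (1 + r ^ 2) ^ 4 - (wwM 2 4 (4 / (4117 / 1000)) (r / 2) ^ 2 + (1 / 10000) * r ^ 2 * (1 + r ^ 2) ^ (4 - 1)) =
      r ^ 2 * ((44675883/41170000 : ℝ) * r ^ 0 + (-10000/4117 : ℝ) * r ^ 1 + (548859240933/169496890000 : ℝ) * r ^ 2 + (-60000000/16949689 : ℝ) * r ^ 3 + (270436710933/169496890000 : ℝ) * r ^ 4 + (-13125000/16949689 : ℝ) * r ^ 5 + (152253377811/169496890000 : ℝ) * r ^ 6) := by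
    unfold wwM
    norm_num
    ring
  have h2 := mul_nonneg (sq_nonneg r) h
  rw [← e] at h2
  linarith

theorem condM4 : ∃ c > 0, ∀ j, 1 ≤ j → j ≤ 4 → CondM 2 j (4 / (4117 / 1000)) c := by
  refine ⟨1 / 10000, by norm_num, fun j hj1 hj2 => ?_⟩
  interval_cases j
  · exact mn_4_1
  · exact mn_4_2
  · exact mn_4_3
  · exact mn_4_4

theorem mn_5_1_pos (r : ℝ) (hr : 0 ≤ r) : 0 ≤ (9999/10000 : ℝ) * r ^ 0 := by
  rcases le_total r (2 : ℝ) with h0 | h0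
  · have e : (9999/10000 : ℝ) * r ^ 0 = (9999/10000 : ℝ) * ((r - (0 : ℝ)) ^ 0 * ((2 : ℝ) - r) ^ 0) := by ring
    have u : 0 ≤ r - (0 : ℝ) := by linarith
    have v : 0 ≤ (2 : ℝ) - r := by linarith
    rw [e]
    positivity
  have e : (9999/10000 : ℝ) * r ^ 0 = (9999/10000 : ℝ) * (r - (2 : ℝ)) ^ 0 := by ring
  have u : 0 ≤ r - (2 : ℝ) := by linarith
  rw [e]
  positivity

theorem mn_5_1 : CondM 3 1 (6 / (6237 / 1000)) (1 / 10000) := by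
  intro r hr
  have h := mn_5_1_pos r hr
  have e : (1 + r ^ 2) ^ 1 - (wwM 3 1 (6 / (6237 / 1000)) (r / 2) ^ 2 + (1 / 10000) * r ^ 2 * (1 + r ^ 2) ^ (1 - 1)) =
      r ^ 2 * ((9999/10000 : ℝ) * r ^ 0) := by
    unfold wwM
    norm_num
    ring
  have h2 := mul_nonneg (sq_nonneg r) h
  rw [← e] at h2
  linarith

theorem mn_5_2_pos (r : ℝ) (hr : 0 ≤ r) : 0 ≤ (104733763/62370000 : ℝ) * r ^ 0 + (0 : ℝ) * r ^ 1 + (378962789831/389001690000 : ℝ) * r ^ 2 := by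
  rcases le_total r (2 : ℝ) with h0 | h0
  · have e : (104733763/62370000 : ℝ) * r ^ 0 + (0 : ℝ) * r ^ 1 + (378962789831/389001690000 : ℝ) * r ^ 2 = (104733763/249480000 : ℝ) * ((r - (0 : ℝ)) ^ 0 * ((2 : ℝ) - r) ^ 2) + (104733763/124740000 : ℝ) * ((r - (0 : ℝ)) ^ 1 * ((2 : ℝ) - r) ^ 1) + (433815127831/311201352000 : ℝ) * ((r - (0 : ℝ)) ^ 2 * ((2 : ℝ) - r) ^ 0) := by ring
    have u : 0 ≤ r - (0 : ℝ) := by linarith
    have v : 0 ≤ (2 : ℝ) - r := by linarith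
    rw [e]
    positivity
  have e : (104733763/62370000 : ℝ) * r ^ 0 + (0 : ℝ) * r ^ 1 + (378962789831/389001690000 : ℝ) * r ^ 2 = (433815127831/77800338000 : ℝ) * (r - (2 : ℝ)) ^ 0 + (378962789831/97250422500 : ℝ) * (r - (2 : ℝ)) ^ 1 + (378962789831/389001690000 : ℝ) * (r - (2 : ℝ)) ^ 2 := by ring
  have u : 0 ≤ r - (2 : ℝ) := by linarith
  rw [e]
  positivity

theorem mn_5_2 : CondM 3 2 (6 / (6237 / 1000)) (1 / 10000) := by
  intro r hr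
  have h := mn_5_2_pos r hr
  have e : (1 + r ^ 2) ^ 2 - (wwM 3 2 (6 / (6237 / 1000)) (r / 2) ^ 2 + (1 / 10000) * r ^ 2 * (1 + r ^ 2) ^ (2 - 1)) =
      r ^ 2 * ((104733763/62370000 : ℝ) * r ^ 0 + (0 : ℝ) * r ^ 1 + (378962789831/389001690000 : ℝ) * r ^ 2) := by
    unfold wwM
    norm_num
    ring
  have h2 := mul_nonneg (sq_nonneg r) h
  rw [← e] at h2
  linarith

theorem mn_5_3_pos (r : ℝ) (hr : 0 ≤ r) : 0 ≤ (42367921/20790000 : ℝ) * r ^ 0 + (-1000/2673 : ℝ) * r ^ 1 + (59829292759/21611205000 : ℝ) * r ^ 2 + (-1000000/5557167 : ℝ) * r ^ 3 + (68942145071/71449290000 : ℝ) * r ^ 4 := by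
  rcases le_total r (2 : ℝ) with h0 | h0
  · have e : (42367921/20790000 : ℝ) * r ^ 0 + (-1000/2673 : ℝ) * r ^ 1 + (59829292759/21611205000 : ℝ) * r ^ 2 + (-1000000/5557167 : ℝ) * r ^ 3 + (68942145071/71449290000 : ℝ) * r ^ 4 = (42367921/332640000 : ℝ) * ((r - (0 : ℝ)) ^ 0 * ((2 : ℝ) - r) ^ 4) + (346311289/748440000 : ℝ) * ((r - (0 : ℝ)) ^ 1 * ((2 : ℝ) - r) ^ 3) + (455055894313/345779280000 : ℝ) * ((r - (0 : ℝ)) ^ 2 * ((2 : ℝ) - r) ^ 2) + (517661141831/311201352000 : ℝ) * ((r - (0 : ℝ)) ^ 3 * ((2 : ℝ) - r) ^ 1) + (3691807958879/2240649734400 : ℝ) * ((r - (0 : ℝ)) ^ 4 * ((2 : ℝ) - r) ^ 0) := by ring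
    have u : 0 ≤ r - (0 : ℝ) := by linarith
    have v : 0 ≤ (2 : ℝ) - r := by linarith
    rw [e]
    positivity
  have e : (42367921/20790000 : ℝ) * r ^ 0 + (-1000/2673 : ℝ) * r ^ 1 + (59829292759/21611205000 : ℝ) * r ^ 2 + (-1000000/5557167 : ℝ) * r ^ 3 + (68942145071/71449290000 : ℝ) * r ^ 4 = (3691807958879/140040608400 : ℝ) * (r - (2 : ℝ)) ^ 0 + (3450022379479/87525380250 : ℝ) * (r - (2 : ℝ)) ^ 1 + (14498051338409/583502535000 : ℝ) * (r - (2 : ℝ)) ^ 2 + (471345015497/62518128750 : ℝ) * (r - (2 : ℝ)) ^ 3 + (68942145071/71449290000 : ℝ) * (r - (2 : ℝ)) ^ 4 := by ring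
  have u : 0 ≤ r - (2 : ℝ) := by linarith
  rw [e]
  positivity

theorem mn_5_3 : CondM 3 3 (6 / (6237 / 1000)) (1 / 10000) := by
  intro r hr
  have h := mn_5_3_pos r hr
  have e : (1 + r ^ 2) ^ 3 - (wwM 3 3 (6 / (6237 / 1000)) (r / 2) ^ 2 + (1 / 10000) * r ^ 2 * (1 + r ^ 2) ^ (3 - 1)) =
      r ^ 2 * ((42367921/20790000 : ℝ) * r ^ 0 + (-1000/2673 : ℝ) * r ^ 1 + (59829292759/21611205000 : ℝ) * r ^ 2 + (-1000000/5557167 : ℝ) * r ^ 3 + (68942145071/71449290000 : ℝ) * r ^ 4) := by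
    unfold wwM
    norm_num
    ring
  have h2 := mul_nonneg (sq_nonneg r) h
  rw [← e] at h2
  linarith

theorem mn_5_4_pos (r : ℝ) (hr : 0 ≤ r) : 0 ≤ (43157921/20790000 : ℝ) * r ^ 0 + (-4000/2673 : ℝ) * r ^ 1 + (202766493277/43222410000 : ℝ) * r ^ 2 + (-8000000/5557167 : ℝ) * r ^ 3 + (10753010535437/3501015210000 : ℝ) * r ^ 4 + (-43000000/150043509 : ℝ) * r ^ 5 + (30350360976311/31509136890000 : ℝ) * r ^ 6 := by
  rcases le_total r (2 : ℝ) with h0 | h0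
  · have e : (43157921/20790000 : ℝ) * r ^ 0 + (-4000/2673 : ℝ) * r ^ 1 + (202766493277/43222410000 : ℝ) * r ^ 2 + (-8000000/5557167 : ℝ) * r ^ 3 + (10753010535437/3501015210000 : ℝ) * r ^ 4 + (-43000000/150043509 : ℝ) * r ^ 5 + (30350360976311/31509136890000 : ℝ) * r ^ 6 = (43157921/1330560000 : ℝ) * ((r - (0 : ℝ)) ^ 0 * ((2 : ℝ) - r) ^ 6) + (885263867/5987520000 : ℝ) * ((r - (0 : ℝ)) ^ 1 * ((2 : ℝ) - r) ^ 5) + (1510145739493/2766234240000 : ℝ) * ((r - (0 : ℝ)) ^ 2 * ((2 : ℝ) - r) ^ 4) + (7306633057127/6224027040000 : ℝ) * ((r - (0 : ℝ)) ^ 3 * ((2 : ℝ) - r) ^ 3) + (89900178514933/44812994688000 : ℝ) * ((r - (0 : ℝ)) ^ 4 * ((2 : ℝ) - r) ^ 2) + (26701845011111/13443898406400 : ℝ) * ((r - (0 : ℝ)) ^ 5 * ((2 : ℝ) - r) ^ 1) + (27211120245031/16132678087680 : ℝ) * ((r - (0 : ℝ)) ^ 6 * ((2 : ℝ) - r) ^ 0) := by ring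
    have u : 0 ≤ r - (0 : ℝ) := by linarith
    have v : 0 ≤ (2 : ℝ) - r := by linarith
    rw [e]
    positivity
  have e : (43157921/20790000 : ℝ) * r ^ 0 + (-4000/2673 : ℝ) * r ^ 1 + (202766493277/43222410000 : ℝ) * r ^ 2 + (-8000000/5557167 : ℝ) * r ^ 3 + (10753010535437/3501015210000 : ℝ) * r ^ 4 + (-43000000/150043509 : ℝ) * r ^ 5 + (30350360976311/31509136890000 : ℝ) * r ^ 6 = (27211120245031/252073095120 : ℝ) * (r - (2 : ℝ)) ^ 0 + (3037604339279/11670050700 : ℝ) * (r - (2 : ℝ)) ^ 1 + (583999578904531/2100609126000 : ℝ) * (r - (2 : ℝ)) ^ 2 + (652964314345153/3938642111250 : ℝ) * (r - (2 : ℝ)) ^ 3 + (203055417044177/3501015210000 : ℝ) * (r - (2 : ℝ)) ^ 4 + (29597860976311/2625761407500 : ℝ) * (r - (2 : ℝ)) ^ 5 + (30350360976311/31509136890000 : ℝ) * (r - (2 : ℝ)) ^ 6 := by ring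
  have u : 0 ≤ r - (2 : ℝ) := by linarith
  rw [e]
  positivity

theorem mn_5_4 : CondM 3 4 (6 / (6237 / 1000)) (1 / 10000) := by
  intro r hr
  have h := mn_5_4_pos r hr
  have e : (1 + r ^ 2) ^ 4 - (wwM 3 4 (6 / (6237 / 1000)) (r / 2) ^ 2 + (1 / 10000) * r ^ 2 * (1 + r ^ 2) ^ (4 - 1)) =
      r ^ 2 * ((43157921/20790000 : ℝ) * r ^ 0 + (-4000/2673 : ℝ) * r ^ 1 + (202766493277/43222410000 : ℝ) * r ^ 2 + (-8000000/5557167 : ℝ) * r ^ 3 + (10753010535437/3501015210000 : ℝ) * r ^ 4 + (-43000000/150043509 : ℝ) * r ^ 5 + (30350360976311/31509136890000 : ℝ) * r ^ 6) := by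
    unfold wwM
    norm_num
    ring
  have h2 := mul_nonneg (sq_nonneg r) h
  rw [← e] at h2
  linarith

theorem mn_5_5_pos (r : ℝ) (hr : 0 ≤ r) : 0 ≤ (111843763/62370000 : ℝ) * r ^ 0 + (-10000/2673 : ℝ) * r ^ 1 + (536221574831/97250422500 : ℝ) * r ^ 2 + (-106410250/16671501 : ℝ) * r ^ 3 + (6004025745437/1750507605000 : ℝ) * r ^ 4 + (-10000000/2381643 : ℝ) * r ^ 5 + (981295886993/291751267500 : ℝ) * r ^ 6 + (-497187500/1350391581 : ℝ) * r ^ 7 + (5572907500751/5787392490000 : ℝ) * r ^ 8 := by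
  rcases le_total r (25/32 : ℝ) with h0 | h0
  · have e : (111843763/62370000 : ℝ) * r ^ 0 + (-10000/2673 : ℝ) * r ^ 1 + (536221574831/97250422500 : ℝ) * r ^ 2 + (-106410250/16671501 : ℝ) * r ^ 3 + (6004025745437/1750507605000 : ℝ) * r ^ 4 + (-10000000/2381643 : ℝ) * r ^ 5 + (981295886993/291751267500 : ℝ) * r ^ 6 + (-497187500/1350391581 : ℝ) * r ^ 7 + (5572907500751/5787392490000 : ℝ) * r ^ 8 = (7685844869545197568/594806671142578125 : ℝ) * ((r - (0 : ℝ)) ^ 0 * ((25/32 : ℝ) - r) ^ 8) + (146879313029084741632/1784420013427734375 : ℝ) * ((r - (0 : ℝ)) ^ 1 * ((25/32 : ℝ) - r) ^ 7) + (885272489722373627445248/3709809207916259765625 : ℝ) * ((r - (0 : ℝ)) ^ 2 * ((25/32 : ℝ) - r) ^ 6) + (4506364685179663824191488/11129427623748779296875 : ℝ) * ((r - (0 : ℝ)) ^ 3 * ((25/32 : ℝ) - r) ^ 5) + (2876016418408082565103616/6677656574249267578125 : ℝ) * ((r - (0 : ℝ)) ^ 4 * ((25/32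 : ℝ) - r) ^ 4) + (9355430733228940697534464/33388282871246337890625 : ℝ) * ((r - (0 : ℝ)) ^ 5 * ((25/32 : ℝ) - r) ^ 3) + (1094118525071749390655744/11129427623748779296875 : ℝ) * ((r - (0 : ℝ)) ^ 6 * ((25/32 : ℝ) - r) ^ 2) + (149334904628277511687552/11707579708099365234375 : ℝ) * ((r - (0 : ℝ)) ^ 7 * ((25/32 : ℝ) - r) ^ 1) + (25266716321886218537618399/43271214601135253906250000 : ℝ) * ((r - (0 : ℝ)) ^ 8 * ((25/32 : ℝ) - r) ^ 0) := by ring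
    have u : 0 ≤ r - (0 : ℝ) := by linarith
    have v : 0 ≤ (25/32 : ℝ) - r := by linarith
    rw [e]
    positivity
  rcases le_total r (15/16 : ℝ) with h1 | h1
  · have e : (111843763/62370000 : ℝ) * r ^ 0 + (-10000/2673 : ℝ) * r ^ 1 + (536221574831/97250422500 : ℝ) * r ^ 2 + (-106410250/16671501 : ℝ) * r ^ 3 + (6004025745437/1750507605000 : ℝ) * r ^ 4 + (-10000000/2381643 : ℝ) * r ^ 5 + (981295886993/291751267500 : ℝ) * r ^ 6 + (-497187500/1350391581 : ℝ) * r ^ 7 + (5572907500751/5787392490000 : ℝ) * r ^ 8 = (25266716321886218537618399/110774309378906250000 : ℝ) * ((r - (25/32 : ℝ)) ^ 0 * ((15/16 : ℝ) - r) ^ 8) + (917861911033923342511793/769266037353515625 : ℝ) * ((r - (25/32 : ℝ)) ^ 1 * ((15/16 : ℝ) - r) ^ 7) + (1817007489634304228474113/769266037353515625 : ℝ) * ((r - (25/32 : ℝ)) ^ 2 * ((15/16 : ℝ) - r) ^ 6) + (543984030405401231504692/256422012451171875 :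 ℝ) * ((r - (25/32 : ℝ)) ^ 3 * ((15/16 : ℝ) - r) ^ 5) + (17663606226489072131666/17094800830078125 : ℝ) * ((r - (25/32 : ℝ)) ^ 4 * ((15/16 : ℝ) - r) ^ 4) + (4801178187591236340784/4070190673828125 : ℝ) * ((r - (25/32 : ℝ)) ^ 5 * ((15/16 : ℝ) - r) ^ 3) + (2434200174109892516464/1356730224609375 : ℝ) * ((r - (25/32 : ℝ)) ^ 6 * ((15/16 : ℝ) - r) ^ 2) + (3862343498992097283776/3165703857421875 : ℝ) * ((r - (25/32 : ℝ)) ^ 7 * ((15/16 : ℝ) - r) ^ 1) + (313117029326377098224/1055234619140625 : ℝ) * ((r - (25/32 : ℝ)) ^ 8 * ((15/16 : ℝ) - r) ^ 0) := by ring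
    have u : 0 ≤ r - (25/32 : ℝ) := by linarith
    have v : 0 ≤ (15/16 : ℝ) - r := by linarith
    rw [e]
    positivity
  rcases le_total r (5/4 : ℝ) with h2 | h2
  · have e : (111843763/62370000 : ℝ) * r ^ 0 + (-10000/2673 : ℝ) * r ^ 1 + (536221574831/97250422500 : ℝ) * r ^ 2 + (-106410250/16671501 : ℝ) * r ^ 3 + (6004025745437/1750507605000 : ℝ) * r ^ 4 + (-10000000/2381643 : ℝ) * r ^ 5 + (981295886993/291751267500 : ℝ) * r ^ 6 + (-497187500/1350391581 : ℝ) * r ^ 7 + (5572907500751/5787392490000 : ℝ) * r ^ 8 = (19569814332898568639/16883753906250000 : ℝ) * ((r - (15/16 : ℝ)) ^ 0 * ((5/4 : ℝ) - r) ^ 8) + (751813063794386998/41113037109375 : ℝ) * ((r - (15/16 : ℝ)) ^ 1 * ((5/4 : ℝ) - r) ^ 7) + (162752090688781245244/1356730224609375 : ℝ) * ((r - (15/16 : ℝ)) ^ 2 * ((5/4 : ℝ) - r) ^ 6) + (1704599166516714256864/4070190673828125 : ℝ) * ((r - (15/16 : ℝ)) ^ 3 * ((5/4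 : ℝ) - r) ^ 5) + (14715217729504874306336/17094800830078125 : ℝ) * ((r - (15/16 : ℝ)) ^ 4 * ((5/4 : ℝ) - r) ^ 4) + (39597931188348616408576/36631716064453125 : ℝ) * ((r - (15/16 : ℝ)) ^ 5 * ((5/4 : ℝ) - r) ^ 3) + (12850721883771812733952/15699306884765625 : ℝ) * ((r - (15/16 : ℝ)) ^ 6 * ((5/4 : ℝ) - r) ^ 2) + (312817615951940378624/908224365234375 : ℝ) * ((r - (15/16 : ℝ)) ^ 7 * ((5/4 : ℝ) - r) ^ 1) + (3548527282769280856064/57218135009765625 : ℝ) * ((r - (15/16 : ℝ)) ^ 8 * ((5/4 : ℝ) - r) ^ 0) := by ring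
    have u : 0 ≤ r - (15/16 : ℝ) := by linarith
    have v : 0 ≤ (5/4 : ℝ) - r := by linarith
    rw [e]
    positivity
  have e : (111843763/62370000 : ℝ) * r ^ 0 + (-10000/2673 : ℝ) * r ^ 1 + (536221574831/97250422500 : ℝ) * r ^ 2 + (-106410250/16671501 : ℝ) * r ^ 3 + (6004025745437/1750507605000 : ℝ) * r ^ 4 + (-10000000/2381643 : ℝ) * r ^ 5 + (981295886993/291751267500 : ℝ) * r ^ 6 + (-497187500/1350391581 : ℝ) * r ^ 7 + (5572907500751/5787392490000 : ℝ) * r ^ 8 = (866339668644843959/153593761628160000 : ℝ) * (r - (5/4 : ℝ)) ^ 0 + (42386271763583999/959961010176000 : ℝ) * (r - (5/4 : ℝ)) ^ 1 + (5565390513137290247/41484029368320000 : ℝ) * (r - (5/4 : ℝ)) ^ 2 + (217428376550224751/1037100734208000 : ℝ) * (r - (5/4 : ℝ)) ^ 3 + (7093276480446447757/36298525697280000 : ℝ) * (r - (5/4 : ℝ)) ^ 4 + (51846904857326177/453731571216000 : ℝ) * (r - (5/4 : ℝ)) ^ 5 + (47948632102568609/1134328928040000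 : ℝ) * (r - (5/4 : ℝ)) ^ 6 + (3410799091387/368288613000 : ℝ) * (r - (5/4 : ℝ)) ^ 7 + (5572907500751/5787392490000 : ℝ) * (r - (5/4 : ℝ)) ^ 8 := by ring
  have u : 0 ≤ r - (5/4 : ℝ) := by linarith
  rw [e]
  positivity

theorem mn_5_5 : CondM 3 5 (6 / (6237 / 1000)) (1 / 10000) := by
  intro r hr
  have h := mn_5_5_pos r hr
  have e : (1 + r ^ 2) ^ 5 - (wwM 3 5 (6 / (6237 / 1000)) (r / 2) ^ 2 + (1 / 10000) * r ^ 2 * (1 + r ^ 2) ^ (5 - 1)) =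
      r ^ 2 * ((111843763/62370000 : ℝ) * r ^ 0 + (-10000/2673 : ℝ) * r ^ 1 + (536221574831/97250422500 : ℝ) * r ^ 2 + (-106410250/16671501 : ℝ) * r ^ 3 + (6004025745437/1750507605000 : ℝ) * r ^ 4 + (-10000000/2381643 : ℝ) * r ^ 5 + (981295886993/291751267500 : ℝ) * r ^ 6 + (-497187500/1350391581 : ℝ) * r ^ 7 + (5572907500751/5787392490000 : ℝ) * r ^ 8) := by
    unfold wwM
    norm_num
    ring
  have h2 := mul_nonneg (sq_nonneg r) h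
  rw [← e] at h2
  linarith

theorem condM5 : ∃ c > 0, ∀ j, 1 ≤ j → j ≤ 5 → CondM 3 j (6 / (6237 / 1000)) c := by
  refine ⟨1 / 10000, by norm_num, fun j hj1 hj2 => ?_⟩
  interval_cases j
  · exact mn_5_1
  · exact mn_5_2
  · exact mn_5_3
  · exact mn_5_4
  · exact mn_5_5

theorem mn_6_1_pos (r : ℝ) (hr : 0 ≤ r) : 0 ≤ (9999/10000 : ℝ) * r ^ 0 := by
  rcases le_total r (2 : ℝ) with h0 | h0
  · have e : (9999/10000 : ℝ) * r ^ 0 = (9999/10000 : ℝ) * ((r - (0 : ℝ)) ^ 0 * ((2 : ℝ) - r) ^ 0) := by ring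
    have u : 0 ≤ r - (0 : ℝ) := by linarith
    have v : 0 ≤ (2 : ℝ) - r := by linarith
    rw [e]
    positivity
  have e : (9999/10000 : ℝ) * r ^ 0 = (9999/10000 : ℝ) * (r - (2 : ℝ)) ^ 0 := by ring
  have u : 0 ≤ r - (2 : ℝ) := by linarith
  rw [e]
  positivity

theorem mn_6_1 : CondM 4 1 (8 / (9019 / 1000)) (1 / 10000) := by
  intro r hr
  have h := mn_6_1_pos r hr
  have e : (1 + r ^ 2) ^ 1 - (wwM 4 1 (8 / (9019 / 1000)) (r / 2) ^ 2 + (1 / 10000) * r ^ 2 * (1 + r ^ 2) ^ (1 - 1)) =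
      r ^ 2 * ((9999/10000 : ℝ) * r ^ 0) := by
    unfold wwM
    norm_num
    ring
  have h2 := mul_nonneg (sq_nonneg r) h
  rw [← e] at h2
  linarith

theorem mn_6_2_pos (r : ℝ) (hr : 0 ≤ r) : 0 ≤ (160370981/90190000 : ℝ) * r ^ 0 + (0 : ℝ) * r ^ 1 + (803342267639/813423610000 : ℝ) * r ^ 2 := by
  rcases le_total r (2 : ℝ) with h0 | h0
  · have e : (160370981/90190000 : ℝ) * r ^ 0 + (0 : ℝ) * r ^ 1 + (803342267639/813423610000 : ℝ) * r ^ 2 = (160370981/360760000 : ℝ) * ((r - (0 : ℝ)) ^ 0 * ((2 : ℝ) - r) ^ 2) + (160370981/180380000 : ℝ) * ((r - (0 : ℝ)) ^ 1 * ((2 : ℝ) - r) ^ 1) + (931950989639/650738888000 : ℝ) * ((r - (0 : ℝ)) ^ 2 * ((2 : ℝ) - r) ^ 0) := by ring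
    have u : 0 ≤ r - (0 : ℝ) := by linarith
    have v : 0 ≤ (2 : ℝ) - r := by linarith
    rw [e]
    positivity
  have e : (160370981/90190000 : ℝ) * r ^ 0 + (0 : ℝ) * r ^ 1 + (803342267639/813423610000 : ℝ) * r ^ 2 = (931950989639/162684722000 : ℝ) * (r - (2 : ℝ)) ^ 0 + (803342267639/203355902500 : ℝ) * (r - (2 : ℝ)) ^ 1 + (803342267639/813423610000 : ℝ) * (r - (2 : ℝ)) ^ 2 := by ring
  have u : 0 ≤ r - (2 : ℝ) := by linarith
  rw [e]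
  positivity

theorem mn_6_2 : CondM 4 2 (8 / (9019 / 1000)) (1 / 10000) := by
  intro r hr
  have h := mn_6_2_pos r hr
  have e : (1 + r ^ 2) ^ 2 - (wwM 4 2 (8 / (9019 / 1000)) (r / 2) ^ 2 + (1 / 10000) * r ^ 2 * (1 + r ^ 2) ^ (2 - 1)) =
      r ^ 2 * ((160370981/90190000 : ℝ) * r ^ 0 + (0 : ℝ) * r ^ 1 + (803342267639/813423610000 : ℝ) * r ^ 2) := by
    unfold wwM
    norm_num
    ring
  have h2 := mul_nonneg (sq_nonneg r) h
  rw [← e] at h2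
  linarith

theorem mn_6_3_pos (r : ℝ) (hr : 0 ≤ r) : 0 ≤ (210560981/90190000 : ℝ) * r ^ 0 + (-2250/9019 : ℝ) * r ^ 1 + (1175054072639/406711805000 : ℝ) * r ^ 2 + (-6750000/81342361 : ℝ) * r ^ 3 + (800686017639/813423610000 : ℝ) * r ^ 4 := by
  rcases le_total r (2 : ℝ) with h0 | h0
  · have e : (210560981/90190000 : ℝ) * r ^ 0 + (-2250/9019 : ℝ) * r ^ 1 + (1175054072639/406711805000 : ℝ) * r ^ 2 + (-6750000/81342361 : ℝ) * r ^ 3 + (800686017639/813423610000 : ℝ) * r ^ 4 = (210560981/1443040000 : ℝ) * ((r - (0 : ℝ)) ^ 0 * ((2 : ℝ) - r) ^ 4) + (199310981/360760000 : ℝ) * ((r - (0 : ℝ)) ^ 1 * ((2 : ℝ) - r) ^ 3) + (9788582253473/6507388880000 : ℝ) * ((r - (0 : ℝ)) ^ 2 * ((2 : ℝ) - r) ^ 2) + (1231974905639/650738888000 : ℝ) * ((r - (0 : ℝ)) ^ 3 * ((2 : ℝ) - r) ^ 1) + (926584134039/520591110400 : ℝ) * ((r - (0 : ℝ)) ^ 4 * ((2 : ℝ) - r) ^ 0) := by ring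
    have u : 0 ≤ r - (0 : ℝ) := by linarith
    have v : 0 ≤ (2 : ℝ) - r := by linarith
    rw [e]
    positivity
  have e : (210560981/90190000 : ℝ) * r ^ 0 + (-2250/9019 : ℝ) * r ^ 1 + (1175054072639/406711805000 : ℝ) * r ^ 2 + (-6750000/81342361 : ℝ) * r ^ 3 + (800686017639/813423610000 : ℝ) * r ^ 4 = (926584134039/32536944400 : ℝ) * (r - (2 : ℝ)) ^ 0 + (850236441139/20335590250 : ℝ) * (r - (2 : ℝ)) ^ 1 + (10580786284307/406711805000 : ℝ) * (r - (2 : ℝ)) ^ 2 + (792248517639/101677951250 : ℝ) * (r - (2 : ℝ)) ^ 3 + (800686017639/813423610000 : ℝ) * (r - (2 : ℝ)) ^ 4 := by ring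
  have u : 0 ≤ r - (2 : ℝ) := by linarith
  rw [e]
  positivity

theorem mn_6_3 : CondM 4 3 (8 / (9019 / 1000)) (1 / 10000) := by
  intro r hr
  have h := mn_6_3_pos r hr
  have e : (1 + r ^ 2) ^ 3 - (wwM 4 3 (8 / (9019 / 1000)) (r / 2) ^ 2 + (1 / 10000) * r ^ 2 * (1 + r ^ 2) ^ (3 - 1)) =
      r ^ 2 * ((210560981/90190000 : ℝ) * r ^ 0 + (-2250/9019 : ℝ) * r ^ 1 + (1175054072639/406711805000 : ℝ) * r ^ 2 + (-6750000/81342361 : ℝ) * r ^ 3 + (800686017639/813423610000 : ℝ) * r ^ 4) := by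
    unfold wwM
    norm_num
    ring
  have h2 := mul_nonneg (sq_nonneg r) h
  rw [← e] at h2
  linarith

theorem mn_6_4_pos (r : ℝ) (hr : 0 ≤ r) : 0 ≤ (240750981/90190000 : ℝ) * r ^ 0 + (-9000/9019 : ℝ) * r ^ 1 + (4314551695417/813423610000 : ℝ) * r ^ 2 + (-54000000/81342361 : ℝ) * r ^ 3 + (2914075412917/813423610000 : ℝ) * r ^ 4 + (-10265625/81342361 : ℝ) * r ^ 5 + (3201328054931/3253694440000 : ℝ) * r ^ 6 := by
  rcases le_total r (2 : ℝ) with h0 | h0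
  · have e : (240750981/90190000 : ℝ) * r ^ 0 + (-9000/9019 : ℝ) * r ^ 1 + (4314551695417/813423610000 : ℝ) * r ^ 2 + (-54000000/81342361 : ℝ) * r ^ 3 + (2914075412917/813423610000 : ℝ) * r ^ 4 + (-10265625/81342361 : ℝ) * r ^ 5 + (3201328054931/3253694440000 : ℝ) * r ^ 6 = (240750981/5772160000 : ℝ) * ((r - (0 : ℝ)) ^ 0 * ((2 : ℝ) - r) ^ 6) + (632252943/2886080000 : ℝ) * ((r - (0 : ℝ)) ^ 1 * ((2 : ℝ) - r) ^ 5) + (41711103246253/52059111040000 : ℝ) * ((r - (0 : ℝ)) ^ 2 * ((2 : ℝ) - r) ^ 4) + (22976322269863/13014777760000 : ℝ) * ((r - (0 : ℝ)) ^ 3 * ((2 : ℝ) - r) ^ 3) + (30710048752253/10411822208000 : ℝ) * ((r - (0 : ℝ)) ^ 4 * ((2 : ℝ) - r) ^ 2) + (3018982778517/1041182220800 : ℝ) * ((r - (0 : ℝ)) ^ 5 * ((2 : ℝ) - r) ^ 1) + (864380602919/416472888320 : ℝ) * ((r - (0 : ℝ)) ^ 6 * ((2 : ℝ) - r) ^ 0) := by ring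
    have u : 0 ≤ r - (0 : ℝ) := by linarith
    have v : 0 ≤ (2 : ℝ) - r := by linarith
    rw [e]
    positivity
  have e : (240750981/90190000 : ℝ) * r ^ 0 + (-9000/9019 : ℝ) * r ^ 1 + (4314551695417/813423610000 : ℝ) * r ^ 2 + (-54000000/81342361 : ℝ) * r ^ 3 + (2914075412917/813423610000 : ℝ) * r ^ 4 + (-10265625/81342361 : ℝ) * r ^ 5 + (3201328054931/3253694440000 : ℝ) * r ^ 6 = (864380602919/6507388880 : ℝ) * (r - (2 : ℝ)) ^ 0 + (2486681566317/8134236100 : ℝ) * (r - (2 : ℝ)) ^ 1 + (50975908980257/162684722000 : ℝ) * (r - (2 : ℝ)) ^ 2 + (9169967218786/50838975625 : ℝ) * (r - (2 : ℝ)) ^ 3 + (24953716868441/406711805000 : ℝ) * (r - (2 : ℝ)) ^ 4 + (9501327914793/813423610000 : ℝ) * (r - (2 : ℝ)) ^ 5 + (3201328054931/3253694440000 : ℝ) * (r - (2 : ℝ)) ^ 6 := by ring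
  have u : 0 ≤ r - (2 : ℝ) := by linarith
  rw [e]
  positivity

theorem mn_6_4 : CondM 4 4 (8 / (9019 / 1000)) (1 / 10000) := by
  intro r hr
  have h := mn_6_4_pos r hr
  have e : (1 + r ^ 2) ^ 4 - (wwM 4 4 (8 / (9019 / 1000)) (r / 2) ^ 2 + (1 / 10000) * r ^ 2 * (1 + r ^ 2) ^ (4 - 1)) =
      r ^ 2 * ((240750981/90190000 : ℝ) * r ^ 0 + (-9000/9019 : ℝ) * r ^ 1 + (4314551695417/813423610000 : ℝ) * r ^ 2 + (-54000000/81342361 : ℝ) * r ^ 3 + (2914075412917/813423610000 : ℝ) * r ^ 4 + (-10265625/81342361 : ℝ) * r ^ 5 + (3201328054931/3253694440000 : ℝ) * r ^ 6) := by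
    unfold wwM
    norm_num
    ring
  have h2 := mul_nonneg (sq_nonneg r) h
  rw [← e] at h2
  linarith

theorem mn_6_5_pos (r : ℝ) (hr : 0 ≤ r) : 0 ≤ (250940981/90190000 : ℝ) * r ^ 0 + (-22500/9019 : ℝ) * r ^ 1 + (381573815191/50838975625 : ℝ) * r ^ 2 + (-7859514375/2602955552 : ℝ) * r ^ 3 + (2863749022917/406711805000 : ℝ) * r ^ 4 + (-151171875/81342361 : ℝ) * r ^ 5 + (480614655831/112196360000 : ℝ) * r ^ 6 + (-3336328125/20823644416 : ℝ) * r ^ 7 + (204873579499959/208236444160000 : ℝ) * r ^ 8 := by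
  rcases le_total r (2 : ℝ) with h0 | h0
  · have e : (250940981/90190000 : ℝ) * r ^ 0 + (-22500/9019 : ℝ) * r ^ 1 + (381573815191/50838975625 : ℝ) * r ^ 2 + (-7859514375/2602955552 : ℝ) * r ^ 3 + (2863749022917/406711805000 : ℝ) * r ^ 4 + (-151171875/81342361 : ℝ) * r ^ 5 + (480614655831/112196360000 : ℝ) * r ^ 6 + (-3336328125/20823644416 : ℝ) * r ^ 7 + (204873579499959/208236444160000 : ℝ) * r ^ 8 = (250940981/23088640000 : ℝ) * ((r - (0 : ℝ)) ^ 0 * ((2 : ℝ) - r) ^ 8) + (194690981/2886080000 : ℝ) * ((r - (0 : ℝ)) ^ 1 * ((2 : ℝ) - r) ^ 7) + (14845375496529/52059111040000 : ℝ) * ((r - (0 : ℝ)) ^ 2 * ((2 : ℝ) - r) ^ 6) + (42096816180907/52059111040000 : ℝ) * ((r - (0 : ℝ)) ^ 3 * ((2 : ℝ) - r) ^ 5) + (6484210709723/3590283520000 : ℝ) * ((r - (0 : ℝ)) ^ 4 * ((2 : ℝ) - r) ^ 4) + (7435043807883/2602955552000 : ℝ) * ((r - (0 : ℝ)) ^ 5 * ((2 : ℝ) - r) ^ 3) + (7756840937279/2082364441600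 : ℝ) * ((r - (0 : ℝ)) ^ 6 * ((2 : ℝ) - r) ^ 2) + (1377480187853/416472888320 : ℝ) * ((r - (0 : ℝ)) ^ 7 * ((2 : ℝ) - r) ^ 1) + (365950986285/166589155328 : ℝ) * ((r - (0 : ℝ)) ^ 8 * ((2 : ℝ) - r) ^ 0) := by ring
    have u : 0 ≤ r - (0 : ℝ) := by linarith
    have v : 0 ≤ (2 : ℝ) - r := by linarith
    rw [e]
    positivity
  have e : (250940981/90190000 : ℝ) * r ^ 0 + (-22500/9019 : ℝ) * r ^ 1 + (381573815191/50838975625 : ℝ) * r ^ 2 + (-7859514375/2602955552 : ℝ) * r ^ 3 + (2863749022917/406711805000 : ℝ) * r ^ 4 + (-151171875/81342361 : ℝ) * r ^ 5 + (480614655831/112196360000 : ℝ) * r ^ 6 + (-3336328125/20823644416 : ℝ) * r ^ 7 + (204873579499959/208236444160000 : ℝ) * r ^ 8 = (365950986285/650738888 : ℝ) * (r - (2 : ℝ)) ^ 0 + (5941539537847/3253694440 : ℝ) * (r - (2 : ℝ)) ^ 1 + (43813939781087/16268472200 : ℝ) * (r - (2 : ℝ)) ^ 2 + (760616406261513/325369444000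 : ℝ) * (r - (2 : ℝ)) ^ 3 + (8476068058219617/6507388880000 : ℝ) * (r - (2 : ℝ)) ^ 4 + (387883193772069/813423610000 : ℝ) * (r - (2 : ℝ)) ^ 5 + (1460673485482359/13014777760000 : ℝ) * (r - (2 : ℝ)) ^ 6 + (101394187210917/6507388880000 : ℝ) * (r - (2 : ℝ)) ^ 7 + (204873579499959/208236444160000 : ℝ) * (r - (2 : ℝ)) ^ 8 := by ring
  have u : 0 ≤ r - (2 : ℝ) := by linarith
  rw [e]
  positivity

theorem mn_6_5 : CondM 4 5 (8 / (9019 / 1000)) (1 / 10000) := by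
  intro r hr
  have h := mn_6_5_pos r hr
  have e : (1 + r ^ 2) ^ 5 - (wwM 4 5 (8 / (9019 / 1000)) (r / 2) ^ 2 + (1 / 10000) * r ^ 2 * (1 + r ^ 2) ^ (5 - 1)) =
      r ^ 2 * ((250940981/90190000 : ℝ) * r ^ 0 + (-22500/9019 : ℝ) * r ^ 1 + (381573815191/50838975625 : ℝ) * r ^ 2 + (-7859514375/2602955552 : ℝ) * r ^ 3 + (2863749022917/406711805000 : ℝ) * r ^ 4 + (-151171875/81342361 : ℝ) * r ^ 5 + (480614655831/112196360000 : ℝ) * r ^ 6 + (-3336328125/20823644416 : ℝ) * r ^ 7 + (204873579499959/208236444160000 : ℝ) * r ^ 8) := by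
    unfold wwM
    norm_num
    ring
  have h2 := mul_nonneg (sq_nonneg r) h
  rw [← e] at h2
  linarith

theorem mn_6_6_pos (r : ℝ) (hr : 0 ≤ r) : 0 ≤ (241130981/90190000 : ℝ) * r ^ 0 + (-45000/9019 : ℝ) * r ^ 1 + (1372951675139/162684722000 : ℝ) * r ^ 2 + (-12778543125/1301477776 : ℝ) * r ^ 3 + (647305268537/89757088000 : ℝ) * r ^ 4 + (-1951171875/162684722 : ℝ) * r ^ 5 + (4676340784237/650738888000 : ℝ) * r ^ 6 + (-36609609375/10411822208 : ℝ) * r ^ 7 + (102888983970667/20823644416000 : ℝ) * r ^ 8 + (-128361796875/666356621312 : ℝ) * r ^ 9 + (13111817671981751/13327132426240000 : ℝ) * r ^ 10 := by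
  rcases le_total r (55/64 : ℝ) with h0 | h0
  · have e : (241130981/90190000 : ℝ) * r ^ 0 + (-45000/9019 : ℝ) * r ^ 1 + (1372951675139/162684722000 : ℝ) * r ^ 2 + (-12778543125/1301477776 : ℝ) * r ^ 3 + (647305268537/89757088000 : ℝ) * r ^ 4 + (-1951171875/162684722 : ℝ) * r ^ 5 + (4676340784237/650738888000 : ℝ) * r ^ 6 + (-36609609375/10411822208 : ℝ) * r ^ 7 + (102888983970667/20823644416000 : ℝ) * r ^ 8 + (-128361796875/666356621312 : ℝ) * r ^ 9 + (13111817671981751/13327132426240000 : ℝ) * r ^ 10 = (17375318338865314414985216/1427793166970330810546875 : ℝ) * ((r - (0 : ℝ)) ^ 0 * ((55/64 : ℝ) - r) ^ 10) + (29177432138859640029970432/285558633394066162109375 : ℝ) * ((r - (0 : ℝ)) ^ 1 * ((55/64 : ℝ) - r) ^ 9) + (1031052873688929008001310785536/2575453314581082716064453125 : ℝ) * ((r - (0 : ℝ)) ^ 2 * ((55/64 : ℝ) - r) ^ 8) + (2462919680870053945689606455296/2575453314581082716064453125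 : ℝ) * ((r - (0 : ℝ)) ^ 3 * ((55/64 : ℝ) - r) ^ 7) + (3940037627137082066214655623168/2575453314581082716064453125 : ℝ) * ((r - (0 : ℝ)) ^ 4 * ((55/64 : ℝ) - r) ^ 6) + (21664985266821631286912334430208/12877266572905413580322265625 : ℝ) * ((r - (0 : ℝ)) ^ 5 * ((55/64 : ℝ) - r) ^ 5) + (3202164510302053084675492282368/2575453314581082716064453125 : ℝ) * ((r - (0 : ℝ)) ^ 6 * ((55/64 : ℝ) - r) ^ 4) + (1458229819757973524472151300096/2575453314581082716064453125 : ℝ) * ((r - (0 : ℝ)) ^ 7 * ((55/64 : ℝ) - r) ^ 3) + (323245370306079892075231654486/2575453314581082716064453125 : ℝ) * ((r - (0 : ℝ)) ^ 8 * ((55/64 : ℝ) - r) ^ 2) + (1044786181496267609577340301399/329658024266378587656250000000 : ℝ) * ((r - (0 : ℝ)) ^ 9 * ((55/64 : ℝ) - r) ^ 1) + (199320958369013190984509533741351/3375698168487716737600000000000000 : ℝ) * ((r - (0 : ℝ)) ^ 10 * ((55/64 : ℝ) - r) ^ 0) := by ring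
    have u : 0 ≤ r - (0 : ℝ) := by linarith
    have v : 0 ≤ (55/64 : ℝ) - r := by linarith
    rw [e]
    positivity
  rcases le_total r (15/16 : ℝ) with h1 | h1
  · have e : (241130981/90190000 : ℝ) * r ^ 0 + (-45000/9019 : ℝ) * r ^ 1 + (1372951675139/162684722000 : ℝ) * r ^ 2 + (-12778543125/1301477776 : ℝ) * r ^ 3 + (647305268537/89757088000 : ℝ) * r ^ 4 + (-1951171875/162684722 : ℝ) * r ^ 5 + (4676340784237/650738888000 : ℝ) * r ^ 6 + (-36609609375/10411822208 : ℝ) * r ^ 7 + (102888983970667/20823644416000 : ℝ) * r ^ 8 + (-128361796875/666356621312 : ℝ) * r ^ 9 + (13111817671981751/13327132426240000 : ℝ) * r ^ 10 = (199320958369013190984509533741351/130147777600000000000000 : ℝ) * ((r - (55/64 : ℝ)) ^ 0 * ((15/16 : ℝ) - r) ^ 10) + (30045237513090460445611771278719/3253694440000000000000 : ℝ) * ((r - (55/64 : ℝ)) ^ 1 * ((15/16 : ℝ) - r) ^ 9) + (57834095884136181708336490360399/1626847220000000000000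 : ℝ) * ((r - (55/64 : ℝ)) ^ 2 * ((15/16 : ℝ) - r) ^ 8) + (7229041428964552763562425664077/50838975625000000000 : ℝ) * ((r - (55/64 : ℝ)) ^ 3 * ((15/16 : ℝ) - r) ^ 7) + (23130951819860436538751513689491/50838975625000000000 : ℝ) * ((r - (55/64 : ℝ)) ^ 4 * ((15/16 : ℝ) - r) ^ 6) + (30411847285721452801752717571937/31774359765625000000 : ℝ) * ((r - (55/64 : ℝ)) ^ 5 * ((15/16 : ℝ) - r) ^ 5) + (4102258774289124710125957242051/3177435976562500000 : ℝ) * ((r - (55/64 : ℝ)) ^ 6 * ((15/16 : ℝ) - r) ^ 4) + (221390881018941248185757895917/198589748535156250 : ℝ) * ((r - (55/64 : ℝ)) ^ 7 * ((15/16 : ℝ) - r) ^ 3) + (237800213710458243682094937119/397179497070312500 : ℝ) * ((r - (55/64 : ℝ)) ^ 8 * ((15/16 : ℝ) - r) ^ 2) + (18150141049286684056217554558/99294874267578125 : ℝ) * ((r - (55/64 : ℝ)) ^ 9 * ((15/16 : ℝ) - r) ^ 1) + (12067352258080434863268832604/496474371337890625 :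 ℝ) * ((r - (55/64 : ℝ)) ^ 10 * ((15/16 : ℝ) - r) ^ 0) := by ring
    have u : 0 ≤ r - (55/64 : ℝ) := by linarith
    have v : 0 ≤ (15/16 : ℝ) - r := by linarith
    rw [e]
    positivity
  rcases le_total r (5/4 : ℝ) with h2 | h2
  · have e : (241130981/90190000 : ℝ) * r ^ 0 + (-45000/9019 : ℝ) * r ^ 1 + (1372951675139/162684722000 : ℝ) * r ^ 2 + (-12778543125/1301477776 : ℝ) * r ^ 3 + (647305268537/89757088000 : ℝ) * r ^ 4 + (-1951171875/162684722 : ℝ) * r ^ 5 + (4676340784237/650738888000 : ℝ) * r ^ 6 + (-36609609375/10411822208 : ℝ) * r ^ 7 + (102888983970667/20823644416000 : ℝ) * r ^ 8 + (-128361796875/666356621312 : ℝ) * r ^ 9 + (13111817671981751/13327132426240000 : ℝ) * r ^ 10 = (3016838064520108715817208151/130147777600000000000000 : ℝ) * ((r - (15/16 : ℝ)) ^ 0 * ((5/4 : ℝ) - r) ^ 10) + (1502279949489300387744315869/3253694440000000000000 : ℝ) * ((r - (15/16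 : ℝ)) ^ 1 * ((5/4 : ℝ) - r) ^ 9) + (6239526938098870138198550999/1626847220000000000000 : ℝ) * ((r - (15/16 : ℝ)) ^ 2 * ((5/4 : ℝ) - r) ^ 8) + (891149901306855973932733727/50838975625000000000 : ℝ) * ((r - (15/16 : ℝ)) ^ 3 * ((5/4 : ℝ) - r) ^ 7) + (2520973899879183018795997491/50838975625000000000 : ℝ) * ((r - (15/16 : ℝ)) ^ 4 * ((5/4 : ℝ) - r) ^ 6) + (2922646304950606780657372787/31774359765625000000 : ℝ) * ((r - (15/16 : ℝ)) ^ 5 * ((5/4 : ℝ) - r) ^ 5) + (12541649112798532826072919/109566757812500000 : ℝ) * ((r - (15/16 : ℝ)) ^ 6 * ((5/4 : ℝ) - r) ^ 4) + (18879855849756316768729967/198589748535156250 : ℝ) * ((r - (15/16 : ℝ)) ^ 7 * ((5/4 : ℝ) - r) ^ 3) + (20141378893904634733887919/397179497070312500 : ℝ) * ((r - (15/16 : ℝ)) ^ 8 * ((5/4 : ℝ) - r) ^ 2) + (1564058042208011398728058/99294874267578125 : ℝ) * ((r - (15/16 : ℝ)) ^ 9 * ((5/4 : ℝ) - r) ^ 1) + (1077526589670827498551804/496474371337890625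 : ℝ) * ((r - (15/16 : ℝ)) ^ 10 * ((5/4 : ℝ) - r) ^ 0) := by ring
    have u : 0 ≤ r - (15/16 : ℝ) := by linarith
    have v : 0 ≤ (5/4 : ℝ) - r := by linarith
    rw [e]
    positivity
  have e : (241130981/90190000 : ℝ) * r ^ 0 + (-45000/9019 : ℝ) * r ^ 1 + (1372951675139/162684722000 : ℝ) * r ^ 2 + (-12778543125/1301477776 : ℝ) * r ^ 3 + (647305268537/89757088000 : ℝ) * r ^ 4 + (-1951171875/162684722 : ℝ) * r ^ 5 + (4676340784237/650738888000 : ℝ) * r ^ 6 + (-36609609375/10411822208 : ℝ) * r ^ 7 + (102888983970667/20823644416000 : ℝ) * r ^ 8 + (-128361796875/666356621312 : ℝ) * r ^ 9 + (13111817671981751/13327132426240000 : ℝ) * r ^ 10 = (269381647417706874637951/13974511210977034240000 : ℝ) * (r - (5/4 : ℝ)) ^ 0 + (11819902742672871967511/69872556054885171200 : ℝ) * (r - (5/4 : ℝ)) ^ 1 + (105049864102640573101711/174681390137212928000 : ℝ) * (r - (5/4 : ℝ)) ^ 2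 + (1271611185736194222221/1091758688357580800 : ℝ) * (r - (5/4 : ℝ)) ^ 3 + (7744896632873076034971/5458793441787904000 : ℝ) * (r - (5/4 : ℝ)) ^ 4 + (158893020345163539493/136469836044697600 : ℝ) * (r - (5/4 : ℝ)) ^ 5 + (227016081874520635731/341174590111744000 : ℝ) * (r - (5/4 : ℝ)) ^ 6 + (1132897421695557341/4264682376396800 : ℝ) * (r - (5/4 : ℝ)) ^ 7 + (3068455121617819991/42646823763968000 : ℝ) * (r - (5/4 : ℝ)) ^ 8 + (12906438796981751/1066170594099200 : ℝ) * (r - (5/4 : ℝ)) ^ 9 + (13111817671981751/13327132426240000 : ℝ) * (r - (5/4 : ℝ)) ^ 10 := by ring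
  have u : 0 ≤ r - (5/4 : ℝ) := by linarith
  rw [e]
  positivity

theorem mn_6_6 : CondM 4 6 (8 / (9019 / 1000)) (1 / 10000) := by
  intro r hr
  have h := mn_6_6_pos r hr
  have e : (1 + r ^ 2) ^ 6 - (wwM 4 6 (8 / (9019 / 1000)) (r / 2) ^ 2 + (1 / 10000) * r ^ 2 * (1 + r ^ 2) ^ (6 - 1)) =
      r ^ 2 * ((241130981/90190000 : ℝ) * r ^ 0 + (-45000/9019 : ℝ) * r ^ 1 + (1372951675139/162684722000 : ℝ) * r ^ 2 + (-12778543125/1301477776 : ℝ) * r ^ 3 + (647305268537/89757088000 : ℝ) * r ^ 4 + (-1951171875/162684722 : ℝ) * r ^ 5 + (4676340784237/650738888000 : ℝ) * r ^ 6 + (-36609609375/10411822208 : ℝ) * r ^ 7 + (102888983970667/20823644416000 : ℝ) * r ^ 8 + (-128361796875/666356621312 : ℝ) * r ^ 9 + (13111817671981751/13327132426240000 : ℝ) * r ^ 10) := by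
    unfold wwM
    norm_num
    ring
  have h2 := mul_nonneg (sq_nonneg r) h
  rw [← e] at h2
  linarith

theorem condM6 : ∃ c > 0, ∀ j, 1 ≤ j → j ≤ 6 → CondM 4 j (8 / (9019 / 1000)) c := by
  refine ⟨1 / 10000, by norm_num, fun j hj1 hj2 => ?_⟩
  interval_cases j
  · exact mn_6_1
  · exact mn_6_2
  · exact mn_6_3
  · exact mn_6_4
  · exact mn_6_5
  · exact mn_6_6

end Pool.Agent.Lib.MP_d38209_co.CR
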