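import Pool.Agent.Lib.MP_d38209_co.CR.MDefs

set_option autoImplicit false

/-!
# The admissible families of labels
-/

namespace Pool.Agent.Lib.MP_d38209_co.CR

open Finset
open scoped Classical

variable {k : ℕ}

/-- there is a label whose number is not `0` -/
def hasA (M : Multiset (Lab k)) : Prop := ∃ l ∈ M, (l.2 : ℕ) ≠ 0

/-- there is a label with the sign `true` -/
def hasT (M : Multiset (Lab k)) : Prop := ∃ l ∈ M, l.1 = true

/-- there is a label with the sign `false` -/
def hasF (M : Multiset (Lab k)) : Prop := ∃ l ∈ M, l.1 = false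

theorem okm_def (M : Multiset (Lab k)) :
    okm M ↔ (M.map lval).sum = 0 ∧ (hasA M ∨ (hasT M ∧ hasF M)) := Iff.rfl

theorem lval_linv (l : Lab k) : lval (linv l) = -lval l := by
  rcases l with ⟨b, a⟩
  cases b <;> simp [lval, linv]

theorem lval_inj_aux {a b : ℕ} (ha : a < k) (hb : b < k) (h : (a : ZMod (2 * k - 1)) = b) :
    a = b := by
  have h1 := (ZMod.natCast_eq_natCast_iff' a b (2 * k - 1)).1 h
  rwa [Nat.mod_eq_of_lt (by omega), Nat.mod_eq_of_lt (by omega)] at h1

theorem lval_inj_aux2 {a b : ℕ} (ha : a < k) (hb : b < k) (h : (a : ZMod (2 * k - 1)) = -b) :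
    a = 0 := by
  have h1 : ((a + b : ℕ) : ZMod (2 * k - 1)) = 0 := by
    push_cast
    rw [h]
    ring
  have h2 := (ZMod.natCast_eq_zero_iff (a + b) (2 * k - 1)).1 h1
  by_contra h0
  have := Nat.le_of_dvd (by omega) h2
  omega

theorem lval_eq_zero (l : Lab k) : lval l = 0 ↔ (l.2 : ℕ) = 0 := by
  constructor
  · intro h
    rcases l with ⟨b, a⟩
    have h1 : ((a : ℕ) : ZMod (2 * k - 1)) = ((0 : ℕ) : ZMod (2 * k - 1)) := by
      cases b
      · simpa [lval] using h
      · simpa [lval] using h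
    exact lval_inj_aux a.2 (lt_of_le_of_lt (Nat.zero_le _) a.2) h1
  · intro h
    simp [lval, h]

theorem lval_inj {l m : Lab k} (h : lval l = lval m) (h0 : (l.2 : ℕ) ≠ 0) : l = m := by
  rcases l with ⟨b, a⟩
  rcases m with ⟨b', a'⟩
  cases b <;> cases b'
  · have h1 : ((a : ℕ) : ZMod (2 * k - 1)) = (a' : ℕ) := by simpa [lval] using h
    have := lval_inj_aux a.2 a'.2 h1
    exact Prod.ext rfl (Fin.ext this)
  · have h1 : ((a : ℕ) : ZMod (2 * k - 1)) = -((a' : ℕ) : ZMod (2 * k - 1)) := by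
      have : -((a : ℕ) : ZMod (2 * k - 1)) = ((a' : ℕ) : ZMod (2 * k - 1)) := by
        simpa [lval] using h
      rw [← this]; ring
    exact absurd (lval_inj_aux2 a.2 a'.2 h1) h0
  · have h1 : ((a : ℕ) : ZMod (2 * k - 1)) = -((a' : ℕ) : ZMod (2 * k - 1)) := by
      simpa [lval] using h
    exact absurd (lval_inj_aux2 a.2 a'.2 h1) h0
  · have h1 : ((a : ℕ) : ZMod (2 * k - 1)) = (a' : ℕ) := by simpa [lval] using h
    have := lval_inj_aux a.2 a'.2 h1
    exact Prod.ext rfl (Fin.ext this)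

theorem lval_surj (hk : 1 ≤ k) (z : ZMod (2 * k - 1)) : ∃ l : Lab k, lval l = z := by
  have : NeZero (2 * k - 1) := ⟨by omega⟩
  have hz : z.val < 2 * k - 1 := ZMod.val_lt z
  by_cases h : z.val < k
  · refine ⟨(true, ⟨z.val, h⟩), ?_⟩
    simp [lval]
  · refine ⟨(false, ⟨2 * k - 1 - z.val, by omega⟩), ?_⟩
    have h1 : ((2 * k - 1 - z.val : ℕ) : ZMod (2 * k - 1)) = -z := by
      rw [Nat.cast_sub hz.le, ZMod.natCast_self, ZMod.natCast_zmod_val]
      ring
    simp only [lval, if_neg (by decide : ¬ (false = true)), h1, neg_neg]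

theorem ok_zero {k : ℕ} : ¬ okm (0 : Multiset (Lab k)) := by
  rintro ⟨-, ⟨l, hl, -⟩ | ⟨⟨l, hl, -⟩, -⟩⟩ <;> exact absurd hl (Multiset.notMem_zero l)

theorem ok_single {k : ℕ} (a : Lab k) : ¬ okm ({a} : Multiset (Lab k)) := by
  rintro ⟨h, h'⟩
  rw [Multiset.map_singleton, Multiset.sum_singleton, lval_eq_zero] at h
  rcases h' with ⟨l, hl, h0⟩ | ⟨⟨l, hl, h0⟩, m, hm, h1⟩
  · rw [Multiset.mem_singleton] at hl
    rw [hl] at h0
    exact h0 h
  · rw [Multiset.mem_singleton] at hl hm
    rw [hl] at h0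
    rw [hm, h0] at h1
    exact absurd h1 (by decide)

theorem linv_num (l : Lab k) : (linv l).2 = l.2 := rfl

theorem linv_sign (l : Lab k) : (linv l).1 = !l.1 := rfl

theorem sum_cons (x : Lab k) (M : Multiset (Lab k)) :
    ((x ::ₘ M).map lval).sum = lval x + (M.map lval).sum := by
  rw [Multiset.map_cons, Multiset.sum_cons]

theorem hasA_cons (x : Lab k) (M : Multiset (Lab k)) :
    hasA (x ::ₘ M) ↔ (x.2 : ℕ) ≠ 0 ∨ hasA M := by
  simp [hasA]

theorem hasT_cons (x : Lab k) (M : Multiset (Lab k)) :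
    hasT (x ::ₘ M) ↔ x.1 = true ∨ hasT M := by
  simp [hasT]

theorem hasF_cons (x : Lab k) (M : Multiset (Lab k)) :
    hasF (x ::ₘ M) ↔ x.1 = false ∨ hasF M := by
  simp [hasF]

theorem okm_cons (x : Lab k) (M : Multiset (Lab k)) :
    okm (x ::ₘ M) ↔ lval x + (M.map lval).sum = 0 ∧
      (((x.2 : ℕ) ≠ 0 ∨ hasA M) ∨ ((x.1 = true ∨ hasT M) ∧ (x.1 = false ∨ hasF M))) := by
  rw [okm_def, sum_cons, hasA_cons, hasT_cons, hasF_cons]

theorem hasA_add (M N : Multiset (Lab k)) : hasA (M + N) ↔ hasA M ∨ hasA N := by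
  simp only [hasA, Multiset.mem_add, or_and_right, exists_or]

theorem hasT_add (M N : Multiset (Lab k)) : hasT (M + N) ↔ hasT M ∨ hasT N := by
  simp only [hasT, Multiset.mem_add, or_and_right, exists_or]

theorem hasF_add (M N : Multiset (Lab k)) : hasF (M + N) ↔ hasF M ∨ hasF N := by
  simp only [hasF, Multiset.mem_add, or_and_right, exists_or]

theorem okm_add (M N : Multiset (Lab k)) :
    okm (M + N) ↔ (M.map lval).sum + (N.map lval).sum = 0 ∧
      ((hasA M ∨ hasA N) ∨ ((hasT M ∨ hasT N) ∧ (hasF M ∨ hasF N))) := by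
  rw [okm_def, Multiset.map_add, Multiset.sum_add, hasA_add, hasT_add, hasF_add]

theorem hasT_or_hasF {M : Multiset (Lab k)} (h : M ≠ 0) : hasT M ∨ hasF M := by
  obtain ⟨l, hl⟩ := Multiset.exists_mem_of_ne_zero h
  cases hb : l.1
  · exact Or.inr ⟨l, hl, hb⟩
  · exact Or.inl ⟨l, hl, hb⟩

theorem hasA_of_sum {M : Multiset (Lab k)} (h : (M.map lval).sum ≠ 0) : hasA M := by
  by_contra h0
  apply h
  refine Multiset.sum_eq_zero fun z hz => ?_
  obtain ⟨l, hl, rfl⟩ := Multiset.mem_map.1 hz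
  rw [lval_eq_zero]
  by_contra h1
  exact h0 ⟨l, hl, h1⟩

theorem ok_pair {k : ℕ} (a b : Lab k) : okm ({a, b} : Multiset (Lab k)) ↔ b = linv a := by
  rw [Multiset.insert_eq_cons, okm_cons, Multiset.map_singleton, Multiset.sum_singleton]
  constructor
  · rintro ⟨h, h'⟩
    have h1 : lval (linv a) = lval b := by
      rw [lval_linv]
      exact neg_eq_of_add_eq_zero_right h
    by_cases h0 : (a.2 : ℕ) = 0
    · have ha : lval a = 0 := (lval_eq_zero a).2 h0
      have hb : (b.2 : ℕ) = 0 := by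
        rw [← lval_eq_zero, ← h1, lval_linv, ha, neg_zero]
      rcases h' with (h2 | ⟨l, hl, h2⟩) | ⟨h2, h3⟩
      · exact absurd h0 h2
      · rw [Multiset.mem_singleton] at hl
        rw [hl] at h2
        exact absurd hb h2
      · refine Prod.ext ?_ (Fin.ext ?_)
        · rw [linv_sign]
          rcases h2 with h2 | ⟨l, hl, h2⟩
          · rcases h3 with h3 | ⟨m, hm, h3⟩
            · rw [h2] at h3
              exact absurd h3 (by decide)
            · rw [Multiset.mem_singleton] at hm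
              rw [hm] at h3
              rw [h2, h3]
              rfl
          · rw [Multiset.mem_singleton] at hl
            rw [hl] at h2
            rcases h3 with h3 | ⟨m, hm, h3⟩
            · rw [h2, h3]
              rfl
            · rw [Multiset.mem_singleton] at hm
              rw [hm, h2] at h3
              exact absurd h3 (by decide)
        · rw [linv_num, h0, hb]
    · exact (lval_inj h1 h0).symm
  · rintro rfl
    refine ⟨by rw [lval_linv]; ring, ?_⟩
    by_cases h0 : (a.2 : ℕ) = 0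
    · right
      cases ha : a.1
      · exact ⟨Or.inr ⟨linv a, Multiset.mem_singleton_self _, by rw [linv_sign, ha]; rfl⟩,
          Or.inl rfl⟩
      · exact ⟨Or.inl rfl,
          Or.inr ⟨linv a, Multiset.mem_singleton_self _, by rw [linv_sign, ha]; rfl⟩⟩
    · exact Or.inl (Or.inl h0)

theorem ok_inv {k : ℕ} (M : Multiset (Lab k)) : okm (M.map linv) ↔ okm M := by
  have h1 : ((M.map linv).map lval).sum = -(M.map lval).sum := by
    rw [Multiset.map_map, ← Multiset.sum_map_neg]
    exact congrArg Multiset.sum (Multiset.map_congr rfl fun x _ => lval_linv x)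
  have h2 : hasA (M.map linv) ↔ hasA M := by
    constructor
    · rintro ⟨l, hl, h⟩
      obtain ⟨m, hm, rfl⟩ := Multiset.mem_map.1 hl
      exact ⟨m, hm, h⟩
    · rintro ⟨m, hm, h⟩
      exact ⟨linv m, Multiset.mem_map_of_mem _ hm, h⟩
  have h3 : hasT (M.map linv) ↔ hasF M := by
    constructor
    · rintro ⟨l, hl, h⟩
      obtain ⟨m, hm, rfl⟩ := Multiset.mem_map.1 hl
      refine ⟨m, hm, ?_⟩
      rw [linv_sign] at h
      simpa using h
    · rintro ⟨m, hm, h⟩
      exact ⟨linv m, Multiset.mem_map_of_mem _ hm, by rw [linv_sign, h]; rfl⟩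
  have h4 : hasF (M.map linv) ↔ hasT M := by
    constructor
    · rintro ⟨l, hl, h⟩
      obtain ⟨m, hm, rfl⟩ := Multiset.mem_map.1 hl
      refine ⟨m, hm, ?_⟩
      rw [linv_sign] at h
      simpa using h
    · rintro ⟨m, hm, h⟩
      exact ⟨linv m, Multiset.mem_map_of_mem _ hm, by rw [linv_sign, h]; rfl⟩
  rw [okm_def, okm_def, h1, h2, h3, h4, neg_eq_zero, and_comm (a := hasF M)]

theorem ok_loop {k : ℕ} (I : Multiset (Lab k)) (h : I ≠ 0 → okm I) (x : Lab k) :
    okm (x ::ₘ linv x ::ₘ I) := by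
  have hs : (I.map lval).sum = 0 := by
    by_cases h0 : I = 0
    · rw [h0]; rfl
    · exact (h h0).1
  rw [okm_cons, sum_cons, hs, lval_linv]
  refine ⟨by ring, ?_⟩
  by_cases h0 : (x.2 : ℕ) = 0
  · right
    rw [hasT_cons, hasF_cons, linv_sign]
    cases hx : x.1
    · exact ⟨Or.inr (Or.inl rfl), Or.inl rfl⟩
    · exact ⟨Or.inl rfl, Or.inr (Or.inl rfl)⟩
  · exact Or.inl (Or.inl h0)

/-- the contraction identity -/
theorem ok_card {k : ℕ} (I J : Multiset (Lab k)) (hI : I ≠ 0) (hJ : J ≠ 0) :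
    (univ.filter fun x : Lab k => okm (x ::ₘ I) ∧ okm (linv x ::ₘ J)).card =
      (if okm (I + J) then 1 else 0) + (if okm I ∧ okm J then 1 else 0) := by
  have hk : 1 ≤ k := by
    obtain ⟨l, -⟩ := Multiset.exists_mem_of_ne_zero hI
    exact Nat.lt_of_le_of_lt (Nat.zero_le _) l.2.2
  by_cases hsum : (I.map lval).sum + (J.map lval).sum = 0
  · by_cases hs : (I.map lval).sum = 0
    · -- both sums are zero
      have hs' : (J.map lval).sum = 0 := by rwa [hs, zero_add] at hsum
      have hTI := hasT_or_hasF hI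
      have hTJ := hasT_or_hasF hJ
      have key : (univ.filter fun x : Lab k => okm (x ::ₘ I) ∧ okm (linv x ::ₘ J)).card =
          (if (hasA I ∨ hasT I) ∧ (hasA J ∨ hasF J) then 1 else 0) +
            (if (hasA I ∨ hasF I) ∧ (hasA J ∨ hasT J) then 1 else 0) := by
        rw [Finset.card_filter, Fintype.sum_prod_type, Fintype.sum_bool, add_comm]
        have hone : ∀ b : Bool, (∑ a : Fin k,
            if okm ((b, a) ::ₘ I) ∧ okm (linv (b, a) ::ₘ J) then 1 else 0 : ℕ) =
            if okm ((b, (⟨0, hk⟩ : Fin k)) ::ₘ I) ∧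
              okm (linv (b, (⟨0, hk⟩ : Fin k)) ::ₘ J) then 1 else 0 := by
          intro b
          refine Finset.sum_eq_single (⟨0, hk⟩ : Fin k) (fun a _ ha => ?_)
            fun h => absurd (Finset.mem_univ _) h
          refine if_neg fun h => ha ?_
          have h1 := ((okm_cons _ _).1 h.1).1
          rw [hs, add_zero, lval_eq_zero] at h1
          exact Fin.ext h1
        rw [hone, hone]
        have e1 : (okm ((false, (⟨0, hk⟩ : Fin k)) ::ₘ I) ∧
            okm (linv (false, (⟨0, hk⟩ : Fin k)) ::ₘ J)) ↔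
            ((hasA I ∨ hasT I) ∧ (hasA J ∨ hasF J)) := by
          rw [okm_cons, okm_cons, hs, hs', lval_linv,
            (lval_eq_zero (false, (⟨0, hk⟩ : Fin k))).2 rfl]
          simp [linv]
        have e2 : (okm ((true, (⟨0, hk⟩ : Fin k)) ::ₘ I) ∧
            okm (linv (true, (⟨0, hk⟩ : Fin k)) ::ₘ J)) ↔
            ((hasA I ∨ hasF I) ∧ (hasA J ∨ hasT J)) := by
          rw [okm_cons, okm_cons, hs, hs', lval_linv,
            (lval_eq_zero (true, (⟨0, hk⟩ : Fin k))).2 rfl]
          simp [linv]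
        rw [if_congr e1 rfl rfl, if_congr e2 rfl rfl]
      rw [key]
      have e3 : okm (I + J) ↔
          ((hasA I ∨ hasA J) ∨ ((hasT I ∨ hasT J) ∧ (hasF I ∨ hasF J))) := by
        rw [okm_add]
        exact ⟨fun h => h.2, fun h => ⟨hsum, h⟩⟩
      have e4 : (okm I ∧ okm J) ↔
          ((hasA I ∨ (hasT I ∧ hasF I)) ∧ (hasA J ∨ (hasT J ∧ hasF J))) := by
        rw [okm_def, okm_def]
        exact ⟨fun h => ⟨h.1.2, h.2.2⟩, fun h => ⟨⟨hs, h.1⟩, ⟨hs', h.2⟩⟩⟩
      rw [if_congr e3 rfl rfl, if_congr e4 rfl rfl]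
      by_cases a1 : hasA I <;> by_cases a2 : hasA J <;> by_cases t1 : hasT I <;>
        by_cases t2 : hasT J <;> by_cases f1 : hasF I <;> by_cases f2 : hasF J <;>
        simp_all
    · -- the sums are opposite and not zero
      have hs' : (J.map lval).sum ≠ 0 := by
        intro h
        rw [h, add_zero] at hsum
        exact hs hsum
      obtain ⟨x, hx⟩ := lval_surj hk (-(I.map lval).sum)
      have hx0 : (x.2 : ℕ) ≠ 0 := by
        rw [Ne, ← lval_eq_zero, hx, neg_eq_zero]
        exact hs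
      have hJx : (J.map lval).sum = lval x := by
        rw [hx]
        exact (neg_eq_of_add_eq_zero_right hsum).symm
      have h1 : (univ.filter fun x : Lab k => okm (x ::ₘ I) ∧ okm (linv x ::ₘ J)) = {x} := by
        ext y
        rw [Finset.mem_filter, Finset.mem_singleton]
        constructor
        · rintro ⟨-, h, -⟩
          have h2 := ((okm_cons _ _).1 h).1
          refine (lval_inj ?_ hx0).symm
          rw [hx]
          exact neg_eq_of_add_eq_zero_left h2
        · rintro rfl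
          refine ⟨Finset.mem_univ _, ?_, ?_⟩
          · rw [okm_cons, hx]
            exact ⟨by ring, Or.inl (Or.inl hx0)⟩
          · rw [okm_cons, lval_linv, hJx]
            exact ⟨by ring, Or.inl (Or.inl hx0)⟩
      rw [h1, Finset.card_singleton, if_pos ((okm_add I J).2 ⟨hsum, Or.inl (Or.inl (hasA_of_sum hs))⟩),
        if_neg fun h => hs h.1.1]
  · rw [if_neg fun h => hsum ((okm_add I J).1 h).1, if_neg fun h => hsum ?_,
      Finset.card_eq_zero, Finset.filter_eq_empty_iff]
    · rintro x - ⟨h1, h2⟩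
      have h1 := ((okm_cons _ _).1 h1).1
      have h2 := ((okm_cons _ _).1 h2).1
      rw [lval_linv] at h2
      apply hsum
      calc (I.map lval).sum + (J.map lval).sum
          = (lval x + (I.map lval).sum) + (-lval x + (J.map lval).sum) := by ring
        _ = 0 := by rw [h1, h2, add_zero]
    · rw [h.1.1, h.2.1, add_zero]

end Pool.Agent.Lib.MP_d38209_co.CR
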