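import Pool.Agent.Lib.MP_d38209_co.CR.MDefs
import Pool.Agent.Lib.MP_d38209_co.CR.GPairCount

/-!
# MP1 : the probability that a labelling is compatible with a random pairing of the points in use
-/

set_option autoImplicit false

namespace Pool.Agent.Lib.MP_d38209_co.CR

open Finset
open scoped Classical
open Pool.Agent.HC (Pairing av pr)

private lemma mp1_none {k : ℕ} {P : Type} (y : P → Option (Lab k)) (π : Pairing P)
    (h : ∀ p, y (π.1 p) = (y p).map linv) (p : P) : y (π.1 p) = none ↔ y p = none := by
  rw [h p]
  cases y p <;> simp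

/-- The restriction to the points with the label `(true, a)`. -/
private noncomputable def mp1_emb {k : ℕ} {P : Type} (y : P → Option (Lab k)) (π : Pairing P)
    (h : ∀ p, y (π.1 p) = (y p).map linv) (a : Fin k) :
    {p : P // y p = some (true, a)} ↪ {p : P // y p = some (false, a)} :=
  ⟨fun p => ⟨π.1 p.1, by rw [h p.1, p.2]; rfl⟩, fun p q hpq => by
    apply Subtype.ext
    exact π.1.injective (congrArg Subtype.val hpq)⟩

private lemma mp1_fib {k : ℕ} {P : Type} [Fintype P] (y : P → Option (Lab k)) :
    Fintype.card P = (univ.filter fun p => y p = none).card +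
      (∑ a, (univ.filter fun p => y p = some (true, a)).card +
        ∑ a, (univ.filter fun p => y p = some (false, a)).card) := by
  have h := Finset.card_eq_sum_card_fiberwise (s := (univ : Finset P))
    (t := (univ : Finset (Option (Lab k)))) (f := y) (fun _ _ => by simp)
  rw [Finset.card_univ] at h
  rw [h, Fintype.sum_option, Fintype.sum_prod_type, Fintype.sum_bool]

private theorem mp1_count {k : ℕ} {P : Type} [Fintype P] (r s : ℕ) (hP : Fintype.card P = 2 * r)
    (y : P → Option (Lab k)) (m : Fin k → ℕ) (hms : ∑ a, m a = s)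
    (hp : ∀ a, Fintype.card {p : P // y p = some (true, a)} = m a)
    (hm : ∀ a, Fintype.card {p : P // y p = some (false, a)} = m a) :
    (Finset.univ.filter (fun π : Pairing P => ∀ p, y (π.1 p) = (y p).map linv)).card ≤
      (∏ a, (m a).factorial) * (2 * (r - s) - 1).doubleFactorial ∧ s ≤ r := by
  have hc := mp1_fib y
  have e1 : ∑ a, (univ.filter fun p => y p = some (true, a)).card = s := by
    rw [← hms]
    refine Finset.sum_congr rfl fun a _ => ?_
    rw [← hp a, Fintype.card_subtype]
  have e2 : ∑ a, (univ.filter fun p => y p = some (false, a)).card = s := by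
    rw [← hms]
    refine Finset.sum_congr rfl fun a _ => ?_
    rw [← hm a, Fintype.card_subtype]
  rw [e1, e2] at hc
  have hn : Fintype.card {p : P // y p = none} = 2 * (r - s) := by
    rw [Fintype.card_subtype]
    omega
  refine ⟨?_, by omega⟩
  have h2 : Fintype.card {π : Pairing P // ∀ p, y (π.1 p) = (y p).map linv} ≤
      Fintype.card (((a : Fin k) → ({p : P // y p = some (true, a)} ↪
        {p : P // y p = some (false, a)})) × Pairing {p : P // y p = none}) := by
    refine Fintype.card_le_of_injective (fun π =>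
      (fun a => mp1_emb y π.1 π.2 a,
        HC.p06_res (fun p => y p = none) π.1 (fun p => mp1_none y π.1 π.2 p))) ?_
    intro π π' h
    apply Subtype.ext
    apply Subtype.ext
    have ha := congrArg Prod.fst h
    have hb := congrArg Prod.snd h
    have h1 : ∀ p a, y p = some (true, a) → π.1.1 p = π'.1.1 p := by
      intro p a hp
      have h3 := congrArg (fun τ : ((a : Fin k) → ({p : P // y p = some (true, a)} ↪
        {p : P // y p = some (false, a)})) =>
        ((τ a ⟨p, hp⟩ : {p : P // y p = some (false, a)}) : P)) ha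
      exact h3
    ext p
    rcases hy : y p with _ | ⟨b, a⟩
    · have h3 := congrArg (fun τ : Pairing {p : P // y p = none} =>
        ((τ.1 ⟨p, hy⟩ : {p : P // y p = none}) : P)) hb
      exact h3
    · cases b
      · have h4 : y (π.1.1 p) = some (true, a) := by rw [π.2 p, hy]; rfl
        have h5 := h1 _ a h4
        rw [π.1.inv p] at h5
        have h6 := congrArg π'.1.1 h5
        rw [π'.1.inv] at h6
        exact h6.symm
      · exact h1 p a hy
  rw [Fintype.card_prod, Fintype.card_pi] at h2
  have e3 : ∏ a, Fintype.card ({p : P // y p = some (true, a)} ↪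
      {p : P // y p = some (false, a)}) = ∏ a, (m a).factorial := by
    refine Finset.prod_congr rfl fun a _ => ?_
    rw [Fintype.card_embedding_eq, hp a, hm a, Nat.descFactorial_self]
  rw [e3] at h2
  rw [← Fintype.card_subtype]
  refine (le_of_eq (HC.p01_inst _ _ _)).trans (h2.trans (le_of_eq ?_))
  have e4 : Fintype.card (Pairing {p : P // y p = none}) = (2 * (r - s) - 1).doubleFactorial :=
    (HC.p01_inst _ _ _).trans (HC.P01d (r - s) hn)
  rw [e4]

private lemma mp1_gen {k : ℕ} {P : Type} [Fintype P] [inst : Fintype (Pairing P)] (r s : ℕ)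
    (hP : Fintype.card P = 2 * r)
    (y : P → Option (Lab k)) (m : Fin k → ℕ) (hms : ∑ a, m a = s)
    (hp : ∀ a, Fintype.card {p : P // y p = some (true, a)} = m a)
    (hm : ∀ a, Fintype.card {p : P // y p = some (false, a)} = m a) :
    pr (fun π : Pairing P => ∀ p, y (π.1 p) = (y p).map linv) ≤
      (∏ a, ((m a).factorial : ℝ)) / ∏ i ∈ range s, ((2 * r : ℝ) - 2 * i - 1) := by
  obtain ⟨h1, hsr⟩ := mp1_count r s hP y m hms hp hm
  have h3 := HC.P01d r hP
  rw [HC.pr_eq_card]
  have h3' : Fintype.card (Pairing P) = (2 * r - 1).doubleFactorial := (HC.p01_inst _ _ _).trans h3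
  rw [h3', p1_df r s hsr]
  have hA : (0 : ℝ) < ∏ i ∈ range s, ((2 * r : ℝ) - 2 * i - 1) := by
    refine Finset.prod_pos fun i hi => ?_
    have hi' : i + 1 ≤ r := by have := Finset.mem_range.1 hi; omega
    have : (i : ℝ) + 1 ≤ r := by exact_mod_cast hi'
    linarith
  have hB : (0 : ℝ) < ((2 * (r - s) - 1).doubleFactorial : ℝ) := by
    exact_mod_cast Nat.doubleFactorial_pos _
  generalize hc : (Finset.card _) = c
  have h1' : c ≤ (∏ a, (m a).factorial) * (2 * (r - s) - 1).doubleFactorial := by
    rw [← hc]
    refine le_trans (le_of_eq ?_) h1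
    congr
    exact Subsingleton.elim _ _
  have h1'' : (c : ℝ) ≤ (∏ a, ((m a).factorial : ℝ)) *
      ((2 * (r - s) - 1).doubleFactorial : ℝ) := by exact_mod_cast h1'
  rw [div_le_div_iff₀ (mul_pos hA hB) hA]
  calc (c : ℝ) * ∏ i ∈ range s, ((2 * r : ℝ) - 2 * i - 1) ≤
      ((∏ a, ((m a).factorial : ℝ)) * ((2 * (r - s) - 1).doubleFactorial : ℝ)) *
        ∏ i ∈ range s, ((2 * r : ℝ) - 2 * i - 1) := mul_le_mul_of_nonneg_right h1'' hA.le
    _ = _ := by ring

/-- A compatible labelling lives on the points in use. -/
private lemma mp1_live {n d k : ℕ} {D : Fin n → ℕ} (c : Pt n d → Option (Lab k))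
    (π : Pairing (Live d D)) (h : CompM (ext π) c) (p : Pt n d) (hp : c p ≠ none) :
    (p.2 : ℕ) < D p.1 := by
  by_contra hd
  have h1 := h p
  rw [ext_dead π hd] at h1
  apply hp
  rcases hc : c p with _ | ⟨b, a⟩
  · rfl
  · rw [hc] at h1
    have h2 : (b, a) = linv (b, a) := Option.some.inj h1
    have h3 : b = !b := congrArg Prod.fst h2
    cases b <;> simp at h3

private lemma mp1_comp {n d k : ℕ} {D : Fin n → ℕ} (c : Pt n d → Option (Lab k))
    (π : Pairing (Live d D)) (h : CompM (ext π) c) (p : Live d D) :
    c (π.1 p).1 = (c p.1).map linv := by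
  rw [← ext_live π p]
  exact h p.1

private lemma mp1_card {n d k : ℕ} {D : Fin n → ℕ} (c : Pt n d → Option (Lab k))
    (hc : ∀ p, c p ≠ none → (p.2 : ℕ) < D p.1) (l : Lab k) :
    (univ.filter fun p : Live d D => c p.1 = some l).card =
      (univ.filter fun p : Pt n d => c p = some l).card := by
  refine Finset.card_bij (fun p _ => p.1) ?_ ?_ ?_
  · intro p hp
    simp only [mem_filter, mem_univ, true_and] at hp ⊢
    exact hp
  · intro p _ q _ h
    exact Subtype.ext h
  · intro p hp
    simp only [mem_filter, mem_univ, true_and] at hp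
    refine ⟨⟨p, hc p (by rw [hp]; exact Option.some_ne_none l)⟩, ?_, rfl⟩
    simp only [mem_filter, mem_univ, true_and]
    exact hp

private lemma mp1_bal {k : ℕ} {P : Type} [Fintype P] (y : P → Option (Lab k)) (π : Pairing P)
    (h : ∀ p, y (π.1 p) = (y p).map linv) (a : Fin k) :
    (univ.filter fun p => y p = some (true, a)).card =
      (univ.filter fun p => y p = some (false, a)).card := by
  refine Finset.card_bij (fun p _ => π.1 p) ?_ ?_ ?_
  · intro p hp
    simp only [mem_filter, mem_univ, true_and] at hp ⊢
    rw [h p, hp]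
    rfl
  · intro p _ q _ hpq
    exact π.1.injective hpq
  · intro p hp
    simp only [mem_filter, mem_univ, true_and] at hp
    refine ⟨π.1 p, ?_, π.inv p⟩
    simp only [mem_filter, mem_univ, true_and]
    rw [h p, hp]
    rfl

/-- The number of the points with a sign is the sum over the numbers. -/
private lemma mp1_sgn {n d k : ℕ} (c : Pt n d → Option (Lab k)) (b : Bool) :
    ∑ a, cntM c b a = sgnM c b := by
  unfold cntM sgnM
  rw [← Finset.card_biUnion]
  · refine congrArg Finset.card ?_
    ext p
    simp only [mem_biUnion, mem_filter, mem_univ, true_and]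
  · intro a _ a' _ haa
    show Disjoint _ _
    rw [Finset.disjoint_left]
    intro p hp hp'
    simp only [mem_filter, mem_univ, true_and] at hp hp'
    rw [hp] at hp'
    exact haa (congrArg Prod.snd (Option.some.inj hp'))

/-! MP1 (CR/MPairCount.lean) -/
theorem pr_compM {n d k s : ℕ} {D : Fin n → ℕ} (hD : ∀ v, D v ≤ d) (hs : 2 * s ≤ ∑ v, D v)
    (c : Pt n d → Option (Lab k)) (hc : sgnM c true = s) :
    pr (fun π : Pairing (Live d D) => CompM (ext π) c) ≤
      if (∀ a, cntM c false a = cntM c true a) ∧ ∀ p, c p ≠ none → (p.2 : ℕ) < D p.1 then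
        (∏ a, ((cntM c true a).factorial : ℝ)) / ∏ i ∈ range s, ((∑ v, (D v : ℝ)) - 2 * i - 1)
      else 0 := by
  have hcard := card_live (n := n) (d := d) hD
  split_ifs with hm
  · by_cases hev : Even (∑ v, D v)
    · obtain ⟨r, hr⟩ := hev
      have hr2 : ∑ v, D v = 2 * r := by omega
      have e1 : (∑ v, (D v : ℝ)) = 2 * r := by exact_mod_cast hr2
      rw [e1]
      have h5 := mp1_gen (P := Live d D) r s (hcard.trans hr2) (fun p => c p.1)
        (fun a => cntM c true a) ((mp1_sgn c true).trans hc) ?_ ?_
      · exact (HC.pr_mono fun π h p => mp1_comp c π h p).trans h5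
      · intro a
        rw [Fintype.card_subtype]
        exact mp1_card c hm.2 (true, a)
      · intro a
        rw [Fintype.card_subtype, ← hm.1 a]
        exact mp1_card c hm.2 (false, a)
    · have hE : IsEmpty (Pairing (Live d D)) := HC.P01e (by rw [hcard]; exact hev)
      have h0 : pr (fun π : Pairing (Live d D) => CompM (ext π) c) = 0 := by
        rw [HC.pr_eq_card]
        simp
      rw [h0]
      refine div_nonneg (by positivity) (Finset.prod_nonneg fun i hi => ?_)
      have hi' : 2 * i + 1 ≤ ∑ v, D v := by have := Finset.mem_range.1 hi; omega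
      have : (2 * (i : ℝ)) + 1 ≤ (∑ v, (D v : ℝ)) := by exact_mod_cast hi'
      linarith
  · have h1 : ∀ π : Pairing (Live d D), CompM (ext π) c ↔ False := by
      intro π
      refine ⟨fun h => hm ⟨fun a => ?_, mp1_live c π h⟩, fun h => h.elim⟩
      have h1 := mp1_bal (fun p : Live d D => c p.1) π (mp1_comp c π h) a
      have e1 := mp1_card (D := D) c (mp1_live c π h) (true, a)
      have e2 := mp1_card (D := D) c (mp1_live c π h) (false, a)
      unfold cntM
      rw [← e1, ← e2]
      exact h1.symm
    rw [HC.pr_congr h1, HC.pr_false]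

end Pool.Agent.Lib.MP_d38209_co.CR
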