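import Pool.Agent.Lib.MP_d38209_co.CR.MOk

set_option autoImplicit false

/-!
# MS. The maximum of the local function is at `u = 1`
-/

namespace Pool.Agent.Lib.MP_d38209_co.CR

open Finset
open scoped Classical


/-- The families with one label prescribed. -/
noncomputable def ms_P {k : ℕ} (u : Lab k → ℝ) (i : ℕ) (x : Lab k) : ℝ :=
  ∑ ρ : Fin i → Lab k, if okm (x ::ₘ univ.val.map ρ) then ∏ j, u (ρ j) else 0

theorem ms_cons {k : ℕ} (i : ℕ) (x : Lab k) (ρ : Fin i → Lab k) :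
    (univ : Finset (Fin (i + 1))).val.map (Fin.cons x ρ : Fin (i + 1) → Lab k) =
      x ::ₘ univ.val.map ρ := by
  rw [Fin.univ_val_map, Fin.univ_val_map, List.ofFn_succ]
  simp

theorem ms_append {k : ℕ} (i j : ℕ) (ρ : Fin i → Lab k) (τ : Fin j → Lab k) :
    (univ : Finset (Fin (i + j))).val.map (Fin.append ρ τ) = univ.val.map ρ + univ.val.map τ := by
  rw [Fin.univ_val_map, Fin.univ_val_map, Fin.univ_val_map, List.ofFn_fin_append]
  simp

theorem ms_split {k : ℕ} (u : Lab k → ℝ) (i : ℕ) : VV u (i + 1) = ∑ x, u x * ms_P u i x := by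
  unfold VV ms_P
  rw [← (Fin.consEquiv fun _ : Fin (i + 1) => Lab k).sum_comp, Fintype.sum_prod_type]
  refine sum_congr rfl fun x _ => ?_
  rw [mul_sum]
  refine sum_congr rfl fun ρ _ => ?_
  simp only [Fin.consEquiv_apply]
  rw [ms_cons, Fin.prod_univ_succ]
  simp only [Fin.cons_zero, Fin.cons_succ]
  split_ifs
  · rfl
  · rw [mul_zero]

theorem VV_zero' {k : ℕ} (u : Lab k → ℝ) : VV u 0 = 0 := by
  unfold VV
  refine sum_eq_zero fun ρ _ => ?_
  rw [if_neg]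
  simpa using ok_zero (k := k)

theorem VV_one {k : ℕ} (u : Lab k → ℝ) : VV u 1 = 0 := by
  unfold VV
  refine sum_eq_zero fun ρ _ => ?_
  rw [if_neg]
  have h : (univ : Finset (Fin 1)).val.map ρ = {ρ 0} := by
    rw [Fin.univ_val_map]
    simp
  rw [h]
  exact ok_single _

theorem VV_nonneg {k : ℕ} (u : Lab k → ℝ) (h0 : ∀ l, 0 ≤ u l) (j : ℕ) : 0 ≤ VV u j := by
  unfold VV
  refine sum_nonneg fun ρ _ => ?_
  split_ifs
  · exact prod_nonneg fun i _ => h0 _
  · exact le_rfl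

theorem ms_two {k : ℕ} (u : Lab k → ℝ) (hs : ∀ l, u (linv l) = u l) :
    VV u 2 = ∑ l, u l ^ 2 := by
  rw [ms_split]
  refine sum_congr rfl fun x _ => ?_
  unfold ms_P
  have h : ∑ ρ : Fin 1 → Lab k, (if okm (x ::ₘ univ.val.map ρ) then ∏ j, u (ρ j) else 0) =
      ∑ y : Lab k, if y = linv x then u y else 0 := by
    rw [← (Equiv.funUnique (Fin 1) (Lab k)).symm.sum_comp]
    refine sum_congr rfl fun y _ => ?_
    have h1 : (univ : Finset (Fin 1)).val.map ((Equiv.funUnique (Fin 1) (Lab k)).symm y) = {y} := by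
      rw [Fin.univ_val_map]
      simp
    rw [h1]
    have h2 : (x ::ₘ ({y} : Multiset (Lab k))) = {x, y} := rfl
    rw [h2]
    simp only [ok_pair]
    simp
  rw [h, sum_ite_eq' univ (linv x) u, if_pos (mem_univ _), hs]
  ring

theorem ms_inv {k : ℕ} (u : Lab k → ℝ) (hs : ∀ l, u (linv l) = u l) (i : ℕ) (x : Lab k) :
    ms_P u i (linv x) = ms_P u i x := by
  have hli : Function.Involutive (linv : Lab k → Lab k) := by
    intro l
    simp [linv]
  unfold ms_P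
  rw [← (Equiv.piCongrRight fun _ : Fin i => hli.toPerm).sum_comp]
  refine sum_congr rfl fun ρ _ => ?_
  have h1 : linv x ::ₘ (univ : Finset (Fin i)).val.map
      ((Equiv.piCongrRight fun _ : Fin i => hli.toPerm) ρ) =
      (x ::ₘ univ.val.map ρ).map linv := by
    rw [Multiset.map_cons, Multiset.map_map]
    rfl
  rw [h1]
  simp only [ok_inv]
  split_ifs
  · refine prod_congr rfl fun j _ => ?_
    exact hs _
  · rfl

theorem ms_pair {k : ℕ} (u : Lab k → ℝ) (i : ℕ) (hi : 1 ≤ i) :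
    ∑ x, ms_P u i x * ms_P u i (linv x) = VV u (i + i) + VV u i ^ 2 := by
  have hne : ∀ ρ : Fin i → Lab k, (univ : Finset (Fin i)).val.map ρ ≠ 0 := by
    intro ρ h
    have h1 := congrArg Multiset.card h
    rw [Multiset.card_map] at h1
    simp at h1
    omega
  have h1 : ∑ x, ms_P u i x * ms_P u i (linv x) =
      ∑ ρ : Fin i → Lab k, ∑ τ : Fin i → Lab k, (∏ j, u (ρ j)) * (∏ j, u (τ j)) *
        ((univ.filter fun x : Lab k => okm (x ::ₘ univ.val.map ρ) ∧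
          okm (linv x ::ₘ univ.val.map τ)).card : ℝ) := by
    unfold ms_P
    simp only [sum_mul_sum]
    rw [sum_comm]
    refine sum_congr rfl fun ρ _ => ?_
    rw [sum_comm]
    refine sum_congr rfl fun τ _ => ?_
    rw [card_filter, Nat.cast_sum, mul_sum]
    refine sum_congr rfl fun x _ => ?_
    by_cases ha : okm (x ::ₘ univ.val.map ρ) <;> by_cases hb : okm (linv x ::ₘ univ.val.map τ) <;>
      simp only [ha, hb, if_true, if_false, and_self, and_true, and_false, mul_zero, zero_mul,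
        mul_one, Nat.cast_one, Nat.cast_zero]
  have h2 : VV u (i + i) = ∑ ρ : Fin i → Lab k, ∑ τ : Fin i → Lab k,
      (∏ j, u (ρ j)) * (∏ j, u (τ j)) *
        (if okm (univ.val.map ρ + univ.val.map τ) then 1 else 0) := by
    unfold VV
    rw [← (Fin.appendEquiv i i).sum_comp, Fintype.sum_prod_type]
    refine sum_congr rfl fun ρ _ => sum_congr rfl fun τ _ => ?_
    have e : (Fin.appendEquiv i i) (ρ, τ) = Fin.append ρ τ := rfl
    have e2 : okm (univ.val.map ((Fin.appendEquiv i i) (ρ, τ))) ↔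
        okm (univ.val.map ρ + univ.val.map τ) := by
      rw [e, ms_append]
    have e3 : ∏ j, u ((Fin.appendEquiv i i) (ρ, τ) j) = (∏ j, u (ρ j)) * ∏ j, u (τ j) := by
      rw [e, Fin.prod_univ_add]
      simp only [Fin.append_left, Fin.append_right]
    by_cases h : okm (univ.val.map ρ + univ.val.map τ)
    · rw [if_pos (e2.2 h), if_pos h, e3, mul_one]
    · rw [if_neg (fun h' => h (e2.1 h')), if_neg h, mul_zero]
  have h3 : VV u i ^ 2 = ∑ ρ : Fin i → Lab k, ∑ τ : Fin i → Lab k,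
      (∏ j, u (ρ j)) * (∏ j, u (τ j)) *
        (if okm (univ.val.map ρ) ∧ okm (univ.val.map τ) then 1 else 0) := by
    unfold VV
    rw [sq, sum_mul_sum]
    refine sum_congr rfl fun ρ _ => sum_congr rfl fun τ _ => ?_
    by_cases ha : okm (univ.val.map ρ) <;> by_cases hb : okm (univ.val.map τ) <;>
      simp only [ha, hb, if_true, if_false, and_self, and_true, and_false, mul_zero, zero_mul,
        mul_one]
  rw [h1, h2, h3, ← sum_add_distrib]
  refine sum_congr rfl fun ρ _ => ?_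
  rw [← sum_add_distrib]
  refine sum_congr rfl fun τ _ => ?_
  rw [ok_card _ _ (hne ρ) (hne τ)]
  push_cast
  ring

theorem ms_cs {k : ℕ} (u : Lab k → ℝ) (hs : ∀ l, u (linv l) = u l) (i : ℕ) (hi : 1 ≤ i) :
    VV u (i + 1) ^ 2 ≤ (∑ l, u l ^ 2) * (VV u (i + i) + VV u i ^ 2) := by
  rw [ms_split, ← ms_pair u i hi]
  refine (sum_mul_sq_le_sq_mul_sq univ u (ms_P u i)).trans_eq ?_
  congr 1
  refine sum_congr rfl fun x _ => ?_
  rw [ms_inv u hs]
  ring

theorem ms_triv {k : ℕ} (u : Lab k → ℝ) (h0 : ∀ l, 0 ≤ u l) (h2 : ∑ l, u l ^ 2 = 2 * k) (j : ℕ) :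
    VV u j ≤ (2 * k : ℝ) ^ j := by
  have h1 : VV u j ≤ (∑ l, u l) ^ j := by
    unfold VV
    calc ∑ ρ : Fin j → Lab k, (if okm (univ.val.map ρ) then ∏ i, u (ρ i) else 0)
        ≤ ∑ ρ : Fin j → Lab k, ∏ i, u (ρ i) := by
          refine sum_le_sum fun ρ _ => ?_
          split_ifs
          · exact le_rfl
          · exact prod_nonneg fun i _ => h0 _
      _ = (∑ l, u l) ^ j := by
          rw [Fintype.sum_pow]
  have h3 : ∑ l, u l ≤ 2 * k := by
    have h4 := sum_mul_sq_le_sq_mul_sq univ (fun _ : Lab k => (1 : ℝ)) u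
    simp only [one_mul, one_pow, sum_const, card_univ, Fintype.card_prod, Fintype.card_bool,
      Fintype.card_fin, nsmul_eq_mul, mul_one, h2] at h4
    push_cast at h4
    have h5 : (∑ l, u l) ^ 2 ≤ (2 * k : ℝ) ^ 2 := by rw [sq (2 * (k : ℝ))]; exact h4
    exact abs_le_of_sq_le_sq' h5 (by positivity) |>.2
  exact h1.trans (pow_le_pow_left₀ (sum_nonneg fun l _ => h0 l) h3 j)

/-- one step of the bootstrapping -/
theorem ms_boot {k : ℕ} (hk : 1 ≤ k) (u : Lab k → ℝ) (h0 : ∀ l, 0 ≤ u l)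
    (hs : ∀ l, u (linv l) = u l) (h2 : ∑ l, u l ^ 2 = 2 * k) (C : ℝ) (hC : 1 ≤ C)
    (h : ∀ j, 2 ≤ j → VV u j ≤ C * (((2 * k : ℝ) ^ j - 2 * k) / (2 * k - 1))) (j : ℕ) (hj : 2 ≤ j) :
    VV u j ≤ (3 * C + 1) / 4 * (((2 * k : ℝ) ^ j - 2 * k) / (2 * k - 1)) := by
  obtain ⟨r, hr⟩ : ∃ r : ℝ, r = 2 * k := ⟨_, rfl⟩
  have hr2 : 2 ≤ r := by
    have : (1 : ℝ) ≤ k := by exact_mod_cast hk
    rw [hr]; linarith
  rw [← hr] at h h2 ⊢
  have hr1 : 0 < r - 1 := by linarith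
  rcases eq_or_lt_of_le hj with h3 | h3
  · subst h3
    rw [ms_two u hs, h2]
    have h4 : (r ^ 2 - r) / (r - 1) = r := by
      rw [div_eq_iff hr1.ne']; ring
    rw [h4]
    nlinarith
  · obtain ⟨i, rfl⟩ : ∃ i, j = i + 1 := ⟨j - 1, by omega⟩
    have hi : 2 ≤ i := by omega
    have h4 := ms_cs u hs i (by omega)
    rw [h2] at h4
    have h5 := h (i + i) (by omega)
    have h6 := h i hi
    have h7 := VV_nonneg u h0 i
    obtain ⟨Ni, hNi⟩ : ∃ Ni : ℝ, Ni = (r ^ i - r) / (r - 1) := ⟨_, rfl⟩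
    obtain ⟨M, hM⟩ : ∃ M : ℝ, M = (r ^ (i + 1) - r) / (r - 1) := ⟨_, rfl⟩
    obtain ⟨Q, hQ⟩ : ∃ Q : ℝ, Q = (r ^ (i + i) - r) / (r - 1) := ⟨_, rfl⟩
    rw [← hNi] at h6
    rw [← hQ] at h5
    rw [← hM]
    have hrel : M ^ 2 = r * (Q + Ni ^ 2) := by
      rw [hM, hQ, hNi]
      field_simp
      rw [pow_succ, pow_add]
      ring
    have hM2 : M = r * Ni + r := by
      rw [hM, hNi]
      field_simp
      ring
    have hri : r ≤ r ^ i := by
      calc r = r ^ 1 := (pow_one r).symm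
        _ ≤ r ^ i := pow_le_pow_right₀ (by linarith) (by omega)
    have hNi0 : 0 ≤ Ni := by rw [hNi]; exact div_nonneg (by linarith) hr1.le
    have hM0 : 0 ≤ M := by rw [hM2]; positivity
    have h8 : VV u i ^ 2 ≤ (C * Ni) ^ 2 := pow_le_pow_left₀ h7 h6 2
    have h9 : VV u (i + 1) ^ 2 ≤ C * M ^ 2 + (C ^ 2 - C) * (r * Ni ^ 2) := by
      calc VV u (i + 1) ^ 2 ≤ r * (VV u (i + i) + VV u i ^ 2) := h4
        _ ≤ r * (C * Q + (C * Ni) ^ 2) := by
            refine mul_le_mul_of_nonneg_left (add_le_add h5 h8) (by linarith)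
        _ = C * M ^ 2 + (C ^ 2 - C) * (r * Ni ^ 2) := by rw [hrel]; ring
    have h10 : 2 * (r * Ni ^ 2) ≤ M ^ 2 := by
      have a1 : (r * Ni) ^ 2 ≤ M ^ 2 := pow_le_pow_left₀ (by positivity) (by rw [hM2]; linarith) 2
      nlinarith [mul_nonneg (sub_nonneg.2 hr2) (mul_nonneg (by linarith : (0:ℝ) ≤ r) (sq_nonneg Ni))]
    have h11 : VV u (i + 1) ^ 2 ≤ ((3 * C + 1) / 4 * M) ^ 2 := by
      have a2 : (C ^ 2 - C) * (r * Ni ^ 2) ≤ (C ^ 2 - C) * (M ^ 2 / 2) :=
        mul_le_mul_of_nonneg_left (by linarith) (by nlinarith)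
      nlinarith [mul_nonneg (sq_nonneg (C - 1)) (sq_nonneg M)]
    exact abs_le_of_sq_le_sq' h11 (by positivity) |>.2

theorem sup_VV {k : ℕ} (hk : 1 ≤ k) (u : Lab k → ℝ) (h0 : ∀ l, 0 ≤ u l)
    (hs : ∀ l, u (linv l) = u l) (h2 : ∑ l, u l ^ 2 = 2 * k) (j : ℕ) (hj : 2 ≤ j) :
    VV u j ≤ ((2 * k : ℝ) ^ j - 2 * k) / (2 * k - 1) := by
  have hk1 : (1 : ℝ) ≤ k := by exact_mod_cast hk
  have hr1 : (0 : ℝ) < 2 * k - 1 := by linarith
  have key : ∀ m : ℕ, ∀ j, 2 ≤ j → VV u j ≤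
      (1 + (3 / 4 : ℝ) ^ m * (2 * k - 1)) * (((2 * k : ℝ) ^ j - 2 * k) / (2 * k - 1)) := by
    intro m
    induction m with
    | zero =>
      intro j hj
      refine (ms_triv u h0 h2 j).trans ?_
      rw [pow_zero, one_mul]
      have h3 : (2 * k : ℝ) ^ 2 ≤ (2 * k : ℝ) ^ j := pow_le_pow_right₀ (by linarith) hj
      rw [show (1 + (2 * (k : ℝ) - 1)) = 2 * k by ring, ← mul_div_assoc, le_div_iff₀ hr1]
      nlinarith
    | succ m ih =>
      intro j hj
      have h3 := ms_boot hk u h0 hs h2 (1 + (3 / 4 : ℝ) ^ m * (2 * k - 1))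
        (by have : 0 ≤ (3 / 4 : ℝ) ^ m * (2 * k - 1) := by positivity
            linarith) ih j hj
      refine h3.trans_eq ?_
      rw [pow_succ]
      ring
  have h4 : Filter.Tendsto (fun m : ℕ => (1 + (3 / 4 : ℝ) ^ m * (2 * k - 1)) *
      (((2 * k : ℝ) ^ j - 2 * k) / (2 * k - 1))) Filter.atTop
      (nhds ((1 + 0 * (2 * k - 1)) * (((2 * k : ℝ) ^ j - 2 * k) / (2 * k - 1)))) :=
    (((tendsto_pow_atTop_nhds_zero_of_lt_one (by norm_num) (by norm_num)).mul_const _).const_add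
      1).mul_const _
  have h5 := ge_of_tendsto' h4 fun m => key m j hj
  simpa using h5

end Pool.Agent.Lib.MP_d38209_co.CR
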