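import Pool.Agent.Lib.MP_d38209_co.CR.Mean
import Pool.Agent.Lib.MP_d38209_co.CR.Bound
import Pool.Agent.Lib.MP_ec42c8_pr.Defs

/-!
# Chromatic roots of almost all regular graphs: the mean of the sums of `Y`
-/

set_option autoImplicit false

namespace Pool.Agent.Lib.MP_d38209_co.CR

open Finset
open scoped Classical
open Pool.Agent.HC (Pairing av pr)

/-- The majorant. -/
noncomputable def a2_u (K κ : ℝ) (k : ℕ) (s : ℕ) : ℝ :=
  K * (((s : ℝ) + (s : ℝ) ^ (2 * k)) * Real.exp (-(κ * s)))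

theorem a2_u_nonneg {K κ : ℝ} (hK : 0 < K) (k s : ℕ) : 0 ≤ a2_u K κ k s := by
  unfold a2_u; positivity

theorem a2_summable {K κ : ℝ} (hκ : 0 < κ) (k : ℕ) : Summable (a2_u K κ k) := by
  have h1 := Real.summable_pow_mul_exp_neg_nat_mul 1 hκ
  have h2 := Real.summable_pow_mul_exp_neg_nat_mul (2 * k) hκ
  have h3 := (h1.add h2).mul_left K
  refine h3.congr fun s => ?_
  unfold a2_u
  rw [pow_one, neg_mul]
  ring

theorem a2_av_sum {Ω ι : Type*} [Fintype Ω] (S : Finset ι) (f : ι → Ω → ℝ) :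
    av (fun ω => ∑ s ∈ S, f s ω) = ∑ s ∈ S, av (f s) := by
  unfold av
  rw [Finset.sum_comm, Finset.sum_div]

theorem a2_tail {d : ℕ} (x : ℝ) (B : ℕ → ℕ → ℝ → ℝ)
    (hmean : ∀ n s : ℕ, 2 * s ≤ n * d → ∀ t : ℝ, 0 < t →
      av (fun π : Pairing (Pt n d) => Y π.1 x s) ≤ B n s t)
    (hzero : ∀ n s : ℕ, n * d < 2 * s → ∀ π : Pairing (Pt n d), Y π.1 x s = 0)
    (hbound : ∃ (K κ : ℝ) (k : ℕ), 0 < K ∧ 0 < κ ∧ ∀ n r s : ℕ, n * d = 2 * r → 1 ≤ s → s ≤ r →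
      ∃ t : ℝ, 0 < t ∧ B n s t ≤
        (if s ^ 2 ≤ n then K * s else K * (n : ℝ) ^ k) * Real.exp (-(κ * s))) :
    ∃ K₁ : ℝ, (∃ n₀ : ℕ, ∀ n ≥ n₀, Even (n * d) →
        av (fun π : Pairing (Pt n d) => ∑ s ∈ Icc 1 (n * d), Y π.1 x s) ≤ K₁) ∧
      ∀ δ > 0, ∃ g₀ : ℕ, ∀ g ≥ g₀, ∃ n₀ : ℕ, ∀ n ≥ n₀, Even (n * d) →
        av (fun π : Pairing (Pt n d) => ∑ s ∈ Ioc g (n * d), Y π.1 x s) ≤ δ := by
  obtain ⟨K, κ, k, hK, hκ, hb⟩ := hbound
  have hsum : Summable (a2_u K κ k) := a2_summable hκ k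
  have hnn : ∀ s, 0 ≤ a2_u K κ k s := a2_u_nonneg hK k
  -- the bound of one term
  have hone : ∀ n s : ℕ, Even (n * d) → 1 ≤ s →
      av (fun π : Pairing (Pt n d) => Y π.1 x s) ≤ a2_u K κ k s := by
    intro n s hev hs
    obtain ⟨r, hr⟩ := hev
    by_cases hsr : s ≤ r
    · obtain ⟨t, ht, hB⟩ := hb n r s (by omega) hs hsr
      refine (hmean n s (by omega) t ht).trans (hB.trans ?_)
      unfold a2_u
      have he : 0 < Real.exp (-(κ * s)) := Real.exp_pos _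
      rw [← mul_assoc]
      refine mul_le_mul_of_nonneg_right ?_ he.le
      split_ifs with h
      · have h0 : (0 : ℝ) ≤ (s : ℝ) ^ (2 * k) := by positivity
        nlinarith
      · have h1 : (n : ℝ) ^ k ≤ (s : ℝ) ^ (2 * k) := by
          rw [pow_mul]
          refine pow_le_pow_left₀ (by positivity) ?_ k
          have h2 : n ≤ s ^ 2 := by omega
          exact_mod_cast h2
        have h0 : (0 : ℝ) ≤ (s : ℝ) := by positivity
        nlinarith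
    · have h0 : (fun π : Pairing (Pt n d) => Y π.1 x s) = fun _ => 0 := by
        funext π
        exact hzero n s (by omega) π
      rw [h0]
      have h1 : av (fun _ : Pairing (Pt n d) => (0 : ℝ)) = 0 := by
        unfold av; simp
      rw [h1]
      exact hnn s
  have hset : ∀ n : ℕ, ∀ S : Finset ℕ, Even (n * d) → (∀ s ∈ S, 1 ≤ s) →
      av (fun π : Pairing (Pt n d) => ∑ s ∈ S, Y π.1 x s) ≤ ∑ s ∈ S, a2_u K κ k s := by
    intro n S hev hS
    rw [a2_av_sum]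
    exact Finset.sum_le_sum fun s hs => hone n s hev (hS s hs)
  refine ⟨∑' s, a2_u K κ k s, ⟨0, fun n _ hev => ?_⟩, fun δ hδ => ?_⟩
  · refine (hset n _ hev fun s hs => (Finset.mem_Icc.1 hs).1).trans ?_
    exact hsum.sum_le_tsum _ fun s _ => hnn s
  · have hlim := hsum.hasSum.tendsto_sum_nat
    have hev := hlim.eventually (lt_mem_nhds (show (∑' s, a2_u K κ k s) - δ < ∑' s, a2_u K κ k s by
      linarith))
    obtain ⟨g₀, hg₀⟩ := Filter.eventually_atTop.1 hev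
    refine ⟨g₀, fun g hg => ⟨0, fun n _ hev' => ?_⟩⟩
    refine (hset n _ hev' fun s hs => by have := (Finset.mem_Ioc.1 hs).1; omega).trans ?_
    have h1 := hg₀ (g + 1) (by omega)
    have hdis : Disjoint (Finset.range (g + 1)) (Finset.Ioc g (n * d)) := by
      rw [Finset.disjoint_left]
      intro s h1 h2
      rw [Finset.mem_range] at h1
      rw [Finset.mem_Ioc] at h2
      omega
    have h2 : ∑ s ∈ Finset.range (g + 1) ∪ Finset.Ioc g (n * d), a2_u K κ k s ≤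
        ∑' s, a2_u K κ k s := hsum.sum_le_tsum _ fun s _ => hnn s
    rw [Finset.sum_union hdis] at h2
    linarith

theorem tail {d : ℕ} (hd : 1 ≤ d) (x c : ℝ) (hx : 0 < x) (hx1 : x ≤ 1) (hc : 0 < c)
    (hC : Cond d x c) :
    ∃ K₁ : ℝ, (∃ n₀ : ℕ, ∀ n ≥ n₀, Even (n * d) →
        av (fun π : Pairing (Pt n d) => ∑ s ∈ Icc 1 (n * d), Y π.1 x s) ≤ K₁) ∧
      ∀ δ > 0, ∃ g₀ : ℕ, ∀ g ≥ g₀, ∃ n₀ : ℕ, ∀ n ≥ n₀, Even (n * d) →
        av (fun π : Pairing (Pt n d) => ∑ s ∈ Ioc g (n * d), Y π.1 x s) ≤ δ :=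
  a2_tail x (fun n s t => (1 / 2) ^ s *
      ((s.factorial : ℝ) / ∏ i ∈ range s, ((n * d : ℝ) - 2 * i - 1)) *
        ((t ^ (2 * s))⁻¹ * ww d x t ^ n))
    (fun _ _ hs t ht => mean_Y hs x t hx.le ht) (fun _ _ hs π => Y_zero hs x π)
    (bound hd x c hx hx1 hc hC)

end Pool.Agent.Lib.MP_d38209_co.CR
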