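import Pool.Agent.Lib.MP_d38209_co.CR.Det
import Pool.Agent.Lib.MP_d38209_co.CR.Tail
import Pool.Agent.Lib.MP_d38209_co.CR.DenseProb
import Pool.Agent.Lib.MP_d38209_co.CR.Transfer

set_option autoImplicit false

/-!
# Almost all regular graphs have no chromatic root with `|q - 1| ≥ ρ`
-/

namespace Pool.Agent.Lib.MP_d38209_co.CR

open Finset
open scoped Classical
open Pool.Agent.HC (Pairing av pr av_mono av_add av_div av_nonneg)

/-- there is no regular graph with an odd degree sum -/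
theorem m_odd {n d : ℕ} (h : ¬ Even (n * d)) (G : SimpleGraph (Fin n))
    (hG : ∀ v, Nat.card (G.neighborSet v) = d) : False := by
  apply h
  have h1 := G.sum_degrees_eq_twice_card_edges
  have h2 : ∀ v, G.degree v = d := by
    intro v
    rw [← hG v, Nat.card_eq_fintype_card, SimpleGraph.card_neighborSet_eq_degree]
  rw [Finset.sum_congr rfl fun v _ => h2 v, Finset.sum_const, Finset.card_univ,
    Fintype.card_fin, smul_eq_mul] at h1
  exact ⟨G.edgeFinset.card, by rw [h1]; ring⟩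

/-- the probability that a random pairing gives a graph with a large chromatic root -/
theorem m_pr {n d : ℕ} (g : ℕ) (ρ ρ' : ℝ) (h2 : 2 < ρ') (h3 : ρ' ≤ ρ)
    (hg : ρ / 2 ≤ (ρ / ρ') ^ (g + 1)) (η X Z K : ℝ) (hX : 0 < X) (hZ : 0 < Z)
    (hXZ : Z * Real.exp (3 * X) < 1)
    (hd : pr (fun π : Pairing (Pt n d) => Dense π.1 g) ≤ η)
    (hY1 : av (fun π : Pairing (Pt n d) => ∑ s ∈ Icc 1 (n * d), Y π.1 (2 / ρ') s) ≤ K)
    (hK : ρ / 2 * K / X ≤ η)
    (hY2 : av (fun π : Pairing (Pt n d) => ∑ s ∈ Ioc g (n * d), Y π.1 (2 / ρ') s) ≤ η * Z) :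
    pr (fun π : Pairing (Pt n d) => Good π.1 ∧ ∃ P : Polynomial ℂ,
      IsChromaticPolynomial (gr π.1) P ∧ ∃ q : ℂ, P.eval q = 0 ∧ ρ ≤ ‖q - 1‖) ≤ 3 * η := by
  have hρ' : 0 < ρ' := by linarith
  have hρ : 0 < ρ := by linarith
  have hYnn : ∀ (σ : Pt n d → Pt n d) (s : ℕ), 0 ≤ Y σ (2 / ρ') s := by
    intro σ s
    unfold Y
    apply Finset.sum_nonneg
    intro c _
    positivity
  have key : ∀ π : Pairing (Pt n d),
      (if (Good π.1 ∧ ∃ P : Polynomial ℂ,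
      IsChromaticPolynomial (gr π.1) P ∧ ∃ q : ℂ, P.eval q = 0 ∧ ρ ≤ ‖q - 1‖) then (1 : ℝ) else 0) ≤
      (if Dense π.1 g then (1 : ℝ) else 0) +
        ((ρ / 2 * ∑ s ∈ Icc 1 (n * d), Y π.1 (2 / ρ') s) / X +
          (∑ s ∈ Ioc g (n * d), Y π.1 (2 / ρ') s) / Z) := by
    intro π
    have n1 : 0 ≤ (ρ / 2 * ∑ s ∈ Icc 1 (n * d), Y π.1 (2 / ρ') s) / X := by
      apply div_nonneg _ hX.le
      apply mul_nonneg (by linarith)
      exact Finset.sum_nonneg fun s _ => hYnn _ _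
    have n2 : 0 ≤ (∑ s ∈ Ioc g (n * d), Y π.1 (2 / ρ') s) / Z := by
      apply div_nonneg _ hZ.le
      exact Finset.sum_nonneg fun s _ => hYnn _ _
    by_cases hbad : Good π.1 ∧ ∃ P : Polynomial ℂ,
      IsChromaticPolynomial (gr π.1) P ∧ ∃ q : ℂ, P.eval q = 0 ∧ ρ ≤ ‖q - 1‖
    · rw [if_pos hbad]
      obtain ⟨hgood, P, hP, q, hPq, hq⟩ := hbad
      by_cases hD : Dense π.1 g
      · rw [if_pos hD]
        linarith
      · rw [if_neg hD]
        by_cases hc1 : ρ / 2 * ∑ s ∈ Icc 1 (n * d), Y π.1 (2 / ρ') s ≤ X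
        · by_cases hc2 : ∑ s ∈ Ioc g (n * d), Y π.1 (2 / ρ') s ≤ Z
          · exact absurd hPq (det hgood.toW g ρ ρ' h2 h3 hg hD X Z hc1 hc2 hXZ P hP q hq)
          · have : 1 ≤ (∑ s ∈ Ioc g (n * d), Y π.1 (2 / ρ') s) / Z := by
              rw [one_le_div hZ]
              exact (not_le.1 hc2).le
            linarith
        · have : 1 ≤ (ρ / 2 * ∑ s ∈ Icc 1 (n * d), Y π.1 (2 / ρ') s) / X := by
            rw [one_le_div hX]
            exact (not_le.1 hc1).le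
          linarith
    · rw [if_neg hbad]
      by_cases hD : Dense π.1 g
      · rw [if_pos hD]
        linarith
      · rw [if_neg hD]
        linarith
  have h4 : pr (fun π : Pairing (Pt n d) => Good π.1 ∧ ∃ P : Polynomial ℂ,
      IsChromaticPolynomial (gr π.1) P ∧ ∃ q : ℂ, P.eval q = 0 ∧ ρ ≤ ‖q - 1‖) ≤
      av (fun π : Pairing (Pt n d) => (if Dense π.1 g then (1 : ℝ) else 0) +
        ((ρ / 2 * ∑ s ∈ Icc 1 (n * d), Y π.1 (2 / ρ') s) / X +
          (∑ s ∈ Ioc g (n * d), Y π.1 (2 / ρ') s) / Z)) := by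
    unfold pr
    refine av_mono fun π => le_trans (le_of_eq ?_) (key π)
    congr
  refine h4.trans ?_
  rw [av_add, av_add, av_div, av_div, Pool.Agent.HC.av_mul_left]
  have e1 : av (fun π : Pairing (Pt n d) => (if Dense π.1 g then (1 : ℝ) else 0)) ≤ η := hd
  have e2 : ρ / 2 * av (fun π : Pairing (Pt n d) =>
      ∑ s ∈ Icc 1 (n * d), Y π.1 (2 / ρ') s) / X ≤ η := by
    refine le_trans ?_ hK
    apply div_le_div_of_nonneg_right _ hX.le
    exact mul_le_mul_of_nonneg_left hY1 (by linarith)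
  have e3 : av (fun π : Pairing (Pt n d) =>
      ∑ s ∈ Ioc g (n * d), Y π.1 (2 / ρ') s) / Z ≤ η := by
    rw [div_le_iff₀ hZ]
    exact hY2
  linarith

/-- Almost all `d`-regular graphs have no chromatic root with `|q - 1| ≥ ρ`. -/
theorem main {d : ℕ} (hd : 1 ≤ d) (ρ ρ' c : ℝ) (h2 : 2 < ρ') (h3 : ρ' < ρ) (hc : 0 < c)
    (hC : Cond d (2 / ρ') c) (ε : ℝ) (hε : 0 < ε) :
    ∃ n₀ : ℕ, ∀ n ≥ n₀,
      (Nat.card {G : SimpleGraph (Fin n) // (∀ v, Nat.card (G.neighborSet v) = d) ∧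
        ∃ P : Polynomial ℂ, IsChromaticPolynomial G P ∧ ∃ q : ℂ, P.eval q = 0 ∧ ρ ≤ ‖q - 1‖} : ℝ) ≤
      ε * Nat.card {G : SimpleGraph (Fin n) // ∀ v, Nat.card (G.neighborSet v) = d} := by
  have hρ' : 0 < ρ' := by linarith
  have hρ : 0 < ρ := by linarith
  obtain ⟨a, n1, ha, hT⟩ := transfer d hd
  obtain ⟨K₁, ⟨n2, hY1⟩, hY2⟩ := tail hd (2 / ρ') c (by positivity)
    (by rw [div_le_one hρ']; linarith) hc hC
  set η : ℝ := a * ε / 3 with hη
  have hη0 : 0 < η := by positivity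
  set K : ℝ := max K₁ 0 + 1 with hK
  have hK0 : 0 < K := by
    have := le_max_right K₁ 0
    linarith
  have hK1 : K₁ ≤ K := by
    have := le_max_left K₁ 0
    linarith
  set X : ℝ := ρ / 2 * K / η with hX
  have hX0 : 0 < X := by positivity
  set Z : ℝ := Real.exp (-(3 * X)) / 2 with hZ
  have hZ0 : 0 < Z := by positivity
  have hXZ : Z * Real.exp (3 * X) < 1 := by
    rw [hZ, div_mul_eq_mul_div, ← Real.exp_add, neg_add_cancel, Real.exp_zero]
    norm_num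
  have hKX : ρ / 2 * K₁ / X ≤ η := by
    rw [div_le_iff₀ hX0, hX]
    have : η * (ρ / 2 * K / η) = ρ / 2 * K := by field_simp
    rw [this]
    exact mul_le_mul_of_nonneg_left hK1 (by linarith)
  obtain ⟨g0, hg0⟩ := hY2 (η * Z) (by positivity)
  have hone : 1 < ρ / ρ' := by rwa [one_lt_div hρ']
  obtain ⟨g1, hg1⟩ := ((tendsto_pow_atTop_atTop_of_one_lt hone).eventually_ge_atTop
    (ρ / 2)).exists_forall_of_atTop
  set g := max g0 g1 with hg
  obtain ⟨n3, hn3⟩ := hg0 g (le_max_left _ _)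
  obtain ⟨n4, hn4⟩ := dense_prob d hd g η hη0
  have hgg : ρ / 2 ≤ (ρ / ρ') ^ (g + 1) :=
    hg1 (g + 1) (le_trans (le_max_right g0 g1) (Nat.le_succ _))
  refine ⟨max (max n1 n2) (max n3 n4), ?_⟩
  intro n hn
  have hn1 : n1 ≤ n := le_trans (le_trans (le_max_left _ _) (le_max_left _ _)) hn
  have hn2 : n2 ≤ n := le_trans (le_trans (le_max_right _ _) (le_max_left _ _)) hn
  have hn3' : n3 ≤ n := le_trans (le_trans (le_max_left _ _) (le_max_right _ _)) hn
  have hn4' : n4 ≤ n := le_trans (le_trans (le_max_right _ _) (le_max_right _ _)) hn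
  by_cases hev : Even (n * d)
  · have hpr := m_pr (n := n) (d := d) g ρ ρ' h2 h3.le hgg η X Z K₁ hX0 hZ0 hXZ
      (hn4 n hn4' hev) (hY1 n hn2 hev) hKX (hn3 n hn3' hev)
    have h5 := hT n hn1 hev (fun G => ∃ P : Polynomial ℂ, IsChromaticPolynomial G P ∧
      ∃ q : ℂ, P.eval q = 0 ∧ ρ ≤ ‖q - 1‖)
    have h6 : a * (Nat.card {G : SimpleGraph (Fin n) // (∀ v, Nat.card (G.neighborSet v) = d) ∧
        ∃ P : Polynomial ℂ, IsChromaticPolynomial G P ∧ ∃ q : ℂ, P.eval q = 0 ∧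
          ρ ≤ ‖q - 1‖} : ℝ) ≤
      (Nat.card {G : SimpleGraph (Fin n) // ∀ v, Nat.card (G.neighborSet v) = d} : ℝ) *
        (3 * η) :=
      h5.trans (mul_le_mul_of_nonneg_left hpr (Nat.cast_nonneg _))
    have h7 : 3 * η = a * ε := by rw [hη]; ring
    rw [h7] at h6
    have h8 : a * (Nat.card {G : SimpleGraph (Fin n) // (∀ v, Nat.card (G.neighborSet v) = d) ∧
        ∃ P : Polynomial ℂ, IsChromaticPolynomial G P ∧ ∃ q : ℂ, P.eval q = 0 ∧
          ρ ≤ ‖q - 1‖} : ℝ) ≤ a * (ε * 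
      (Nat.card {G : SimpleGraph (Fin n) // ∀ v, Nat.card (G.neighborSet v) = d} : ℝ)) := by
      refine h6.trans (le_of_eq ?_)
      ring
    exact le_of_mul_le_mul_left h8 ha
  · have h5 : IsEmpty {G : SimpleGraph (Fin n) // (∀ v, Nat.card (G.neighborSet v) = d) ∧
        ∃ P : Polynomial ℂ, IsChromaticPolynomial G P ∧ ∃ q : ℂ, P.eval q = 0 ∧
          ρ ≤ ‖q - 1‖} :=
      ⟨fun G => m_odd hev G.1 G.2.1⟩
    rw [Nat.card_of_isEmpty, Nat.cast_zero]
    positivity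

end Pool.Agent.Lib.MP_d38209_co.CR
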