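import Pool.Agent.Lib.MP_d38209_co.CR.Defs

/-!
# The numerical conditions
-/

set_option autoImplicit false

namespace Pool.Agent.Lib.MP_d38209_co.CR

theorem num_pos3 (r : ℝ) (hr : 0 ≤ r) : 0 ≤ (1769/3100 : ℝ) * r ^ 0 + (-75/62 : ℝ) * r ^ 1 + (145753/96100 : ℝ) * r ^ 2 + (-5625/3844 : ℝ) * r ^ 3 + (239931/384400 : ℝ) * r ^ 4 := by
  rcases le_total r (5/8 : ℝ) with h0 | h0
  · have e : (1769/3100 : ℝ) * r ^ 0 + (-75/62 : ℝ) * r ^ 1 + (145753/96100 : ℝ) * r ^ 2 + (-5625/3844 : ℝ) * r ^ 3 + (239931/384400 : ℝ) * r ^ 4 = (1811456/484375 : ℝ) * ((r - (0 : ℝ)) ^ 0 * ((5/8 : ℝ) - r) ^ 4) + (4845824/484375 : ℝ) * ((r - (0 : ℝ)) ^ 1 * ((5/8 : ℝ) - r) ^ 3) + (172032016/15015625 : ℝ) * ((r - (0 : ℝ)) ^ 2 * ((5/8 : ℝ) - r) ^ 2) + (82866694/15015625 : ℝ) * ((r - (0 : ℝ)) ^ 3 * ((5/8 : ℝ) - r) ^ 1) + (228358251/240250000 : ℝ) * ((r - (0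 : ℝ)) ^ 4 * ((5/8 : ℝ) - r) ^ 0) := by ring
    have u : 0 ≤ r - (0 : ℝ) := by linarith
    have v : 0 ≤ (5/8 : ℝ) - r := by linarith
    rw [e]
    positivity
  rcases le_total r (5/4 : ℝ) with h1 | h1
  · have e : (1769/3100 : ℝ) * r ^ 0 + (-75/62 : ℝ) * r ^ 1 + (145753/96100 : ℝ) * r ^ 2 + (-5625/3844 : ℝ) * r ^ 3 + (239931/384400 : ℝ) * r ^ 4 = (228358251/240250000 : ℝ) * ((r - (5/8 : ℝ)) ^ 0 * ((5/4 : ℝ) - r) ^ 4) + (62624863/30031250 : ℝ) * ((r - (5/8 : ℝ)) ^ 1 * ((5/4 : ℝ) - r) ^ 3) + (34738457/30031250 : ℝ) * ((r - (5/8 : ℝ)) ^ 2 * ((5/4 : ℝ) - r) ^ 2) + (223694/15015625 : ℝ) * ((r - (5/8 : ℝ)) ^ 3 * ((5/4 : ℝ) - r) ^ 1) + (9266811/15015625 : ℝ) * ((r - (5/8 : ℝ)) ^ 4 * ((5/4 : ℝ) - r) ^ 0) := by ring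
    have u : 0 ≤ r - (5/8 : ℝ) := by linarith
    have v : 0 ≤ (5/4 : ℝ) - r := by linarith
    rw [e]
    positivity
  have e : (1769/3100 : ℝ) * r ^ 0 + (-75/62 : ℝ) * r ^ 1 + (145753/96100 : ℝ) * r ^ 2 + (-5625/3844 : ℝ) * r ^ 3 + (239931/384400 : ℝ) * r ^ 4 = (9266811/98406400 : ℝ) * (r - (5/4 : ℝ)) ^ 0 + (736871/1230080 : ℝ) * (r - (5/4 : ℝ)) ^ 1 + (5783921/3075200 : ℝ) * (r - (5/4 : ℝ)) ^ 2 + (127431/76880 : ℝ) * (r - (5/4 : ℝ)) ^ 3 + (239931/384400 : ℝ) * (r - (5/4 : ℝ)) ^ 4 := by ring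
  have u : 0 ≤ r - (5/4 : ℝ) := by linarith
  rw [e]
  positivity

theorem num_cond3 : Cond 3 (2 / (62 / 25)) (1 / 100) := by
  intro r hr
  have h := num_pos3 r hr
  have e : (1 + r ^ 2) ^ 3 - (ww 3 (2 / (62 / 25)) (r / 2) ^ 2 + (1 / 100) * r ^ 2 * (1 + r ^ 2) ^ (3 - 1)) =
      r ^ 2 * ((1769/3100 : ℝ) * r ^ 0 + (-75/62 : ℝ) * r ^ 1 + (145753/96100 : ℝ) * r ^ 2 + (-5625/3844 : ℝ) * r ^ 3 + (239931/384400 : ℝ) * r ^ 4) := by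
    unfold ww
    norm_num
    ring
  have h2 := mul_nonneg (sq_nonneg r) h
  rw [← e] at h2
  linarith

theorem num_pos4 (r : ℝ) (hr : 0 ≤ r) : 0 ≤ (211847/153000 : ℝ) * r ^ 0 + (-400/153 : ℝ) * r ^ 1 + (82533773/23409000 : ℝ) * r ^ 2 + (-80000/23409 : ℝ) * r ^ 3 + (90697319/70227000 : ℝ) * r ^ 4 + (-70000/70227 : ℝ) * r ^ 5 + (179845319/210681000 : ℝ) * r ^ 6 := by
  rcases le_total r (5/8 : ℝ) with h0 | h0
  · have e : (211847/153000 : ℝ) * r ^ 0 + (-400/153 : ℝ) * r ^ 1 + (82533773/23409000 : ℝ) * r ^ 2 + (-80000/23409 : ℝ) * r ^ 3 + (90697319/70227000 : ℝ) * r ^ 4 + (-70000/70227 : ℝ) * r ^ 5 + (179845319/210681000 : ℝ) * r ^ 6 = (6941802496/298828125 : ℝ) * ((r - (0 : ℝ)) ^ 0 * ((5/8 : ℝ) - r) ^ 6) + (33458814976/298828125 : ℝ) * ((r - (0 : ℝ)) ^ 1 * ((5/8 : ℝ) - r) ^ 5) + (2144197804544/9144140625 : ℝ) * ((r - (0 : ℝ))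 ^ 2 * ((5/8 : ℝ) - r) ^ 4) + (819592321024/3048046875 : ℝ) * ((r - (0 : ℝ)) ^ 3 * ((5/8 : ℝ) - r) ^ 3) + (4780459615832/27432421875 : ℝ) * ((r - (0 : ℝ)) ^ 4 * ((5/8 : ℝ) - r) ^ 2) + (2640831598928/45720703125 : ℝ) * ((r - (0 : ℝ)) ^ 5 * ((5/8 : ℝ) - r) ^ 1) + (24654710882111/3291890625000 : ℝ) * ((r - (0 : ℝ)) ^ 6 * ((5/8 : ℝ) - r) ^ 0) := by ring
    have u : 0 ≤ r - (0 : ℝ) := by linarith
    have v : 0 ≤ (5/8 : ℝ) - r := by linarith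
    rw [e]
    positivity
  rcases le_total r (15/16 : ℝ) with h1 | h1
  · have e : (211847/153000 : ℝ) * r ^ 0 + (-400/153 : ℝ) * r ^ 1 + (82533773/23409000 : ℝ) * r ^ 2 + (-80000/23409 : ℝ) * r ^ 3 + (90697319/70227000 : ℝ) * r ^ 4 + (-70000/70227 : ℝ) * r ^ 5 + (179845319/210681000 : ℝ) * r ^ 6 = (197237687056888/411486328125 : ℝ) * ((r - (5/8 : ℝ)) ^ 0 * ((15/16 : ℝ) - r) ^ 6) + (37577025297064/15240234375 : ℝ) * ((r - (5/8 : ℝ)) ^ 1 * ((15/16 : ℝ) - r) ^ 5) + (139992399485678/27432421875 : ℝ) * ((r - (5/8 : ℝ)) ^ 2 * ((15/16 : ℝ) - r) ^ 4) + (48881272341748/9144140625 : ℝ) * ((r - (5/8 : ℝ)) ^ 3 * ((15/16 : ℝ) - r) ^ 3) + (53345768855077/18288281250 : ℝ) * ((r - (5/8 : ℝ)) ^ 4 * ((15/16 : ℝ) - r) ^ 2) + (23300898769253/30480468750 : ℝ) * ((r - (5/8 : ℝ)) ^ 5 * ((15/16 : ℝ) - r) ^ 1) + (1045163904253/13546875000 : ℝ) *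 ((r - (5/8 : ℝ)) ^ 6 * ((15/16 : ℝ) - r) ^ 0) := by ring
    have u : 0 ≤ r - (5/8 : ℝ) := by linarith
    have v : 0 ≤ (15/16 : ℝ) - r := by linarith
    rw [e]
    positivity
  rcases le_total r (35/32 : ℝ) with h2 | h2
  · have e : (211847/153000 : ℝ) * r ^ 0 + (-400/153 : ℝ) * r ^ 1 + (82533773/23409000 : ℝ) * r ^ 2 + (-80000/23409 : ℝ) * r ^ 3 + (90697319/70227000 : ℝ) * r ^ 4 + (-70000/70227 : ℝ) * r ^ 5 + (179845319/210681000 : ℝ) * r ^ 6 = (8361311234024/1693359375 : ℝ) * ((r - (15/16 : ℝ)) ^ 0 * ((35/32 : ℝ) - r) ^ 6) + (304451829647896/15240234375 : ℝ) * ((r - (15/16 : ℝ)) ^ 1 * ((35/32 : ℝ) - r) ^ 5) + (16055906579722/537890625 : ℝ) * ((r - (15/16 : ℝ)) ^ 2 * ((35/32 : ℝ) - r) ^ 4) + (184250536952812/9144140625 : ℝ) * ((r - (15/16 : ℝ)) ^ 3 * ((35/32 : ℝ) - r) ^ 3) + (404656508141719/54864843750 : ℝ) * ((r - (15/16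 : ℝ)) ^ 4 * ((35/32 : ℝ) - r) ^ 2) + (317092092928601/91441406250 : ℝ) * ((r - (15/16 : ℝ)) ^ 5 * ((35/32 : ℝ) - r) ^ 1) + (4713986140152431/3291890625000 : ℝ) * ((r - (15/16 : ℝ)) ^ 6 * ((35/32 : ℝ) - r) ^ 0) := by ring
    have u : 0 ≤ r - (15/16 : ℝ) := by linarith
    have v : 0 ≤ (35/32 : ℝ) - r := by linarith
    rw [e]
    positivity
  rcases le_total r (5/4 : ℝ) with h3 | h3
  · have e : (211847/153000 : ℝ) * r ^ 0 + (-400/153 : ℝ) * r ^ 1 + (82533773/23409000 : ℝ) * r ^ 2 + (-80000/23409 : ℝ) * r ^ 3 + (90697319/70227000 : ℝ) * r ^ 4 + (-70000/70227 : ℝ) * r ^ 5 + (179845319/210681000 : ℝ) * r ^ 6 = (4713986140152431/3291890625000 : ℝ) * ((r - (35/32 : ℝ)) ^ 0 * ((5/4 : ℝ) - r) ^ 6) + (1881354930683314/137162109375 : ℝ) * ((r - (35/32 : ℝ)) ^ 1 * ((5/4 : ℝ) - r) ^ 5) + (178671671706808/3048046875 : ℝ) * ((r - (35/32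 : ℝ)) ^ 2 * ((5/4 : ℝ) - r) ^ 4) + (625779557665024/4841015625 : ℝ) * ((r - (35/32 : ℝ)) ^ 3 * ((5/4 : ℝ) - r) ^ 3) + (4175981718134272/27432421875 : ℝ) * ((r - (35/32 : ℝ)) ^ 4 * ((5/4 : ℝ) - r) ^ 2) + (4168406738034688/45720703125 : ℝ) * ((r - (35/32 : ℝ)) ^ 5 * ((5/4 : ℝ) - r) ^ 1) + (9001689376325632/411486328125 : ℝ) * ((r - (35/32 : ℝ)) ^ 6 * ((5/4 : ℝ) - r) ^ 0) := by ring
    have u : 0 ≤ r - (35/32 : ℝ) := by linarith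
    have v : 0 ≤ (5/4 : ℝ) - r := by linarith
    rw [e]
    positivity
  have e : (211847/153000 : ℝ) * r ^ 0 + (-400/153 : ℝ) * r ^ 1 + (82533773/23409000 : ℝ) * r ^ 2 + (-80000/23409 : ℝ) * r ^ 3 + (90697319/70227000 : ℝ) * r ^ 4 + (-70000/70227 : ℝ) * r ^ 5 + (179845319/210681000 : ℝ) * r ^ 6 = (274709758799/862949376000 : ℝ) * (r - (5/4 : ℝ)) ^ 0 + (26846477239/7191244800 : ℝ) * (r - (5/4 : ℝ)) ^ 1 + (262676125139/17978112000 : ℝ) * (r - (5/4 : ℝ)) ^ 2 + (14030136187/674179200 : ℝ) * (r - (5/4 : ℝ)) ^ 3 + (16931821979/1123632000 : ℝ) * (r - (5/4 : ℝ)) ^ 4 + (151845319/28090800 : ℝ) * (r - (5/4 : ℝ)) ^ 5 + (179845319/210681000 : ℝ) * (r - (5/4 : ℝ)) ^ 6 := by ring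
  have u : 0 ≤ r - (5/4 : ℝ) := by linarith
  rw [e]
  positivity

theorem num_cond4 : Cond 4 (2 / (459 / 100)) (1 / 1000) := by
  intro r hr
  have h := num_pos4 r hr
  have e : (1 + r ^ 2) ^ 4 - (ww 4 (2 / (459 / 100)) (r / 2) ^ 2 + (1 / 1000) * r ^ 2 * (1 + r ^ 2) ^ (4 - 1)) =
      r ^ 2 * ((211847/153000 : ℝ) * r ^ 0 + (-400/153 : ℝ) * r ^ 1 + (82533773/23409000 : ℝ) * r ^ 2 + (-80000/23409 : ℝ) * r ^ 3 + (90697319/70227000 : ℝ) * r ^ 4 + (-70000/70227 : ℝ) * r ^ 5 + (179845319/210681000 : ℝ) * r ^ 6) := by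
    unfold ww
    norm_num
    ring
  have h2 := mul_nonneg (sq_nonneg r) h
  rw [← e] at h2
  linarith

theorem num_pos5 (r : ℝ) (hr : 0 ≤ r) : 0 ≤ (18349233/7670000 : ℝ) * r ^ 0 + (-3000/767 : ℝ) * r ^ 1 + (8851011711/1470722500 : ℝ) * r ^ 2 + (-3287625/588289 : ℝ) * r ^ 3 + (9412685133/2941445000 : ℝ) * r ^ 4 + (-3000000/588289 : ℝ) * r ^ 5 + (4032711711/1470722500 : ℝ) * r ^ 6 + (-328125/588289 : ℝ) * r ^ 7 + (5530739211/5882890000 : ℝ) * r ^ 8 := by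
  rcases le_total r (5/8 : ℝ) with h0 | h0
  · have e : (18349233/7670000 : ℝ) * r ^ 0 + (-3000/767 : ℝ) * r ^ 1 + (8851011711/1470722500 : ℝ) * r ^ 2 + (-3287625/588289 : ℝ) * r ^ 3 + (9412685133/2941445000 : ℝ) * r ^ 4 + (-3000000/588289 : ℝ) * r ^ 5 + (4032711711/1470722500 : ℝ) * r ^ 6 + (-328125/588289 : ℝ) * r ^ 7 + (5530739211/5882890000 : ℝ) * r ^ 8 = (19240565342208/187255859375 : ℝ) * ((r - (0 : ℝ)) ^ 0 * ((5/8 : ℝ) - r) ^ 8) + (10327978672128/14404296875 : ℝ) * ((r - (0 : ℝ)) ^ 1 * ((5/8 : ℝ) - r) ^ 7) + (322153043676561408/143625244140625 : ℝ) * ((r - (0 : ℝ)) ^ 2 * ((5/8 : ℝ) - r) ^ 6) + (588336922502332416/143625244140625 : ℝ) * ((r - (0 : ℝ)) ^ 3 * ((5/8 : ℝ) - r) ^ 5) + (136736940055048704/28725048828125 : ℝ) * ((r - (0 : ℝ)) ^ 4 * ((5/8 : ℝ) - r) ^ 4) + (513541575294806016/143625244140625 : ℝ) * ((r - (0 :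 ℝ)) ^ 5 * ((5/8 : ℝ) - r) ^ 3) + (239973672881905008/143625244140625 : ℝ) * ((r - (0 : ℝ)) ^ 6 * ((5/8 : ℝ) - r) ^ 2) + (62365078261217688/143625244140625 : ℝ) * ((r - (0 : ℝ)) ^ 7 * ((5/8 : ℝ) - r) ^ 1) + (108639180155671851/2298003906250000 : ℝ) * ((r - (0 : ℝ)) ^ 8 * ((5/8 : ℝ) - r) ^ 0) := by ring
    have u : 0 ≤ r - (0 : ℝ) := by linarith
    have v : 0 ≤ (5/8 : ℝ) - r := by linarith
    rw [e]
    positivity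
  rcases le_total r (15/16 : ℝ) with h1 | h1
  · have e : (18349233/7670000 : ℝ) * r ^ 0 + (-3000/767 : ℝ) * r ^ 1 + (8851011711/1470722500 : ℝ) * r ^ 2 + (-3287625/588289 : ℝ) * r ^ 3 + (9412685133/2941445000 : ℝ) * r ^ 4 + (-3000000/588289 : ℝ) * r ^ 5 + (4032711711/1470722500 : ℝ) * r ^ 6 + (-328125/588289 : ℝ) * r ^ 7 + (5530739211/5882890000 : ℝ) * r ^ 8 = (1738226882490749616/143625244140625 : ℝ) * ((r - (5/8 : ℝ)) ^ 0 * ((15/16 : ℝ) - r) ^ 8) + (12875992572453131328/143625244140625 : ℝ) * ((r - (5/8 : ℝ)) ^ 1 * ((15/16 : ℝ) - r) ^ 7) + (41047943478282573648/143625244140625 : ℝ) * ((r - (5/8 : ℝ)) ^ 2 * ((15/16 : ℝ) - r) ^ 6) + (73132392637450592496/143625244140625 : ℝ) * ((r - (5/8 : ℝ)) ^ 3 * ((15/16 : ℝ) - r) ^ 5) + (15811255746322644474/28725048828125 : ℝ) * ((r - (5/8 : ℝ)) ^ 4 * ((15/16 : ℝ) - r) ^ 4) + (52604375298748131996/143625244140625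 : ℝ) * ((r - (5/8 : ℝ)) ^ 5 * ((15/16 : ℝ) - r) ^ 3) + (20821285978160728773/143625244140625 : ℝ) * ((r - (5/8 : ℝ)) ^ 6 * ((15/16 : ℝ) - r) ^ 2) + (4456029819074554953/143625244140625 : ℝ) * ((r - (5/8 : ℝ)) ^ 7 * ((15/16 : ℝ) - r) ^ 1) + (6483044559870478731/2298003906250000 : ℝ) * ((r - (5/8 : ℝ)) ^ 8 * ((15/16 : ℝ) - r) ^ 0) := by ring
    have u : 0 ≤ r - (5/8 : ℝ) := by linarith
    have v : 0 ≤ (15/16 : ℝ) - r := by linarith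
    rw [e]
    positivity
  rcases le_total r (5/4 : ℝ) with h2 | h2
  · have e : (18349233/7670000 : ℝ) * r ^ 0 + (-3000/767 : ℝ) * r ^ 1 + (8851011711/1470722500 : ℝ) * r ^ 2 + (-3287625/588289 : ℝ) * r ^ 3 + (9412685133/2941445000 : ℝ) * r ^ 4 + (-3000000/588289 : ℝ) * r ^ 5 + (4032711711/1470722500 : ℝ) * r ^ 6 + (-328125/588289 : ℝ) * r ^ 7 + (5530739211/5882890000 : ℝ) * r ^ 8 = (6483044559870478731/2298003906250000 : ℝ) * ((r - (15/16 : ℝ)) ^ 0 * ((5/4 : ℝ) - r) ^ 8) + (2027014740795923778/143625244140625 : ℝ) * ((r - (15/16 : ℝ)) ^ 1 * ((5/4 : ℝ) - r) ^ 7) + (3818180430210310548/143625244140625 : ℝ) * ((r - (15/16 : ℝ)) ^ 2 * ((5/4 : ℝ) - r) ^ 6) + (4469799313291401696/143625244140625 : ℝ) * ((r - (15/16 : ℝ)) ^ 3 * ((5/4 : ℝ) - r) ^ 5) + (1682890856766750624/28725048828125 : ℝ) * ((r - (15/16 : ℝ)) ^ 4 * ((5/4 : ℝ)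 - r) ^ 4) + (17272873794989354496/143625244140625 : ℝ) * ((r - (15/16 : ℝ)) ^ 5 * ((5/4 : ℝ) - r) ^ 3) + (20011840358413390848/143625244140625 : ℝ) * ((r - (15/16 : ℝ)) ^ 6 * ((5/4 : ℝ) - r) ^ 2) + (882951222785581056/11048095703125 : ℝ) * ((r - (15/16 : ℝ)) ^ 7 * ((5/4 : ℝ) - r) ^ 1) + (15375878199128064/849853515625 : ℝ) * ((r - (15/16 : ℝ)) ^ 8 * ((5/4 : ℝ) - r) ^ 0) := by ring
    have u : 0 ≤ r - (15/16 : ℝ) := by linarith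
    have v : 0 ≤ (5/4 : ℝ) - r := by linarith
    rw [e]
    positivity
  have e : (18349233/7670000 : ℝ) * r ^ 0 + (-3000/767 : ℝ) * r ^ 1 + (8851011711/1470722500 : ℝ) * r ^ 2 + (-3287625/588289 : ℝ) * r ^ 3 + (9412685133/2941445000 : ℝ) * r ^ 4 + (-3000000/588289 : ℝ) * r ^ 5 + (4032711711/1470722500 : ℝ) * r ^ 6 + (-328125/588289 : ℝ) * r ^ 7 + (5530739211/5882890000 : ℝ) * r ^ 8 = (3753876513459/2281308160000 : ℝ) * (r - (5/4 : ℝ)) ^ 0 + (3496777880487/185356288000 : ℝ) * (r - (5/4 : ℝ)) ^ 1 + (485231825124981/6024079360000 : ℝ) * (r - (5/4 : ℝ)) ^ 2 + (22718111911173/150601984000 : ℝ) * (r - (5/4 : ℝ)) ^ 3 + (119076170666673/753009920000 : ℝ) * (r - (5/4 : ℝ)) ^ 4 + (941183899053/9412624000 : ℝ) * (r - (5/4 : ℝ)) ^ 5 + (917558999301/23531560000 : ℝ) * (r - (5/4 : ℝ)) ^ 6 + (5202614211/588289000 : ℝ) * (r - (5/4 : ℝ))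 ^ 7 + (5530739211/5882890000 : ℝ) * (r - (5/4 : ℝ)) ^ 8 := by ring
  have u : 0 ≤ r - (5/4 : ℝ) := by linarith
  rw [e]
  positivity

theorem num_cond5 : Cond 5 (2 / (767 / 100)) (1 / 10000) := by
  intro r hr
  have h := num_pos5 r hr
  have e : (1 + r ^ 2) ^ 5 - (ww 5 (2 / (767 / 100)) (r / 2) ^ 2 + (1 / 10000) * r ^ 2 * (1 + r ^ 2) ^ (5 - 1)) =
      r ^ 2 * ((18349233/7670000 : ℝ) * r ^ 0 + (-3000/767 : ℝ) * r ^ 1 + (8851011711/1470722500 : ℝ) * r ^ 2 + (-3287625/588289 : ℝ) * r ^ 3 + (9412685133/2941445000 : ℝ) * r ^ 4 + (-3000000/588289 : ℝ) * r ^ 5 + (4032711711/1470722500 : ℝ) * r ^ 6 + (-328125/588289 : ℝ) * r ^ 7 + (5530739211/5882890000 : ℝ) * r ^ 8) := by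
    unfold ww
    norm_num
    ring
  have h2 := mul_nonneg (sq_nonneg r) h
  rw [← e] at h2
  linarith

theorem num_pos6 (r : ℝ) (hr : 0 ≤ r) : 0 ≤ (4259879/1210000 : ℝ) * r ^ 0 + (-600/121 : ℝ) * r ^ 1 + (267165359/29282000 : ℝ) * r ^ 2 + (-117225/14641 : ℝ) * r ^ 3 + (119366609/14641000 : ℝ) * r ^ 4 + (-191250/14641 : ℝ) * r ^ 5 + (77381609/14641000 : ℝ) * r ^ 6 + (-141375/29282 : ℝ) * r ^ 7 + (130021109/29282000 : ℝ) * r ^ 8 + (-34875/117128 : ℝ) * r ^ 9 + (570565811/585640000 : ℝ) * r ^ 10 := by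
  rcases le_total r (5/8 : ℝ) with h0 | h0
  · have e : (4259879/1210000 : ℝ) * r ^ 0 + (-600/121 : ℝ) * r ^ 1 + (267165359/29282000 : ℝ) * r ^ 2 + (-117225/14641 : ℝ) * r ^ 3 + (119366609/14641000 : ℝ) * r ^ 4 + (-191250/14641 : ℝ) * r ^ 5 + (77381609/14641000 : ℝ) * r ^ 6 + (-141375/29282 : ℝ) * r ^ 7 + (130021109/29282000 : ℝ) * r ^ 8 + (-34875/117128 : ℝ) * r ^ 9 + (570565811/585640000 : ℝ) * r ^ 10 = (285875640467456/738525390625 : ℝ) * ((r - (0 : ℝ)) ^ 0 * ((5/8 : ℝ) - r) ^ 10) + (521419632934912/147705078125 : ℝ) * ((r - (0 : ℝ)) ^ 1 * ((5/8 : ℝ) - r) ^ 9) + (263510987384029184/17872314453125 : ℝ) * ((r - (0 : ℝ)) ^ 2 * ((5/8 : ℝ) - r) ^ 8) + (663125609125249024/17872314453125 : ℝ) * ((r - (0 : ℝ)) ^ 3 * ((5/8 : ℝ) - r) ^ 7) + (1112905389571080192/17872314453125 : ℝ) * ((r - (0 : ℝ)) ^ 4 * ((5/8 : ℝ) - r) ^ 6) + (6498910607014756352/89361572265625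 : ℝ) * ((r - (0 : ℝ)) ^ 5 * ((5/8 : ℝ) - r) ^ 5) + (1066319737692283392/17872314453125 : ℝ) * ((r - (0 : ℝ)) ^ 6 * ((5/8 : ℝ) - r) ^ 4) + (602904775550189824/17872314453125 : ℝ) * ((r - (0 : ℝ)) ^ 7 * ((5/8 : ℝ) - r) ^ 3) + (222554922415820884/17872314453125 : ℝ) * ((r - (0 : ℝ)) ^ 8 * ((5/8 : ℝ) - r) ^ 2) + (47752244880129277/17872314453125 : ℝ) * ((r - (0 : ℝ)) ^ 9 * ((5/8 : ℝ) - r) ^ 1) + (1428707605705698139/5719140625000000 : ℝ) * ((r - (0 : ℝ)) ^ 10 * ((5/8 : ℝ) - r) ^ 0) := by ring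
    have u : 0 ≤ r - (0 : ℝ) := by linarith
    have v : 0 ≤ (5/8 : ℝ) - r := by linarith
    rw [e]
    positivity
  rcases le_total r (15/16 : ℝ) with h1 | h1
  · have e : (4259879/1210000 : ℝ) * r ^ 0 + (-600/121 : ℝ) * r ^ 1 + (267165359/29282000 : ℝ) * r ^ 2 + (-117225/14641 : ℝ) * r ^ 3 + (119366609/14641000 : ℝ) * r ^ 4 + (-191250/14641 : ℝ) * r ^ 5 + (77381609/14641000 : ℝ) * r ^ 6 + (-141375/29282 : ℝ) * r ^ 7 + (130021109/29282000 : ℝ) * r ^ 8 + (-34875/117128 : ℝ) * r ^ 9 + (570565811/585640000 : ℝ) * r ^ 10 = (22859321691291170224/89361572265625 : ℝ) * ((r - (5/8 : ℝ)) ^ 0 * ((15/16 : ℝ) - r) ^ 10) + (44128815695247320848/17872314453125 : ℝ) * ((r - (5/8 : ℝ)) ^ 1 * ((15/16 : ℝ) - r) ^ 9) + (189811807775642780716/17872314453125 : ℝ) * ((r - (5/8 : ℝ)) ^ 2 * ((15/16 : ℝ) - r) ^ 8) + (477740867716840870576/17872314453125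 : ℝ) * ((r - (5/8 : ℝ)) ^ 3 * ((15/16 : ℝ) - r) ^ 7) + (776435659365470484558/17872314453125 : ℝ) * ((r - (5/8 : ℝ)) ^ 4 * ((15/16 : ℝ) - r) ^ 6) + (4238345795368113395198/89361572265625 : ℝ) * ((r - (5/8 : ℝ)) ^ 5 * ((15/16 : ℝ) - r) ^ 5) + (1252324787587313432991/35744628906250 : ℝ) * ((r - (5/8 : ℝ)) ^ 6 * ((15/16 : ℝ) - r) ^ 4) + (307029677542294791451/17872314453125 : ℝ) * ((r - (5/8 : ℝ)) ^ 7 * ((15/16 : ℝ) - r) ^ 3) + (1520097353392670029331/285957031250000 : ℝ) * ((r - (5/8 : ℝ)) ^ 8 * ((15/16 : ℝ) - r) ^ 2) + (267342305217184338193/285957031250000 : ℝ) * ((r - (5/8 : ℝ)) ^ 9 * ((15/16 : ℝ) - r) ^ 1) + (412678930014816976211/5719140625000000 : ℝ) * ((r - (5/8 : ℝ)) ^ 10 * ((15/16 : ℝ) - r) ^ 0) := by ring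
    have u : 0 ≤ r - (5/8 : ℝ) := by linarith
    have v : 0 ≤ (15/16 : ℝ) - r := by linarith
    rw [e]
    positivity
  rcases le_total r (5/4 : ℝ) with h2 | h2
  · have e : (4259879/1210000 : ℝ) * r ^ 0 + (-600/121 : ℝ) * r ^ 1 + (267165359/29282000 : ℝ) * r ^ 2 + (-117225/14641 : ℝ) * r ^ 3 + (119366609/14641000 : ℝ) * r ^ 4 + (-191250/14641 : ℝ) * r ^ 5 + (77381609/14641000 : ℝ) * r ^ 6 + (-141375/29282 : ℝ) * r ^ 7 + (130021109/29282000 : ℝ) * r ^ 8 + (-34875/117128 : ℝ) * r ^ 9 + (570565811/585640000 : ℝ) * r ^ 10 = (412678930014816976211/5719140625000000 : ℝ) * ((r - (15/16 : ℝ)) ^ 0 * ((5/4 : ℝ) - r) ^ 10) + (6606210218074210819/12998046875000 : ℝ) * ((r - (15/16 : ℝ)) ^ 1 * ((5/4 : ℝ) - r) ^ 9) + (105511557404176181939/71489257812500 : ℝ) * ((r - (15/16 : ℝ)) ^ 2 * ((5/4 : ℝ) - r) ^ 8) + (45023718940167122776/17872314453125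 : ℝ) * ((r - (15/16 : ℝ)) ^ 3 * ((5/4 : ℝ) - r) ^ 7) + (73180327984055887608/17872314453125 : ℝ) * ((r - (15/16 : ℝ)) ^ 4 * ((5/4 : ℝ) - r) ^ 6) + (764455634502087232448/89361572265625 : ℝ) * ((r - (15/16 : ℝ)) ^ 5 * ((5/4 : ℝ) - r) ^ 5) + (270246867784866907008/17872314453125 : ℝ) * ((r - (15/16 : ℝ)) ^ 6 * ((5/4 : ℝ) - r) ^ 4) + (28074481388938889216/1624755859375 : ℝ) * ((r - (15/16 : ℝ)) ^ 7 * ((5/4 : ℝ) - r) ^ 3) + (19280187306813817856/1624755859375 : ℝ) * ((r - (15/16 : ℝ)) ^ 8 * ((5/4 : ℝ) - r) ^ 2) + (663818116842201088/147705078125 : ℝ) * ((r - (15/16 : ℝ)) ^ 9 * ((5/4 : ℝ) - r) ^ 1) + (535657957344722944/738525390625 : ℝ) * ((r - (15/16 : ℝ)) ^ 10 * ((5/4 : ℝ) - r) ^ 0) := by ring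
    have u : 0 ≤ r - (15/16 : ℝ) := by linarith
    have v : 0 ≤ (5/4 : ℝ) - r := by linarith
    rw [e]
    positivity
  have e : (4259879/1210000 : ℝ) * r ^ 0 + (-600/121 : ℝ) * r ^ 1 + (267165359/29282000 : ℝ) * r ^ 2 + (-117225/14641 : ℝ) * r ^ 3 + (119366609/14641000 : ℝ) * r ^ 4 + (-191250/14641 : ℝ) * r ^ 5 + (77381609/14641000 : ℝ) * r ^ 6 + (-141375/29282 : ℝ) * r ^ 7 + (130021109/29282000 : ℝ) * r ^ 8 + (-34875/117128 : ℝ) * r ^ 9 + (570565811/585640000 : ℝ) * r ^ 10 = (32693967123091/5075107840000 : ℝ) * (r - (5/4 : ℝ)) ^ 0 + (1989735341051/25375539200 : ℝ) * (r - (5/4 : ℝ)) ^ 1 + (257512949865761/697827328000 : ℝ) * (r - (5/4 : ℝ)) ^ 2 + (3678705886771/4361420800 : ℝ) * (r - (5/4 : ℝ)) ^ 3 + (274698637212231/239878144000 : ℝ) * (r - (5/4 : ℝ)) ^ 4 + (6065737656073/5996953600 : ℝ) * (r - (5/4 : ℝ)) ^ 5 + (9114652878591/14992384000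 : ℝ) * (r - (5/4 : ℝ)) ^ 6 + (47070236801/187404800 : ℝ) * (r - (5/4 : ℝ)) ^ 7 + (130421158451/1874048000 : ℝ) * (r - (5/4 : ℝ)) ^ 8 + (556615811/46851200 : ℝ) * (r - (5/4 : ℝ)) ^ 9 + (570565811/585640000 : ℝ) * (r - (5/4 : ℝ)) ^ 10 := by ring
  have u : 0 ≤ r - (5/4 : ℝ) := by linarith
  rw [e]
  positivity

theorem num_cond6 : Cond 6 (2 / (121 / 10)) (1 / 10000) := by
  intro r hr
  have h := num_pos6 r hr
  have e : (1 + r ^ 2) ^ 6 - (ww 6 (2 / (121 / 10)) (r / 2) ^ 2 + (1 / 10000) * r ^ 2 * (1 + r ^ 2) ^ (6 - 1)) =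
      r ^ 2 * ((4259879/1210000 : ℝ) * r ^ 0 + (-600/121 : ℝ) * r ^ 1 + (267165359/29282000 : ℝ) * r ^ 2 + (-117225/14641 : ℝ) * r ^ 3 + (119366609/14641000 : ℝ) * r ^ 4 + (-191250/14641 : ℝ) * r ^ 5 + (77381609/14641000 : ℝ) * r ^ 6 + (-141375/29282 : ℝ) * r ^ 7 + (130021109/29282000 : ℝ) * r ^ 8 + (-34875/117128 : ℝ) * r ^ 9 + (570565811/585640000 : ℝ) * r ^ 10) := by
    unfold ww
    norm_num
    ring
  have h2 := mul_nonneg (sq_nonneg r) h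
  rw [← e] at h2
  linarith

theorem cond3 : Cond 3 (2 / (62 / 25)) (1 / 100) := num_cond3

theorem cond4 : ∃ c > 0, Cond 4 (2 / (459 / 100)) c := ⟨1 / 1000, by norm_num, num_cond4⟩

theorem cond5 : ∃ c > 0, Cond 5 (2 / (767 / 100)) c := ⟨1 / 10000, by norm_num, num_cond5⟩

theorem cond6 : ∃ c > 0, Cond 6 (2 / (121 / 10)) c := ⟨1 / 10000, by norm_num, num_cond6⟩

end Pool.Agent.Lib.MP_d38209_co.CR
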